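import Pool.Agent.Lib.MP_1a91b9_ntQ.R.Defs4

/-!
# MP_1a91b9_nt (quartic twists), part R: the elements `≡ 1` modulo `lam³`, factorisation, the classes
-/

set_option autoImplicit false

namespace Pool.Agent.Lib.MP_1a91b9_ntQ

open NumberField Finset
open Pool.Agent.Lib.MP_1a91b9_nuX.HQ (GI G4 qs w)
open Pool.Agent.Lib.MP_1a91b9_ntH (PS nm pr Sx Zt)

noncomputable section

theorem In4_iff (x : 𝓞 K4) : In4 x ↔ (cp x).2 % 2 = 0 ∧ ((cp x).1 + (cp x).2) % 4 = 1 := by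
  constructor
  · rintro ⟨t, ht⟩
    have h1 : x = ((1 - 2 * (cp t).1 - 2 * (cp t).2 : ℤ) : 𝓞 K4) +
        ((2 * (cp t).1 - 2 * (cp t).2 : ℤ) : 𝓞 K4) * iO := by
      have h2 := eq_cp t
      rw [lam_cube] at ht
      push_cast
      linear_combination ht + (-2 + 2 * iO) * h2 + 2 * ((cp t).2 : 𝓞 K4) * iO_sq
    have h3 : cp x = (1 - 2 * (cp t).1 - 2 * (cp t).2, 2 * (cp t).1 - 2 * (cp t).2) := by
      rw [h1]
      exact cp_coords _ _
    rw [h3]
    dsimp only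
    omega
  · rintro ⟨h1, h2⟩
    obtain ⟨b, hb⟩ : ∃ b, (cp x).2 = 2 * b := ⟨(cp x).2 / 2, by omega⟩
    obtain ⟨k, hk⟩ : ∃ k, (cp x).1 + (cp x).2 = 1 + 4 * k := ⟨((cp x).1 + (cp x).2 - 1) / 4, by omega⟩
    -- `x = 1 + lam³ (m + n i)` with `n = -k`, `m = b + n`
    refine ⟨((b - k : ℤ) : 𝓞 K4) + ((-k : ℤ) : 𝓞 K4) * iO, ?_⟩
    have ha : (cp x).1 = 1 + 4 * k - 2 * b := by omega
    conv_lhs => rw [eq_cp x, ha, hb]
    rw [lam_cube]
    push_cast
    linear_combination (2 * (k : 𝓞 K4)) * iO_sq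

theorem in4_one : In4 1 := by
  unfold In4
  simp

theorem In4.mul {x y : 𝓞 K4} (hx : In4 x) (hy : In4 y) : In4 (x * y) := by
  obtain ⟨a, ha⟩ := hx
  obtain ⟨b, hb⟩ := hy
  exact ⟨a * y + b, by linear_combination y * ha + hb⟩

theorem In4.of_mul {x y : 𝓞 K4} (hx : In4 x) (h : In4 (x * y)) : In4 y := by
  obtain ⟨a, ha⟩ := hx
  obtain ⟨b, hb⟩ := h
  exact ⟨b - a * y, by linear_combination hb - y * ha⟩

theorem in4_congr {x y : 𝓞 K4} (h : lam ^ 3 ∣ x - y) : In4 x ↔ In4 y := by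
  unfold In4
  constructor
  · intro hx
    have := dvd_sub hx h
    rwa [show x - 1 - (x - y) = y - 1 by ring] at this
  · intro hy
    have := dvd_add hy h
    rwa [show y - 1 + (x - y) = x - 1 by ring] at this

/-- The form of the elements `≡ 1` modulo `lam³`. -/
theorem in4_form {x : 𝓞 K4} (hx : In4 x) :
    ∃ m n : ℤ, x = 1 + lam ^ 3 * ((m : 𝓞 K4) + (n : 𝓞 K4) * iO) := by
  obtain ⟨t, ht⟩ := hx
  refine ⟨(cp t).1, (cp t).2, ?_⟩
  have h := eq_cp t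
  linear_combination ht + lam ^ 3 * h

theorem in4_of (m n : ℤ) : In4 (1 + lam ^ 3 * ((m : 𝓞 K4) + (n : 𝓞 K4) * iO)) :=
  ⟨(m : 𝓞 K4) + (n : 𝓞 K4) * iO, by ring⟩

theorem cp_form (m n : ℤ) : cp (1 + lam ^ 3 * ((m : 𝓞 K4) + (n : 𝓞 K4) * iO)) =
    (1 - 2 * m - 2 * n, 2 * m - 2 * n) := by
  have e : 1 + lam ^ 3 * ((m : 𝓞 K4) + (n : 𝓞 K4) * iO) =
      ((1 - 2 * m - 2 * n : ℤ) : 𝓞 K4) + ((2 * m - 2 * n : ℤ) : 𝓞 K4) * iO := by
    rw [lam_cube]
    push_cast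
    linear_combination 2 * (n : 𝓞 K4) * iO_sq
  rw [e]
  exact cp_coords _ _

theorem Nz_form (m n : ℤ) : (Nz (1 + lam ^ 3 * ((m : 𝓞 K4) + (n : 𝓞 K4) * iO)) : ℤ) =
    1 + 4 * (-(m + n) + 2 * (m ^ 2 + n ^ 2)) := by
  rw [Nz_cp, cp_form]
  ring

theorem In4.Nz_mod {x : 𝓞 K4} (hx : In4 x) : Nz x % 4 = 1 := by
  obtain ⟨m, n, rfl⟩ := in4_form hx
  have h := Nz_form m n
  omega

theorem In4.ne_zero {x : 𝓞 K4} (hx : In4 x) : x ≠ 0 := by
  intro h
  have h1 := hx.Nz_mod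
  rw [Nz_eq_zero.2 h] at h1
  omega

theorem prime_of_Nz {x : 𝓞 K4} (h : (Nz x).Prime) : Prime x := by
  have h0 : x ≠ 0 := by
    intro h1
    rw [Nz_eq_zero.2 h1] at h
    exact Nat.not_prime_zero h
  have hirr : Irreducible x := by
    refine ⟨fun hu => ?_, fun a b hab => ?_⟩
    · rw [isUnit_iff_Nz] at hu
      rw [hu] at h
      exact Nat.not_prime_one h
    · rw [hab, Nz_mul] at h
      rcases Nat.prime_mul_iff.1 h with h1 | h1
      · exact Or.inr (isUnit_iff_Nz.2 h1.2)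
      · exact Or.inl (isUnit_iff_Nz.2 h1.2)
  exact hirr.prime

theorem prime_lam : Prime lam := lam_prime

/-- `lam` divides `x` if and only if the sum of the coordinates is even. -/
theorem lam_dvd_iff' (x : 𝓞 K4) : lam ∣ x ↔ ((cp x).1 + (cp x).2) % 2 = 0 := by
  rw [lam_dvd_iff]
  omega

theorem In4.not_lam {x : 𝓞 K4} (hx : In4 x) : ¬ lam ∣ x := by
  intro h
  have h1 := (lam_dvd_iff' x).1 h
  have h2 := (In4_iff x).1 hx
  omega

theorem isUnit_iO : IsUnit iO := iO_unit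

theorem iO_four : iO ^ 4 = 1 := gi.pow_four

/-- Every element prime to `lam` is a power of `i` times an element `≡ 1` modulo `lam³`. -/
theorem exists_pow_in4 {x : 𝓞 K4} (h : ¬ lam ∣ x) : ∃ k : ZMod 4, In4 (iO ^ k.val * x) := by
  rw [lam_dvd_iff'] at h
  have key : ∀ (k : ZMod 4) (a b : ℤ), iO ^ k.val * x = (a : 𝓞 K4) + (b : 𝓞 K4) * iO →
      b % 2 = 0 → (a + b) % 4 = 1 → ∃ k : ZMod 4, In4 (iO ^ k.val * x) := by
    intro k a b e h1 h2
    refine ⟨k, ?_⟩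
    rw [e, In4_iff, cp_coords]
    exact ⟨h1, h2⟩
  have hx := eq_cp x
  have e0 : iO ^ (0 : ZMod 4).val * x = ((cp x).1 : 𝓞 K4) + ((cp x).2 : 𝓞 K4) * iO := by
    rw [ZMod.val_zero, pow_zero, one_mul]
    exact hx
  have e1 : iO ^ (1 : ZMod 4).val * x = ((-(cp x).2 : ℤ) : 𝓞 K4) + ((cp x).1 : 𝓞 K4) * iO := by
    have : (1 : ZMod 4).val = 1 := rfl
    rw [this, pow_one]
    push_cast
    linear_combination iO * hx + ((cp x).2 : 𝓞 K4) * iO_sq
  have e2 : iO ^ (2 : ZMod 4).val * x = ((-(cp x).1 : ℤ) : 𝓞 K4) + ((-(cp x).2 : ℤ) : 𝓞 K4) * iO := by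
    have : (2 : ZMod 4).val = 2 := rfl
    rw [this]
    push_cast
    linear_combination (-1 : 𝓞 K4) * hx + x * iO_sq
  have e3 : iO ^ (3 : ZMod 4).val * x = ((cp x).2 : 𝓞 K4) + ((-(cp x).1 : ℤ) : 𝓞 K4) * iO := by
    have : (3 : ZMod 4).val = 3 := rfl
    rw [this]
    push_cast
    linear_combination (-iO) * hx + (x * iO - ((cp x).2 : 𝓞 K4)) * iO_sq
  rcases Int.emod_two_eq_zero_or_one (cp x).2 with h2 | h2
  · -- `a` odd
    by_cases h3 : ((cp x).1 + (cp x).2) % 4 = 1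
    · exact key 0 _ _ e0 h2 h3
    · exact key 2 _ _ e2 (by omega) (by omega)
  · by_cases h3 : (-(cp x).2 + (cp x).1) % 4 = 1
    · exact key 1 _ _ e1 (by omega) h3
    · exact key 3 _ _ e3 (by omega) (by omega)

/-- The only power of `i` which is `1` modulo `lam³` is `1`. -/
theorem pow_in4 {k : ZMod 4} (h : In4 (iO ^ k.val)) : k = 0 := by
  have h1 : ∀ k : ZMod 4, k = 0 ∨ k = 1 ∨ k = 2 ∨ k = 3 := by decide
  rw [In4_iff] at h
  have c1 : cp iO = (0, 1) := by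
    have := cp_coords 0 1
    simpa using this
  rcases h1 k with h2 | h2 | h2 | h2
  · exact h2
  · exfalso
    have h3 : iO ^ k.val = iO := by
      rw [h2]
      exact pow_one _
    rw [h3, c1] at h
    omega
  · exfalso
    have h3 : iO ^ k.val = ((-1 : ℤ) : 𝓞 K4) + ((0 : ℤ) : 𝓞 K4) * iO := by
      rw [h2]
      have : (2 : ZMod 4).val = 2 := rfl
      rw [this, iO_sq]
      simp
    rw [h3, cp_coords] at h
    omega
  · exfalso
    have h3 : iO ^ k.val = ((0 : ℤ) : 𝓞 K4) + ((-1 : ℤ) : 𝓞 K4) * iO := by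
      rw [h2]
      have : (3 : ZMod 4).val = 3 := rfl
      rw [this]
      push_cast
      linear_combination iO * iO_sq
    rw [h3, cp_coords] at h
    omega

theorem exists_pow_unit {u : 𝓞 K4} (hu : IsUnit u) : ∃ k : ZMod 4, u = iO ^ k.val := gi.unit hu

theorem unit_in4 {u : 𝓞 K4} (hu : IsUnit u) (h : In4 u) : u = 1 := by
  obtain ⟨k, rfl⟩ := exists_pow_unit hu
  rw [pow_in4 h, ZMod.val_zero, pow_zero]

theorem pow_val_mul (j k : ZMod 4) : iO ^ j.val * iO ^ k.val = iO ^ (j + k).val := by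
  rw [← pow_add, ZMod.val_add]
  have h := Nat.div_add_mod (j.val + k.val) 4
  conv_lhs => rw [← h, pow_add, pow_mul, iO_four, one_pow, one_mul]

theorem in4_unique {x y : 𝓞 K4} {j k : ZMod 4} (hx : In4 x) (hy : In4 y)
    (h : iO ^ j.val * x = iO ^ k.val * y) : j = k ∧ x = y := by
  have h1 : x = iO ^ (k - j).val * y := by
    have h2 : iO ^ (-j).val * (iO ^ j.val * x) = x := by
      rw [← mul_assoc, pow_val_mul, neg_add_cancel, ZMod.val_zero, pow_zero, one_mul]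
    rw [← h2, h, ← mul_assoc, pow_val_mul]
    congr 3
    ring
  have h3 : In4 (iO ^ (k - j).val) := by
    rw [mul_comm] at h1
    exact In4.of_mul hy (h1 ▸ hx)
  have h4 := pow_in4 h3
  refine ⟨(sub_eq_zero.1 h4).symm, ?_⟩
  rw [h1, h4, ZMod.val_zero, pow_zero, one_mul]

theorem eq_of_associated4 {x y : 𝓞 K4} (hx : In4 x) (hy : In4 y) (h : Associated x y) : x = y := by
  obtain ⟨u, hu⟩ := h
  have h1 : In4 (u : 𝓞 K4) := In4.of_mul hx (hu ▸ hy)
  rw [unit_in4 u.isUnit h1, mul_one] at hu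
  exact hu

theorem Pg.prime (q : Pg) : Prime q.1 := q.2.1

theorem Pg.in4 (q : Pg) : In4 q.1 := q.2.2

theorem Pg.ne_zero (q : Pg) : q.1 ≠ 0 := q.2.1.ne_zero

theorem Pg.not_dvd {p q : Pg} (h : p ≠ q) : ¬ p.1 ∣ q.1 := fun hd =>
  h (Subtype.ext (eq_of_associated4 p.in4 q.in4 (p.prime.associated_of_dvd q.prime hd)))

theorem Pg.not_mem {p : Pg} {x : 𝓞 K4} : x ∉ Ideal.span {p.1} ↔ ¬ p.1 ∣ x := by
  rw [Ideal.mem_span_singleton]

theorem Pg.g4 (q : Pg) : G4 (Ideal.span {q.1}) where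
  pr := (Ideal.span_singleton_prime q.ne_zero).2 q.prime
  ne h := q.ne_zero (Ideal.span_singleton_eq_bot.1 h)
  two h := by
    have h1 : q.1 ∣ (2 : 𝓞 K4) := Ideal.mem_span_singleton.1 h
    have h2 : (2 : 𝓞 K4) ∣ lam ^ 2 := ⟨iO, by rw [lam_sq]⟩
    have h3 : q.1 ∣ lam := q.prime.dvd_of_dvd_pow (h1.trans h2)
    have h4 : lam ∣ q.1 := (q.prime.associated_of_dvd prime_lam h3).symm.dvd
    exact q.in4.not_lam h4

theorem exists_prime_dvd4 {x : 𝓞 K4} (hx : In4 x) (h1 : x ≠ 1) : ∃ q : Pg, q.1 ∣ x := by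
  have h2 : ¬ IsUnit x := fun h => h1 (unit_in4 h hx)
  obtain ⟨p, hp, hpx⟩ := WfDvdMonoid.exists_irreducible_factor h2 hx.ne_zero
  have h4 : ¬ lam ∣ p := fun h => hx.not_lam (h.trans hpx)
  obtain ⟨k, hup⟩ := exists_pow_in4 h4
  have hu : IsUnit (iO ^ k.val) := isUnit_iO.pow _
  have h5 : Prime (iO ^ k.val * p) := by
    have h6 : Associated p (iO ^ k.val * p) := by
      obtain ⟨v, hv⟩ := hu
      exact ⟨v, by rw [hv, mul_comm]⟩
    exact h6.prime hp.prime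
  exact ⟨⟨iO ^ k.val * p, h5, hup⟩, (hu.mul_left_dvd).2 hpx⟩

/-- The class modulo `lam³` of a prime not above `2`. -/
theorem exists_Pg {p : 𝓞 K4} (hp : Prime p) (h : ¬ lam ∣ p) : ∃ (k : ZMod 4) (q : Pg),
    q.1 = iO ^ k.val * p := by
  obtain ⟨k, hk⟩ := exists_pow_in4 h
  have hu : IsUnit (iO ^ k.val) := isUnit_iO.pow _
  have h6 : Associated p (iO ^ k.val * p) := by
    obtain ⟨v, hv⟩ := hu
    exact ⟨v, by rw [hv, mul_comm]⟩
  exact ⟨k, ⟨_, h6.prime hp, hk⟩, rfl⟩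

theorem DDq_empty : DDq ∅ = 1 := rfl

theorem DDq_insert {q : Pg} {S : Finset Pg} (h : q ∉ S) : DDq (insert q S) = q.1 * DDq S :=
  prod_insert h

theorem DDq_union {S T : Finset Pg} (h : Disjoint S T) : DDq (S ∪ T) = DDq S * DDq T :=
  prod_union h

theorem DDq_in4 (S : Finset Pg) : In4 (DDq S) := by
  induction S using Finset.induction_on with
  | empty => exact in4_one
  | insert q S hq ih =>
    rw [DDq_insert hq]
    exact q.in4.mul ih

theorem Nz_DDq (S : Finset Pg) : Nz (DDq S) = nm S := by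
  induction S using Finset.induction_on with
  | empty => exact Nz_one
  | insert q S hq ih =>
    rw [DDq_insert hq, Nz_mul, ih, nm, nm, prod_insert hq]
    rfl

theorem dvd_DDq {q : Pg} {S : Finset Pg} : q.1 ∣ DDq S ↔ q ∈ S := by
  constructor
  · intro h
    obtain ⟨p, hp, hqp⟩ := (q.prime.dvd_finsetProd_iff _).1 h
    by_contra hq
    exact Pg.not_dvd (fun e : q = p => hq (by rw [e]; exact hp)) hqp
  · intro h
    exact dvd_prod_of_mem (fun q : Pg => q.1) h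

theorem DDq_inj : Function.Injective DDq := by
  intro S T h
  ext q
  rw [← dvd_DDq, ← dvd_DDq, h]

theorem DDq_squarefree (S : Finset Pg) : Squarefree (DDq S) := by
  rw [squarefree_iff_no_irreducibles (DDq_in4 S).ne_zero]
  intro p hp hpp
  have hp' : Prime p := hp.prime
  have h1 : p ∣ DDq S := (dvd_mul_right _ _).trans hpp
  obtain ⟨q, hq, hpq⟩ := (hp'.dvd_finsetProd_iff _).1 h1
  have h2 : Associated p q.1 := hp'.associated_of_dvd q.prime hpq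
  have h3 : q.1 * q.1 ∣ DDq S := (h2.symm.mul_mul h2.symm).dvd.trans hpp
  rw [← insert_erase hq, DDq_insert (notMem_erase q S)] at h3
  have h4 : q.1 ∣ DDq (S.erase q) := (mul_dvd_mul_iff_left q.prime.ne_zero).1 h3
  exact notMem_erase q S (dvd_DDq.1 h4)

theorem exists_DDq {x : 𝓞 K4} (hx : In4 x) (hs : Squarefree x) : ∃ S : Finset Pg, DDq S = x := by
  obtain ⟨n, hn⟩ : ∃ n, Nz x = n := ⟨_, rfl⟩
  induction n using Nat.strong_induction_on generalizing x with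
  | _ n ih =>
    by_cases h1 : x = 1
    · exact ⟨∅, by rw [DDq_empty, h1]⟩
    · obtain ⟨q, y, hy⟩ := exists_prime_dvd4 hx h1
      have h2 : In4 y := In4.of_mul q.in4 (hy ▸ hx)
      have h3 : Squarefree y := hs.squarefree_of_dvd ⟨q.1, by rw [hy, mul_comm]⟩
      have h4 : Nz y < n := by
        rw [← hn, hy, Nz_mul]
        have h5 := Nz_two_le q.prime
        have h6 : Nz y ≠ 0 := fun h => h2.ne_zero (Nz_eq_zero.1 h)
        nlinarith [Nat.pos_of_ne_zero h6]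
      obtain ⟨S, hS⟩ := ih _ h4 h2 h3 rfl
      have h5 : q ∉ S := by
        intro hq
        have h6 : q.1 ∣ y := hS ▸ dvd_DDq.2 hq
        have h7 : q.1 * q.1 ∣ x := by
          rw [hy]
          exact mul_dvd_mul_left _ h6
        exact q.prime.not_isUnit (hs _ h7)
      exact ⟨insert q S, by rw [DDq_insert h5, hS, hy]⟩

/-- Every squarefree element of `ℤ[i]` is `i^k lam^j DDq S`, `j = 0, 1`. -/
theorem exists_sqf {x : 𝓞 K4} (hs : Squarefree x) :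
    ∃ (k : ZMod 4) (j : Fin 2) (S : Finset Pg), x = iO ^ k.val * lam ^ j.val * DDq S := by
  have key : ∀ y : 𝓞 K4, Squarefree y → ¬ lam ∣ y →
      ∃ (k : ZMod 4) (S : Finset Pg), y = iO ^ k.val * DDq S := by
    intro y hy h
    obtain ⟨k, hk⟩ := exists_pow_in4 h
    have hu : IsUnit (iO ^ k.val) := isUnit_iO.pow _
    have hs2 : Squarefree (iO ^ k.val * y) := by
      have h6 : Associated y (iO ^ k.val * y) := by
        obtain ⟨v, hv⟩ := hu
        exact ⟨v, by rw [hv, mul_comm]⟩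
      exact hy.squarefree_of_dvd h6.symm.dvd
    obtain ⟨S, hS⟩ := exists_DDq hk hs2
    refine ⟨-k, S, ?_⟩
    rw [hS, ← mul_assoc, pow_val_mul, neg_add_cancel, ZMod.val_zero, pow_zero, one_mul]
  by_cases h : lam ∣ x
  · obtain ⟨y, hy⟩ := h
    have h1 : ¬ lam ∣ y := by
      intro h2
      apply prime_lam.not_isUnit
      apply hs
      rw [hy]
      exact mul_dvd_mul_left _ h2
    obtain ⟨k, S, hk⟩ := key y (hs.squarefree_of_dvd ⟨lam, by rw [hy, mul_comm]⟩) h1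
    refine ⟨k, 1, S, ?_⟩
    rw [hy, hk]
    show lam * (iO ^ k.val * DDq S) = iO ^ k.val * lam ^ 1 * DDq S
    ring
  · obtain ⟨k, S, hk⟩ := key x hs h
    refine ⟨k, 0, S, ?_⟩
    rw [hk]
    show iO ^ k.val * DDq S = iO ^ k.val * lam ^ 0 * DDq S
    ring

theorem sqf_inj {j k : ZMod 4} {a b : Fin 2} {S T : Finset Pg}
    (h : iO ^ j.val * lam ^ a.val * DDq S = iO ^ k.val * lam ^ b.val * DDq T) :
    j = k ∧ a = b ∧ S = T := by
  have hodd : ∀ (k : ZMod 4) (S : Finset Pg), ¬ lam ∣ iO ^ k.val * DDq S := by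
    intro k S h1
    rcases prime_lam.dvd_or_dvd h1 with h2 | h2
    · exact prime_lam.not_isUnit (isUnit_of_dvd_unit h2 (isUnit_iO.pow _))
    · exact (DDq_in4 S).not_lam h2
  have hab : a = b := by
    have h01 : ∀ a : Fin 2, a = 0 ∨ a = 1 := by decide
    rcases h01 a with rfl | rfl <;> rcases h01 b with rfl | rfl
    · rfl
    · exfalso
      apply hodd j S
      refine ⟨iO ^ k.val * DDq T, ?_⟩
      have e0 : ((0 : Fin 2)).val = 0 := rfl
      have e1 : ((1 : Fin 2)).val = 1 := rfl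
      rw [e0, e1] at h
      linear_combination h
    · exfalso
      apply hodd k T
      refine ⟨iO ^ j.val * DDq S, ?_⟩
      have e0 : ((0 : Fin 2)).val = 0 := rfl
      have e1 : ((1 : Fin 2)).val = 1 := rfl
      rw [e0, e1] at h
      linear_combination -h
    · rfl
  subst hab
  have h1 : lam ^ a.val * (iO ^ j.val * DDq S) = lam ^ a.val * (iO ^ k.val * DDq T) := by
    linear_combination h
  have h2 := mul_left_cancel₀ (pow_ne_zero _ lam_ne_zero) h1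
  obtain ⟨h3, h4⟩ := in4_unique (DDq_in4 S) (DDq_in4 T) h2
  exact ⟨h3, rfl, DDq_inj h4⟩

/-! ### The classes -/

theorem nn_form (m n : ℤ) : nn (1 + lam ^ 3 * ((m : 𝓞 K4) + (n : 𝓞 K4) * iO)) =
    (m : ZMod 4) + (n : ZMod 4) := by
  have h := Nz_form m n
  have h2 : (((Nz (1 + lam ^ 3 * ((m : 𝓞 K4) + (n : 𝓞 K4) * iO)) - 1) / 4 : ℕ) : ℤ) =
      -(m + n) + 2 * (m ^ 2 + n ^ 2) := by omega
  have h3 := congrArg (Int.cast : ℤ → ZMod 4) h2
  rw [Int.cast_natCast] at h3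
  unfold nn
  rw [h3]
  push_cast
  have key : ∀ x y : ZMod 4, -(x + y) + 2 * (x ^ 2 + y ^ 2) = x + y := by decide
  exact key _ _

theorem nn_eq_Nz {x : 𝓞 K4} (hx : In4 x) : ∃ k : ℕ, Nz x = 1 + 4 * k ∧ nn x = (k : ZMod 4) := by
  have h := hx.Nz_mod
  refine ⟨(Nz x - 1) / 4, by omega, rfl⟩

theorem nn_one : nn 1 = 0 := by
  unfold nn
  rw [Nz_one]
  rfl

theorem nn_mul {x y : 𝓞 K4} (hx : In4 x) (hy : In4 y) : nn (x * y) = nn x + nn y := by
  obtain ⟨j, h1, h2⟩ := nn_eq_Nz hx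
  obtain ⟨k, h3, h4⟩ := nn_eq_Nz hy
  rw [h2, h4]
  unfold nn
  rw [Nz_mul, h1, h3]
  have h5 : ((1 + 4 * j) * (1 + 4 * k) - 1) / 4 = j + k + 4 * (j * k) := by
    have : (1 + 4 * j) * (1 + 4 * k) - 1 = 4 * (j + k + 4 * (j * k)) := by
      have : (1 + 4 * j) * (1 + 4 * k) = 1 + 4 * (j + k + 4 * (j * k)) := by ring
      omega
    omega
  rw [h5]
  push_cast
  have h6 : (4 : ZMod 4) = 0 := rfl
  rw [h6]
  ring

theorem nn_DDq (S : Finset Pg) : nn (DDq S) = ∑ q ∈ S, nn q.1 := by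
  induction S using Finset.induction_on with
  | empty => rw [DDq_empty, nn_one, sum_empty]
  | insert q S hq ih => rw [DDq_insert hq, nn_mul q.in4 (DDq_in4 S), ih, sum_insert hq]

theorem md_intCast (n : ℤ) : md (n : ZMod 4) = (n : ZMod 2) := map_intCast md n

theorem md_natCast (n : ℕ) : md (n : ZMod 4) = (n : ZMod 2) := map_natCast md n

theorem aa_form (m n : ℤ) : aa (1 + lam ^ 3 * ((m : 𝓞 K4) + (n : 𝓞 K4) * iO)) =
    (m : ZMod 2) + (n : ZMod 2) := by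
  unfold aa
  rw [nn_form, map_add, md_intCast, md_intCast]

theorem bb_form (m n : ℤ) : bb (1 + lam ^ 3 * ((m : 𝓞 K4) + (n : 𝓞 K4) * iO)) = (n : ZMod 2) := by
  unfold bb
  rw [cp_form]
  dsimp only
  have h1 : (1 - 2 * m - 2 * n + (2 * m - 2 * n) - 1) / 4 = -n := by omega
  rw [h1]
  push_cast
  have key : ∀ x : ZMod 2, -x = x := by decide
  exact key _

theorem aa_one : aa 1 = 0 := by
  unfold aa
  rw [nn_one, map_zero]

theorem aa_mul {x y : 𝓞 K4} (hx : In4 x) (hy : In4 y) : aa (x * y) = aa x + aa y := by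
  unfold aa
  rw [nn_mul hx hy, map_add]

theorem mul_form (a b c d : ℤ) : (1 + lam ^ 3 * ((a : 𝓞 K4) + (b : 𝓞 K4) * iO)) *
    (1 + lam ^ 3 * ((c : 𝓞 K4) + (d : 𝓞 K4) * iO)) = 1 + lam ^ 3 *
      (((a + c + 2 * (-(a * c - b * d) - (a * d + b * c)) : ℤ) : 𝓞 K4) +
        ((b + d + 2 * ((a * c - b * d) - (a * d + b * c)) : ℤ) : 𝓞 K4) * iO) := by
  rw [lam_cube]
  push_cast
  linear_combination (-2 + 2 * iO) * ((-2 + 2 * iO) * ((b : 𝓞 K4) * d) +
    2 * ((a : 𝓞 K4) * d + b * c)) * iO_sq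

theorem bb_one : bb 1 = 0 := by
  have h := bb_form 0 0
  simpa using h

theorem bb_mul {x y : 𝓞 K4} (hx : In4 x) (hy : In4 y) : bb (x * y) = bb x + bb y := by
  obtain ⟨a, b, rfl⟩ := in4_form hx
  obtain ⟨c, d, rfl⟩ := in4_form hy
  rw [mul_form, bb_form, bb_form, bb_form]
  push_cast
  have h2 : (2 : ZMod 2) = 0 := rfl
  rw [h2]
  ring

theorem aa_DDq (S : Finset Pg) : aa (DDq S) = ∑ q ∈ S, aa q.1 := by
  induction S using Finset.induction_on with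
  | empty => rw [DDq_empty, aa_one, sum_empty]
  | insert q S hq ih => rw [DDq_insert hq, aa_mul q.in4 (DDq_in4 S), ih, sum_insert hq]

theorem bb_DDq (S : Finset Pg) : bb (DDq S) = ∑ q ∈ S, bb q.1 := by
  induction S using Finset.induction_on with
  | empty => rw [DDq_empty, bb_one, sum_empty]
  | insert q S hq ih => rw [DDq_insert hq, bb_mul q.in4 (DDq_in4 S), ih, sum_insert hq]

/-- The two forms of congruent elements. -/
theorem form_congr {x y : 𝓞 K4} {e : ℕ} (hx : In4 x) (h : (e : 𝓞 K4) * lam ^ 3 ∣ x - y) :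
    ∃ m n k l : ℤ, x = 1 + lam ^ 3 * ((m : 𝓞 K4) + (n : 𝓞 K4) * iO) ∧
      y = 1 + lam ^ 3 * (((m + e * k : ℤ) : 𝓞 K4) + ((n + e * l : ℤ) : 𝓞 K4) * iO) := by
  obtain ⟨m, n, hmn⟩ := in4_form hx
  obtain ⟨t, ht⟩ := h
  refine ⟨m, n, -(cp t).1, -(cp t).2, hmn, ?_⟩
  have h2 := eq_cp t
  push_cast
  linear_combination -ht + hmn - (e : 𝓞 K4) * lam ^ 3 * h2

/-- `nn` only depends on the class modulo `4 lam³`. -/
theorem nn_congr {x y : 𝓞 K4} (hx : In4 x) (h : 4 * lam ^ 3 ∣ x - y) : nn x = nn y := by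
  obtain ⟨m, n, k, l, rfl, rfl⟩ := form_congr (e := 4) hx (by exact_mod_cast h)
  rw [nn_form, nn_form]
  push_cast
  have h2 : (4 : ZMod 4) = 0 := rfl
  rw [h2]
  ring

/-- `nn` only depends on the class modulo `lam⁶`. -/
theorem nn_congr6 {x y : 𝓞 K4} (hx : In4 x) (h : lam ^ 6 ∣ x - y) : nn x = nn y := by
  obtain ⟨m, n, rfl⟩ := in4_form hx
  obtain ⟨t, ht⟩ := h
  have h2 := eq_cp t
  have h1 : y = 1 + lam ^ 3 * (((m + 2 * (cp t).1 + 2 * (cp t).2 : ℤ) : 𝓞 K4) +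
      ((n - 2 * (cp t).1 + 2 * (cp t).2 : ℤ) : 𝓞 K4) * iO) := by
    have h3 : lam ^ 6 = lam ^ 3 * (-2 + 2 * iO) := by
      rw [← lam_cube]
      ring
    push_cast
    linear_combination -ht - lam ^ 6 * h2 - (((cp t).1 : 𝓞 K4) + (cp t).2 * iO) * h3 -
      2 * lam ^ 3 * ((cp t).2 : 𝓞 K4) * iO_sq
  rw [h1, nn_form, nn_form]
  push_cast
  have key : ∀ x y s t : ZMod 4, x + y = x + 2 * s + 2 * t + (y - 2 * s + 2 * t) := by decide
  exact key _ _ _ _

/-- `aa` only depends on the class modulo `4`. -/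
theorem aa_congr {x y : 𝓞 K4} (hx : In4 x) (h : lam ^ 4 ∣ x - y) : aa x = aa y := by
  obtain ⟨m, n, rfl⟩ := in4_form hx
  obtain ⟨t, ht⟩ := h
  have h2 := eq_cp t
  have h1 : y = 1 + lam ^ 3 * (((m - (cp t).1 + (cp t).2 : ℤ) : 𝓞 K4) +
      ((n - (cp t).1 - (cp t).2 : ℤ) : 𝓞 K4) * iO) := by
    have h3 : lam ^ 4 = lam ^ 3 * (1 + iO) := by
      unfold lam
      ring
    push_cast
    linear_combination -ht - lam ^ 4 * h2 - (((cp t).1 : 𝓞 K4) + (cp t).2 * iO) * h3 -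
      lam ^ 3 * ((cp t).2 : 𝓞 K4) * iO_sq
  rw [h1, aa_form, aa_form]
  push_cast
  have key : ∀ x y s t : ZMod 2, x + y = x - s + t + (y - s - t) := by decide
  exact key _ _ _ _

/-- `bb` only depends on the class modulo `2 lam³`. -/
theorem bb_congr {x y : 𝓞 K4} (hx : In4 x) (h : 2 * lam ^ 3 ∣ x - y) : bb x = bb y := by
  obtain ⟨m, n, k, l, rfl, rfl⟩ := form_congr (e := 2) hx (by exact_mod_cast h)
  rw [bb_form, bb_form]
  push_cast
  have h2 : (2 : ZMod 2) = 0 := rfl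
  rw [h2]
  ring

/-- The system of the primes `≡ 1` modulo `lam³`. -/
def prm4 : PrmG (𝓞 K4) Pg where
  e q := q.1
  P := In4
  prime := Pg.prime
  N_eq q := (nG_eq q.1).symm
  ndvd _ _ h := Pg.not_dvd h
  memP := Pg.in4
  one := in4_one
  mul_iff q _ := ⟨fun h => In4.of_mul q.in4 h, fun h => q.in4.mul h⟩
  ex _ hx h1 := exists_prime_dvd4 hx h1

theorem zt4 : ∃ C, Zt Pg C := prm4.zt

/-! ### The quartic symbol -/

theorem c4_mul (q : Pg) {x y : 𝓞 K4} (hx : ¬ q.1 ∣ x) (hy : ¬ q.1 ∣ y) :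
    c4 q (x * y) = c4 q x + c4 q y :=
  Pool.Agent.Lib.MP_1a91b9_nuX.HQ.qs_mul gi q.g4 (Pg.not_mem.2 hx) (Pg.not_mem.2 hy)

theorem c4_congr (q : Pg) {x y : 𝓞 K4} (hx : ¬ q.1 ∣ x) (h : q.1 ∣ x - y) : c4 q x = c4 q y :=
  Pool.Agent.Lib.MP_1a91b9_nuX.HQ.qs_congr gi q.g4 (Pg.not_mem.2 hx)
    (Ideal.mem_span_singleton.2 h)

theorem c4_one (q : Pg) : c4 q 1 = 0 := Pool.Agent.Lib.MP_1a91b9_nuX.HQ.qs_one gi q.g4

/-- The symbol of `i`. -/
theorem c4_i (q : Pg) : c4 q iO = nn q.1 := by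
  have h := Pool.Agent.Lib.MP_1a91b9_nuX.HQ.qs_i gi q.g4
  rw [absNorm_span] at h
  exact h

theorem c4_pow (q : Pg) {x : 𝓞 K4} (hx : ¬ q.1 ∣ x) (n : ℕ) : c4 q (x ^ n) = n * c4 q x :=
  Pool.Agent.Lib.MP_1a91b9_nuX.HQ.qs_pow gi q.g4 (Pg.not_mem.2 hx) n

theorem c4_DDq (q : Pg) {S : Finset Pg} (h : q ∉ S) : c4 q (DDq S) = ∑ p ∈ S, c4 q p.1 := by
  induction S using Finset.induction_on with
  | empty => rw [DDq_empty, c4_one, sum_empty]
  | insert p S hp ih =>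
    rw [mem_insert, not_or] at h
    rw [DDq_insert hp, c4_mul q (Pg.not_dvd h.1) (fun hd => h.2 (dvd_DDq.1 hd)), ih h.2,
      sum_insert hp]

end

end Pool.Agent.Lib.MP_1a91b9_ntQ
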