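import Pool.Agent.Lib.MP_1a91b9_ntQ.R.Sym4
import Pool.Agent.Lib.MP_1a91b9_nuX.HQ.Fin

/-!
# MP_1a91b9_nt (quartic twists), part R: the quartic symbol of `lam = 1 + i`

`qs_lam4`: for a prime `a + b i`, `a` odd, `b` even, `a + b ≡ 1` modulo `4`, the quartic symbol of
`1 + i` is `i ^ c`, `4 c = a - b - b² - 1`.

Proof: `1 + i ≡ (a + b) / a` modulo `a + b i`; rational quartic reciprocity (`rec_int`) gives the
symbols of `a` and `a + b` from the symbols of `b i` modulo `a` and of `b i (1 + i)` modulo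
`a + b`.
-/

set_option autoImplicit false

namespace Pool.Agent.Lib.MP_1a91b9_ntQ.Sp

open NumberField Pool.Agent.Lib.MP_1a91b9_nuX.HQ
open Pool.Agent.Lib.MP_1a91b9_ntQ.Sy (IsGau nm prime_cases isCoprime_of_nm)

variable {K : Type} [Field K] [NumberField K] {i : 𝓞 K}

theorem gau_of (h : GI i) : IsGau (𝓞 K) i where
  sq := h.sq
  span := h.gen
  inj x y e := by
    have h1 : (x : 𝓞 K) + (y : 𝓞 K) * i = ((0 : ℤ) : 𝓞 K) + ((0 : ℤ) : 𝓞 K) * i := by
      rw [e]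
      simp
    exact h.inj h1

theorem sy_congr (h : GI i) {I : Ideal (𝓞 K)} (h2 : IsCoprime I (Ideal.span {(2 : 𝓞 K)}))
    {x y : 𝓞 K} (hx : IsCoprime I (Ideal.span {x})) (hxy : x - y ∈ I) : sy i I x = sy i I y := by
  rw [sy, sy]
  refine congrArg Multiset.sum (Multiset.map_congr rfl fun P hP => ?_)
  obtain ⟨h3, h4, h5, h6⟩ := fac_mem hP hx
  exact qs_congr h (fac_g4 hP h2) h6 (h5 hxy)

/-- The conjugate ideal. -/
theorem G4_cj (h : GI i) {ρ : 𝓞 K} (hP : G4 (Ideal.span {ρ})) : G4 (Ideal.span {h.cj ρ}) := by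
  have key : ∀ x : 𝓞 K, x ∈ Ideal.span {h.cj ρ} ↔ h.cj x ∈ Ideal.span {ρ} := by
    intro x
    rw [Ideal.mem_span_singleton, Ideal.mem_span_singleton]
    constructor
    · rintro ⟨y, rfl⟩
      rw [map_mul, h.cj_cj]
      exact dvd_mul_right _ _
    · rintro ⟨y, hy⟩
      have h1 := congrArg h.cj hy
      rw [h.cj_cj, map_mul] at h1
      rw [h1]
      exact dvd_mul_right _ _
  refine ⟨?_, ?_, ?_⟩
  · rw [Ideal.isPrime_iff]
    constructor
    · intro h0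
      apply hP.pr.ne_top
      rw [Ideal.eq_top_iff_one] at h0 ⊢
      rw [key, map_one] at h0
      exact h0
    · intro x y hxy
      rw [key, map_mul] at hxy
      rcases hP.pr.mem_or_mem hxy with h1 | h1
      · left; rw [key]; exact h1
      · right; rw [key]; exact h1
  · intro h0
    apply hP.ne
    rw [Ideal.span_singleton_eq_bot] at h0 ⊢
    have h1 := congrArg h.cj h0
    rwa [h.cj_cj, map_zero] at h1
  · rw [key, map_ofNat]
    exact hP.two

theorem mem_cj (h : GI i) {ρ : 𝓞 K} {x : 𝓞 K} :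
    x ∈ Ideal.span {h.cj ρ} ↔ h.cj x ∈ Ideal.span {ρ} := by
  rw [Ideal.mem_span_singleton, Ideal.mem_span_singleton]
  constructor
  · rintro ⟨y, rfl⟩
    rw [map_mul, h.cj_cj]
    exact dvd_mul_right _ _
  · rintro ⟨y, hy⟩
    have h1 := congrArg h.cj hy
    rw [h.cj_cj, map_mul] at h1
    rw [h1]
    exact dvd_mul_right _ _

/-- The symbol modulo the conjugate prime. -/
theorem qs_cj (h : GI i) {ρ : 𝓞 K} (hP : G4 (Ideal.span {ρ})) {x : 𝓞 K}
    (hx : h.cj x ∉ Ideal.span {ρ}) :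
    qs i (Ideal.span {h.cj ρ}) x = -qs i (Ideal.span {ρ}) (h.cj x) := by
  have hx' : x ∉ Ideal.span {h.cj ρ} := fun h0 => hx ((mem_cj h).1 h0)
  refine qs_eq h (G4_cj h hP) hx' _ ?_
  have h1 := qs_spec h hP hx
  rw [mem_cj h, map_sub, map_pow, h.cj_w, neg_neg, h.absNorm_cj]
  exact h1

/-- The symbol modulo a prime number which splits. -/
theorem sy_split (h : GI i) {q : ℕ} {ρ : 𝓞 K} (hP : G4 (Ideal.span {ρ}))
    (hN : Ideal.absNorm (Ideal.span {ρ}) = q) {x : 𝓞 K} (hx : h.cj x ∉ Ideal.span {ρ}) :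
    sy i (Ideal.span {(q : 𝓞 K)}) x = qs i (Ideal.span {ρ}) x - qs i (Ideal.span {ρ}) (h.cj x) := by
  have h1 : Ideal.span {(q : 𝓞 K)} = Ideal.span {ρ} * Ideal.span {h.cj ρ} := by
    rw [Ideal.span_singleton_mul_span_singleton, h.mul_cj, hN]
  have h2 := G4_cj h hP
  rw [h1, sy_mul hP.ne h2.ne, sy_prime hP.pr hP.ne, sy_prime h2.pr h2.ne, qs_cj h hP hx]
  ring

/-- The associate of `n` which is `1` modulo `4`. -/
def st (n : ℕ) : ℤ := if n % 4 = 1 then n else -n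

theorem st_mul {m n : ℕ} (hm : m % 2 = 1) (hn : n % 2 = 1) : st (m * n) = st m * st n := by
  unfold st
  have hm4 : m % 4 = 1 ∨ m % 4 = 3 := by omega
  have hn4 : n % 4 = 1 ∨ n % 4 = 3 := by omega
  rcases hm4 with h1 | h1 <;> rcases hn4 with h2 | h2 <;>
    rw [Nat.mul_mod, h1, h2] <;> norm_num

theorem st_mod {n : ℕ} (hn : n % 2 = 1) : st n % 4 = 1 := by
  unfold st
  split_ifs with h <;> omega

theorem st_natAbs {a : ℤ} (ha : a % 4 = 1) : st a.natAbs = a := by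
  unfold st
  split_ifs with h <;> omega

theorem st_natAbs' {a : ℤ} (ha : a % 4 = 3) : st a.natAbs = -a := by
  unfold st
  split_ifs with h <;> omega

/-- The Frobenius of a prime number `q ≡ 3` modulo `4` is the conjugation. -/
theorem frob (h : GI i) {q : ℕ} (hq : q.Prime) (h3 : q % 4 = 3) (x : 𝓞 K) :
    x ^ q - h.cj x ∈ Ideal.span {(q : 𝓞 K)} := by
  haveI : Fact q.Prime := ⟨hq⟩
  obtain ⟨m, n, rfl⟩ := h.gen x
  rw [h.cj_coords]
  haveI : CharP (𝓞 K ⧸ Ideal.span {(q : 𝓞 K)}) q := by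
    have hG := G4_span (i := i) h hq h3
    rw [← ringChar.eq_iff]
    have h1 : ((q : ℕ) : 𝓞 K ⧸ Ideal.span {(q : 𝓞 K)}) = 0 := by
      have h2 := Ideal.Quotient.eq_zero_iff_mem.2 (Ideal.subset_span (Set.mem_singleton (q : 𝓞 K)))
      rwa [map_natCast] at h2
    have h2 := (ringChar.spec _ q).1 h1
    rcases (Nat.dvd_prime hq).1 h2 with h4 | h4
    · exfalso
      apply hG.pr.ne_top
      haveI := hG.pr
      have h5 : ((1 : ℕ) : 𝓞 K ⧸ Ideal.span {(q : 𝓞 K)}) = 0 := by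
        rw [(ringChar.spec _ 1), h4]
      rw [Nat.cast_one] at h5
      exact absurd h5 one_ne_zero
    · exact h4
  have key : ∀ y : 𝓞 K, ∀ z : 𝓞 K, (y + z) ^ q - (y ^ q + z ^ q) ∈ Ideal.span {(q : 𝓞 K)} := by
    intro y z
    rw [← Ideal.Quotient.eq_zero_iff_mem, map_sub, map_pow, map_add, map_add, map_pow, map_pow,
      add_pow_char, sub_self]
  have hint : ∀ m : ℤ, (m : 𝓞 K) ^ q - (m : 𝓞 K) ∈ Ideal.span {(q : 𝓞 K)} := by
    intro m
    have h1 : (q : ℤ) ∣ m ^ q - m := by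
      rw [← ZMod.intCast_zmod_eq_zero_iff_dvd]
      push_cast
      rw [ZMod.pow_card, sub_self]
    obtain ⟨c, hc⟩ := h1
    rw [Ideal.mem_span_singleton]
    refine ⟨(c : 𝓞 K), ?_⟩
    have := congrArg (fun t : ℤ => (t : 𝓞 K)) hc
    push_cast at this
    exact this
  have hiq : i ^ q = -i := by
    obtain ⟨k, hk⟩ : ∃ k, q = 4 * k + 3 := ⟨q / 4, by omega⟩
    rw [hk, pow_add, pow_mul, h.pow_four, one_pow, one_mul]
    linear_combination i * h.sq
  have e : ((m : 𝓞 K) + (n : 𝓞 K) * i) ^ q - ((m : 𝓞 K) - (n : 𝓞 K) * i) =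
      (((m : 𝓞 K) + (n : 𝓞 K) * i) ^ q - ((m : 𝓞 K) ^ q + ((n : 𝓞 K) * i) ^ q)) +
      ((m : 𝓞 K) ^ q - (m : 𝓞 K)) - i * ((n : 𝓞 K) ^ q - (n : 𝓞 K)) := by
    rw [mul_pow, hiq]
    ring
  rw [e]
  exact Ideal.sub_mem _ (Ideal.add_mem _ (key _ _) (hint m)) (Ideal.mul_mem_left _ _ (hint n))

/-- Induction over the odd numbers. -/
theorem ind_odd {M : ℕ → Prop} (h1 : M 1)
    (hmul : ∀ p a : ℕ, p.Prime → p % 2 = 1 → a % 2 = 1 → M a → M (p * a)) :
    ∀ n : ℕ, n % 2 = 1 → M n := by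
  intro n
  induction n using induction_on_primes with
  | zero => intro h; omega
  | one => intro _; exact h1
  | prime_mul p a hp ih =>
    intro h
    have hp2 : p % 2 = 1 := by
      rcases Nat.mod_two_eq_zero_or_one p with h0 | h0
      · rw [Nat.mul_mod, h0] at h
        simp at h
      · exact h0
    have ha2 : a % 2 = 1 := by
      rcases Nat.mod_two_eq_zero_or_one a with h0 | h0
      · rw [Nat.mul_mod, h0] at h
        simp at h
      · exact h0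
    exact hmul p a hp hp2 ha2 (ih ha2)

theorem sy_span_one (x : 𝓞 K) : sy i (Ideal.span {((1 : ℕ) : 𝓞 K)}) x = 0 := by
  rw [Nat.cast_one, Ideal.span_singleton_one, ← Ideal.one_eq_top]
  exact sy_one x

theorem span_nat_ne {n : ℕ} (hn : n % 2 = 1) : Ideal.span {((n : ℕ) : 𝓞 K)} ≠ ⊥ := by
  intro h0
  rw [Ideal.span_singleton_eq_bot] at h0
  have h1 : n = 0 := by exact_mod_cast h0
  omega

theorem sy_nat_mul {m n : ℕ} (hm : m % 2 = 1) (hn : n % 2 = 1) (x : 𝓞 K) :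
    sy i (Ideal.span {((m * n : ℕ) : 𝓞 K)}) x =
      sy i (Ideal.span {((m : ℕ) : 𝓞 K)}) x + sy i (Ideal.span {((n : ℕ) : 𝓞 K)}) x := by
  rw [Nat.cast_mul, ← Ideal.span_singleton_mul_span_singleton,
    sy_mul (span_nat_ne hm) (span_nat_ne hn)]

theorem notMem_of_coprime {ρ a x : 𝓞 K} (hρ : ρ ∣ a) (hP : G4 (Ideal.span {ρ}))
    (h : IsCoprime a x) : x ∉ Ideal.span {ρ} := by
  intro h0
  rw [Ideal.mem_span_singleton] at h0
  have h1 := h.isUnit_of_dvd' hρ h0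
  exact hP.pr.ne_top (Ideal.span_singleton_eq_top.2 h1)

variable [IsPrincipalIdealRing (𝓞 K)]

/-- The factorisation of a prime number `q ≡ 1` modulo `4`. -/
theorem exists_rho (h : GI i) {q : ℕ} (hq : q.Prime) (h1 : q % 4 = 1) :
    ∃ ρ : 𝓞 K, G4 (Ideal.span {ρ}) ∧ Ideal.absNorm (Ideal.span {ρ}) = q ∧
      ρ * h.cj ρ = (q : 𝓞 K) := by
  obtain ⟨Q, hQ, hN⟩ := exists_Q h hq h1
  obtain ⟨ρ, hρ⟩ := (IsPrincipalIdealRing.principal Q).principal
  have hρ' : Q = Ideal.span {ρ} := hρ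
  subst hρ'
  exact ⟨ρ, hQ, hN, by rw [h.mul_cj, hN]⟩

theorem split_notMem (h : GI i) {q : ℕ} {ρ : 𝓞 K} (hP : G4 (Ideal.span {ρ}))
    (hρ : ρ * h.cj ρ = (q : 𝓞 K)) {x : 𝓞 K} (hx : IsCoprime (q : 𝓞 K) x) :
    x ∉ Ideal.span {ρ} ∧ h.cj x ∉ Ideal.span {ρ} := by
  constructor
  · exact notMem_of_coprime ⟨_, hρ.symm⟩ hP hx
  · rw [← mem_cj h]
    exact notMem_of_coprime ⟨ρ, by rw [mul_comm]; exact hρ.symm⟩ (G4_cj h hP) hx

/-- A rational integer has the symbol one modulo a rational integer. -/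
theorem sy_int (h : GI i) (b : ℤ) : ∀ n : ℕ, n % 2 = 1 → IsCoprime (n : 𝓞 K) (b : 𝓞 K) →
    sy i (Ideal.span {((n : ℕ) : 𝓞 K)}) (b : 𝓞 K) = 0 := by
  refine ind_odd (fun _ => sy_span_one _) ?_
  intro p a hp hp2 ha2 ih hc
  rw [Nat.cast_mul] at hc
  rw [sy_nat_mul hp2 ha2, ih hc.of_mul_left_right, add_zero]
  have hcp := hc.of_mul_left_left
  have hp4 : p % 4 = 1 ∨ p % 4 = 3 := by omega
  rcases hp4 with h4 | h4
  · obtain ⟨ρ, hG, hN, hρ⟩ := exists_rho h hp h4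
    obtain ⟨h1, h2⟩ := split_notMem h hG hρ hcp
    rw [sy_split h hG hN h2, map_intCast, sub_self]
  · have hG := G4_span (i := i) h hp h4
    rw [sy_prime hG.pr hG.ne]
    exact qs_int h hp h4 hG b (notMem_of_coprime (dvd_refl _) hG hcp)

theorem lam_mul (h : GI i) : (1 + i) = i * (1 - i) := by linear_combination h.sq

theorem isUnit_i (h : GI i) : IsUnit i := IsUnit.of_mul_eq_one (-i) (by linear_combination -h.sq)

theorem lam_notMem (h : GI i) {P : Ideal (𝓞 K)} (hP : G4 P) : 1 + i ∉ P ∧ 1 - i ∉ P := by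
  constructor
  · intro h0
    apply hP.two
    have e : (2 : 𝓞 K) = (1 + i) * (1 - i) := by linear_combination h.sq
    rw [e]
    exact Ideal.mul_mem_right _ _ h0
  · intro h0
    apply hP.two
    have e : (2 : 𝓞 K) = (1 - i) * (1 + i) := by linear_combination h.sq
    rw [e]
    exact Ideal.mul_mem_right _ _ h0

/-- The symbol of `1 + i` modulo a rational integer. -/
theorem sy_lam (h : GI i) : ∀ n : ℕ, n % 2 = 1 →
    sy i (Ideal.span {((n : ℕ) : 𝓞 K)}) (1 + i) = (((st n - 1) / 4 : ℤ) : ZMod 4) := by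
  refine ind_odd ?_ ?_
  · rw [sy_span_one]
    norm_num [st]
  intro p a hp hp2 ha2 ih
  have hst : (((st (p * a) - 1) / 4 : ℤ) : ZMod 4) =
      (((st p - 1) / 4 : ℤ) : ZMod 4) + (((st a - 1) / 4 : ℤ) : ZMod 4) := by
    have h1 := st_mod hp2
    have h2 := st_mod ha2
    rw [st_mul hp2 ha2]
    obtain ⟨u, hu⟩ : ∃ u, st p = 4 * u + 1 := ⟨st p / 4, by omega⟩
    obtain ⟨v, hv⟩ : ∃ v, st a = 4 * v + 1 := ⟨st a / 4, by omega⟩
    have e1 : (st p * st a - 1) / 4 = u + v + 4 * (u * v) := by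
      rw [hu, hv]
      have : (4 * u + 1) * (4 * v + 1) - 1 = 4 * (u + v + 4 * (u * v)) := by ring
      rw [this]
      omega
    have e2 : (st p - 1) / 4 = u := by omega
    have e3 : (st a - 1) / 4 = v := by omega
    rw [e1, e2, e3]
    push_cast
    have : (4 : ZMod 4) = 0 := by decide
    rw [this]
    ring
  rw [sy_nat_mul hp2 ha2, ih, hst]
  congr 1
  have hp4 : p % 4 = 1 ∨ p % 4 = 3 := by omega
  rcases hp4 with h4 | h4
  · obtain ⟨ρ, hG, hN, hρ⟩ := exists_rho h hp h4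
    obtain ⟨h1, h2⟩ := lam_notMem h hG
    have hcj : h.cj (1 + i) = 1 - i := by rw [map_add, map_one, h.cj_i]; ring
    rw [sy_split h hG hN (by rw [hcj]; exact h2), hcj]
    have h3 : qs i (Ideal.span {ρ}) (1 + i) =
        qs i (Ideal.span {ρ}) i + qs i (Ideal.span {ρ}) (1 - i) := by
      conv_lhs => rw [lam_mul h]
      exact qs_mul h hG (hG.unit_notMem (isUnit_i h)) h2
    rw [h3, add_sub_cancel_right, qs_i h hG, hN]
    have e : (st p - 1) / 4 = (((p - 1) / 4 : ℕ) : ℤ) := by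
      unfold st
      rw [if_pos h4]
      omega
    rw [e]
    push_cast
    rfl
  · have hG := G4_span (i := i) h hp h4
    rw [sy_prime hG.pr hG.ne]
    obtain ⟨k, hk⟩ : ∃ k, p = 4 * k + 3 := ⟨p / 4, by omega⟩
    have e : (st p - 1) / 4 = -((k + 1 : ℕ) : ℤ) := by
      unfold st
      rw [if_neg (by omega)]
      push_cast
      omega
    rw [e]
    refine qs_eq h hG (lam_notMem h hG).1 _ ?_
    rw [h.absNorm_nat]
    have e2 : (p ^ 2 - 1) / 4 = (p - 1) * (k + 1) := by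
      rw [hk]
      have e3 : (4 * k + 3) ^ 2 - 1 = 4 * ((4 * k + 3 - 1) * (k + 1)) := by
        have e4 : 4 * k + 3 - 1 = 4 * k + 2 := by omega
        rw [e4]
        have e5 : (4 * k + 3) ^ 2 = 4 * ((4 * k + 2) * (k + 1)) + 1 := by ring
        rw [e5, Nat.add_sub_cancel]
      rw [e3, Nat.mul_div_cancel_left _ (by norm_num)]
    have h5 : (1 + i) ^ (p - 1) - w i 3 ∈ Ideal.span {(p : 𝓞 K)} := by
      have h6 := frob h hp h4 (1 + i)
      have hcj : h.cj (1 + i) = 1 - i := by rw [map_add, map_one, h.cj_i]; ring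
      rw [hcj] at h6
      have e6 : (1 + i) ^ p - (1 - i) = (1 + i) * ((1 + i) ^ (p - 1) - w i 3) := by
        have e7 : (1 + i) ^ p = (1 + i) * (1 + i) ^ (p - 1) := by
          conv_lhs => rw [show p = (p - 1) + 1 by omega, pow_succ]
          ring
        rw [e7, h.w_three]
        linear_combination -h.sq
      rw [e6] at h6
      exact (hG.pr.mem_or_mem h6).resolve_left (lam_notMem h hG).1
    have h7 : ((1 + i) ^ (p - 1)) ^ (k + 1) - (w i 3) ^ (k + 1) ∈ Ideal.span {(p : 𝓞 K)} :=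
      Ideal.mem_of_dvd _ (sub_dvd_pow_sub_pow _ _ _) h5
    rw [h.w_pow] at h7
    have e8 : (((k + 1 : ℕ) : ZMod 4)) * 3 = ((-((k + 1 : ℕ) : ℤ) : ℤ) : ZMod 4) := by
      push_cast
      have : (3 : ZMod 4) = -1 := by decide
      rw [this]
      ring
    rw [e8, ← pow_mul, ← e2] at h7
    have h8 := neg_mem h7
    rwa [neg_sub] at h8

theorem pow_help {R : Type*} [CommRing R] (B : R) {k p : ℕ} (hk : p = 4 * k + 3) :
    (B * B ^ p * B ^ 2) ^ (k + 1) = B ^ (4 * k + 4) * B ^ ((4 * k + 2) * (k + 1)) := by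
  subst hk
  rw [← pow_succ', ← pow_add, ← pow_mul, ← pow_add]
  congr 1
  ring

theorem pow_help' {R : Type*} [CommRing R] (B : R) {k p : ℕ} (hk : p = 4 * k + 3) :
    B * B ^ p = B ^ (4 * k + 4) := by
  subst hk
  rw [← pow_succ']

/-- Rational quartic reciprocity, for a prime number. -/
theorem rec_prime (h : GI i) {β : 𝓞 K} (hβ : (2 : 𝓞 K) ∣ β - 1) (hP : G4 (Ideal.span {β}))
    {p : ℕ} (hp : p.Prime) (hp2 : p % 2 = 1) (hc : IsCoprime (p : 𝓞 K) β) :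
    qs i (Ideal.span {β}) ((st p : ℤ) : 𝓞 K) = sy i (Ideal.span {(p : 𝓞 K)}) β := by
  have hp4 : p % 4 = 1 ∨ p % 4 = 3 := by omega
  have hnb : ((Ideal.absNorm (Ideal.span {β}) : ℕ) : 𝓞 K) = β * h.cj β := (h.mul_cj β).symm
  rcases hp4 with h4 | h4
  · obtain ⟨ρ, hG, hN, hρ⟩ := exists_rho h hp h4
    obtain ⟨h1, h2⟩ := split_notMem h hG hρ hc
    have h3 : β * h.cj β ∉ Ideal.span {ρ} := fun h0 => (hG.pr.mem_or_mem h0).elim h1 h2
    have h5 : β ^ 2 ∉ Ideal.span {ρ} := fun h0 => h1 (hG.pr.mem_of_pow_mem 2 h0)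
    have h6 : β * h.cj β * β ^ 2 ∉ Ideal.span {ρ} :=
      fun h0 => (hG.pr.mem_or_mem h0).elim h3 h5
    have h7 := rq_one h hβ hP hp hG hN (by rw [hnb]; exact h3)
    rw [hnb] at h7
    have h8 := qs_spec h hG h6
    rw [hN] at h8
    have h9 : w i (qs i (Ideal.span {ρ}) (β * h.cj β * β ^ 2) + qs i (Ideal.span {β}) (p : 𝓞 K)) -
        w i 0 ∈ Ideal.span {ρ} := by
      rw [h.w_add, w_zero]
      have h10 := Ideal.add_mem _
        (Ideal.mul_mem_right (w i (qs i (Ideal.span {β}) (p : 𝓞 K))) _ h8) h7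
      convert h10 using 1
      ring
    have h10 := hG.inj h h9
    rw [qs_mul h hG h3 h5, qs_mul h hG h1 h2, qs_pow h hG h1] at h10
    have e : ((st p : ℤ) : 𝓞 K) = (p : 𝓞 K) := by
      unfold st
      rw [if_pos h4]
      push_cast
      rfl
    rw [e, sy_split h hG hN h2]
    push_cast at h10
    have h43 : (4 : ZMod 4) = 0 := by decide
    linear_combination h10 - (qs i (Ideal.span {ρ}) β) * h43
  · have hG := G4_span (i := i) h hp h4
    have h1 : β ∉ Ideal.span {(p : 𝓞 K)} := notMem_of_coprime (dvd_refl _) hG hc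
    have h2 : h.cj β ∉ Ideal.span {(p : 𝓞 K)} := by
      intro h0
      have e : ((p : ℕ) : 𝓞 K) = h.cj ((p : ℕ) : 𝓞 K) := (map_natCast _ _).symm
      apply h1
      rw [e, mem_cj h]
      exact h0
    have h3 : β * h.cj β ∉ Ideal.span {(p : 𝓞 K)} :=
      fun h0 => (hG.pr.mem_or_mem h0).elim h1 h2
    have h7 := rq_three h hβ hP hp h4 (by rw [hnb]; exact h3)
    rw [hnb] at h7
    obtain ⟨k, hk⟩ : ∃ k, p = 4 * k + 3 := ⟨p / 4, by omega⟩
    have e : ((st p : ℤ) : 𝓞 K) = -(p : 𝓞 K) := by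
      unfold st
      rw [if_neg (by omega)]
      push_cast
      rfl
    rw [e, sy_prime hG.pr hG.ne]
    symm
    refine qs_eq h hG h1 _ ?_
    rw [h.absNorm_nat]
    have e2 : (p ^ 2 - 1) / 4 = (4 * k + 2) * (k + 1) := by
      rw [hk]
      have e5 : (4 * k + 3) ^ 2 = 4 * ((4 * k + 2) * (k + 1)) + 1 := by ring
      rw [e5, Nat.add_sub_cancel, Nat.mul_div_cancel_left _ (by norm_num)]
    have e3 : (p + 1) / 4 = k + 1 := by omega
    rw [e3] at h7
    rw [e2]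
    -- `cj β ≡ β ^ p`
    have h8 := frob h hp h4 β
    have key : Ideal.Quotient.mk (Ideal.span {(p : 𝓞 K)}) (h.cj β) =
        Ideal.Quotient.mk (Ideal.span {(p : 𝓞 K)}) β ^ p := by
      rw [← map_pow]
      symm
      rw [Ideal.Quotient.mk_eq_mk_iff_sub_mem]
      exact h8
    have h9 := Ideal.Quotient.eq_zero_iff_mem.2 h7
    rw [map_sub, map_pow, map_mul, map_mul, map_mul, map_mul, map_pow, key] at h9
    obtain ⟨B, hB⟩ : ∃ B, B = Ideal.Quotient.mk (Ideal.span {(p : 𝓞 K)}) β := ⟨_, rfl⟩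
    rw [← hB] at h9
    rw [pow_help B hk, pow_help' B hk] at h9
    have h12 : β ^ (4 * k + 4) * (w i (qs i (Ideal.span {β}) (-(p : 𝓞 K))) -
        β ^ ((4 * k + 2) * (k + 1))) ∈ Ideal.span {(p : 𝓞 K)} := by
      rw [← Ideal.Quotient.eq_zero_iff_mem, map_mul, map_sub, map_pow, map_pow, ← hB]
      linear_combination -h9
    exact (hG.pr.mem_or_mem h12).resolve_left fun h0 => h1 (hG.pr.mem_of_pow_mem _ h0)

/-- Rational quartic reciprocity. -/
theorem rec_int (h : GI i) {β : 𝓞 K} (hβ : (2 : 𝓞 K) ∣ β - 1) (hP : G4 (Ideal.span {β})) :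
    ∀ n : ℕ, n % 2 = 1 → IsCoprime (n : 𝓞 K) β →
    qs i (Ideal.span {β}) ((st n : ℤ) : 𝓞 K) = sy i (Ideal.span {(n : 𝓞 K)}) β := by
  refine ind_odd ?_ ?_
  · intro _
    rw [sy_span_one]
    have e : ((st 1 : ℤ) : 𝓞 K) = 1 := by norm_num [st]
    rw [e]
    exact qs_one h hP
  intro p a hp hp2 ha2 ih hc
  rw [Nat.cast_mul] at hc
  have hcp := hc.of_mul_left_left
  have hca := hc.of_mul_left_right
  have hst : ∀ m : ℕ, m % 2 = 1 → IsCoprime (m : 𝓞 K) β → ((st m : ℤ) : 𝓞 K) ∉ Ideal.span {β} := by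
    intro m _ hm h0
    have h1 : ((m : ℕ) : 𝓞 K) ∈ Ideal.span {β} := by
      unfold st at h0
      split_ifs at h0 with h4
      · push_cast at h0
        exact h0
      · push_cast at h0
        exact neg_mem_iff.1 h0
    exact notMem_of_coprime (dvd_refl β) hP hm.symm h1
  rw [sy_nat_mul hp2 ha2, ← ih hca, ← rec_prime h hβ hP hp hp2 hcp, st_mul hp2 ha2]
  push_cast
  exact qs_mul h hP (hst p hp2 hcp) (hst a ha2 hca)

omit [IsPrincipalIdealRing (𝓞 K)] in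
/-- The prime ideal of an odd prime element. -/
theorem G4_of_prime (h : GI i) {a b : ℤ} (ha : a % 2 = 1) (hb : b % 2 = 0)
    (hβ : Prime ((a : 𝓞 K) + (b : 𝓞 K) * i)) :
    G4 (Ideal.span {(a : 𝓞 K) + (b : 𝓞 K) * i}) := by
  refine ⟨(Ideal.span_singleton_prime hβ.ne_zero).2 hβ, ?_, ?_⟩
  · rw [Ne, Ideal.span_singleton_eq_bot]
    exact hβ.ne_zero
  · rw [Ideal.mem_span_singleton]
    rintro ⟨t, ht⟩
    apply hβ.not_isUnit
    obtain ⟨e, f, rfl⟩ := h.gen t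
    have hg := gau_of h
    rw [hg.mul_eq] at ht
    have ht' : ((2 : ℤ) : 𝓞 K) + ((0 : ℤ) : 𝓞 K) * i =
        ((a * e - b * f : ℤ) : 𝓞 K) + ((a * f + b * e : ℤ) : 𝓞 K) * i := by
      rw [← ht]
      push_cast
      ring
    obtain ⟨e1, e2⟩ := hg.eq_iff.1 ht'
    have h1 : nm a b * nm e f = 4 := by
      rw [← Sy.nm_mul, ← e1, ← e2]
      norm_num [nm]
    rw [hg.isUnit_iff]
    have hodd : nm a b % 2 = 1 := by
      unfold nm
      rw [Int.add_emod, pow_two, pow_two, Int.mul_emod, Int.mul_emod b, ha, hb]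
      norm_num
    have hpos := Sy.nm_nonneg a b
    have hle : nm a b ∣ 4 := ⟨_, h1.symm⟩
    have hle4 := Int.le_of_dvd (by norm_num) hle
    have h5 : nm a b = 1 ∨ nm a b = 3 := by omega
    rcases h5 with h5 | h5
    · exact h5
    · rw [h5] at hle
      norm_num at hle

omit [IsPrincipalIdealRing (𝓞 K)] in
theorem cop_two {n : ℕ} (hn : n % 2 = 1) : IsCoprime (n : 𝓞 K) 2 := by
  obtain ⟨m, hm⟩ : ∃ m, n = 2 * m + 1 := ⟨n / 2, by omega⟩
  refine ⟨1, -(m : 𝓞 K), ?_⟩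
  rw [hm]
  push_cast
  ring

omit [IsPrincipalIdealRing (𝓞 K)] in
theorem cop_lam (h : GI i) {n : ℕ} (hn : n % 2 = 1) : IsCoprime (n : 𝓞 K) (1 + i) := by
  have h1 := cop_two (K := K) hn
  have e : (2 : 𝓞 K) = (1 + i) * (1 - i) := by linear_combination h.sq
  rw [e] at h1
  exact h1.of_mul_right_left

omit [IsPrincipalIdealRing (𝓞 K)] in
theorem cop_i (h : GI i) (x : 𝓞 K) : IsCoprime x i :=
  ⟨0, -i, by linear_combination -h.sq⟩

omit [IsPrincipalIdealRing (𝓞 K)] in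
theorem cop_int {m b : ℤ} (hc : IsCoprime m b) : IsCoprime ((m.natAbs : ℕ) : 𝓞 K) (b : 𝓞 K) := by
  have h1 : IsCoprime ((m.natAbs : ℕ) : ℤ) b := by
    rcases Int.natAbs_eq m with h | h
    · rwa [h] at hc
    · rw [h] at hc
      exact (IsCoprime.neg_left_iff _ _).1 hc
  have h2 := h1.map (Int.castRingHom (𝓞 K))
  simpa using h2

omit [IsPrincipalIdealRing (𝓞 K)] in
theorem natAbs_mem {m : ℤ} : (m : 𝓞 K) ∈ Ideal.span {((m.natAbs : ℕ) : 𝓞 K)} := by
  rw [Ideal.mem_span_singleton]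
  rcases Int.natAbs_eq m with h | h
  · have e : (m : 𝓞 K) = ((m.natAbs : ℕ) : 𝓞 K) := by
      rw [← Int.cast_natCast, ← h]
    rw [← e]
  · have e : (m : 𝓞 K) = -((m.natAbs : ℕ) : 𝓞 K) := by
      rw [← Int.cast_natCast, ← Int.cast_neg, ← h]
    rw [e]
    exact (dvd_neg).2 (dvd_refl _)

omit [IsPrincipalIdealRing (𝓞 K)] in
theorem spc {x y : 𝓞 K} (h : IsCoprime x y) :
    IsCoprime (Ideal.span {x}) (Ideal.span {y}) := (Ideal.isCoprime_span_singleton_iff x y).2 h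

/-- The symbol of `i` modulo a rational integer. -/
theorem sy_i_nat (h : GI i) {n : ℕ} (hn : n % 2 = 1) :
    sy i (Ideal.span {(n : 𝓞 K)}) i = (((n ^ 2 - 1) / 4 : ℕ) : ZMod 4) := by
  have h2 : (2 : 𝓞 K) ∣ (n : 𝓞 K) - 1 := by
    obtain ⟨m, hm⟩ : ∃ m, n = 2 * m + 1 := ⟨n / 2, by omega⟩
    refine ⟨(m : 𝓞 K), ?_⟩
    rw [hm]
    push_cast
    ring
  have h0 : (n : 𝓞 K) ≠ 0 := by
    intro h0
    have : n = 0 := by exact_mod_cast h0
    omega
  have h3 := (sy_i h (n : 𝓞 K) h2 h0).2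
  rwa [h.absNorm_nat] at h3

/-- The symbols of the rational integers `a` and `a + b` modulo `a + b i`. -/
theorem qs_st_sum (h : GI i) {a b : ℤ} (hb : b % 2 = 0) (hab : (a + b) % 4 = 1)
    (hβ : Prime ((a : 𝓞 K) + (b : 𝓞 K) * i)) (hc : IsCoprime a b)
    (hn : ¬ ((a : 𝓞 K) + (b : 𝓞 K) * i) ∣ ((a + b : ℤ) : 𝓞 K)) :
    qs i (Ideal.span {(a : 𝓞 K) + (b : 𝓞 K) * i}) ((a + b : ℤ) : 𝓞 K) =
      ((((a + b).natAbs ^ 2 - 1) / 4 : ℕ) : ZMod 4) + (((a + b - 1) / 4 : ℤ) : ZMod 4) := by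
  have ha : a % 2 = 1 := by omega
  have hG := G4_of_prime h ha hb hβ
  have h2 : (2 : 𝓞 K) ∣ (a : 𝓞 K) + (b : 𝓞 K) * i - 1 := by
    obtain ⟨a', ha'⟩ : ∃ a', a = 2 * a' + 1 := ⟨a / 2, by omega⟩
    obtain ⟨b', hb'⟩ : ∃ b', b = 2 * b' := ⟨b / 2, by omega⟩
    refine ⟨(a' : 𝓞 K) + (b' : 𝓞 K) * i, ?_⟩
    rw [ha', hb']
    push_cast
    ring
  obtain ⟨n, hn'⟩ : ∃ n, n = (a + b).natAbs := ⟨_, rfl⟩
  have hodd : n % 2 = 1 := by omega
  have hcop : IsCoprime (n : 𝓞 K) ((a : 𝓞 K) + (b : 𝓞 K) * i) := by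
    apply IsCoprime.symm
    rw [hβ.irreducible.coprime_iff_not_dvd]
    intro h0
    apply hn
    refine h0.trans ?_
    have h3 := natAbs_mem (K := K) (m := a + b)
    rw [Ideal.mem_span_singleton] at h3
    rw [hn']
    exact h3
  have h1 := rec_int h h2 hG n hodd hcop
  have e1 : ((st n : ℤ) : 𝓞 K) = ((a + b : ℤ) : 𝓞 K) := by
    rw [hn', st_natAbs hab]
  rw [e1] at h1
  rw [h1, ← hn']
  have c2 : IsCoprime (Ideal.span {(n : 𝓞 K)}) (Ideal.span {(2 : 𝓞 K)}) :=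
    spc (cop_two hodd)
  have cb : IsCoprime (n : 𝓞 K) (b : 𝓞 K) := by
    rw [hn']
    apply cop_int
    obtain ⟨u, v, huv⟩ := hc
    exact ⟨u, v - u, by linear_combination huv⟩
  have hcong : sy i (Ideal.span {(n : 𝓞 K)}) ((a : 𝓞 K) + (b : 𝓞 K) * i) =
      sy i (Ideal.span {(n : 𝓞 K)}) ((b : 𝓞 K) * (i * (1 + i))) := by
    refine sy_congr h c2 (spc hcop) ?_
    have e : (a : 𝓞 K) + (b : 𝓞 K) * i - (b : 𝓞 K) * (i * (1 + i)) = ((a + b : ℤ) : 𝓞 K) := by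
      push_cast
      linear_combination -(b : 𝓞 K) * h.sq
    rw [e, hn']
    exact natAbs_mem
  rw [hcong, sy_num h c2 (spc cb)
    (spc (IsCoprime.mul_right (cop_i h _) (cop_lam h hodd))),
    sy_num h c2 (spc (cop_i h _))
    (spc (cop_lam h hodd)), sy_int h b n hodd cb, zero_add,
    sy_i_nat h hodd, sy_lam h n hodd]
  rw [hn', st_natAbs hab]

theorem qs_st_fst (h : GI i) {a b : ℤ} (ha : a % 2 = 1) (hb : b % 2 = 0)
    (hβ : Prime ((a : 𝓞 K) + (b : 𝓞 K) * i)) (hc : IsCoprime a b)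
    (hn : ¬ ((a : 𝓞 K) + (b : 𝓞 K) * i) ∣ ((a : ℤ) : 𝓞 K)) :
    qs i (Ideal.span {(a : 𝓞 K) + (b : 𝓞 K) * i}) ((st a.natAbs : ℤ) : 𝓞 K) =
      (((a.natAbs ^ 2 - 1) / 4 : ℕ) : ZMod 4) := by
  have hG := G4_of_prime h ha hb hβ
  have h2 : (2 : 𝓞 K) ∣ (a : 𝓞 K) + (b : 𝓞 K) * i - 1 := by
    obtain ⟨a', ha'⟩ : ∃ a', a = 2 * a' + 1 := ⟨a / 2, by omega⟩
    obtain ⟨b', hb'⟩ : ∃ b', b = 2 * b' := ⟨b / 2, by omega⟩
    refine ⟨(a' : 𝓞 K) + (b' : 𝓞 K) * i, ?_⟩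
    rw [ha', hb']
    push_cast
    ring
  obtain ⟨n, hn'⟩ : ∃ n, n = a.natAbs := ⟨_, rfl⟩
  have hodd : n % 2 = 1 := by omega
  have hcop : IsCoprime (n : 𝓞 K) ((a : 𝓞 K) + (b : 𝓞 K) * i) := by
    apply IsCoprime.symm
    rw [hβ.irreducible.coprime_iff_not_dvd]
    intro h0
    apply hn
    refine h0.trans ?_
    have h3 := natAbs_mem (K := K) (m := a)
    rw [Ideal.mem_span_singleton] at h3
    rw [hn']
    exact h3
  have h1 := rec_int h h2 hG n hodd hcop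
  rw [← hn', h1]
  have c2 : IsCoprime (Ideal.span {(n : 𝓞 K)}) (Ideal.span {(2 : 𝓞 K)}) :=
    spc (cop_two hodd)
  have cb : IsCoprime (n : 𝓞 K) (b : 𝓞 K) := by
    rw [hn']
    exact cop_int hc
  have hcong : sy i (Ideal.span {(n : 𝓞 K)}) ((a : 𝓞 K) + (b : 𝓞 K) * i) =
      sy i (Ideal.span {(n : 𝓞 K)}) ((b : 𝓞 K) * i) := by
    refine sy_congr h c2 (spc hcop) ?_
    rw [add_sub_cancel_right, hn']
    exact natAbs_mem
  rw [hcong, sy_num h c2 (spc cb)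
    (spc (cop_i h _)), sy_int h b n hodd cb, zero_add,
    sy_i_nat h hodd]

omit [IsPrincipalIdealRing (𝓞 K)] [NumberField K] [Field K] in
theorem cast_sq_one {m u : ℤ} (hm : m = 4 * u + 1) :
    (((m.natAbs ^ 2 - 1) / 4 : ℕ) : ZMod 4) = ((2 * u : ℤ) : ZMod 4) := by
  have h1 : ((m.natAbs ^ 2 : ℕ) : ℤ) = 16 * (u * u) + 8 * u + 1 := by
    push_cast
    rw [sq_abs, hm]
    ring
  obtain ⟨N, hN⟩ : ∃ N, N = m.natAbs ^ 2 := ⟨_, rfl⟩
  rw [← hN] at h1 ⊢
  have h2 : (((N - 1) / 4 : ℕ) : ℤ) = 4 * (u * u) + 2 * u := by omega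
  rw [← Int.cast_natCast, h2]
  push_cast
  have : (4 : ZMod 4) = 0 := by decide
  rw [this]
  ring

omit [IsPrincipalIdealRing (𝓞 K)] [NumberField K] [Field K] in
theorem cast_sq_three {m u : ℤ} (hm : m = 4 * u + 3) :
    (((m.natAbs ^ 2 - 1) / 4 : ℕ) : ZMod 4) = ((2 * u + 2 : ℤ) : ZMod 4) := by
  have h1 : ((m.natAbs ^ 2 : ℕ) : ℤ) = 16 * (u * u) + 24 * u + 9 := by
    push_cast
    rw [sq_abs, hm]
    ring
  obtain ⟨N, hN⟩ : ∃ N, N = m.natAbs ^ 2 := ⟨_, rfl⟩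
  rw [← hN] at h1 ⊢
  have h2 : (((N - 1) / 4 : ℕ) : ℤ) = 4 * (u * u) + 6 * u + 2 := by omega
  rw [← Int.cast_natCast, h2]
  push_cast
  have : (4 : ZMod 4) = 0 := by decide
  have h6 : (6 : ZMod 4) = 2 := by decide
  rw [this, h6]
  ring

/-- **The quartic symbol of `1 + i`.** -/
theorem qs_lam4 (h : GI i) {a b : ℤ} (hb : b % 2 = 0) (hab : (a + b) % 4 = 1)
    (hβ : Prime ((a : 𝓞 K) + (b : 𝓞 K) * i)) :
    qs i (Ideal.span {(a : 𝓞 K) + (b : 𝓞 K) * i}) (1 + i) =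
      (((a - b - b ^ 2 - 1) / 4 : ℤ) : ZMod 4) := by
  have ha : a % 2 = 1 := by omega
  have hG := G4_of_prime h ha hb hβ
  have hg := gau_of h
  rcases prime_cases hg hβ ha hb with ⟨p, hp, hN, hp4⟩ | ⟨q, hq, hq4, hcq, hdq⟩
  · have hpZ : _root_.Prime (p : ℤ) := Nat.prime_iff_prime_int.1 hp
    have hc : IsCoprime a b := isCoprime_of_nm hp hN
    obtain ⟨hpa, hpb⟩ := Sy.not_dvd_coord hp hN
    have e0 : ∀ m : ℤ, ((m : ℤ) : 𝓞 K) = (m : 𝓞 K) + ((0 : ℤ) : 𝓞 K) * i := by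
      intro m
      simp
    have hna : ¬ ((a : 𝓞 K) + (b : 𝓞 K) * i) ∣ ((a : ℤ) : 𝓞 K) := by
      intro h0
      replace h0 := (hg.dvd_split_iff hp hN a 0).1 (by rw [← e0 a]; exact h0)
      rw [show a * b - 0 * a = a * b by ring] at h0
      exact (hpZ.dvd_or_dvd h0).elim hpa hpb
    have hnab : ¬ ((a : 𝓞 K) + (b : 𝓞 K) * i) ∣ ((a + b : ℤ) : 𝓞 K) := by
      intro h0
      replace h0 := (hg.dvd_split_iff hp hN (a + b) 0).1 (by rw [← e0 (a + b)]; exact h0)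
      rw [show (a + b) * b - 0 * a = (a + b) * b by ring] at h0
      rcases hpZ.dvd_or_dvd h0 with h1 | h1
      · have h2 : (p : ℤ) ∣ 2 * (a * b) := by
          obtain ⟨e, he⟩ := h1
          refine ⟨(a + b) * e - 1, ?_⟩
          unfold nm at hN
          linear_combination (a + b) * he - hN
        rcases hpZ.dvd_or_dvd h2 with h3 | h3
        · have h4 := Int.le_of_dvd (by norm_num) h3
          have h5 := hp.two_le
          omega
        · exact (hpZ.dvd_or_dvd h3).elim hpa hpb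
      · exact hpb h1
    have h1 := qs_st_sum h hb hab hβ hc hnab
    have h2 := qs_st_fst h ha hb hβ hc hna
    have haP : (a : 𝓞 K) ∉ Ideal.span {(a : 𝓞 K) + (b : 𝓞 K) * i} := by
      rw [Ideal.mem_span_singleton]
      exact hna
    have h3 : qs i (Ideal.span {(a : 𝓞 K) + (b : 𝓞 K) * i}) ((a + b : ℤ) : 𝓞 K) =
        qs i (Ideal.span {(a : 𝓞 K) + (b : 𝓞 K) * i}) (a : 𝓞 K) +
          qs i (Ideal.span {(a : 𝓞 K) + (b : 𝓞 K) * i}) (1 + i) := by
      rw [← qs_mul h hG haP (lam_notMem h hG).1]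
      refine qs_congr h hG ?_ ?_
      · rw [Ideal.mem_span_singleton]
        exact hnab
      · rw [Ideal.mem_span_singleton]
        refine ⟨-i, ?_⟩
        push_cast
        linear_combination (b : 𝓞 K) * h.sq
    rw [h1] at h3
    have hNP : Ideal.absNorm (Ideal.span {(a : 𝓞 K) + (b : 𝓞 K) * i}) = p := by
      have h4 := h.absNorm_form a b
      have h5 : nm a b = a ^ 2 + b ^ 2 := rfl
      rw [← h5, hN] at h4
      exact_mod_cast h4
    obtain ⟨w', hw⟩ : ∃ w', a + b = 4 * w' + 1 := ⟨(a + b) / 4, by omega⟩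
    rw [cast_sq_one hw] at h3
    have ew : (a + b - 1) / 4 = w' := by omega
    rw [ew] at h3
    have ha4 : a % 4 = 1 ∨ a % 4 = 3 := by omega
    rcases ha4 with ha4 | ha4
    · rw [st_natAbs ha4] at h2
      obtain ⟨u, hu⟩ : ∃ u, a = 4 * u + 1 := ⟨a / 4, by omega⟩
      rw [cast_sq_one hu] at h2
      rw [h2] at h3
      obtain ⟨v, hv⟩ : ∃ v, b = 4 * v := ⟨b / 4, by omega⟩
      have e1 : (a - b - b ^ 2 - 1) / 4 = u - v - 4 * (v * v) := by
        have : a - b - b ^ 2 - 1 = 4 * (u - v - 4 * (v * v)) := by rw [hu, hv]; ring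
        rw [this]
        omega
      have e2 : w' = u + v := by omega
      rw [e1]
      rw [e2] at h3
      push_cast at h3 ⊢
      have h43 : (4 : ZMod 4) = 0 := by decide
      linear_combination -h3 + (v + v * v : ZMod 4) * h43
    · rw [st_natAbs' ha4] at h2
      obtain ⟨u, hu⟩ : ∃ u, a = 4 * u + 3 := ⟨a / 4, by omega⟩
      rw [cast_sq_three hu] at h2
      obtain ⟨v, hv⟩ : ∃ v, b = 4 * v + 2 := ⟨b / 4, by omega⟩
      have h5 : qs i (Ideal.span {(a : 𝓞 K) + (b : 𝓞 K) * i}) ((-a : ℤ) : 𝓞 K) =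
          2 * (((p - 1) / 4 : ℕ) : ZMod 4) + qs i (Ideal.span {(a : 𝓞 K) + (b : 𝓞 K) * i}) (a : 𝓞 K) := by
        rw [Int.cast_neg, qs_neg h hG haP, qs_neg_one h hG, hNP]
      rw [h2] at h5
      have h6 : (((p - 1) / 4 : ℕ) : ℤ) = 4 * (u * u) + 6 * u + 2 + 4 * (v * v) + 4 * v + 1 := by
        have h7 : (p : ℤ) = 16 * (u * u) + 24 * u + 9 + 16 * (v * v) + 16 * v + 4 := by
          rw [← hN, hu, hv]
          unfold nm
          ring
        omega
      have h7 : (((p - 1) / 4 : ℕ) : ZMod 4) =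
          ((4 * (u * u) + 6 * u + 2 + 4 * (v * v) + 4 * v + 1 : ℤ) : ZMod 4) := by
        rw [← h6, Int.cast_natCast]
      rw [h7] at h5
      have e1 : (a - b - b ^ 2 - 1) / 4 = u - v - 1 - 4 * (v * v) - 4 * v := by
        have : a - b - b ^ 2 - 1 = 4 * (u - v - 1 - 4 * (v * v) - 4 * v) := by rw [hu, hv]; ring
        rw [this]
        omega
      have e2 : w' = u + v + 1 := by omega
      rw [e1]
      rw [e2] at h3
      push_cast at h3 h5 ⊢
      have h43 : (4 : ZMod 4) = 0 := by decide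
      linear_combination -h3 + h5 +
        (2 * (u * u) + 3 * u + 3 * (v * v) + 4 * v + 2 : ZMod 4) * h43
  · subst hdq
    have e1 : (a : 𝓞 K) + ((0 : ℤ) : 𝓞 K) * i = (a : 𝓞 K) := by simp
    rw [e1] at hG hβ ⊢
    have e2 : Ideal.span {(a : 𝓞 K)} = Ideal.span {(q : 𝓞 K)} := by
      rcases hcq with h1 | h1
      · rw [h1]
        push_cast
        rfl
      · rw [h1]
        push_cast
        exact Ideal.span_singleton_neg _
    have hst : st q = a := by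
      unfold st
      rw [if_neg (by omega)]
      omega
    rw [e2] at hG ⊢
    rw [← sy_prime hG.pr hG.ne, sy_lam h q (by omega), hst]
    congr 2
    ring_nf

end Pool.Agent.Lib.MP_1a91b9_ntQ.Sp
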