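import Pool.Agent.Lib.MP_1a91b9_ntQ.R.Ring4
import Pool.Agent.Lib.MP_1a91b9_ntQ.R.Sup4

/-!
# MP_1a91b9_nt (quartic twists), part R: the symbols of `i`, `lam` and of the primes at the primes
`q : Pg`

* `c2_eq_zero_iff`: `c2 q x = 0` iff `x` is a square modulo `q`;
* `s4_symm`: quadratic reciprocity;
* `c4_iO`, `c2_iO`, `c4_lam`, `c2_lam`: the supplements.
-/

set_option autoImplicit false

namespace Pool.Agent.Lib.MP_1a91b9_ntQ

open NumberField Finset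
open Pool.Agent.Lib.MP_1a91b9_nuX.HQ (GI G4 qs w w_zero qs_spec qs_mul qs_congr qs_sq)
open Pool.Agent.Lib.MP_1a91b9_ntH (PS nm pr Sx)

noncomputable section

theorem gauI : Sy.IsGau (𝓞 K4) iO := Sp.gau_of gi

theorem lam_cube_eq : lam ^ 3 = ((-2 : ℤ) : 𝓞 K4) + ((2 : ℤ) : 𝓞 K4) * iO := by
  rw [lam_cube]
  push_cast
  ring

/-- The coordinates of an element which is `1` modulo `lam³`. -/
theorem cp_of_mul (m n : ℤ) : cp (1 + lam ^ 3 * ((m : 𝓞 K4) + (n : 𝓞 K4) * iO)) =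
    (1 - 2 * m - 2 * n, 2 * m - 2 * n) := by
  rw [← cp_coords]
  congr 1
  rw [lam_cube]
  push_cast
  linear_combination (2 * (n : 𝓞 K4)) * iO_sq

theorem exists_mn {x : 𝓞 K4} (hx : lam ^ 3 ∣ x - 1) : ∃ m n : ℤ,
    x = 1 + lam ^ 3 * ((m : 𝓞 K4) + (n : 𝓞 K4) * iO) := by
  obtain ⟨t, ht⟩ := hx
  obtain ⟨m, n, rfl⟩ := exists_coords4 t
  exact ⟨m, n, by rw [← ht]; ring⟩

/-- The coordinates of `x ≡ 1` modulo `lam³`. -/
theorem cp_mod {x : 𝓞 K4} (hx : lam ^ 3 ∣ x - 1) :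
    (cp x).2 % 2 = 0 ∧ ((cp x).1 + (cp x).2) % 4 = 1 := by
  obtain ⟨m, n, rfl⟩ := exists_mn hx
  rw [cp_of_mul]
  constructor
  · change (2 * m - 2 * n) % 2 = 0
    omega
  · change (1 - 2 * m - 2 * n + (2 * m - 2 * n)) % 4 = 1
    omega

theorem Pg.dvd (q : Pg) : lam ^ 3 ∣ q.1 - 1 := q.2.2

theorem Pg.ext {p q : Pg} (h : p.1 = q.1) : p = q := Subtype.ext h

/-- The coordinates of a prime. -/
theorem Pg.eq_cp (q : Pg) : q.1 = ((cp q.1).1 : 𝓞 K4) + ((cp q.1).2 : 𝓞 K4) * iO :=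
  MP_1a91b9_ntQ.eq_cp q.1

theorem Pg.cp_one (q : Pg) : (cp q.1).1 % 2 = 1 := by
  have h := cp_mod q.dvd
  omega

theorem Pg.cp_two (q : Pg) : (cp q.1).2 % 2 = 0 := (cp_mod q.dvd).1

theorem Pg.mem_iff (q : Pg) (x : 𝓞 K4) : x ∈ Ideal.span {q.1} ↔ q.1 ∣ x :=
  Ideal.mem_span_singleton

/-- Associated primes in `Pg` are equal. -/
theorem Pg.eq_of_assoc {p q : Pg} (h : Associated p.1 q.1) : p = q := by
  obtain ⟨u, hu⟩ := h
  obtain ⟨m, n, hmn⟩ := exists_coords4 (u : 𝓞 K4)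
  have h1 := u.isUnit
  rw [hmn, gauI.isUnit_iff] at h1
  -- `lam³ ∣ u - 1`
  have h2 : lam ^ 3 ∣ (u : 𝓞 K4) - 1 := by
    have e : (u : 𝓞 K4) - 1 = (q.1 - 1) - (p.1 - 1) * (u : 𝓞 K4) := by
      rw [← hu]
      ring
    rw [e]
    exact dvd_sub q.dvd (Dvd.dvd.mul_right p.dvd _)
  obtain ⟨m', n', h3⟩ := exists_mn h2
  have h4 := cp_of_mul m' n'
  rw [← h3, hmn, cp_coords] at h4
  have e1 : m = 1 - 2 * m' - 2 * n' := congrArg Prod.fst h4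
  have e2 : n = 2 * m' - 2 * n' := congrArg Prod.snd h4
  unfold Sy.nm at h1
  have hn : n = 0 := by
    have h5 : n ^ 2 ≤ 1 := by nlinarith [sq_nonneg m]
    have h6 : -1 ≤ n ∧ n ≤ 1 := by constructor <;> nlinarith
    omega
  have hm : m = 1 := by
    rw [hn] at h1
    have h5 : m * m = 1 := by linarith
    rcases Int.eq_one_or_neg_one_of_mul_eq_one h5 with h6 | h6
    · exact h6
    · omega
  apply Pg.ext
  rw [← hu, hmn, hm, hn]
  simp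

/-! ### the quartic symbol -/

/-- The quartic symbol of `i`. -/
theorem c4_iO (q : Pg) : c4 q iO = nn q.1 := by
  have h := MP_1a91b9_nuX.HQ.qs_i gi q.g4
  rw [absNorm_span] at h
  exact h

theorem c2_iO (q : Pg) : c2 q iO = aa q.1 := by
  unfold c2 aa
  rw [c4_iO]

/-- The quartic symbol of `lam`, in coordinates. -/
theorem c4_lam_cp (q : Pg) : c4 q lam =
    ((((cp q.1).1 - (cp q.1).2 - (cp q.1).2 ^ 2 - 1) / 4 : ℤ) : ZMod 4) := by
  have h := Sp.qs_lam4 gi (a := (cp q.1).1) (b := (cp q.1).2) q.cp_two (cp_mod q.dvd).2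
    (by rw [← q.eq_cp]; exact q.prime)
  rw [← q.eq_cp] at h
  exact h

/-- **The quartic symbol of `lam`.** -/
theorem c4_lam (q : Pg) {m n : ℤ} (h : q.1 = 1 + lam ^ 3 * ((m : 𝓞 K4) + (n : 𝓞 K4) * iO)) :
    c4 q lam = -(m : ZMod 4) - ((m : ZMod 4) - n) ^ 2 := by
  rw [c4_lam_cp, h, cp_of_mul]
  have e : (((1 - 2 * m - 2 * n, 2 * m - 2 * n) : ℤ × ℤ).1 -
      ((1 - 2 * m - 2 * n, 2 * m - 2 * n) : ℤ × ℤ).2 -
      ((1 - 2 * m - 2 * n, 2 * m - 2 * n) : ℤ × ℤ).2 ^ 2 - 1) / 4 = -m - (m - n) ^ 2 := by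
    change (1 - 2 * m - 2 * n - (2 * m - 2 * n) - (2 * m - 2 * n) ^ 2 - 1) / 4 = -m - (m - n) ^ 2
    have : 1 - 2 * m - 2 * n - (2 * m - 2 * n) - (2 * m - 2 * n) ^ 2 - 1 =
        4 * (-m - (m - n) ^ 2) := by ring
    rw [this]
    omega
  rw [e]
  push_cast
  ring

theorem lam_not_dvd (q : Pg) : ¬ q.1 ∣ lam := by
  intro h
  exact (Sp.lam_notMem gi q.g4).1 ((q.mem_iff _).2 h)

theorem bb_of {x : 𝓞 K4} {m n : ℤ} (h : x = 1 + lam ^ 3 * ((m : 𝓞 K4) + (n : 𝓞 K4) * iO)) :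
    bb x = (n : ZMod 2) := by
  unfold bb
  rw [h, cp_of_mul]
  have e : (((1 - 2 * m - 2 * n, 2 * m - 2 * n) : ℤ × ℤ).1 +
      ((1 - 2 * m - 2 * n, 2 * m - 2 * n) : ℤ × ℤ).2 - 1) / 4 = -n := by
    change (1 - 2 * m - 2 * n + (2 * m - 2 * n) - 1) / 4 = -n
    omega
  rw [e]
  push_cast
  have : ∀ z : ZMod 2, -z = z := by decide
  exact this _

/-- The quadratic symbol of `lam`. -/
theorem c2_lam (q : Pg) : c2 q lam = bb q.1 := by
  obtain ⟨m, n, h⟩ := exists_mn q.dvd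
  unfold c2
  rw [c4_lam q h, bb_of h]
  have e : -(m : ZMod 4) - ((m : ZMod 4) - n) ^ 2 = ((-m - (m - n) ^ 2 : ℤ) : ZMod 4) := by
    push_cast
    ring
  rw [e, md_intCast]
  push_cast
  have : ∀ x y : ZMod 2, -x - (x - y) ^ 2 = y := by decide
  exact this _ _

theorem nn_of {x : 𝓞 K4} {m n : ℤ} (h : x = 1 + lam ^ 3 * ((m : 𝓞 K4) + (n : 𝓞 K4) * iO)) :
    nn x = (m : ZMod 4) * 3 + (n : ZMod 4) * 3 + 2 * ((m : ZMod 4) ^ 2 + (n : ZMod 4) ^ 2) := by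
  have h1 := Nz_cp x
  rw [h, cp_of_mul] at h1
  change (Nz _ : ℤ) = (1 - 2 * m - 2 * n) ^ 2 + (2 * m - 2 * n) ^ 2 at h1
  rw [← h] at h1
  unfold nn
  have h2 : (((Nz x - 1) / 4 : ℕ) : ℤ) = -m - n + 2 * (m * m) + 2 * (n * n) := by
    have h3 : (Nz x : ℤ) = 4 * (-m - n + 2 * (m * m) + 2 * (n * n)) + 1 := by
      rw [h1]
      ring
    omega
  rw [← Int.cast_natCast, h2]
  push_cast
  have h4 : (4 : ZMod 4) = 0 := by decide
  linear_combination (-(m : ZMod 4) - n) * h4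

/-! ### the quadratic symbol -/

theorem c2_mul (q : Pg) {x y : 𝓞 K4} (hx : ¬ q.1 ∣ x) (hy : ¬ q.1 ∣ y) :
    c2 q (x * y) = c2 q x + c2 q y := by
  unfold c2
  rw [c4_mul q hx hy, map_add]

theorem c2_congr (q : Pg) {x y : 𝓞 K4} (hx : ¬ q.1 ∣ x) (hxy : q.1 ∣ x - y) : c2 q x = c2 q y := by
  unfold c2
  rw [c4_congr q hx hxy]

theorem c2_one (q : Pg) : c2 q 1 = 0 := by
  unfold c2
  rw [c4_one, map_zero]

/-- The norm of a prime is `1` modulo `4`. -/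
theorem Pg.Nz_mod (q : Pg) : Nz q.1 % 4 = 1 := by
  have h := MP_1a91b9_nuX.HQ.G4.dvd gi q.g4
  rw [absNorm_span] at h
  have h2 := Nz_two_le q.prime
  omega

theorem md_eq_zero_iff (c : ZMod 4) : md c = 0 ↔ 2 * c = 0 := by
  have h : ∀ c : ZMod 4, (ZMod.castHom (show 2 ∣ 4 by norm_num) (ZMod 2)) c = 0 ↔ 2 * c = 0 := by
    decide
  exact h c

theorem two_qs_eq_zero_iff {π : 𝓞 K4} (hG : G4 (Ideal.span {π})) (hmod : Nz π % 4 = 1) {x : 𝓞 K4}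
    (hx' : x ∉ Ideal.span {π}) :
    2 * qs iO (Ideal.span {π}) x = 0 ↔ ∃ z : 𝓞 K4, π ∣ z ^ 2 - x := by
  have h1 := qs_sq gi hG hx'
  rw [absNorm_span] at h1
  have hmax : (Ideal.span {π}).IsMaximal := Ideal.IsPrime.isMaximal hG.pr hG.ne
  let _ : Field (𝓞 K4 ⧸ Ideal.span {π}) := Ideal.Quotient.field _
  have i2 : Finite (𝓞 K4 ⧸ Ideal.span {π}) := Ideal.finiteQuotientOfFreeOfNeBot _ hG.ne
  let _ : Fintype (𝓞 K4 ⧸ Ideal.span {π}) := Fintype.ofFinite _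
  have hcard : Fintype.card (𝓞 K4 ⧸ Ideal.span {π}) = Nz π := by
    rw [← absNorm_span, ← Nat.card_eq_fintype_card]
    rfl
  have hchar : ringChar (𝓞 K4 ⧸ Ideal.span {π}) ≠ 2 := by
    intro h2
    apply hG.two
    rw [← Ideal.Quotient.eq_zero_iff_mem, map_ofNat]
    have h3 := (ringChar.spec (𝓞 K4 ⧸ Ideal.span {π}) 2).2 (by rw [h2])
    exact_mod_cast h3
  have hx0 : Ideal.Quotient.mk (Ideal.span {π}) x ≠ 0 := fun h0 =>
    hx' (Ideal.Quotient.eq_zero_iff_mem.1 h0)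
  have h2 := FiniteField.isSquare_iff hchar hx0
  rw [hcard] at h2
  have e2 : Nz π / 2 = (Nz π - 1) / 2 := by omega
  rw [e2, ← map_pow] at h2
  have h3 : (Ideal.Quotient.mk (Ideal.span {π}) (x ^ ((Nz π - 1) / 2)) = 1) ↔
      2 * qs iO (Ideal.span {π}) x = 0 := by
    rw [← map_one (Ideal.Quotient.mk (Ideal.span {π})), Ideal.Quotient.mk_eq_mk_iff_sub_mem]
    constructor
    · intro h4
      have h5 := Ideal.add_mem _ h1 h4
      rw [sub_add_sub_cancel, ← w_zero (i := iO)] at h5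
      exact hG.inj gi h5
    · intro h4
      have h5 : w iO (2 * qs iO (Ideal.span {π}) x) = 1 := by rw [h4, w_zero]
      have h6 : w iO (2 * qs iO (Ideal.span {π}) x) - 1 ∈ Ideal.span {π} := by
        rw [h5, sub_self]
        exact zero_mem _
      have key : ∀ A B : 𝓞 K4, A - 1 ∈ Ideal.span {π} → A - B ∈ Ideal.span {π} →
          B - 1 ∈ Ideal.span {π} := by
        intro A B hA hB
        have h7 := Ideal.sub_mem _ hA hB
        rwa [sub_sub_sub_cancel_left] at h7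
      exact key _ _ h6 h1
  rw [← h3, ← h2]
  constructor
  · rintro ⟨z, hz⟩
    obtain ⟨z, rfl⟩ := Ideal.Quotient.mk_surjective z
    refine ⟨z, ?_⟩
    rw [← Ideal.mem_span_singleton, ← Ideal.Quotient.eq_zero_iff_mem, map_sub, map_pow, hz,
      pow_two, sub_self]
  · rintro ⟨z, hz⟩
    refine ⟨Ideal.Quotient.mk _ z, ?_⟩
    rw [← Ideal.mem_span_singleton, ← Ideal.Quotient.eq_zero_iff_mem, map_sub, map_pow] at hz
    rw [← pow_two]
    exact (sub_eq_zero.1 hz).symm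

/-- **`c2 q x = 0` iff `x` is a square modulo `q`.** -/
theorem c2_eq_zero_iff (q : Pg) {x : 𝓞 K4} (hx : ¬ q.1 ∣ x) :
    c2 q x = 0 ↔ ∃ z : 𝓞 K4, q.1 ∣ z ^ 2 - x := by
  have hx' : x ∉ Ideal.span {q.1} := fun h => hx ((q.mem_iff x).1 h)
  unfold c2
  rw [md_eq_zero_iff]
  exact two_qs_eq_zero_iff q.g4 q.Nz_mod hx'

theorem c2_eq_zero_iff_qs (q : Pg) {x : 𝓞 K4} (hx : ¬ q.1 ∣ x) :
    c2 q x = 0 ↔ Sy.qs x q.1 = 1 := by
  rw [c2_eq_zero_iff q hx, Sy.qs_eq_one_iff]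

/-- **Quadratic reciprocity.** -/
theorem s4_symm {p q : Pg} (h : p ≠ q) : s4 p q = s4 q p := by
  have h1 : c2 p q.1 = 0 ↔ c2 q p.1 = 0 := by
    rw [c2_eq_zero_iff_qs p (Pg.not_dvd h), c2_eq_zero_iff_qs q (Pg.not_dvd h.symm)]
    have h2 := Sy.recip gauI (x := (cp q.1).1) (y := (cp q.1).2) (c := (cp p.1).1)
      (d := (cp p.1).2) q.cp_one q.cp_two p.cp_one p.cp_two
      (by rw [← q.eq_cp]; exact q.prime) (by rw [← p.eq_cp]; exact p.prime)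
      (by
        rw [← q.eq_cp, ← p.eq_cp]
        exact fun h3 => h (Pg.eq_of_assoc h3).symm)
    rw [← q.eq_cp, ← p.eq_cp] at h2
    rw [h2]
  have key : ∀ a b : ZMod 2, (a = 0 ↔ b = 0) → a = b := by decide
  exact key _ _ h1

theorem d4_sym : d4.Sym := fun _ _ h => s4_symm h

end

end Pool.Agent.Lib.MP_1a91b9_ntQ
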