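import Pool.Agent.Lib.MP_1a91b9_ntQ.R.AuxB
import Pool.Agent.Lib.MP_1a91b9_ntQ.R.Qd4
import Pool.Agent.Lib.MP_1a91b9_ntQ.D.ExtB

/-!
# MP_1a91b9_nt (quartic twists), part R: the quadratic L-functions do not vanish at 1

For a nontrivial quadratic character `χ` of the system `d4` the Euler products of `-χ` are bounded on
`(1, 3]`: `CharB (fun q => - d4.ch T c q) C`. More generally this holds for every set of primes `ι` with
an injective, norm-preserving map to the places of a number field `k`, whose complement is finite, and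
every `χ` with values in `[-1, 1]` which is `1` at (almost) all the places modulo which a given
nonsquare `x` is a square.

PROOF. The zeta function of `k(√x)` has a pole at `1`: `∑ N v ^ (-s)` over the split places is
`½ log (1 / (s - 1)) + O(1)` (`spl_low`). So `∑ χ(v) N v ^ (-s)` is bounded below.
-/

set_option autoImplicit false

namespace Pool.Agent.Lib.MP_1a91b9_ntQ

open NumberField Finset IsDedekindDomain
open Pool.Agent.Lib.MP_1a91b9_nt (nrm summable_nrm nrm_eq)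
open Pool.Agent.Lib.MP_1a91b9_ntT.CF (PZ Spl PZ_mono PZ_union PZ_finite prime_sum spl_low trichotomy)
open Pool.Agent.Lib.MP_1a91b9_ntT.S4 (quad_split_at Over)
open Pool.Agent.Lib.MP_1a91b9_ntH (PS nm pr Sx CharB mem_pr sg)

universe u

noncomputable section

/-! ## The analytic part -/

private theorem nv_inv_le {x : ℝ} (h : |x| ≤ 1 / 2) : (1 - x)⁻¹ ≤ Real.exp (x + 2 * x ^ 2) := by
  obtain ⟨h1, h2⟩ := abs_le.1 h
  have h3 : 0 < 1 - x := by linarith
  have h4 : (1 - x)⁻¹ = x * (1 - x)⁻¹ + 1 := by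
    field_simp
    ring
  have h5 : x * (1 - x)⁻¹ ≤ x + 2 * x ^ 2 := by
    rw [← div_eq_mul_inv, div_le_iff₀ h3]
    nlinarith [sq_nonneg x, mul_nonneg (sq_nonneg x) (by linarith : (0 : ℝ) ≤ 1 - 2 * x)]
  calc (1 - x)⁻¹ = x * (1 - x)⁻¹ + 1 := h4
    _ ≤ Real.exp (x * (1 - x)⁻¹) := Real.add_one_le_exp _
    _ ≤ Real.exp (x + 2 * x ^ 2) := Real.exp_le_exp.2 h5

private theorem nv_prod_le {ι : Type} (s : Finset ι) (f : ι → ℝ) (hf : ∀ q, |f q| ≤ 1 / 2) :
    ∏ q ∈ s, (1 - f q)⁻¹ ≤ Real.exp (∑ q ∈ s, (f q + 2 * f q ^ 2)) := by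
  rw [Real.exp_sum]
  refine prod_le_prod (fun q _ => ?_) fun q _ => nv_inv_le (hf q)
  have h1 := (abs_le.1 (hf q)).2
  exact inv_nonneg.2 (by linarith)

private theorem nv_half {ι : Type} [PS ι] (q : ι) {s : ℝ} (hs : 1 ≤ s) :
    (PS.N q : ℝ) ^ (-s) ≤ 1 / 2 := by
  have h1 : (2 : ℝ) ≤ (PS.N q : ℝ) := by exact_mod_cast PS.two_le q
  calc (PS.N q : ℝ) ^ (-s) ≤ (PS.N q : ℝ) ^ (-(1 : ℝ)) :=
        Real.rpow_le_rpow_of_exponent_le (by linarith) (by linarith)
    _ = (PS.N q : ℝ)⁻¹ := Real.rpow_neg_one _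
    _ ≤ 2⁻¹ := inv_anti₀ (by norm_num) h1
    _ = 1 / 2 := by norm_num

private theorem nv_nonneg {ι : Type} [PS ι] (q : ι) (s : ℝ) : 0 ≤ (PS.N q : ℝ) ^ (-s) := by
  positivity

private theorem nv_sq_le {ι : Type} [PS ι] (q : ι) {s : ℝ} (hs : 1 ≤ s) :
    ((PS.N q : ℝ) ^ (-s)) ^ 2 ≤ (PS.N q : ℝ) ^ (-(2 : ℝ)) := by
  have h1 : (2 : ℝ) ≤ (PS.N q : ℝ) := by exact_mod_cast PS.two_le q
  rw [← Real.rpow_natCast, ← Real.rpow_mul (by linarith)]
  refine Real.rpow_le_rpow_of_exponent_le (by linarith) ?_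
  push_cast
  linarith

private theorem nv_tendsto_pr (ι : Type) [PS ι] :
    Filter.Tendsto (fun x : ℕ => pr ι x) Filter.atTop Filter.atTop := by
  classical
  refine Filter.tendsto_atTop_finset_of_monotone ?_ ?_
  · intro x y hxy q hq
    exact mem_pr.2 ((mem_pr.1 hq).trans hxy)
  · intro q
    exact ⟨PS.N q, mem_pr.2 le_rfl⟩

/-- **The Euler products of `-χ` are bounded**, if the sum over the primes where `χ = 1` is half of the
whole sum. -/
theorem nv_charB_of {ι : Type} [PS ι] {χ : ι → ℝ} (h1 : ∀ q, |χ q| ≤ 1) {B₁ B₂ : ℝ}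
    (hs : ∀ s : ℝ, 1 < s → Summable fun q : ι => (PS.N q : ℝ) ^ (-s))
    (hup : ∀ s : ℝ, 1 < s → s ≤ 2 →
      ∑' q : ι, (PS.N q : ℝ) ^ (-s) ≤ Real.log (1 / (s - 1)) + B₁)
    (hlo : ∀ s : ℝ, 1 < s → s ≤ 2 → Real.log (1 / (s - 1)) - B₂ ≤
      2 * ∑' q : ι, {q : ι | χ q = 1}.indicator (fun q => (PS.N q : ℝ) ^ (-s)) q) :
    ∃ C, CharB (fun q => -(χ q)) C := by
  obtain ⟨M, hM⟩ : ∃ M : ℝ, M = ∑' q : ι, (PS.N q : ℝ) ^ (-(2 : ℝ)) := ⟨_, rfl⟩
  have hM0 : 0 ≤ M := by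
    rw [hM]
    exact tsum_nonneg fun q => nv_nonneg q 2
  have hMs : ∀ (S : Finset ι), ∑ q ∈ S, (PS.N q : ℝ) ^ (-(2 : ℝ)) ≤ M := by
    intro S
    rw [hM]
    exact (hs 2 (by norm_num)).sum_le_tsum S fun q _ => nv_nonneg q 2
  have habs : ∀ (q : ι) (s : ℝ), |(-(χ q)) * (PS.N q : ℝ) ^ (-s)| ≤ (PS.N q : ℝ) ^ (-s) := by
    intro q s
    rw [abs_mul, abs_neg, abs_of_nonneg (nv_nonneg q s)]
    calc |χ q| * (PS.N q : ℝ) ^ (-s) ≤ 1 * (PS.N q : ℝ) ^ (-s) :=
          mul_le_mul_of_nonneg_right (h1 q) (nv_nonneg q s)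
      _ = (PS.N q : ℝ) ^ (-s) := one_mul _
  have hsq : ∀ (q : ι) (s : ℝ), 1 ≤ s → ((-(χ q)) * (PS.N q : ℝ) ^ (-s)) ^ 2 ≤
      (PS.N q : ℝ) ^ (-(2 : ℝ)) := by
    intro q s hs1
    refine le_trans ?_ (nv_sq_le q hs1)
    rw [← sq_abs ((-(χ q)) * (PS.N q : ℝ) ^ (-s))]
    exact pow_le_pow_left₀ (abs_nonneg _) (habs q s) 2
  have hB1 : (1 : ℝ) ≤ Real.exp (|B₁| + |B₂| + 2 + 3 * M) := by
    rw [← Real.exp_zero]
    refine Real.exp_le_exp.2 ?_
    positivity
  refine ⟨Real.exp (|B₁| + |B₂| + 2 + 3 * M), ?_, hB1, ?_⟩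
  · intro q
    rw [abs_neg]
    exact h1 q
  intro σ hσ1 hσ3
  have hf : ∀ q : ι, |(-(χ q)) * (PS.N q : ℝ) ^ (-σ)| ≤ 1 / 2 := fun q =>
    (habs q σ).trans (nv_half q hσ1.le)
  rcases le_total σ 2 with hσ2 | hσ2
  · -- near `1`
    have hsum : Summable fun q : ι => {q : ι | χ q = 1}.indicator (fun q => (PS.N q : ℝ) ^ (-σ)) q :=
      (hs σ hσ1).indicator _
    have hten := hsum.hasSum.comp (nv_tendsto_pr ι)
    have hev := hten.eventually (lt_mem_nhds (b := ∑' q : ι,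
      {q : ι | χ q = 1}.indicator (fun q => (PS.N q : ℝ) ^ (-σ)) q) (a := (∑' q : ι,
      {q : ι | χ q = 1}.indicator (fun q => (PS.N q : ℝ) ^ (-σ)) q) - 1) (by linarith))
    filter_upwards [hev] with x hx
    refine (nv_prod_le (pr ι x) (fun q => (-(χ q)) * (PS.N q : ℝ) ^ (-σ)) hf).trans
      (Real.exp_le_exp.2 ?_)
    have e1 : ∀ q : ι, (-(χ q)) * (PS.N q : ℝ) ^ (-σ) + 2 * ((-(χ q)) * (PS.N q : ℝ) ^ (-σ)) ^ 2 ≤
        (PS.N q : ℝ) ^ (-σ) - 2 * {q : ι | χ q = 1}.indicator (fun q => (PS.N q : ℝ) ^ (-σ)) q +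
          2 * (PS.N q : ℝ) ^ (-(2 : ℝ)) := by
      intro q
      have e2 := hsq q σ hσ1.le
      by_cases hq : χ q = 1
      · rw [Set.indicator_of_mem (by exact hq : q ∈ {q : ι | χ q = 1})]
        rw [hq] at e2 ⊢
        linarith
      · rw [Set.indicator_of_notMem (by exact hq : q ∉ {q : ι | χ q = 1})]
        have e3 := le_abs_self ((-(χ q)) * (PS.N q : ℝ) ^ (-σ))
        have e4 := habs q σ
        linarith
    refine (sum_le_sum fun q _ => e1 q).trans ?_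
    rw [sum_add_distrib, sum_sub_distrib, ← mul_sum, ← mul_sum]
    have e5 : ∑ q ∈ pr ι x, (PS.N q : ℝ) ^ (-σ) ≤ ∑' q : ι, (PS.N q : ℝ) ^ (-σ) :=
      (hs σ hσ1).sum_le_tsum _ fun q _ => nv_nonneg q σ
    have e6 := hup σ hσ1 hσ2
    have e7 := hlo σ hσ1 hσ2
    have e8 := hMs (pr ι x)
    have e9 : (∑' q : ι, {q : ι | χ q = 1}.indicator (fun q => (PS.N q : ℝ) ^ (-σ)) q) - 1 <
        ∑ q ∈ pr ι x, {q : ι | χ q = 1}.indicator (fun q => (PS.N q : ℝ) ^ (-σ)) q := hx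
    have e10 := le_abs_self B₁
    have e11 := le_abs_self B₂
    linarith
  · -- away from `1`
    refine Filter.Eventually.of_forall fun x => ?_
    refine (nv_prod_le (pr ι x) (fun q => (-(χ q)) * (PS.N q : ℝ) ^ (-σ)) hf).trans
      (Real.exp_le_exp.2 ?_)
    have e1 : ∀ q : ι, (-(χ q)) * (PS.N q : ℝ) ^ (-σ) + 2 * ((-(χ q)) * (PS.N q : ℝ) ^ (-σ)) ^ 2 ≤
        3 * (PS.N q : ℝ) ^ (-(2 : ℝ)) := by
      intro q
      have e2 := hsq q σ hσ1.le
      have e3 := le_abs_self ((-(χ q)) * (PS.N q : ℝ) ^ (-σ))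
      have e4 := habs q σ
      have e5 : (PS.N q : ℝ) ^ (-σ) ≤ (PS.N q : ℝ) ^ (-(2 : ℝ)) := by
        have h3 : (2 : ℝ) ≤ (PS.N q : ℝ) := by exact_mod_cast PS.two_le q
        exact Real.rpow_le_rpow_of_exponent_le (by linarith) (by linarith)
      linarith
    refine (sum_le_sum fun q _ => e1 q).trans ?_
    rw [← mul_sum]
    have e8 := hMs (pr ι x)
    have e10 := abs_nonneg B₁
    have e11 := abs_nonneg B₂
    linarith

/-! ## The places modulo which a nonsquare is a square -/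

/-- The places of `k` modulo which the nonsquare `x` is a square. -/
theorem nv_sq_low (k : Type u) [Field k] [NumberField k] (x : 𝓞 k) (hx : ¬ IsSquare x) :
    ∃ B : ℝ, ∀ s : ℝ, 1 < s → s ≤ 2 → Real.log (1 / (s - 1)) - B ≤
      2 * PZ {v : HeightOneSpectrum (𝓞 k) | 2 * x ∉ v.asIdeal ∧
        IsSquare (Ideal.Quotient.mk v.asIdeal x)} s := by
  have hx' : ¬ IsSquare (algebraMap (𝓞 k) k x) := by
    rintro ⟨y, hy⟩
    apply hx
    have hint : IsIntegral (𝓞 k) y := by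
      have h3 : IsIntegral (𝓞 k) (y ^ 2) := by
        rw [pow_two, ← hy]
        exact isIntegral_algebraMap
      exact h3.of_pow two_pos
    obtain ⟨z, hz⟩ := IsIntegrallyClosed.isIntegral_iff.1 hint
    refine ⟨z, ?_⟩
    apply FaithfulSMul.algebraMap_injective (𝓞 k) k
    rw [hy, map_mul, hz]
  have hx0 : x ≠ 0 := by
    rintro rfl
    exact hx ⟨0, by simp⟩
  obtain ⟨E, i1, i2, i3, δ, hδ, -, -, hfr⟩ :=
    Pool.Agent.Lib.MP_1a91b9_ntT.S10.exists_quad k (algebraMap (𝓞 k) k x) hx'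
  have hquad : Algebra.IsQuadraticExtension k E := ⟨hfr⟩
  have hgal : IsGalois k E := inferInstance
  obtain ⟨B, hB⟩ := spl_low k E
  have h2x : Ideal.span {2 * x} ≠ 0 := by
    rw [Ne, Ideal.zero_eq_bot, Ideal.span_singleton_eq_bot]
    exact mul_ne_zero two_ne_zero hx0
  have hfin : {v : HeightOneSpectrum (𝓞 k) | 2 * x ∈ v.asIdeal}.Finite := by
    refine (Ideal.finite_factors h2x).subset fun v hv => ?_
    exact Ideal.dvd_iff_le.mpr ((Ideal.span_singleton_le_iff_mem _).2 hv)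
  obtain ⟨B4, hB4⟩ := PZ_finite _ hfin
  have hcover : {v : HeightOneSpectrum (𝓞 k) | Spl E v} ⊆
      {v : HeightOneSpectrum (𝓞 k) | 2 * x ∉ v.asIdeal ∧
        IsSquare (Ideal.Quotient.mk v.asIdeal x)} ∪ {v | 2 * x ∈ v.asIdeal} := by
    intro v hv
    by_cases h2 : 2 * x ∈ v.asIdeal
    · exact Or.inr h2
    refine Or.inl ⟨h2, ?_⟩
    have : Fact (Nat.Prime 2) := ⟨Nat.prime_two⟩
    rcases quad_split_at hfr x hx' δ hδ v h2 with ⟨h3, -⟩ | ⟨-, -, h4⟩
    · exact h3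
    · exfalso
      rcases trichotomy k E 2 hfr v with ⟨-, h5, -⟩ | ⟨-, h5, -⟩ | ⟨-, -, h5, -⟩
      · exact h5 hv
      · exact h5 hv
      · have h6 : Nat.card (Over E v) = 2 := by rw [Nat.card_eq_fintype_card, h5]
        have h7 : Nat.card (Over E v) = 1 := h4
        omega
  refine ⟨B + 2 * B4, fun s hs hs2 => ?_⟩
  have e0 := (PZ_mono hcover s hs).trans (PZ_union _ _ s hs)
  have e1 := hB s hs hs2
  have e2 := hB4 s hs
  rw [hfr] at e1
  push_cast at e1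
  linarith

/-- **Nonvanishing at `1`, for the primes of a number field.** -/
theorem nv_charB {ι : Type} [PS ι] (k : Type u) [Field k] [NumberField k]
    (e : ι → HeightOneSpectrum (𝓞 k)) (he : Function.Injective e) (hN : ∀ q, nrm (e q) = PS.N q)
    (hfin : (Set.range e)ᶜ.Finite) (x : 𝓞 k) (hx : ¬ IsSquare x) (χ : ι → ℝ)
    (h1 : ∀ q, |χ q| ≤ 1) (h2 : {q : ι | 2 * x ∉ (e q).asIdeal ∧
      IsSquare (Ideal.Quotient.mk (e q).asIdeal x) ∧ χ q ≠ 1}.Finite) :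
    ∃ C, CharB (fun q => -(χ q)) C := by
  have hterm : ∀ s : ℝ, (fun q : ι => (PS.N q : ℝ) ^ (-s)) =
      (fun v : HeightOneSpectrum (𝓞 k) => (nrm v : ℝ) ^ (-s)) ∘ e := by
    intro s
    funext q
    simp only [Function.comp_apply, hN]
  have hs : ∀ s : ℝ, 1 < s → Summable fun q : ι => (PS.N q : ℝ) ^ (-s) := by
    intro s h
    rw [hterm]
    exact (summable_nrm (K := k) s h).comp_injective he
  -- sums over subsets of `ι`
  have hsub : ∀ (Z : Set ι) (s : ℝ), ∑' q : ι, Z.indicator (fun q => (PS.N q : ℝ) ^ (-s)) q =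
      PZ (e '' Z) s := by
    intro Z s
    unfold PZ
    have h3 : Function.support ((e '' Z).indicator fun w : HeightOneSpectrum (𝓞 k) =>
        (nrm w : ℝ) ^ (-s)) ⊆ Set.range e := by
      intro v hv
      by_contra h4
      apply hv
      refine Set.indicator_of_notMem (fun h5 => h4 ?_) _
      obtain ⟨q, -, rfl⟩ := h5
      exact ⟨q, rfl⟩
    rw [← he.tsum_eq h3]
    refine tsum_congr fun q => ?_
    by_cases hq : q ∈ Z
    · rw [Set.indicator_of_mem hq, Set.indicator_of_mem (Set.mem_image_of_mem e hq), hN]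
    · rw [Set.indicator_of_notMem hq, Set.indicator_of_notMem]
      rintro ⟨q', hq', h4⟩
      exact hq (he h4 ▸ hq')
  obtain ⟨B₁, hB₁⟩ := prime_sum k
  obtain ⟨B₂, hB₂⟩ := nv_sq_low k x hx
  obtain ⟨B₃, hB₃⟩ := PZ_finite _ hfin
  obtain ⟨B₄, hB₄⟩ := PZ_finite _ (h2.image e)
  refine nv_charB_of h1 (B₁ := B₁) (B₂ := B₂ + 2 * (B₃ + B₄)) hs ?_ ?_
  · intro s hs1 hs2
    have h3 := hsub Set.univ s
    rw [Set.indicator_univ] at h3
    rw [h3]
    have h4 := PZ_mono (Set.subset_univ (e '' Set.univ)) s hs1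
    have h5 := (abs_le.1 (hB₁ s hs1 hs2)).2
    linarith
  · intro s hs1 hs2
    rw [hsub]
    have hcover : {v : HeightOneSpectrum (𝓞 k) | 2 * x ∉ v.asIdeal ∧
        IsSquare (Ideal.Quotient.mk v.asIdeal x)} ⊆
        e '' {q : ι | χ q = 1} ∪ ((Set.range e)ᶜ ∪ e '' {q : ι | 2 * x ∉ (e q).asIdeal ∧
          IsSquare (Ideal.Quotient.mk (e q).asIdeal x) ∧ χ q ≠ 1}) := by
      intro v hv
      by_cases hr : v ∈ Set.range e
      · obtain ⟨q, rfl⟩ := hr
        by_cases hq : χ q = 1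
        · exact Or.inl ⟨q, hq, rfl⟩
        · exact Or.inr (Or.inr ⟨q, ⟨hv.1, hv.2, hq⟩, rfl⟩)
      · exact Or.inr (Or.inl hr)
    have e0 := (PZ_mono hcover s hs1).trans ((PZ_union _ _ s hs1).trans (add_le_add_right
      (PZ_union _ _ s hs1) _))
    have e1 := hB₂ s hs1 hs2
    have e2 := hB₃ s hs1
    have e3 := hB₄ s hs1
    linarith

/-! ## The system `d4` -/

/-- The nonsquare of the character `ch T c`. -/
private def nvD (T : Finset Pg) (c : Fin 2 → ZMod 2) : 𝓞 K4 :=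
  iO ^ (c 0).val * (lam ^ (c 1).val * DDq T)

private theorem nv_val (x : ZMod 2) : x = 0 ∧ x.val = 0 ∨ x = 1 ∧ x.val = 1 := by
  revert x
  decide

private theorem nv_squarefree (T : Finset Pg) (c : Fin 2 → ZMod 2) : Squarefree (nvD T c) := by
  unfold nvD
  rw [squarefree_mul_iff]
  refine ⟨(isUnit_iO.pow _).isRelPrime_left, (isUnit_iO.pow _).squarefree, ?_⟩
  rcases nv_val (c 1) with ⟨-, h⟩ | ⟨-, h⟩
  · rw [h, pow_zero, one_mul]
    exact DDq_squarefree T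
  · rw [h, pow_one, squarefree_mul_iff]
    exact ⟨(prime_lam.irreducible.isRelPrime_iff_not_dvd).2 (DDq_in4 T).not_lam,
      prime_lam.squarefree, DDq_squarefree T⟩

private theorem nv_not_sq {T : Finset Pg} {c : Fin 2 → ZMod 2} (h : T ≠ ∅ ∨ c ≠ 0) :
    ¬ IsSquare (nvD T c) := by
  rintro ⟨z, hz⟩
  have h4 : IsUnit z := nv_squarefree T c z (by rw [hz])
  have h5 : IsUnit (nvD T c) := by
    rw [hz]
    exact h4.mul h4
  have h6 : IsUnit (lam ^ (c 1).val * DDq T) := isUnit_of_mul_isUnit_right h5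
  have hT : T = ∅ := by
    by_contra hT
    obtain ⟨q, hq⟩ := Finset.nonempty_iff_ne_empty.2 hT
    exact q.prime.not_isUnit (isUnit_of_dvd_unit (dvd_DDq.2 hq) (isUnit_of_mul_isUnit_right h6))
  have hc1 : c 1 = 0 := by
    rcases nv_val (c 1) with ⟨h7, -⟩ | ⟨-, h7⟩
    · exact h7
    · rw [h7, pow_one] at h6
      exact absurd (isUnit_of_mul_isUnit_left h6) prime_lam.not_isUnit
  have hc0 : c 0 ≠ 0 := by
    intro h7
    rcases h with h8 | h8
    · exact h8 hT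
    · apply h8
      funext j
      fin_cases j
      · exact h7
      · exact hc1
  rcases nv_val (c 0) with ⟨h7, -⟩ | ⟨-, h7⟩
  · exact hc0 h7
  · have h8 : nvD T c = iO := by
      unfold nvD
      rw [h7, hc1, hT, DDq_empty, ZMod.val_zero, pow_zero, pow_one, one_mul, mul_one]
    rw [h8] at hz
    exact iO_not_sq z hz

private theorem nv_c2 (q : Pg) {T : Finset Pg} (hq : q ∉ T) (c : Fin 2 → ZMod 2) :
    ¬ q.1 ∣ nvD T c ∧ c2 q (nvD T c) = d4.ex1 T c q := by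
  have hi : ¬ q.1 ∣ iO := fun h => q.prime.not_isUnit (isUnit_of_dvd_unit h isUnit_iO)
  have hl : ¬ q.1 ∣ lam := lam_not_dvd q
  have hD : ¬ q.1 ∣ DDq T := fun h => hq (dvd_DDq.1 h)
  have hex : d4.ex1 T c q = c 0 * aa q.1 + c 1 * bb q.1 + ∑ p ∈ T, s4 q p := by
    unfold Dat2.ex1
    rw [Fin.sum_univ_two]
    rfl
  have hi' : ¬ q.1 ∣ iO ^ (c 0).val := fun h => hi (q.prime.dvd_of_dvd_pow h)
  have hl' : ¬ q.1 ∣ lam ^ (c 1).val := fun h => hl (q.prime.dvd_of_dvd_pow h)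
  have hlD : ¬ q.1 ∣ lam ^ (c 1).val * DDq T := fun h => (q.prime.dvd_or_dvd h).elim hl' hD
  have ei : c2 q (iO ^ (c 0).val) = c 0 * aa q.1 := by
    rcases nv_val (c 0) with ⟨h1, h2⟩ | ⟨h1, h2⟩
    · rw [h2, h1, pow_zero, c2_one, zero_mul]
    · rw [h2, h1, pow_one, c2_iO, one_mul]
  have el : c2 q (lam ^ (c 1).val) = c 1 * bb q.1 := by
    rcases nv_val (c 1) with ⟨h1, h2⟩ | ⟨h1, h2⟩
    · rw [h2, h1, pow_zero, c2_one, zero_mul]
    · rw [h2, h1, pow_one, c2_lam, one_mul]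
  refine ⟨fun h => (q.prime.dvd_or_dvd h).elim hi' hlD, ?_⟩
  unfold nvD
  rw [c2_mul q hi' hlD, c2_mul q hl' hD, c2_DDq q hq, hex, ei, el]
  ring

/-- The place of a prime. -/
def plQ (q : Pg) : HeightOneSpectrum (𝓞 K4) where
  asIdeal := Ideal.span {q.1}
  isPrime := (Ideal.span_singleton_prime q.prime.ne_zero).2 q.prime
  ne_bot := by
    rw [Ne, Ideal.span_singleton_eq_bot]
    exact q.prime.ne_zero

theorem plQ_injective : Function.Injective plQ := by
  intro p q h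
  refine Pg.eq_of_assoc ?_
  rw [← Ideal.span_singleton_eq_span_singleton]
  exact congrArg HeightOneSpectrum.asIdeal h

theorem nrm_plQ (q : Pg) : nrm (plQ q) = PS.N q := by
  rw [nrm_eq]
  exact absNorm_span q.1

theorem plQ_compl : (Set.range plQ)ᶜ.Finite := by
  have hl : Ideal.span {lam} ≠ 0 := by
    rw [Ne, Ideal.zero_eq_bot, Ideal.span_singleton_eq_bot]
    exact prime_lam.ne_zero
  refine (Ideal.finite_factors hl).subset fun v hv => ?_
  obtain ⟨ρ, hρ⟩ : ∃ ρ, v.asIdeal = Ideal.span {ρ} :=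
    (IsPrincipalIdealRing.principal v.asIdeal).principal
  have hρ0 : ρ ≠ 0 := by
    rintro rfl
    apply v.ne_bot
    rw [hρ, Ideal.span_singleton_eq_bot]
  have hρp : Prime ρ := by
    rw [← Ideal.span_singleton_prime hρ0, ← hρ]
    exact v.isPrime
  by_cases hlρ : lam ∣ ρ
  · have h1 : Associated lam ρ := prime_lam.associated_of_dvd hρp hlρ
    show v.asIdeal ∣ Ideal.span {lam}
    rw [Ideal.dvd_iff_le, hρ, Ideal.span_singleton_le_span_singleton]
    exact h1.symm.dvd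
  · exfalso
    apply hv
    obtain ⟨k, q, hq⟩ := exists_Pg hρp hlρ
    refine ⟨q, HeightOneSpectrum.ext ?_⟩
    show Ideal.span {q.1} = v.asIdeal
    rw [hρ, Ideal.span_singleton_eq_span_singleton, hq]
    exact (associated_unit_mul_left ρ _ (isUnit_iO.pow k.val))

/-- The nontrivial quadratic characters do not vanish at `1`. -/
def Dat2.NV1 {ι κ : Type} [DecidableEq ι] [Fintype κ] [PS ι] (D : Dat2 ι κ) : Prop :=
  ∀ (T : Finset ι) (c : κ → ZMod 2), (T ≠ ∅ ∨ c ≠ 0) → ∃ C, CharB (fun q => -(D.ch T c q)) C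

/-- **Nonvanishing at `1` of the quadratic L-functions.** -/
theorem d4_nv : d4.NV1 := by
  intro T c h
  refine nv_charB K4 plQ plQ_injective nrm_plQ plQ_compl (nvD T c) (nv_not_sq h) (d4.ch T c) ?_ ?_
  · intro q
    unfold Dat2.ch sg
    split_ifs <;> simp
  · refine Set.Finite.subset (Finset.finite_toSet ∅) ?_
    rintro q ⟨h1, h2, h3⟩
    exfalso
    apply h3
    have hx : ¬ q.1 ∣ nvD T c := by
      intro h4
      apply h1
      show 2 * nvD T c ∈ Ideal.span {q.1}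
      rw [Ideal.mem_span_singleton]
      exact Dvd.dvd.mul_left h4 _
    have hq : q ∉ T := by
      intro h4
      apply hx
      unfold nvD
      exact Dvd.dvd.mul_left (Dvd.dvd.mul_left (dvd_DDq.2 h4) _) _
    obtain ⟨y', hy'⟩ := h2
    obtain ⟨y, rfl⟩ := Ideal.Quotient.mk_surjective y'
    rw [← map_mul, Ideal.Quotient.eq] at hy'
    have hy : q.1 ∣ nvD T c - y * y := Ideal.mem_span_singleton.1 hy'
    have h5 := c2_of_sq hx hy
    rw [(nv_c2 q hq c).2] at h5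
    unfold Dat2.ch sg
    rw [if_neg hq, if_pos h5]

/-- The form without the set `T`. -/
theorem Dat2.NV1.sg {ι κ : Type} [DecidableEq ι] [Fintype κ] [PS ι] {D : Dat2 ι κ} (h : D.NV1)
    {c : κ → ZMod 2} (hc : c ≠ 0) : ∃ C, CharB (fun q => -(sg (D.ex1 ∅ c q))) C := by
  obtain ⟨C, hC⟩ := h ∅ c (Or.inr hc)
  refine ⟨C, ?_⟩
  have h1 : (fun q => -(D.ch ∅ c q)) = fun q => -(Pool.Agent.Lib.MP_1a91b9_ntH.sg (D.ex1 ∅ c q)) := by
    funext q
    unfold Dat2.ch
    rw [if_neg (Finset.notMem_empty q)]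
  rw [h1] at hC
  exact hC

/-- Nonvanishing for the primes outside `B`. -/
theorem nv_off {ι κ : Type} [DecidableEq ι] [Fintype κ] [PS ι] {D : Dat2 ι κ} (h : D.NV1)
    (B : Finset ι) : (D.off B).NV1 := by
  intro T c hTc
  have hne : up T ∪ spB c ≠ ∅ ∨ (fun j => c (Sum.inl j)) ≠ 0 := by
    by_contra hcon
    push Not at hcon
    obtain ⟨h1, h2⟩ := hcon
    rw [union_eq_empty] at h1
    rcases hTc with h3 | h3
    · apply h3
      rw [← dn_up T, h1.1]
      rfl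
    · apply h3
      funext j
      rcases j with j | b
      · exact congrFun h2 j
      · by_contra hb
        have h4 : b.1 ∈ spB c := mem_spB.2 ⟨b.2, hb⟩
        rw [h1.2] at h4
        exact notMem_empty _ h4
  obtain ⟨C, hC⟩ := h (up T ∪ spB c) (fun j => c (Sum.inl j)) hne
  refine ⟨C * (3 / 2) ^ B.card, ?_⟩
  have h1 := charB_off (B := B) hC
  have h2 : (fun q : Off B => -(D.ch (up T ∪ spB c) (fun j => c (Sum.inl j)) q.1)) =
      fun q : Off B => -((D.off B).ch T c q) := by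
    funext q
    rw [ch_off]
  rw [h2] at h1
  exact h1

end

end Pool.Agent.Lib.MP_1a91b9_ntQ
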