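import Pool.Agent.Lib.MP_1a91b9_ntQ.R.Chi4

/-!
# MP_1a91b9_nt (quartic twists), part R: transfer of the density

The squarefree elements of `ℤ[i]` are the `i^k lam^j DDq S`, `j = 0, 1`. A lower bound for the
proportion of the good sets `S` in each family (class of `DDq S` modulo `lam^(m + 5)`, fixed `k` and
`j`) gives the same lower bound among the squarefree elements with a condition `R`.
-/

set_option autoImplicit false

namespace Pool.Agent.Lib.MP_1a91b9_ntQ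

open NumberField Finset
open Pool.Agent.Lib.MP_1a91b9_ntH (PS nm Sx mem_Sx)

noncomputable section

namespace Den4

/-! ### All classes have positive density -/

theorem gcl_mul (m : ℕ) {x y : 𝓞 K4} (hx : In4 x) (hy : In4 y) :
    gcl m (x * y) (hx.mul hy) = gcl m x hx + gcl m y hy := QSys.gq_mul _ _ _

theorem gcl_one (m : ℕ) : gcl m 1 in4_one = 0 := QSys.gq_one _

theorem psi_one (m : ℕ) (ψ : AddChar (G4n m) ℂ) (h : ∀ q, ψ (clq m q) = 1) :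
    ∀ (n : ℕ) (x : 𝓞 K4) (hx : In4 x), Nz x ≤ n → ψ (gcl m x hx) = 1 := by
  intro n
  induction n with
  | zero =>
    intro x hx hn
    exact absurd (Nz_eq_zero.1 (Nat.le_zero.1 hn)) hx.ne_zero
  | succ n ih =>
    intro x hx hn
    by_cases h1 : x = 1
    · subst h1
      rw [gcl_one, AddChar.map_zero_eq_one]
    · obtain ⟨q, y, hy⟩ := exists_prime_dvd4 hx h1
      subst hy
      have hy4 : In4 y := In4.of_mul q.in4 hx
      have h2 : Nz y ≤ n := by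
        rw [Nz_mul] at hn
        have h3 : 2 ≤ Nz q.1 := PS.two_le q
        have h4 : Nz y ≠ 0 := fun h0 => hy4.ne_zero (Nz_eq_zero.1 h0)
        nlinarith [Nat.pos_of_ne_zero h4]
      have e := gcl_mul m q.in4 hy4
      have e2 : gcl m (q.1 * y) hx = gcl m q.1 q.in4 + gcl m y hy4 := e
      rw [e2, AddChar.map_add_eq_mul, ih y hy4 h2, mul_one]
      exact h q

theorem psi_eq_one (m : ℕ) (ψ : AddChar (G4n m) ℂ) (h : ∀ q, ψ (clq m q) = 1) : ψ = 1 := by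
  ext g
  obtain ⟨x, hx, rfl⟩ := gcl_surj m g
  rw [psi_one m ψ h (Nz x) x hx le_rfl]
  rfl

theorem md4 : PrmG.Md prm4 (lam ^ 3) where
  ne := pow_ne_zero _ lam_ne_zero
  nu h := prime_lam.not_isUnit ((isUnit_pow_iff (by norm_num : (3 : ℕ) ≠ 0)).1 h)
  iff _ := Iff.rfl

/-- The sets with a given class. -/
def SG (m : ℕ) (g : G4n m) (X : ℕ) : Finset (Finset Pg) := by
  classical exact (Sx Pg X).filter fun S => ∑ q ∈ S, clq m q = g

theorem mem_SG {m : ℕ} {g : G4n m} {X : ℕ} {S : Finset Pg} :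
    S ∈ SG m g X ↔ nm S ≤ X ∧ ∑ q ∈ S, clq m q = g := by
  classical
  rw [SG, mem_filter, mem_Sx]

theorem psi_sum {G : Type} [AddCommGroup G] (ψ : AddChar G ℂ) {α : Type} (S : Finset α) (f : α → G) :
    ψ (∑ q ∈ S, f q) = ∏ q ∈ S, ψ (f q) := by
  classical
  induction S using Finset.induction_on with
  | empty => rw [sum_empty, prod_empty, AddChar.map_zero_eq_one]
  | insert a S ha ih => rw [sum_insert ha, prod_insert ha, AddChar.map_add_eq_mul, ih]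

/-- The orthogonality relation. -/
theorem card_SG (m : ℕ) (g : G4n m) (X : ℕ) :
    (Fintype.card (G4n m) : ℂ) * ((SG m g X).card : ℂ) =
      ∑ ψ : AddChar (G4n m) ℂ, ψ (-g) * ∑ S ∈ Sx Pg X, ∏ q ∈ S, ψ (clq m q) := by
  classical
  have h1 : ∀ S ∈ Sx Pg X, ∑ ψ : AddChar (G4n m) ℂ, ψ (-g) * ∏ q ∈ S, ψ (clq m q) =
      if ∑ q ∈ S, clq m q = g then (Fintype.card (G4n m) : ℂ) else 0 := by
    intro S _
    have h2 : ∀ ψ : AddChar (G4n m) ℂ, ψ (-g) * ∏ q ∈ S, ψ (clq m q) =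
        ψ (-g + ∑ q ∈ S, clq m q) := by
      intro ψ
      rw [AddChar.map_add_eq_mul, psi_sum]
    simp only [h2]
    rw [AddChar.sum_apply_eq_ite]
    by_cases h3 : ∑ q ∈ S, clq m q = g
    · rw [if_pos h3, if_pos (by rw [h3, neg_add_cancel])]
    · rw [if_neg h3, if_neg (fun h4 => h3 (by rwa [neg_add_eq_zero, eq_comm] at h4))]
  simp only [mul_sum]
  rw [sum_comm, sum_congr rfl h1, ← sum_filter, sum_const, nsmul_eq_mul, mul_comm, SG]

/-- **Every class has positive density.** -/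
theorem class_card_ge (m : ℕ) (g : G4n m) : ∃ c : ℝ, 0 < c ∧ ∃ X₀ : ℕ, ∀ X : ℕ, X₀ ≤ X →
    c * X ≤ ((SG m g X).card : ℝ) := by
  classical
  obtain ⟨c, hc, X₁, h1⟩ := PrmG.card_ge md4
  obtain ⟨N, hN⟩ : ∃ N : ℝ, N = (Fintype.card (G4n m) : ℝ) := ⟨_, rfl⟩
  have hN0 : 0 < N := by
    rw [hN]
    exact_mod_cast Fintype.card_pos
  have hε : 0 < c / (2 * N) := by positivity
  have h2 : ∀ ψ : AddChar (G4n m) ℂ, ∃ X₀ : ℕ, ∀ X : ℕ, X₀ ≤ X → ψ ≠ 1 →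
      ‖∑ S ∈ Sx Pg X, ∏ q ∈ S, ψ (clq m q)‖ ≤ c / (2 * N) * X := by
    intro ψ
    by_cases hψ : ψ = 1
    · exact ⟨0, fun X _ h => absurd hψ h⟩
    · have h3 : ∃ q, ψ (clq m q) ≠ 1 := by
        by_contra h3
        push Not at h3
        exact hψ (psi_eq_one m ψ h3)
      obtain ⟨X₀, h4⟩ := h3_gcl m ψ h3 _ hε
      exact ⟨X₀, fun X hX _ => h4 X hX⟩
  choose X₂ h2 using h2
  refine ⟨c / (2 * N), hε, X₁ + ∑ ψ, X₂ ψ, fun X hX => ?_⟩
  have hX2 : ∀ ψ, X₂ ψ ≤ X := fun ψ =>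
    (single_le_sum (fun _ _ => Nat.zero_le _) (mem_univ ψ)).trans ((Nat.le_add_left _ _).trans hX)
  have e := card_SG m g X
  rw [← add_sum_erase _ _ (mem_univ (1 : AddChar (G4n m) ℂ))] at e
  have e0 : (1 : AddChar (G4n m) ℂ) (-g) * ∑ S ∈ Sx Pg X, ∏ q ∈ S,
      (1 : AddChar (G4n m) ℂ) (clq m q) = ((Sx Pg X).card : ℂ) := by
    simp
  rw [e0] at e
  have hX0 : (0 : ℝ) ≤ X := Nat.cast_nonneg _
  have hrest : ‖∑ ψ ∈ (univ : Finset (AddChar (G4n m) ℂ)).erase 1,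
      ψ (-g) * ∑ S ∈ Sx Pg X, ∏ q ∈ S, ψ (clq m q)‖ ≤ N * (c / (2 * N) * X) := by
    refine (norm_sum_le _ _).trans ?_
    have h3 : ∀ ψ ∈ (univ : Finset (AddChar (G4n m) ℂ)).erase 1,
        ‖ψ (-g) * ∑ S ∈ Sx Pg X, ∏ q ∈ S, ψ (clq m q)‖ ≤ c / (2 * N) * X := by
      intro ψ hψ
      rw [norm_mul, AddChar.norm_apply, one_mul]
      exact h2 ψ X (hX2 ψ) (mem_erase.1 hψ).1
    refine (sum_le_sum h3).trans ?_
    rw [sum_const, nsmul_eq_mul]
    have h4 : ((univ : Finset (AddChar (G4n m) ℂ)).erase 1).card ≤ Fintype.card (G4n m) := by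
      refine (card_le_card (erase_subset _ _)).trans ?_
      rw [card_univ, AddChar.card_eq]
    have h5 : (((univ : Finset (AddChar (G4n m) ℂ)).erase 1).card : ℝ) ≤ N := by
      rw [hN]
      exact_mod_cast h4
    exact mul_le_mul_of_nonneg_right h5 (by positivity)
  have h4 := h1 X (by omega)
  have h5 : N * ((SG m g X).card : ℝ) ≥ ((Sx Pg X).card : ℝ) - N * (c / (2 * N) * X) := by
    have h6 : ‖((Sx Pg X).card : ℂ)‖ ≤
        ‖(Fintype.card (G4n m) : ℂ) * ((SG m g X).card : ℂ)‖ + N * (c / (2 * N) * X) := by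
      have h7 : ((Sx Pg X).card : ℂ) = (Fintype.card (G4n m) : ℂ) * ((SG m g X).card : ℂ) -
          ∑ ψ ∈ (univ : Finset (AddChar (G4n m) ℂ)).erase 1,
            ψ (-g) * ∑ S ∈ Sx Pg X, ∏ q ∈ S, ψ (clq m q) := by
        rw [e]
        ring
      rw [h7]
      refine (norm_sub_le _ _).trans ?_
      linarith
    rw [norm_mul, Complex.norm_natCast, Complex.norm_natCast, Complex.norm_natCast, ← hN] at h6
    linarith
  have h6 : N * (c / (2 * N) * X) = c * X / 2 := by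
    field_simp
  rw [h6] at h5
  have h7 : N * (c / (2 * N) * X) ≤ N * ((SG m g X).card : ℝ) := by
    rw [h6]
    linarith
  exact le_of_mul_le_mul_left h7 hN0

/-! ### The families -/

/-- The elements of a family. -/
def ph (k : ZMod 4) (j : Fin 2) (y : 𝓞 K4) : 𝓞 K4 := iO ^ k.val * lam ^ j.val * y

theorem Nz_pow (x : 𝓞 K4) (n : ℕ) : Nz (x ^ n) = Nz x ^ n := by
  induction n with
  | zero => simp [Nz_one]
  | succ n ih => rw [pow_succ, pow_succ, Nz_mul, ih]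

theorem Nz_ph (k : ZMod 4) (j : Fin 2) (y : 𝓞 K4) : Nz (ph k j y) = 2 ^ j.val * Nz y := by
  unfold ph
  rw [Nz_mul, Nz_mul, Nz_pow, Nz_pow, Nz_iO, Nz_lam, one_pow, one_mul]

theorem ph_squarefree (k : ZMod 4) (j : Fin 2) (S : Finset Pg) : Squarefree (ph k j (DDq S)) := by
  have h1 : Squarefree (lam ^ j.val * DDq S) := by
    have h01 : ∀ a : Fin 2, a = 0 ∨ a = 1 := by decide
    rcases h01 j with rfl | rfl
    · have e : (lam : 𝓞 K4) ^ ((0 : Fin 2)).val * DDq S = DDq S := by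
        show lam ^ 0 * DDq S = DDq S
        ring
      rw [e]
      exact DDq_squarefree S
    · have e : (lam : 𝓞 K4) ^ ((1 : Fin 2)).val * DDq S = lam * DDq S := by
        show lam ^ 1 * DDq S = lam * DDq S
        ring
      rw [e, squarefree_mul_iff]
      exact ⟨(prime_lam.irreducible.isRelPrime_iff_not_dvd).2 (DDq_in4 S).not_lam,
        prime_lam.squarefree, DDq_squarefree S⟩
  have h2 : Associated (ph k j (DDq S)) (lam ^ j.val * DDq S) := by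
    obtain ⟨u, hu⟩ := isUnit_iO.pow k.val
    refine Associated.symm ⟨u, ?_⟩
    rw [hu]
    unfold ph
    ring
  exact h1.squarefree_of_dvd h2.dvd

/-- The bound for the norm of the primary factor. -/
def Nj (j : Fin 2) (X : ℝ) : ℕ := ⌊X / 2 ^ j.val⌋₊

theorem Nz_ph_le (k : ZMod 4) (j : Fin 2) (S : Finset Pg) {X : ℝ} (hX : 0 ≤ X) :
    (Nz (ph k j (DDq S)) : ℝ) ≤ X ↔ nm S ≤ Nj j X := by
  have h2 : (0 : ℝ) < 2 ^ j.val := by positivity
  rw [Nz_ph, Nz_DDq, Nj, Nat.le_floor_iff (by positivity), le_div_iff₀ h2]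
  push_cast
  rw [mul_comm]

theorem Nj_le (j : Fin 2) {X : ℝ} (hX : 0 ≤ X) : (Nj j X : ℝ) ≤ X := by
  unfold Nj
  refine (Nat.floor_le (by positivity)).trans ?_
  refine div_le_self hX ?_
  exact one_le_pow₀ (by norm_num)

theorem le_Nj (j : Fin 2) {X : ℝ} (hX : 4 ≤ X) : X / 4 ≤ (Nj j X : ℝ) := by
  have h1 := Nat.lt_floor_add_one (X / 2 ^ j.val)
  have h2 : X / 2 ≤ X / 2 ^ j.val := by
    have h01 : ∀ a : Fin 2, a = 0 ∨ a = 1 := by decide
    rcases h01 j with rfl | rfl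
    · show X / 2 ≤ X / 2 ^ 0
      rw [pow_zero, div_one]
      linarith
    · show X / 2 ≤ X / 2 ^ 1
      rw [pow_one]
  unfold Nj
  linarith

theorem tendsto_Nj (j : Fin 2) : Filter.Tendsto (Nj j) Filter.atTop Filter.atTop := by
  unfold Nj
  exact tendsto_nat_floor_atTop.comp (Filter.tendsto_id.atTop_div_const (by positivity))

open Classical in
theorem card_all {X : ℝ} (hX : 0 ≤ X) (P : 𝓞 K4 → Prop) :
    Nat.card {x : 𝓞 K4 // Squarefree x ∧ (Nz x : ℝ) ≤ X ∧ P x} =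
      ∑ i : ZMod 4 × Fin 2, ((Sx Pg (Nj i.2 X)).filter fun S => P (ph i.1 i.2 (DDq S))).card := by
  have e : ∑ i : ZMod 4 × Fin 2, ((Sx Pg (Nj i.2 X)).filter fun S => P (ph i.1 i.2 (DDq S))).card =
      Nat.card ((i : ZMod 4 × Fin 2) ×
        {S // S ∈ (Sx Pg (Nj i.2 X)).filter fun S => P (ph i.1 i.2 (DDq S))}) := by
    rw [Nat.card_sigma]
    refine sum_congr rfl fun i _ => ?_
    rw [Nat.card_eq_fintype_card, Fintype.card_coe]
  rw [e]
  symm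
  refine Nat.card_congr (Equiv.ofBijective
    (fun s => ⟨ph s.1.1 s.1.2 (DDq s.2.1), ph_squarefree _ _ _, (Nz_ph_le _ _ _ hX).2
      (mem_Sx.1 (mem_filter.1 s.2.2).1), (mem_filter.1 s.2.2).2⟩) ⟨?_, ?_⟩)
  · rintro ⟨⟨k, j⟩, S, hS⟩ ⟨⟨k', j'⟩, S', hS'⟩ h
    have h1 : ph k j (DDq S) = ph k' j' (DDq S') := congrArg Subtype.val h
    obtain ⟨rfl, rfl, rfl⟩ := sqf_inj h1
    rfl
  · rintro ⟨x, h1, h2, h3⟩
    obtain ⟨k, j, S, rfl⟩ := exists_sqf h1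
    refine ⟨⟨(k, j), S, ?_⟩, rfl⟩
    rw [mem_filter, mem_Sx]
    exact ⟨(Nz_ph_le k j S hX).1 h2, h3⟩

theorem abs_norm_le (x : 𝓞 K4) (X : ℝ) :
    ((|Algebra.norm ℤ x| : ℤ) : ℝ) ≤ X ↔ (Nz x : ℝ) ≤ X := by
  rw [Nz, Nat.cast_natAbs]

theorem exists_ph {u : 𝓞 K4} (hu : ¬ lam ^ 2 ∣ u) : ∃ (k : ZMod 4) (j : Fin 2) (y : 𝓞 K4),
    In4 y ∧ u = ph k j y := by
  have key : ∀ v : 𝓞 K4, ¬ lam ∣ v → ∃ (k : ZMod 4) (y : 𝓞 K4), In4 y ∧ v = iO ^ k.val * y := by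
    intro v hv
    obtain ⟨k, hk⟩ := exists_pow_in4 hv
    refine ⟨-k, _, hk, ?_⟩
    rw [← mul_assoc, pow_val_mul, neg_add_cancel, ZMod.val_zero, pow_zero, one_mul]
  by_cases h : lam ∣ u
  · obtain ⟨v, rfl⟩ := h
    have hv : ¬ lam ∣ v := by
      rintro ⟨z, rfl⟩
      exact hu ⟨z, by ring⟩
    obtain ⟨k, y, hy, rfl⟩ := key v hv
    refine ⟨k, 1, y, hy, ?_⟩
    show lam * (iO ^ k.val * y) = iO ^ k.val * lam ^ 1 * y
    ring
  · obtain ⟨k, y, hy, rfl⟩ := key u h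
    refine ⟨k, 0, y, hy, ?_⟩
    show iO ^ k.val * y = iO ^ k.val * lam ^ 0 * y
    ring

end Den4

open Den4

open Classical in
/-- **The density among the squarefree elements with a condition `R`** which only depends on the
power of `i`, the power of `lam` and the class modulo `lam ^ (m + 5)` of the primary factor. -/
theorem density4 (m : ℕ) (R : 𝓞 K4 → Prop)
    (hR : ∀ (k : ZMod 4) (j : Fin 2) (y y' : 𝓞 K4), In4 y → In4 y' → lam ^ (m + 5) ∣ y - y' →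
      (R (ph k j y) ↔ R (ph k j y')))
    (hne : ∃ (k : ZMod 4) (j : Fin 2) (y : 𝓞 K4), In4 y ∧ R (ph k j y))
    (κ κ' : ℝ) (hκ : κ' < κ) (Good : ZMod 4 → Fin 2 → Finset Pg → Prop)
    (h : ∀ (k : ZMod 4) (j : Fin 2) (g : G4n m),
      (∃ (y : 𝓞 K4) (hy : In4 y), gcl m y hy = g ∧ R (ph k j y)) →
      ∀ ε : ℝ, 0 < ε → ∃ X₀ : ℕ, ∀ X : ℕ, X₀ ≤ X →
      κ * (((Sx Pg X).filter fun S => ∑ q ∈ S, clq m q = g).card : ℝ) - ε * X ≤
        (((Sx Pg X).filter fun S => ∑ q ∈ S, clq m q = g ∧ Good k j S).card : ℝ))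
    (Pr : 𝓞 K4 → Prop)
    (hPr : ∀ (k : ZMod 4) (j : Fin 2) (S : Finset Pg), R (ph k j (DDq S)) → Good k j S →
      Pr (ph k j (DDq S))) :
    ∀ᶠ X : ℝ in Filter.atTop,
      κ' ≤ (Nat.card {x : 𝓞 K4 // Squarefree x ∧ R x ∧ |Algebra.norm ℤ x| ≤ X ∧ Pr x} : ℝ) /
        (Nat.card {x : 𝓞 K4 // Squarefree x ∧ R x ∧ |Algebra.norm ℤ x| ≤ X} : ℝ) := by
  -- the families
  obtain ⟨J, hJ⟩ : ∃ J : Finset (ZMod 4 × Fin 2 × G4n m), ∀ i, i ∈ J ↔
      ∃ (y : 𝓞 K4) (hy : In4 y), gcl m y hy = i.2.2 ∧ R (ph i.1 i.2.1 y) :=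
    ⟨univ.filter fun i => ∃ (y : 𝓞 K4) (hy : In4 y), gcl m y hy = i.2.2 ∧ R (ph i.1 i.2.1 y),
      fun i => by rw [mem_filter, and_iff_right (mem_univ _)]⟩
  have hRi : ∀ (i : ZMod 4 × Fin 2 × G4n m) (S : Finset Pg), ∑ q ∈ S, clq m q = i.2.2 →
      (R (ph i.1 i.2.1 (DDq S)) ↔ i ∈ J) := by
    intro i S hS
    rw [← gcl_DDq] at hS
    rw [hJ]
    constructor
    · intro h1
      exact ⟨DDq S, DDq_in4 S, hS, h1⟩
    · rintro ⟨y, hy, h1, h2⟩
      rw [← h1, gcl_eq_iff] at hS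
      exact (hR _ _ _ _ (DDq_in4 S) hy hS).2 h2
  obtain ⟨i₀, hi₀⟩ : J.Nonempty := by
    obtain ⟨k, j, y, hy, h1⟩ := hne
    exact ⟨(k, j, gcl m y hy), (hJ _).2 ⟨y, hy, rfl, h1⟩⟩
  -- the numbers
  have hcount : ∀ (X : ℝ), 0 ≤ X → ∀ P : 𝓞 K4 → Prop,
      Nat.card {x : 𝓞 K4 // Squarefree x ∧ R x ∧ (Nz x : ℝ) ≤ X ∧ P x} =
        ∑ i ∈ J, ((Sx Pg (Nj i.2.1 X)).filter fun S => ∑ q ∈ S, clq m q = i.2.2 ∧
          P (ph i.1 i.2.1 (DDq S))).card := by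
    intro X hX P
    have e : Nat.card {x : 𝓞 K4 // Squarefree x ∧ R x ∧ (Nz x : ℝ) ≤ X ∧ P x} =
        Nat.card {x : 𝓞 K4 // Squarefree x ∧ (Nz x : ℝ) ≤ X ∧ (R x ∧ P x)} :=
      Nat.card_congr (Equiv.subtypeEquivRight fun x => by tauto)
    rw [e, card_all hX (fun x => R x ∧ P x)]
    have e2 : ∀ i : ZMod 4 × Fin 2,
        ((Sx Pg (Nj i.2 X)).filter fun S => R (ph i.1 i.2 (DDq S)) ∧ P (ph i.1 i.2 (DDq S))).card =
        ∑ g : G4n m, if (i.1, i.2, g) ∈ J then ((Sx Pg (Nj i.2 X)).filter fun S =>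
          ∑ q ∈ S, clq m q = g ∧ P (ph i.1 i.2 (DDq S))).card else 0 := by
      intro i
      rw [card_eq_sum_card_fiberwise (f := fun S : Finset Pg => ∑ q ∈ S, clq m q)
        (t := (univ : Finset (G4n m))) (fun _ _ => mem_coe.2 (mem_univ _))]
      refine sum_congr rfl fun g _ => ?_
      rw [filter_filter]
      split_ifs with hg
      · congr 1
        refine filter_congr fun S _ => ?_
        constructor
        · rintro ⟨⟨-, a⟩, b⟩
          exact ⟨b, a⟩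
        · rintro ⟨b, a⟩
          exact ⟨⟨(hRi (i.1, i.2, g) S b).2 hg, a⟩, b⟩
      · rw [card_eq_zero, filter_eq_empty_iff]
        rintro S _ ⟨⟨a, -⟩, b⟩
        exact hg ((hRi (i.1, i.2, g) S b).1 a)
    refine Eq.trans (b := ∑ i : ZMod 4 × Fin 2, ∑ g : G4n m, if (i.1, i.2, g) ∈ J then
      ((Sx Pg (Nj i.2 X)).filter fun S => ∑ q ∈ S, clq m q = g ∧ P (ph i.1 i.2 (DDq S))).card
        else 0) (sum_congr rfl fun i _ => by convert e2 i) ?_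
    have e3 : ∑ i ∈ J, ((Sx Pg (Nj i.2.1 X)).filter fun S => ∑ q ∈ S, clq m q = i.2.2 ∧
          P (ph i.1 i.2.1 (DDq S))).card =
        ∑ i : ZMod 4 × Fin 2 × G4n m, if i ∈ J then ((Sx Pg (Nj i.2.1 X)).filter fun S =>
          ∑ q ∈ S, clq m q = i.2.2 ∧ P (ph i.1 i.2.1 (DDq S))).card else 0 := by
      rw [sum_ite_mem, univ_inter]
    rw [e3, ← univ_product_univ, ← univ_product_univ, sum_product, sum_product]
    refine sum_congr rfl fun k _ => ?_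
    rw [← univ_product_univ, sum_product]
  have hcount' : ∀ (X : ℝ), 0 ≤ X →
      Nat.card {x : 𝓞 K4 // Squarefree x ∧ R x ∧ (Nz x : ℝ) ≤ X} =
        ∑ i ∈ J, ((Sx Pg (Nj i.2.1 X)).filter fun S => ∑ q ∈ S, clq m q = i.2.2).card := by
    intro X hX
    have := hcount X hX (fun _ => True)
    simpa only [and_true] using this
  -- the constants
  obtain ⟨c, hc, X₁, hX₁⟩ := class_card_ge m i₀.2.2
  obtain ⟨n, hn⟩ : ∃ n : ℝ, n = (J.card : ℝ) := ⟨_, rfl⟩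
  have hn0 : 0 < n := by
    rw [hn]
    exact_mod_cast card_pos.2 ⟨i₀, hi₀⟩
  have hd : 0 < κ - κ' := by linarith
  obtain ⟨ε, hε⟩ : ∃ ε : ℝ, ε = (κ - κ') * c / (4 * n) := ⟨_, rfl⟩
  have hε0 : 0 < ε := by
    rw [hε]
    positivity
  have h' : ∀ i ∈ J, ∃ X₀ : ℕ, ∀ X : ℕ, X₀ ≤ X →
      κ * (((Sx Pg X).filter fun S => ∑ q ∈ S, clq m q = i.2.2).card : ℝ) - ε * X ≤
        (((Sx Pg X).filter fun S => ∑ q ∈ S, clq m q = i.2.2 ∧ Good i.1 i.2.1 S).card : ℝ) :=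
    fun i hi => h i.1 i.2.1 i.2.2 ((hJ i).1 hi) ε hε0
  have hev : ∀ i ∈ J, ∀ᶠ X : ℝ in Filter.atTop,
      κ * (((Sx Pg (Nj i.2.1 X)).filter fun S => ∑ q ∈ S, clq m q = i.2.2).card : ℝ) -
        ε * (Nj i.2.1 X : ℝ) ≤
        (((Sx Pg (Nj i.2.1 X)).filter fun S => ∑ q ∈ S, clq m q = i.2.2 ∧
          Good i.1 i.2.1 S).card : ℝ) := by
    intro i hi
    obtain ⟨X₀, hX₀⟩ := h' i hi
    filter_upwards [(tendsto_Nj i.2.1).eventually_ge_atTop X₀] with X hX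
    exact hX₀ _ hX
  have hev2 := (Filter.eventually_all_finset J).2 hev
  filter_upwards [hev2, (tendsto_Nj i₀.2.1).eventually_ge_atTop X₁,
    Filter.eventually_ge_atTop (4 : ℝ)] with X hX hX1 hX4
  have hX0 : (0 : ℝ) ≤ X := by linarith
  simp only [abs_norm_le]
  rw [hcount X hX0 Pr, hcount' X hX0]
  push_cast
  -- the lower bound for the denominator
  have hden : c * (X / 4) ≤ ∑ i ∈ J, (((Sx Pg (Nj i.2.1 X)).filter fun S =>
      ∑ q ∈ S, clq m q = i.2.2).card : ℝ) := by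
    have h1 := hX₁ _ hX1
    have h2 : c * (X / 4) ≤ c * (Nj i₀.2.1 X : ℝ) :=
      mul_le_mul_of_nonneg_left (le_Nj _ hX4) hc.le
    have h3 : ((SG m i₀.2.2 (Nj i₀.2.1 X)).card : ℝ) ≤ ∑ i ∈ J, (((Sx Pg (Nj i.2.1 X)).filter
        fun S => ∑ q ∈ S, clq m q = i.2.2).card : ℝ) := by
      have h4 := single_le_sum (f := fun i : ZMod 4 × Fin 2 × G4n m =>
        (((Sx Pg (Nj i.2.1 X)).filter fun S => ∑ q ∈ S, clq m q = i.2.2).card : ℝ))
        (fun _ _ => Nat.cast_nonneg _) hi₀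
      refine le_trans (le_of_eq ?_) h4
      unfold SG
      congr! 2
    linarith
  have hpos : (0 : ℝ) < ∑ i ∈ J, (((Sx Pg (Nj i.2.1 X)).filter fun S =>
      ∑ q ∈ S, clq m q = i.2.2).card : ℝ) := lt_of_lt_of_le (by positivity) hden
  rw [le_div_iff₀ hpos]
  -- the numerator
  have hnum : κ * ∑ i ∈ J, (((Sx Pg (Nj i.2.1 X)).filter fun S =>
      ∑ q ∈ S, clq m q = i.2.2).card : ℝ) - n * (ε * X) ≤
      ∑ i ∈ J, (((Sx Pg (Nj i.2.1 X)).filter fun S => ∑ q ∈ S, clq m q = i.2.2 ∧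
        Pr (ph i.1 i.2.1 (DDq S))).card : ℝ) := by
    have h1 : ∀ i ∈ J, κ * (((Sx Pg (Nj i.2.1 X)).filter fun S =>
        ∑ q ∈ S, clq m q = i.2.2).card : ℝ) - ε * X ≤
        (((Sx Pg (Nj i.2.1 X)).filter fun S => ∑ q ∈ S, clq m q = i.2.2 ∧
          Pr (ph i.1 i.2.1 (DDq S))).card : ℝ) := by
      intro i hi
      have h2 := hX i hi
      have h3 : ε * (Nj i.2.1 X : ℝ) ≤ ε * X := mul_le_mul_of_nonneg_left (Nj_le _ hX0) hε0.le
      have h4 : (((Sx Pg (Nj i.2.1 X)).filter fun S => ∑ q ∈ S, clq m q = i.2.2 ∧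
          Good i.1 i.2.1 S).card : ℝ) ≤ (((Sx Pg (Nj i.2.1 X)).filter fun S =>
            ∑ q ∈ S, clq m q = i.2.2 ∧ Pr (ph i.1 i.2.1 (DDq S))).card : ℝ) := by
        refine Nat.cast_le.2 (card_le_card ?_)
        intro S hS
        rw [mem_filter] at hS ⊢
        exact ⟨hS.1, hS.2.1, hPr _ _ S ((hRi i S hS.2.1).2 hi) hS.2.2⟩
      linarith
    have h5 := sum_le_sum h1
    rw [sum_sub_distrib, ← mul_sum, sum_const, nsmul_eq_mul, ← hn] at h5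
    exact h5
  have hfin : n * (ε * X) ≤ (κ - κ') * (c * (X / 4)) := by
    rw [hε]
    apply le_of_eq
    field_simp
  have hfin2 : (κ - κ') * (c * (X / 4)) ≤ (κ - κ') * ∑ i ∈ J, (((Sx Pg (Nj i.2.1 X)).filter
      fun S => ∑ q ∈ S, clq m q = i.2.2).card : ℝ) := mul_le_mul_of_nonneg_left hden hd.le
  linarith

open Classical in
/-- The density in a class `u` modulo `M`, a divisor of `lam ^ (m + 5)`, `u` not divisible by
`lam²`. -/
theorem density4_cls (m : ℕ) {M u : 𝓞 K4} (hM : M ∣ lam ^ (m + 5)) (hu : ¬ lam ^ 2 ∣ u)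
    (κ κ' : ℝ) (hκ : κ' < κ) (Good : ZMod 4 → Fin 2 → Finset Pg → Prop)
    (h : ∀ (k : ZMod 4) (j : Fin 2) (g : G4n m),
      (∃ (y : 𝓞 K4) (hy : In4 y), gcl m y hy = g ∧ M ∣ ph k j y - u) →
      ∀ ε : ℝ, 0 < ε → ∃ X₀ : ℕ, ∀ X : ℕ, X₀ ≤ X →
      κ * (((Sx Pg X).filter fun S => ∑ q ∈ S, clq m q = g).card : ℝ) - ε * X ≤
        (((Sx Pg X).filter fun S => ∑ q ∈ S, clq m q = g ∧ Good k j S).card : ℝ))
    (Pr : 𝓞 K4 → Prop)
    (hPr : ∀ (k : ZMod 4) (j : Fin 2) (S : Finset Pg), M ∣ ph k j (DDq S) - u → Good k j S →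
      Pr (ph k j (DDq S))) :
    ∀ᶠ X : ℝ in Filter.atTop,
      κ' ≤ (Nat.card {x : 𝓞 K4 // Squarefree x ∧ M ∣ x - u ∧ |Algebra.norm ℤ x| ≤ X ∧ Pr x} : ℝ) /
        (Nat.card {x : 𝓞 K4 // Squarefree x ∧ M ∣ x - u ∧ |Algebra.norm ℤ x| ≤ X} : ℝ) := by
  refine density4 m (fun x => M ∣ x - u) ?_ ?_ κ κ' hκ Good h Pr hPr
  · intro k j y y' _ _ hyy
    have h1 : M ∣ ph k j y - ph k j y' := by
      refine (hM.trans hyy).trans ⟨iO ^ k.val * lam ^ j.val, ?_⟩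
      unfold ph
      ring
    constructor
    · intro h2
      have h3 := dvd_sub h2 h1
      have e : ph k j y - u - (ph k j y - ph k j y') = ph k j y' - u := by ring
      rwa [e] at h3
    · intro h2
      have h3 := dvd_add h2 h1
      have e : ph k j y' - u + (ph k j y - ph k j y') = ph k j y - u := by ring
      rwa [e] at h3
  · obtain ⟨k, j, y, hy, e⟩ := exists_ph hu
    exact ⟨k, j, y, hy, by rw [e, sub_self]; exact dvd_zero _⟩

end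

end Pool.Agent.Lib.MP_1a91b9_ntQ
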