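import Pool.Agent.Lib.MP_1a91b9_ntQ.R.Defs4
import Pool.Agent.Lib.MP_1a91b9_ntQ.R.SqF4

/-!
# MP_1a91b9_nt (quartic twists), part R: the number of the residue classes of `ℤ[i]`
-/

set_option autoImplicit false

namespace Pool.Agent.Lib.MP_1a91b9_ntQ

open NumberField Finset

noncomputable section

theorem card_quot (x : 𝓞 K4) : Nat.card (𝓞 K4 ⧸ Ideal.span {x}) = Nz x := by
  rw [← absNorm_span x, Ideal.absNorm_apply, Submodule.cardQuot_apply]

instance gauQO : GauQ (𝓞 K4) := ⟨fun x => by rw [card_quot, nG_eq]⟩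

/-- The same instance for the name `K` of the class `CD`. -/
instance gauQO' : GauQ (𝓞 Pool.Agent.Lib.MP_1a91b9_nuT.K) := gauQO

end

end Pool.Agent.Lib.MP_1a91b9_ntQ
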