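import Pool.Agent.Lib.MP_1a91b9_ntQ.R.ChiC
import Pool.Agent.Lib.MP_1a91b9_ntQ.R.Ring4
import Pool.Agent.Lib.MP_1a91b9_ntQ.R.Quot4

/-!
# MP_1a91b9_nt (quartic twists), part R: the characters of `ℤ[i]`

The abstract character theory (`QSys`) for the primes `≡ 1` modulo `lam³` of `ℤ[i]`, the quadratic
symbols and the class characters `aa`, `bb`; the group of the primary classes modulo `lamⁿ`.
-/

set_option autoImplicit false

namespace Pool.Agent.Lib.MP_1a91b9_ntQ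

open NumberField Finset
open Pool.Agent.Lib.MP_1a91b9_nuX.HQ (GI G4 qs w qs_spec w_zero)
open Pool.Agent.Lib.MP_1a91b9_ntH (sg PS nm Sx CharB)

noncomputable section

/-- There is a quadratic nonresidue. -/
theorem exists_c2 (q : Pg) : ∃ x : 𝓞 K4, ¬ q.1 ∣ x ∧ c2 q x = 1 := by
  classical
  obtain ⟨P, hPe⟩ : ∃ P, P = Ideal.span {q.1} := ⟨_, rfl⟩
  have h := q.g4
  rw [← hPe] at h
  have i0 := h.pr
  have hne : P ≠ ⊥ := by
    rw [hPe]
    intro h0
    exact q.ne_zero (Ideal.span_singleton_eq_bot.1 h0)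
  have i1 : P.IsMaximal := Ideal.IsPrime.isMaximal h.pr hne
  let _ : Field (𝓞 K4 ⧸ P) := Ideal.Quotient.field _
  have hfin : Finite (𝓞 K4 ⧸ P) := Ideal.finiteQuotientOfFreeOfNeBot P hne
  let _ : Fintype (𝓞 K4 ⧸ P) := Fintype.ofFinite _
  have hcard : Fintype.card (𝓞 K4 ⧸ P) = Ideal.absNorm P := by
    rw [Ideal.absNorm_apply, Submodule.cardQuot_apply, Nat.card_eq_fintype_card]
  obtain ⟨g, hg⟩ := IsCyclic.exists_generator (α := (𝓞 K4 ⧸ P)ˣ)
  have ho : orderOf g = Ideal.absNorm P - 1 := by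
    rw [orderOf_eq_card_of_forall_mem_zpowers hg, Nat.card_eq_fintype_card,
      Fintype.card_units, hcard]
  obtain ⟨y, hy⟩ := Ideal.Quotient.mk_surjective (g : 𝓞 K4 ⧸ P)
  have hy0 : y ∉ P := by
    intro h0
    rw [← Ideal.Quotient.eq_zero_iff_mem, hy] at h0
    exact g.ne_zero h0
  have hyq : ¬ q.1 ∣ y := by
    rw [hPe] at hy0
    exact Pg.not_mem.1 hy0
  refine ⟨y, hyq, ?_⟩
  have h2 : ∀ x : ZMod 2, x ≠ 0 → x = 1 := by decide
  apply h2
  intro h0
  have h3 : ∀ x : ZMod 4, md x = 0 → ((2 : ℕ) : ZMod 4) * x = 0 := by decide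
  have h4 : c4 q (y ^ 2) = 0 := by
    rw [c4_pow q hyq 2]
    exact h3 _ h0
  have hy2 : y ^ 2 ∉ P := fun h0 => hy0 (h.pr.mem_of_pow_mem _ h0)
  have h1 := qs_spec gi h hy2
  have h5 : qs iO P (y ^ 2) = 0 := by
    rw [hPe]
    exact h4
  rw [h5, w_zero, ← Ideal.Quotient.eq_zero_iff_mem, map_sub, map_one, map_pow, map_pow,
    hy, sub_eq_zero, ← pow_mul] at h1
  have h6 : g ^ (2 * ((Ideal.absNorm P - 1) / 4)) = 1 := by
    apply Units.ext
    rw [Units.val_pow_eq_pow_val, ← h1, Units.val_one]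
  have h7 := orderOf_dvd_of_pow_eq_one h6
  rw [ho] at h7
  have hlt := h.one_lt
  obtain ⟨N, hN⟩ := G4.dvd gi h
  have h8 := Nat.le_of_dvd (by omega) h7
  omega

/-- The system of the primes and the quadratic symbols. -/
def sys4 : QSys (𝓞 K4) Pg where
  e q := q.1
  M := lam ^ 3
  c := c2
  prime := Pg.prime
  prim q := q.in4
  cop p _ h := (p.prime.irreducible.coprime_iff_not_dvd).2 h
  ne _ _ h := Pg.not_dvd h
  mul p x y hx hy := by
    unfold c2
    rw [c4_mul p hx hy, map_add]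
  congr p x y hx h := by
    unfold c2
    rw [c4_congr p hx h]
  surj := exists_c2

theorem sys4_in (x : 𝓞 K4) : sys4.In x ↔ In4 x := Iff.rfl

theorem sys4_DD (S : Finset Pg) : sys4.DD S = DDq S := rfl

theorem sys4_com : sys4.Com prm4 where
  e _ := rfl
  P _ := Iff.rfl

theorem sys4_mod {n : ℕ} (hn : 3 ≤ n) : sys4.Mod (lam ^ n) where
  dvd := pow_dvd_pow _ hn
  cop _ hx := (IsCoprime.symm ((prime_lam.irreducible.coprime_iff_not_dvd).2
    (In4.not_lam hx))).pow_right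

theorem sys4_nu : ¬ IsUnit sys4.M := by
  intro h
  exact prime_lam.not_unit ((isUnit_pow_iff (by norm_num : (3 : ℕ) ≠ 0)).1 h)

theorem lam_pow_ne (n : ℕ) : (lam : 𝓞 K4) ^ n ≠ 0 := pow_ne_zero _ lam_ne_zero

/-- The two quadratic class characters. -/
def cl4 (j : Fin 2) (x : 𝓞 K4) : ZMod 2 := if j = 0 then aa x else bb x

theorem cl4_mul (j : Fin 2) (x y : 𝓞 K4) (hx : sys4.In x) (hy : sys4.In y) :
    cl4 j (x * y) = cl4 j x + cl4 j y := by
  unfold cl4
  split_ifs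
  · exact aa_mul hx hy
  · exact bb_mul hx hy

theorem cl4_per {n : ℕ} (hn : 5 ≤ n) (j : Fin 2) (x y : 𝓞 K4) (hx : sys4.In x)
    (h : lam ^ n ∣ x - y) : cl4 j x = cl4 j y := by
  have h5 : lam ^ 5 ∣ x - y := (pow_dvd_pow _ hn).trans h
  have h4 : lam ^ 4 ∣ x - y := (pow_dvd_pow _ (by norm_num)).trans h5
  have h2 : 2 * lam ^ 3 ∣ x - y := by
    refine Dvd.dvd.trans ⟨iO, ?_⟩ h5
    rw [show (lam : 𝓞 K4) ^ 5 = lam ^ 2 * lam ^ 3 by ring, lam_sq]
    ring
  unfold cl4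
  split_ifs
  · exact aa_congr hx h4
  · exact bb_congr hx h2

theorem cl4_cls {n : ℕ} (hn : 5 ≤ n) : sys4.Cls (lam ^ n) cl4 where
  mul := cl4_mul
  per := cl4_per hn
  indep c hc := by
    by_cases h0 : c 0 = 0
    · have h1 : c 1 ≠ 0 := by
        intro h1
        apply hc
        funext j
        fin_cases j
        · exact h0
        · exact h1
      refine ⟨_, in4_of 0 1, ?_⟩
      rw [Fin.sum_univ_two, h0, zero_mul, zero_add]
      have h2 : cl4 1 (1 + lam ^ 3 * (((0 : ℤ) : 𝓞 K4) + ((1 : ℤ) : 𝓞 K4) * iO)) = 1 := by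
        change bb _ = 1
        rw [bb_form]
        rfl
      rw [h2, mul_one]
      exact h1
    · refine ⟨_, in4_of 1 0, ?_⟩
      have h2 : cl4 0 (1 + lam ^ 3 * (((1 : ℤ) : 𝓞 K4) + ((0 : ℤ) : 𝓞 K4) * iO)) = 1 := by
        change aa _ = 1
        rw [aa_form]
        rfl
      have h3 : cl4 1 (1 + lam ^ 3 * (((1 : ℤ) : 𝓞 K4) + ((0 : ℤ) : 𝓞 K4) * iO)) = 0 := by
        change bb _ = 0
        rw [bb_form]
        rfl
      rw [Fin.sum_univ_two, h2, h3, mul_one, mul_zero, add_zero]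
      exact h0

/-- The system `d4` is the one of the abstract theory, by the symmetry of the symbols. -/
theorem d4_eq (hs : ∀ p q : Pg, p ≠ q → s4 p q = s4 q p) : d4 = sys4.dat cl4 := by
  have h : ∀ q p : Pg, s4 q p = c2 p q.1 := by
    intro q p
    by_cases hqp : q = p
    · rw [hqp]
      rfl
    · exact hs q p hqp
  unfold d4 QSys.dat
  congr 1
  funext q p
  exact h q p

/-- **The nontrivial quadratic characters have bounded Euler products.** -/
theorem d4_cb' (hs : ∀ p q : Pg, p ≠ q → s4 p q = s4 q p) : ∃ C, d4.CB C := by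
  rw [d4_eq hs]
  exact QSys.cb sys4_com (sys4_mod (n := 5) (by norm_num)) (lam_pow_ne 5) (cl4_cls le_rfl)

/-- **The hypotheses of the engine on a class weight.** -/
theorem d4_wt' (hs : ∀ p q : Pg, p ≠ q → s4 p q = s4 q p) {n : ℕ} (hn : 5 ≤ n) {ψ : 𝓞 K4 → ℂ}
    (hψ : sys4.Wt (lam ^ n) ψ) (B : Finset Pg) :
    d4.Wt B (fun q => ψ q.1) (sys4.trW cl4 ψ) := by
  rw [d4_eq hs]
  exact QSys.wt_engine sys4_com sys4_nu (sys4_mod (by omega)) (lam_pow_ne n) (cl4_cls hn) hψ B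

/-! ### The group of the primary classes modulo `lamⁿ` -/

/-- The group of the primary classes modulo `lamⁿ`, `n = m + 5`. -/
abbrev G4n (m : ℕ) : Type := sys4.GQ (sys4_mod (n := m + 5) (by omega))

instance finite_quot_lam (n : ℕ) : Finite (𝓞 K4 ⧸ Ideal.span {(lam : 𝓞 K4) ^ n}) := by
  have : NeZero ((lam : 𝓞 K4) ^ n) := ⟨lam_pow_ne n⟩
  exact PrmG.finite_quot _

instance (m : ℕ) : Finite (G4n m) := by
  unfold G4n QSys.GQ
  infer_instance

instance (m : ℕ) : Fintype (G4n m) := Fintype.ofFinite _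

/-- The class of a primary element. -/
def gcl (m : ℕ) (x : 𝓞 K4) (hx : In4 x) : G4n m := QSys.gq _ x hx

theorem gcl_eq_iff (m : ℕ) {x y : 𝓞 K4} (hx : In4 x) (hy : In4 y) :
    gcl m x hx = gcl m y hy ↔ lam ^ (m + 5) ∣ x - y := QSys.gq_eq_iff _ _ _

theorem gcl_surj (m : ℕ) (g : G4n m) : ∃ (x : 𝓞 K4) (hx : In4 x), gcl m x hx = g :=
  QSys.gq_surj _ g

/-- The class of a prime. -/
def clq (m : ℕ) (q : Pg) : G4n m := gcl m q.1 q.in4

theorem gcl_DDq (m : ℕ) (S : Finset Pg) : gcl m (DDq S) (DDq_in4 S) = ∑ q ∈ S, clq m q :=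
  QSys.gq_DD _ S

/-- The homomorphisms of the two class characters. -/
def A4 (m : ℕ) (j : Fin 2) : G4n m →+ ZMod 2 :=
  QSys.AQ (sys4_mod (n := m + 5) (by omega)) cl4_mul (cl4_per (by omega)) j

theorem A4_gcl (m : ℕ) (j : Fin 2) {x : 𝓞 K4} (hx : In4 x) : A4 m j (gcl m x hx) = cl4 j x :=
  QSys.AQ_gq (sys4_mod (n := m + 5) (by omega)) cl4_mul (cl4_per (by omega)) j
    ((sys4_in x).2 hx)

theorem A4_clq (m : ℕ) (j : Fin 2) (q : Pg) : A4 m j (clq m q) = d4.a q j := A4_gcl m j q.in4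

/-- **The mean values of the nontrivial characters of the class group on the squarefree elements.** -/
theorem h3_gcl (m : ℕ) (ψ : AddChar (G4n m) ℂ) (hψ : ∃ q, ψ (clq m q) ≠ 1) (ε : ℝ) (hε : 0 < ε) :
    ∃ X₀ : ℕ, ∀ X : ℕ, X₀ ≤ X → ‖∑ S ∈ Sx Pg X, ∏ q ∈ S, ψ (clq m q)‖ ≤ ε * X :=
  QSys.h3G sys4_com sys4_nu _ (lam_pow_ne _) ψ hψ ε hε

/-- **The hypotheses of the engine on a character of the class group.** -/
theorem d4_wt_gcl (hs : ∀ p q : Pg, p ≠ q → s4 p q = s4 q p) (m : ℕ) (ψ : AddChar (G4n m) ℂ)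
    (B : Finset Pg) : d4.Wt B (fun q => ψ (clq m q))
      (fun c => ∀ g : G4n m, ψ g * e2 (∑ j, c j * A4 m j g) = 1) := by
  have h1 := d4_wt' hs (n := m + 5) (by omega) (QSys.wG_wt (sys4_mod (n := m + 5) (by omega)) ψ) B
  have h2 : (fun q : Pg => QSys.wG (sys4_mod (n := m + 5) (by omega)) ψ q.1) =
      fun q => ψ (clq m q) := by
    funext q
    exact QSys.wG_of (D := sys4) ((sys4_in q.1).2 q.in4)
  rw [h2] at h1
  have key : ∀ (c : Fin 2 → ZMod 2) (x : 𝓞 K4) (hx : In4 x),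
      QSys.wG (sys4_mod (n := m + 5) (by omega)) ψ x * QSys.wt cl4 c x =
        ψ (gcl m x hx) * e2 (∑ j, c j * A4 m j (gcl m x hx)) := by
    intro c x hx
    rw [QSys.wG_of ((sys4_in x).2 hx)]
    have h4 : ∑ j, c j * A4 m j (gcl m x hx) = ∑ j, c j * cl4 j x :=
      sum_congr rfl fun j _ => congrArg (fun z => c j * z) (A4_gcl m j hx)
    rw [h4]
    rfl
  have h3 : ∀ c : Fin 2 → ZMod 2, sys4.trW cl4 (QSys.wG (sys4_mod (n := m + 5) (by omega)) ψ) c ↔
      ∀ g : G4n m, ψ g * e2 (∑ j, c j * A4 m j g) = 1 := by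
    intro c
    constructor
    · intro h g
      obtain ⟨x, hx, rfl⟩ := gcl_surj m g
      rw [← key c x hx]
      exact h x hx
    · intro h x hx
      rw [key c x hx]
      exact h _
  refine ⟨h1.nrm, fun c hc => h1.one c ((h3 c).2 hc), fun T c hT h => h1.mz T c hT ?_⟩
  rcases h with h | h
  · exact Or.inl h
  · exact Or.inr fun h4 => h ((h3 c).1 h4)

end

end Pool.Agent.Lib.MP_1a91b9_ntQ
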