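import Pool.Agent.Lib.MP_1a91b9_ntQ.R.Qd4
import Pool.Agent.Lib.MP_1a91b9_ntQ.R.Cheb4
import Pool.Agent.Lib.MP_1a91b9_ntQ.R.BL4

/-!
# MP_1a91b9_nt (quartic twists), part R: the system of the quadratic symbols of `ℤ[i]` satisfies all the
hypotheses of the engine
-/

set_option autoImplicit false

namespace Pool.Agent.Lib.MP_1a91b9_ntQ

theorem d4_OK : d4.OK where
  sym := d4_sym
  cheb := cheb4
  zt := zt4
  cb := d4_cb' fun _ _ h => s4_symm h
  bl := d4_bl' fun _ _ h => s4_symm h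

end Pool.Agent.Lib.MP_1a91b9_ntQ
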