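import Pool.Agent.Lib.MP_1a91b9_ntQ.Base

/-!
# MP_1a91b9_nt (QuarticDensity): elementary arithmetic of `ℤ[i]`

Coordinates, norm, units, the prime `lam = 1 + i` and the residues modulo `lam ^ 3`.
-/

set_option autoImplicit false

namespace Pool.Agent.Lib.MP_1a91b9_ntQ

open NumberField Pool.Agent.Lib.MP_1a91b9_nuT

noncomputable section

/-- `lam = 1 + i`. -/
def lam : 𝓞 K4 := 1 + iO

theorem lam_sq : lam ^ 2 = 2 * iO := by
  unfold lam
  linear_combination iO_sq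

theorem lam_pow3 : lam ^ 3 = 2 * iO - 2 := by
  unfold lam
  linear_combination (3 + iO) * iO_sq

theorem lam_pow4 : lam ^ 4 = -4 := by
  have h : lam ^ 4 = (lam ^ 2) ^ 2 := by ring
  rw [h, lam_sq]
  linear_combination 4 * iO_sq

theorem lam_pow6 : lam ^ 6 = -8 * iO := by
  have h : lam ^ 6 = lam ^ 4 * lam ^ 2 := by ring
  rw [h, lam_pow4, lam_sq]
  ring

theorem two_eq : (2 : 𝓞 K4) = -iO * lam ^ 2 := by
  rw [lam_sq]
  linear_combination 2 * iO_sq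

theorem iO_pow4 : iO ^ 4 = 1 := by
  linear_combination (iO ^ 2 - 1) * iO_sq

theorem iO_unit : IsUnit iO := by
  refine IsUnit.of_mul_eq_one (-iO) ?_
  linear_combination -iO_sq

theorem emb4_coords (p q : ℤ) : emb4 (((p : 𝓞 K4) + q * iO : 𝓞 K4) : K4) = p + q * Complex.I := by
  have h : (((p : 𝓞 K4) + q * iO : 𝓞 K4) : K4) = p + q * iK := by simp [coe_iO]
  rw [h, map_add, map_mul, map_intCast, map_intCast, emb4_iK]

theorem coords_inj {p q p' q' : ℤ} (h : (p : 𝓞 K4) + q * iO = p' + q' * iO) :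
    p = p' ∧ q = q' := by
  have h1 := congrArg (fun x : 𝓞 K4 => emb4 (x : K4)) h
  simp only [emb4_coords] at h1
  have hi := congrArg Complex.im h1
  have hr := congrArg Complex.re h1
  simp at hi hr
  exact ⟨by exact_mod_cast hr, by exact_mod_cast hi⟩

/-- The coordinates. -/
def cp (x : 𝓞 K4) : ℤ × ℤ := ⟨(exists_coords4 x).choose, (exists_coords4 x).choose_spec.choose⟩

theorem eq_cp (x : 𝓞 K4) : x = (cp x).1 + (cp x).2 * iO :=
  (exists_coords4 x).choose_spec.choose_spec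

theorem cp_coords (p q : ℤ) : cp ((p : 𝓞 K4) + q * iO) = (p, q) := by
  have h := coords_inj (eq_cp ((p : 𝓞 K4) + q * iO)).symm
  exact Prod.ext h.1 h.2

theorem cp_add (x y : 𝓞 K4) : cp (x + y) = cp x + cp y := by
  have h : cp (x + y) = ((cp x).1 + (cp y).1, (cp x).2 + (cp y).2) := by
    rw [← cp_coords]
    congr 1
    conv_lhs => rw [eq_cp x, eq_cp y]
    push_cast
    ring
  rw [h]
  rfl

theorem cp_mul (x y : 𝓞 K4) : cp (x * y) = ((cp x).1 * (cp y).1 - (cp x).2 * (cp y).2,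
    (cp x).1 * (cp y).2 + (cp x).2 * (cp y).1) := by
  rw [← cp_coords]
  congr 1
  conv_lhs => rw [eq_cp x, eq_cp y]
  push_cast
  linear_combination ((cp x).2 : 𝓞 K4) * (cp y).2 * iO_sq

theorem cp_intCast (n : ℤ) : cp (n : 𝓞 K4) = (n, 0) := by
  have h := cp_coords n 0
  simpa using h

theorem cp_one : cp (1 : 𝓞 K4) = (1, 0) := by
  have h := cp_intCast 1
  simpa using h

theorem cp_zero : cp (0 : 𝓞 K4) = (0, 0) := by
  have h := cp_intCast 0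
  simpa using h

theorem cp_neg (x : 𝓞 K4) : cp (-x) = -cp x := by
  have h := cp_add x (-x)
  rw [add_neg_cancel, cp_zero] at h
  exact (neg_eq_of_add_eq_zero_right h.symm).symm

theorem cp_sub (x y : 𝓞 K4) : cp (x - y) = cp x - cp y := by
  rw [sub_eq_add_neg, cp_add, cp_neg, ← sub_eq_add_neg]

theorem cp_inj {x y : 𝓞 K4} (h : cp x = cp y) : x = y := by
  rw [eq_cp x, eq_cp y, h]

theorem cp_iO : cp iO = (0, 1) := by
  have h := cp_coords 0 1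
  simpa using h

theorem cp_lam : cp lam = (1, 1) := by
  have h := cp_coords 1 1
  simpa [lam] using h

/-- The coordinates as an equivalence of additive groups. -/
def coE : 𝓞 K4 ≃+ ℤ × ℤ where
  toFun := cp
  invFun z := z.1 + z.2 * iO
  left_inv x := (eq_cp x).symm
  right_inv z := cp_coords z.1 z.2
  map_add' := cp_add

theorem ext_cp {x y : 𝓞 K4} (h1 : (cp x).1 = (cp y).1) (h2 : (cp x).2 = (cp y).2) : x = y :=
  cp_inj (Prod.ext h1 h2)

/-- The norm. -/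
def Nz (x : 𝓞 K4) : ℕ := (Algebra.norm ℤ x).natAbs

theorem Nz_mul (x y : 𝓞 K4) : Nz (x * y) = Nz x * Nz y := by
  rw [Nz, map_mul, Int.natAbs_mul]; rfl

theorem Nz_one : Nz 1 = 1 := by simp [Nz]

theorem finrank_K4 : Module.finrank ℚ K4 = 2 := by
  have h := IsCyclotomicExtension.finrank (K := ℚ) (n := 4) K4
    (Polynomial.cyclotomic.irreducible_rat (by norm_num))
  rw [h]
  decide

/-- The conjugate embedding. -/
def emb4' : K4 →ₐ[ℚ] ℂ where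
  toRingHom := (starRingEnd ℂ).comp emb4.toRingHom
  commutes' := fun r => by
    change (starRingEnd ℂ) (emb4 (algebraMap ℚ K4 r)) = algebraMap ℚ ℂ r
    rw [emb4.commutes]
    change (starRingEnd ℂ) ((r : ℚ) : ℂ) = ((r : ℚ) : ℂ)
    simp

theorem emb4_ne : emb4 ≠ emb4' := by
  intro h
  have h1 : emb4 iK = (starRingEnd ℂ) (emb4 iK) := congrArg (fun f : K4 →ₐ[ℚ] ℂ => f iK) h
  rw [emb4_iK] at h1
  have h2 := congrArg Complex.im h1
  simp at h2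
  norm_num at h2

theorem norm_K4 (x : K4) : ((Algebra.norm ℚ x : ℚ) : ℂ) = emb4 x * (starRingEnd ℂ) (emb4 x) := by
  classical
  have h := Algebra.norm_eq_prod_embeddings ℚ ℂ x
  have hcard : Fintype.card (K4 →ₐ[ℚ] ℂ) = 2 := by
    rw [AlgHom.card, finrank_K4]
  have huniv : (Finset.univ : Finset (K4 →ₐ[ℚ] ℂ)) = {emb4, emb4'} := by
    symm
    apply Finset.eq_univ_of_card
    rw [Finset.card_pair emb4_ne, hcard]
  rw [huniv, Finset.prod_pair emb4_ne] at h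
  exact h

theorem norm_O4 (a : 𝓞 K4) : ((Algebra.norm ℤ a : ℤ) : ℂ) =
    emb4 (a : K4) * (starRingEnd ℂ) (emb4 (a : K4)) := by
  rw [← norm_K4, ← Algebra.coe_norm_int]
  push_cast
  rfl

/-- The norm is the square of the absolute value. -/
theorem Nz_eq (x : 𝓞 K4) : (Nz x : ℝ) = ‖emb4 (x : K4)‖ ^ 2 := by
  have h := norm_O4 x
  rw [Complex.mul_conj, Complex.normSq_eq_norm_sq] at h
  have h1 : ((Algebra.norm ℤ x : ℤ) : ℝ) = ‖emb4 (x : K4)‖ ^ 2 := by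
    exact_mod_cast h
  have h2 : 0 ≤ Algebra.norm ℤ x := by
    have : (0 : ℝ) ≤ ((Algebra.norm ℤ x : ℤ) : ℝ) := by rw [h1]; positivity
    exact_mod_cast this
  rw [Nz, ← h1, Nat.cast_natAbs, abs_of_nonneg h2]

theorem norm_nonneg4 (x : 𝓞 K4) : 0 ≤ Algebra.norm ℤ x := by
  have h := norm_O4 x
  rw [Complex.mul_conj, Complex.normSq_eq_norm_sq] at h
  have h1 : ((Algebra.norm ℤ x : ℤ) : ℝ) = ‖emb4 (x : K4)‖ ^ 2 := by
    exact_mod_cast h
  have : (0 : ℝ) ≤ ((Algebra.norm ℤ x : ℤ) : ℝ) := by rw [h1]; positivity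
  exact_mod_cast this

theorem Nz_coords (p q : ℤ) : (Nz ((p : 𝓞 K4) + q * iO) : ℤ) = p ^ 2 + q ^ 2 := by
  have h := Nz_eq ((p : 𝓞 K4) + q * iO)
  rw [emb4_coords, ← Complex.normSq_eq_norm_sq, Complex.normSq_apply] at h
  simp at h
  have h4 : (Nz ((p : 𝓞 K4) + q * iO) : ℝ) = p ^ 2 + q ^ 2 := by
    rw [h]
    ring
  exact_mod_cast h4

theorem Nz_cp (x : 𝓞 K4) : (Nz x : ℤ) = (cp x).1 ^ 2 + (cp x).2 ^ 2 := by
  conv_lhs => rw [eq_cp x]
  exact Nz_coords _ _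

theorem Nz_eq_zero {x : 𝓞 K4} : Nz x = 0 ↔ x = 0 := by
  rw [Nz, Int.natAbs_eq_zero, Algebra.norm_eq_zero_iff]

theorem Nz_zero : Nz 0 = 0 := Nz_eq_zero.2 rfl

theorem Nz_iO : Nz iO = 1 := by
  have h := Nz_cp iO
  rw [cp_iO] at h
  norm_num at h
  exact_mod_cast h

theorem Nz_lam : Nz lam = 2 := by
  have h := Nz_cp lam
  rw [cp_lam] at h
  norm_num at h
  exact_mod_cast h

theorem isUnit_iff_Nz {x : 𝓞 K4} : IsUnit x ↔ Nz x = 1 := by
  constructor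
  · intro h
    have h1 := h.map (Algebra.norm ℤ)
    exact Int.isUnit_iff_natAbs_eq.1 h1
  · intro h
    have h1 := Nz_cp x
    rw [h] at h1
    refine IsUnit.of_mul_eq_one ((cp x).1 - (cp x).2 * iO : 𝓞 K4) ?_
    have h2 : (((cp x).1 : 𝓞 K4)) ^ 2 + ((cp x).2 : 𝓞 K4) ^ 2 = 1 := by
      have := congrArg (Int.cast : ℤ → 𝓞 K4) h1
      push_cast at this
      exact this.symm
    have e := eq_cp x
    linear_combination ((cp x).1 - (cp x).2 * iO : 𝓞 K4) * e + h2 -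
      ((cp x).2 : 𝓞 K4) ^ 2 * iO_sq

theorem exists_unit {u : 𝓞 K4} (hu : IsUnit u) : ∃ k : ℕ, k < 4 ∧ u = iO ^ k := by
  have h := Nz_cp u
  rw [isUnit_iff_Nz.1 hu] at h
  obtain ⟨m, hm⟩ : ∃ m, m = (cp u).1 := ⟨_, rfl⟩
  obtain ⟨n, hn⟩ : ∃ n, n = (cp u).2 := ⟨_, rfl⟩
  have e := eq_cp u
  rw [← hm, ← hn] at h e
  push_cast at h
  have hm1 : m ≤ 1 := by nlinarith [sq_nonneg n]
  have hm2 : -1 ≤ m := by nlinarith [sq_nonneg n]
  have hn1 : n ≤ 1 := by nlinarith [sq_nonneg m]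
  have hn2 : -1 ≤ n := by nlinarith [sq_nonneg m]
  interval_cases m <;> interval_cases n <;> simp at h
  · exact ⟨2, by norm_num, by rw [e, iO_sq]; push_cast; ring⟩
  · refine ⟨3, by norm_num, ?_⟩
    rw [e]
    push_cast
    linear_combination -iO * iO_sq
  · exact ⟨1, by norm_num, by rw [e]; push_cast; ring⟩
  · exact ⟨0, by norm_num, by rw [e]; push_cast; ring⟩

theorem isUnit_iff {u : 𝓞 K4} : IsUnit u ↔ ∃ k : ℕ, k < 4 ∧ u = iO ^ k :=
  ⟨exists_unit, fun ⟨k, _, h⟩ => h ▸ iO_unit.pow k⟩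

/-! ### The prime `lam` -/

theorem lam_dvd_iff {x : 𝓞 K4} : lam ∣ x ↔ (2 : ℤ) ∣ (cp x).1 + (cp x).2 := by
  constructor
  · rintro ⟨y, rfl⟩
    rw [cp_mul, cp_lam]
    exact ⟨(cp y).1, by ring⟩
  · rintro ⟨k, hk⟩
    refine ⟨(k : 𝓞 K4) + (k - (cp x).1 : ℤ) * iO, ?_⟩
    apply ext_cp
    · rw [cp_mul, cp_lam, cp_coords]
      ring
    · rw [cp_mul, cp_lam, cp_coords]
      linarith

theorem lam_ne_zero : lam ≠ 0 := by
  intro h
  have := Nz_lam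
  rw [h, Nz_zero] at this
  omega

theorem lam_not_unit : ¬ IsUnit lam := by
  intro h
  have := isUnit_iff_Nz.1 h
  rw [Nz_lam] at this
  omega

theorem lam_prime : Prime lam := by
  refine ⟨lam_ne_zero, lam_not_unit, ?_⟩
  intro a b h
  rw [lam_dvd_iff] at h ⊢
  rw [lam_dvd_iff]
  rw [cp_mul] at h
  by_contra hcon
  rw [not_or] at hcon
  obtain ⟨h1, h2⟩ := hcon
  have e1 : ((cp a).1 + (cp a).2) % 2 = 1 := by omega
  have e2 : ((cp b).1 + (cp b).2) % 2 = 1 := by omega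
  have e3 : (((cp a).1 + (cp a).2) * ((cp b).1 + (cp b).2)) % 2 = 1 := by
    rw [Int.mul_emod, e1, e2]
    rfl
  have e4 : (cp a).1 * (cp b).1 - (cp a).2 * (cp b).2 + ((cp a).1 * (cp b).2 + (cp a).2 * (cp b).1)
      = ((cp a).1 + (cp a).2) * ((cp b).1 + (cp b).2) - 2 * ((cp a).2 * (cp b).2) := by ring
  simp only at h
  rw [e4] at h
  omega

theorem lam_dvd_two : lam ∣ 2 := ⟨-iO * lam, by rw [two_eq]; ring⟩

theorem Nz_mod_two {x : 𝓞 K4} : lam ∣ x ↔ 2 ∣ Nz x := by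
  rw [lam_dvd_iff]
  have h := Nz_cp x
  have h1 : ((2 : ℕ) : ℤ) ∣ (Nz x : ℤ) ↔ 2 ∣ Nz x := Int.natCast_dvd_natCast
  rw [← h1, h]
  have h2 : (cp x).1 ^ 2 + (cp x).2 ^ 2 =
      ((cp x).1 + (cp x).2) ^ 2 - 2 * ((cp x).1 * (cp x).2) := by ring
  rw [h2]
  constructor
  · rintro ⟨k, hk⟩
    exact ⟨((cp x).1 + (cp x).2) * k - (cp x).1 * (cp x).2, by rw [hk]; push_cast; ring⟩
  · intro h3
    have h4 : (2 : ℤ) ∣ ((cp x).1 + (cp x).2) ^ 2 := by
      have := dvd_add h3 (Dvd.intro ((cp x).1 * (cp x).2) (rfl : ((2 : ℕ) : ℤ) * _ = _))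
      simpa using this
    exact Int.prime_two.dvd_of_dvd_pow h4

/-- Divisibility by `lam ^ 2`, that is by `2`. -/
theorem two_dvd_iff {x : 𝓞 K4} : (2 : 𝓞 K4) ∣ x ↔ (2 : ℤ) ∣ (cp x).1 ∧ (2 : ℤ) ∣ (cp x).2 := by
  constructor
  · rintro ⟨y, rfl⟩
    have h2 : (2 : 𝓞 K4) = ((2 : ℤ) : 𝓞 K4) := by norm_num
    rw [cp_mul, h2, cp_intCast]
    exact ⟨⟨(cp y).1, by ring⟩, ⟨(cp y).2, by ring⟩⟩
  · rintro ⟨⟨a, ha⟩, ⟨b, hb⟩⟩
    refine ⟨(a : 𝓞 K4) + b * iO, ?_⟩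
    conv_lhs => rw [eq_cp x, ha, hb]
    push_cast
    ring

theorem lam2_dvd_iff {x : 𝓞 K4} :
    lam ^ 2 ∣ x ↔ (2 : ℤ) ∣ (cp x).1 ∧ (2 : ℤ) ∣ (cp x).2 := by
  rw [← two_dvd_iff, lam_sq]
  constructor
  · rintro ⟨y, rfl⟩
    exact ⟨iO * y, by ring⟩
  · rintro ⟨y, rfl⟩
    exact ⟨-iO * y, by linear_combination 2 * y * iO_sq⟩

/-- Divisibility by `lam ^ 3`. -/
theorem lam3_dvd_iff {x : 𝓞 K4} :
    lam ^ 3 ∣ x ↔ (2 : ℤ) ∣ (cp x).1 ∧ (4 : ℤ) ∣ (cp x).1 + (cp x).2 := by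
  constructor
  · rintro ⟨y, rfl⟩
    have e : lam ^ 3 = ((-2 : ℤ) : 𝓞 K4) + ((2 : ℤ) : 𝓞 K4) * iO := by
      rw [lam_pow3]
      push_cast
      ring
    rw [cp_mul, e, cp_coords]
    exact ⟨⟨-(cp y).1 - (cp y).2, by ring⟩, ⟨-(cp y).2, by ring⟩⟩
  · rintro ⟨⟨a, ha⟩, ⟨b, hb⟩⟩
    -- x = 2a + (4b - 2a) i = lam^3 * (u + v i), -2u - 2v = 2a, 2u - 2v = 4b - 2a
    refine ⟨((b - a : ℤ) : 𝓞 K4) + ((-b : ℤ) : 𝓞 K4) * iO, ?_⟩
    have h2 : (cp x).2 = 4 * b - 2 * a := by linarith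
    rw [lam_pow3]
    conv_lhs => rw [eq_cp x, ha, h2]
    push_cast
    linear_combination -(2 * (-(b : 𝓞 K4))) * iO_sq

theorem lam4_dvd_iff {x : 𝓞 K4} :
    lam ^ 4 ∣ x ↔ (4 : ℤ) ∣ (cp x).1 ∧ (4 : ℤ) ∣ (cp x).2 := by
  rw [lam_pow4]
  constructor
  · rintro ⟨y, rfl⟩
    have h2 : (-4 : 𝓞 K4) = ((-4 : ℤ) : 𝓞 K4) := by norm_num
    rw [cp_mul, h2, cp_intCast]
    exact ⟨⟨-(cp y).1, by ring⟩, ⟨-(cp y).2, by ring⟩⟩
  · rintro ⟨⟨a, ha⟩, ⟨b, hb⟩⟩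
    refine ⟨((-a : ℤ) : 𝓞 K4) + ((-b : ℤ) : 𝓞 K4) * iO, ?_⟩
    conv_lhs => rw [eq_cp x, ha, hb]
    push_cast
    ring

/-- Primary elements. -/
def Pr (x : 𝓞 K4) : Prop := lam ^ 3 ∣ x - 1

theorem Pr_iff {x : 𝓞 K4} : Pr x ↔ (cp x).1 % 2 = 1 ∧ ((cp x).1 + (cp x).2) % 4 = 1 := by
  rw [Pr, lam3_dvd_iff, cp_sub, cp_one]
  simp only [Prod.fst_sub, Prod.snd_sub]
  constructor
  · rintro ⟨⟨a, ha⟩, ⟨b, hb⟩⟩
    constructor <;> omega
  · rintro ⟨h1, h2⟩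
    constructor <;> omega

theorem Pr.one : Pr 1 := ⟨0, by ring⟩

theorem Pr.mul {x y : 𝓞 K4} (hx : Pr x) (hy : Pr y) : Pr (x * y) := by
  obtain ⟨a, ha⟩ := hx
  obtain ⟨b, hb⟩ := hy
  exact ⟨a * y + b, by linear_combination y * ha + hb⟩

theorem Pr.prod {ι : Type*} (S : Finset ι) (f : ι → 𝓞 K4) (h : ∀ q ∈ S, Pr (f q)) :
    Pr (∏ q ∈ S, f q) := by
  classical
  induction S using Finset.induction_on with
  | empty => simpa using Pr.one
  | insert a S ha ih =>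
    rw [Finset.prod_insert ha]
    exact (h a (Finset.mem_insert_self _ _)).mul (ih fun q hq => h q (Finset.mem_insert_of_mem hq))

theorem Pr.not_dvd {x : 𝓞 K4} (hx : Pr x) : ¬ lam ∣ x := by
  intro h
  have h1 : lam ∣ x - 1 := (dvd_pow_self lam (by norm_num)).trans hx
  have h2 := dvd_sub h h1
  have e : x - (x - 1) = 1 := by ring
  rw [e] at h2
  exact lam_not_unit (isUnit_of_dvd_one h2)

/-- Every odd element is a unit times a primary element modulo `lam ^ 3`. -/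
theorem exists_residue {x : 𝓞 K4} (hx : ¬ lam ∣ x) : ∃ k : ℕ, k < 4 ∧ lam ^ 3 ∣ x - iO ^ k := by
  rw [lam_dvd_iff] at hx
  obtain ⟨m, hm⟩ : ∃ m, m = (cp x).1 := ⟨_, rfl⟩
  obtain ⟨n, hn⟩ : ∃ n, n = (cp x).2 := ⟨_, rfl⟩
  rw [← hm, ← hn] at hx
  have e3 : cp (iO ^ 3) = (0, -1) := by
    have h : iO ^ 3 = ((0 : ℤ) : 𝓞 K4) + ((-1 : ℤ) : 𝓞 K4) * iO := by
      push_cast
      linear_combination iO * iO_sq
    rw [h, cp_coords]
  have e2 : cp (iO ^ 2) = (-1, 0) := by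
    have h : iO ^ 2 = ((-1 : ℤ) : 𝓞 K4) := by
      rw [iO_sq]
      push_cast
      ring
    rw [h, cp_intCast]
  by_cases h1 : m % 2 = 1
  · by_cases h2 : (m + n) % 4 = 1
    · refine ⟨0, by norm_num, ?_⟩
      rw [lam3_dvd_iff, pow_zero, cp_sub, cp_one]
      simp only [Prod.fst_sub, Prod.snd_sub, ← hm, ← hn]
      constructor <;> omega
    · refine ⟨2, by norm_num, ?_⟩
      rw [lam3_dvd_iff, cp_sub, e2]
      simp only [Prod.fst_sub, Prod.snd_sub, ← hm, ← hn]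
      constructor <;> omega
  · by_cases h2 : (m + n) % 4 = 1
    · refine ⟨1, by norm_num, ?_⟩
      rw [lam3_dvd_iff, pow_one, cp_sub, cp_iO]
      simp only [Prod.fst_sub, Prod.snd_sub, ← hm, ← hn]
      constructor <;> omega
    · refine ⟨3, by norm_num, ?_⟩
      rw [lam3_dvd_iff, cp_sub, e3]
      simp only [Prod.fst_sub, Prod.snd_sub, ← hm, ← hn]
      constructor <;> omega

/-- Every odd element is `iO ^ k` times a primary element. -/
theorem exists_primary {x : 𝓞 K4} (hx : ¬ lam ∣ x) :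
    ∃ k : ℕ, k < 4 ∧ ∃ y : 𝓞 K4, Pr y ∧ x = iO ^ k * y := by
  obtain ⟨k, hk, c, hc⟩ := exists_residue hx
  refine ⟨k, hk, iO ^ (4 - k) * x, ⟨iO ^ (4 - k) * c, ?_⟩, ?_⟩
  · have h1 : iO ^ (4 - k) * iO ^ k = 1 := by
      rw [← pow_add, Nat.sub_add_cancel hk.le, iO_pow4]
    linear_combination iO ^ (4 - k) * hc + h1
  · have h1 : iO ^ k * iO ^ (4 - k) = 1 := by
      rw [← pow_add, Nat.add_sub_cancel' hk.le, iO_pow4]
    linear_combination -x * h1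

/-- The exponent is unique. -/
theorem primary_unique {k l : ℕ} (hk : k < 4) (hl : l < 4) {x y : 𝓞 K4} (hx : Pr x) (hy : Pr y)
    (h : iO ^ k * x = iO ^ l * y) : k = l ∧ x = y := by
  have key : ∀ j : ℕ, j < 4 → ∀ a b : 𝓞 K4, Pr a → Pr b → iO ^ j * a = b → j = 0 := by
    intro j hj a b ha hb hab
    obtain ⟨c, hc⟩ := ha
    obtain ⟨d, hd⟩ := hb
    have h1 : lam ^ 3 ∣ iO ^ j - 1 :=
      ⟨d - iO ^ j * c, by linear_combination hd - iO ^ j * hc + hab⟩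
    rw [lam3_dvd_iff, cp_sub, cp_one] at h1
    interval_cases j
    · rfl
    · rw [pow_one, cp_iO] at h1
      simp only [Prod.fst_sub, Prod.snd_sub] at h1
      omega
    · have e2 : cp (iO ^ 2) = (-1, 0) := by
        have h : iO ^ 2 = ((-1 : ℤ) : 𝓞 K4) := by
          rw [iO_sq]
          push_cast
          ring
        rw [h, cp_intCast]
      rw [e2] at h1
      simp only [Prod.fst_sub, Prod.snd_sub] at h1
      omega
    · have e3 : cp (iO ^ 3) = (0, -1) := by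
        have h : iO ^ 3 = ((0 : ℤ) : 𝓞 K4) + ((-1 : ℤ) : 𝓞 K4) * iO := by
          push_cast
          linear_combination iO * iO_sq
        rw [h, cp_coords]
      rw [e3] at h1
      simp only [Prod.fst_sub, Prod.snd_sub] at h1
      omega
  have hne : iO ≠ 0 := iO_unit.ne_zero
  rcases le_total l k with hlk | hlk
  · obtain ⟨j, rfl⟩ := Nat.exists_eq_add_of_le hlk
    have h1 : iO ^ j * x = y := by
      rw [pow_add, mul_assoc] at h
      exact mul_left_cancel₀ (pow_ne_zero _ hne) h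
    have h2 := key j (by omega) x y hx hy h1
    subst h2
    rw [pow_zero, one_mul] at h1
    exact ⟨by omega, h1⟩
  · obtain ⟨j, rfl⟩ := Nat.exists_eq_add_of_le hlk
    have h1 : iO ^ j * y = x := by
      rw [pow_add, mul_assoc] at h
      exact (mul_left_cancel₀ (pow_ne_zero _ hne) h).symm
    have h2 := key j (by omega) y x hy hx h1
    subst h2
    rw [pow_zero, one_mul] at h1
    exact ⟨by omega, h1.symm⟩

end

end Pool.Agent.Lib.MP_1a91b9_ntQ
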