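import Pool.Agent.Lib.MP_1a91b9_ntQ.R.AuxB

/-!
# MP_1a91b9_nt (quartic twists), part R: primes with arbitrary prescribed quadratic symbols

For a finite set `W` of primes there are primes `q` of arbitrarily large norm with prescribed values of
`aa q`, `bb q` and of the quadratic symbols of the elements of `W` modulo `q`.
-/

set_option autoImplicit false

namespace Pool.Agent.Lib.MP_1a91b9_ntQ

open NumberField Finset IsDedekindDomain
open Pool.Agent.Lib.MP_1a91b9_nuX.HQ (GI G4 qs w qs_spec w_zero)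
open Pool.Agent.Lib.MP_1a91b9_ntH (PS nm one_le_nm)

noncomputable section

/-- **A place gives a prime.** From a list of elements which are squares and an element which is not. -/
theorem exists_Pg_sq (D : List (𝓞 K4)) (x : 𝓞 K4)
    (hD : ∀ T : List (𝓞 K4), T.Sublist D → ¬ IsSquare (x * T.prod)) (W : Finset Pg) (n : ℕ) :
    ∃ q : Pg, n < Nz q.1 ∧ q ∉ W ∧ (∀ d ∈ D, ¬ q.1 ∣ d → c2 q d = 0) ∧
      (¬ q.1 ∣ x → c2 q x = 1) := by
  obtain ⟨N, hN⟩ : ∃ N : 𝓞 K4, N = lam * DDq W * ((n.factorial : ℕ) : 𝓞 K4) := ⟨_, rfl⟩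
  have hf0 : ((n.factorial : ℕ) : 𝓞 K4) ≠ 0 := Nat.cast_ne_zero.2 (Nat.factorial_ne_zero n)
  have hN0 : Ideal.span {N} ≠ 0 := by
    rw [Ne, Ideal.zero_eq_bot, Ideal.span_singleton_eq_bot, hN]
    exact mul_ne_zero (mul_ne_zero prime_lam.ne_zero (DDq_in4 _).ne_zero) hf0
  obtain ⟨v, hv1, hv2, hv3⟩ := Pool.Agent.Lib.MP_1a91b9_ntT.CF.exists_place_sq K4 D x hD
    (Ideal.span {N}) hN0
  rw [Ideal.span_singleton_le_iff_mem] at hv1
  -- a generator
  obtain ⟨ρ, hρ⟩ : ∃ ρ, v.asIdeal = Ideal.span {ρ} :=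
    (IsPrincipalIdealRing.principal v.asIdeal).principal
  have hρ0 : ρ ≠ 0 := by
    rintro rfl
    apply v.ne_bot
    rw [hρ, Ideal.span_singleton_eq_bot]
  have hρp : Prime ρ := by
    rw [← Ideal.span_singleton_prime hρ0, ← hρ]
    exact v.isPrime
  have hlρ : ¬ lam ∣ ρ := by
    intro h
    apply hv1
    have h1 : Associated lam ρ := prime_lam.associated_of_dvd hρp h
    rw [hρ, Ideal.mem_span_singleton, hN, mul_assoc]
    exact Dvd.dvd.mul_right h1.symm.dvd _
  obtain ⟨k, q, hq⟩ := exists_Pg hρp hlρ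
  have hvq : v.asIdeal = Ideal.span {q.1} := by
    rw [hρ, Ideal.span_singleton_eq_span_singleton, hq]
    exact (associated_unit_mul_right ρ _ (isUnit_iO.pow k.val))
  rw [hvq, Ideal.mem_span_singleton, hN] at hv1
  have hDD : ¬ q.1 ∣ DDq W := fun h => hv1 (Dvd.dvd.mul_right (Dvd.dvd.mul_left h _) _)
  have hfac : ¬ q.1 ∣ ((n.factorial : ℕ) : 𝓞 K4) := fun h => hv1 (Dvd.dvd.mul_left h _)
  refine ⟨q, ?_, fun h => hDD (dvd_DDq.2 h), ?_, ?_⟩
  · by_contra h
    apply hfac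
    have h3 : Nz q.1 ∣ n.factorial := Nat.dvd_factorial (by
      have := Nz_two_le q.prime
      omega) (by omega)
    have h4 : q.1 ∣ ((Nz q.1 : ℕ) : 𝓞 K4) := by
      rw [← mul_cj4]
      exact dvd_mul_right _ _
    exact h4.trans (Nat.cast_dvd_cast h3)
  · intro d hd hdq
    obtain ⟨y', hy'⟩ := hv2 d hd
    obtain ⟨y, rfl⟩ := Ideal.Quotient.mk_surjective y'
    rw [← map_mul, Ideal.Quotient.eq, hvq, Ideal.mem_span_singleton] at hy'
    exact c2_of_sq hdq hy'
  · intro hx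
    have h2 : ∀ x : ZMod 2, x ≠ 0 → x = 1 := by decide
    refine h2 _ fun h => hv3 ?_
    rw [hvq]
    exact sq_of_c2 hx h

theorem exists_not_mem (W : Finset Pg) : ∃ g : Pg, g ∉ W := by
  obtain ⟨q, -, h, -, -⟩ := exists_Pg_sq [] iO (fun T hT => by
    rw [List.sublist_nil] at hT
    rw [hT, List.prod_nil, mul_one]
    rintro ⟨z, hz⟩
    exact iO_not_sq z hz) W 0
  exact ⟨q, h⟩

/-- the elements with their exponents, without `i` -/
def patL0 (W : Finset Pg) (f : Pg → ZMod 2) (y : ZMod 2) : List (𝓞 K4 × ℕ) :=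
  (lam, y.val) :: W.toList.map fun w => (w.1, (f w).val)

/-- the elements with their exponents -/
def patL (W : Finset Pg) (f : Pg → ZMod 2) (x y : ZMod 2) : List (𝓞 K4 × ℕ) :=
  (iO, x.val) :: patL0 W f y

theorem patL_prod (W : Finset Pg) (f : Pg → ZMod 2) (x y : ZMod 2) :
    ((patL W f x y).map Prod.fst).prod = iO * (lam * DDq W) := by
  have h1 : (W.toList.map fun w => (w.1, (f w).val)).map Prod.fst = W.toList.map Subtype.val := by
    rw [List.map_map]
    rfl
  have h2 : (W.toList.map Subtype.val).prod = DDq W := Finset.prod_map_toList W fun q => q.1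
  rw [patL, patL0, List.map_cons, List.map_cons, List.prod_cons, List.prod_cons, h1, h2]

theorem patL0_not_unit (W : Finset Pg) (f : Pg → ZMod 2) (y : ZMod 2) {p : 𝓞 K4 × ℕ}
    (hp : p ∈ patL0 W f y) : ¬ IsUnit p.1 := by
  rcases List.mem_cons.1 hp with h | h
  · rw [h]
    exact prime_lam.not_isUnit
  · obtain ⟨w, -, rfl⟩ := List.mem_map.1 h
    exact w.prime.not_isUnit

/-- a product of units -/
theorem patL0_nil (W : Finset Pg) (f : Pg → ZMod 2) (y : ZMod 2) {T : List (𝓞 K4 × ℕ)}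
    (hT : T.Sublist (patL0 W f y)) (h : IsUnit (T.map Prod.fst).prod) : T = [] := by
  rcases T with _ | ⟨t, T'⟩
  · rfl
  · exfalso
    rw [List.map_cons, List.prod_cons] at h
    exact patL0_not_unit W f y (hT.subset List.mem_cons_self) (isUnit_of_mul_isUnit_left h)

theorem pat_prod_pow (g : 𝓞 K4) (T : List (𝓞 K4 × ℕ)) :
    (T.map fun p => p.1 * g ^ p.2).prod = (T.map Prod.fst).prod * g ^ (T.map Prod.snd).sum := by
  induction T with
  | nil => simp
  | cons t T ih =>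
    rw [List.map_cons, List.map_cons, List.map_cons, List.prod_cons, List.prod_cons, List.sum_cons,
      ih, pow_add]
    ring

theorem pat_div {g P z : 𝓞 K4} (hg : g ≠ 0) {t : ℕ} (h : P * (g ^ t * g ^ t) = z * z) :
    ∃ z', P = z' * z' := by
  have h1 : g ^ t ∣ z := by
    rw [← IsIntegrallyClosed.pow_dvd_pow_iff two_ne_zero]
    exact ⟨P, by
      rw [pow_two, pow_two]
      linear_combination -h⟩
  obtain ⟨z', rfl⟩ := h1
  refine ⟨z', ?_⟩
  have h2 : g ^ t * g ^ t ≠ 0 := mul_ne_zero (pow_ne_zero _ hg) (pow_ne_zero _ hg)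
  apply mul_right_cancel₀ h2
  linear_combination h

theorem pat_not_sq (W : Finset Pg) (f : Pg → ZMod 2) (x y : ZMod 2) {g : Pg} (hg : g ∉ W)
    (T : List (𝓞 K4)) (hT : T.Sublist ((patL W f x y).map fun p => p.1 * g.1 ^ p.2)) :
    ¬ IsSquare (g.1 * T.prod) := by
  obtain ⟨T', hT', rfl⟩ := List.sublist_map_iff.1 hT
  rintro ⟨z, hz⟩
  have hP : (T'.map Prod.fst).prod ∣ iO * (lam * DDq W) := by
    rw [← patL_prod W f x y]
    exact (hT'.map Prod.fst).prod_dvd_prod
  rw [pat_prod_pow] at hz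
  obtain ⟨P, hPe⟩ : ∃ P, P = (T'.map Prod.fst).prod := ⟨_, rfl⟩
  obtain ⟨m, hm⟩ : ∃ m, m = (T'.map Prod.snd).sum := ⟨_, rfl⟩
  rw [← hPe] at hP hz
  rw [← hm] at hz
  -- the squarefree element
  have h1 : Squarefree (iO * (lam * DDq (insert g W))) := by
    rw [squarefree_mul_iff]
    refine ⟨isUnit_iO.isRelPrime_left, isUnit_iO.squarefree, ?_⟩
    rw [squarefree_mul_iff]
    refine ⟨?_, prime_lam.squarefree, DDq_squarefree _⟩
    rw [prime_lam.irreducible.isRelPrime_iff_not_dvd]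
    exact (DDq_in4 _).not_lam
  have h2 : g.1 * P ∣ iO * (lam * DDq (insert g W)) := by
    rw [DDq_insert hg]
    have e1 : iO * (lam * (g.1 * DDq W)) = g.1 * (iO * (lam * DDq W)) := by ring
    rw [e1]
    exact mul_dvd_mul_left _ hP
  have h3 : Squarefree (g.1 * P) := h1.squarefree_of_dvd h2
  rcases Nat.even_or_odd' m with ⟨t, ht | ht⟩
  · have h4 : g.1 * P * (g.1 ^ t * g.1 ^ t) = z * z := by
      rw [← hz, ht]
      ring
    obtain ⟨z', hz'⟩ := pat_div g.ne_zero h4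
    have h5 : IsUnit z' := h3 z' (by rw [hz'])
    have h6 : IsUnit (g.1 * P) := by
      rw [hz']
      exact h5.mul h5
    exact g.prime.not_isUnit (isUnit_of_mul_isUnit_left h6)
  · have h4 : P * (g.1 ^ (t + 1) * g.1 ^ (t + 1)) = z * z := by
      rw [← hz, ht]
      ring
    obtain ⟨z', hz'⟩ := pat_div g.ne_zero h4
    have h5 : IsUnit z' := (h3.squarefree_of_dvd (dvd_mul_left _ _)) z' (by rw [hz'])
    have h6 : IsUnit P := by
      rw [hz']
      exact h5.mul h5
    rw [patL, List.sublist_cons_iff] at hT'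
    rcases hT' with h7 | ⟨r, rfl, h7⟩
    · rw [hPe] at h6
      rw [patL0_nil W f y h7 h6, List.map_nil, List.sum_nil] at hm
      omega
    · rw [List.map_cons, List.prod_cons] at hPe
      rw [hPe] at h6
      have h8 := patL0_nil W f y h7 (isUnit_of_mul_isUnit_right h6)
      rw [h8, List.map_nil, List.prod_nil, mul_one] at hPe
      rw [hPe] at hz'
      exact iO_not_sq z' hz'

/-- **Primes with arbitrary prescribed quadratic symbols.** -/
theorem exists_pat4 (W : Finset Pg) (f : Pg → ZMod 2) (x y : ZMod 2) (n : ℕ) :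
    ∃ q : Pg, n < Nz q.1 ∧ q ∉ W ∧ aa q.1 = x ∧ bb q.1 = y ∧ ∀ w ∈ W, s4 q w = f w := by
  obtain ⟨g, hg⟩ := exists_not_mem W
  obtain ⟨q, h1, h2, h3, h4⟩ := exists_Pg_sq ((patL W f x y).map fun p => p.1 * g.1 ^ p.2) g.1
    (pat_not_sq W f x y hg) (insert g W) n
  rw [mem_insert, not_or] at h2
  have hqg : ¬ q.1 ∣ g.1 := fun h => h2.1 (by
    by_contra h5
    exact Pg.not_dvd h5 h)
  have h5 := h4 hqg
  have hval : ∀ x : ZMod 2, ((x.val : ℕ) : ZMod 2) = x := by decide
  -- the symbol of one element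
  have key : ∀ (e : 𝓞 K4) (ε : ZMod 2), (e, ε.val) ∈ patL W f x y → ¬ q.1 ∣ e → c2 q e = ε := by
    intro e ε he hqe
    have hpow : ¬ q.1 ∣ g.1 ^ ε.val := fun h => hqg (q.prime.dvd_of_dvd_pow h)
    have h6 : c2 q (e * g.1 ^ ε.val) = 0 := h3 _ (List.mem_map.2 ⟨_, he, rfl⟩) fun h =>
      (q.prime.dvd_or_dvd h).elim hqe hpow
    rw [c2, c4_mul q hqe hpow, c4_pow q hqg, map_add, map_mul, map_natCast] at h6
    change c2 q e + (ε.val : ZMod 2) * c2 q g.1 = 0 at h6
    rw [h5, hval, mul_one] at h6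
    have h7 : ∀ a b : ZMod 2, a + b = 0 → a = b := by decide
    exact h7 _ _ h6
  have hi : ¬ q.1 ∣ iO := fun h => q.prime.not_isUnit (isUnit_of_dvd_unit h isUnit_iO)
  refine ⟨q, h1, h2.2, ?_, ?_, fun w hw => ?_⟩
  · have h6 := key iO x List.mem_cons_self hi
    rw [c2, c4_i] at h6
    exact h6
  · rw [← c2_lam]
    exact key lam y (List.mem_cons_of_mem _ List.mem_cons_self) (lam_not_dvd q)
  · refine key w.1 (f w) (List.mem_cons_of_mem _ (List.mem_cons_of_mem _
      (List.mem_map.2 ⟨w, Finset.mem_toList.2 hw, rfl⟩))) fun h => h2.2 ?_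
    have h6 : q = w := by
      by_contra h7
      exact Pg.not_dvd h7 h
    rw [h6]
    exact hw

end

end Pool.Agent.Lib.MP_1a91b9_ntQ
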