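import Pool.Agent.Lib.MP_1a91b9_ntT.CF.OrdExt
import Pool.Agent.Lib.MP_1a91b9_ntT.CF.ExtSum
import Pool.Agent.Lib.MP_1a91b9_ntT.S10.Quad
import Pool.Agent.Lib.MP_1a91b9_ntT.S5.QuadBasic
import Pool.Agent.Lib.MP_1a91b9_ntT.S4.SplitOdd

/-!
# A place modulo which given elements are squares and another element is not

Let `k` be a number field, `D` a list of integers of `k` and `x` an integer such that no product of `x`
and a sublist of `D` is a square. Outside of a given finite set there is a place `v` of `k` such that all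
the elements of `D` are squares modulo `v` and `x` is not.

PROOF. There is a finite extension `E` of `k` in which all the elements of `D` are squares and `x` is
not (`exists_sq_field`, induction). In the quadratic extension `E(√x)` of `E` not all the places of
degree one over `k` split (the sum of `N w ^ (-s)` over the places of `E` and of `E(√x)` is
`log (1 / (s - 1)) + O(1)`).
-/

set_option autoImplicit false

namespace Pool.Agent.Lib.MP_1a91b9_ntT.CF

open NumberField IsDedekindDomain UniqueFactorizationMonoid Pool.Agent.Lib.MP_1a91b9_nt S4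

universe u

/-- **Adjunction of square roots.** -/
theorem exists_sq_field (n : ℕ) : ∀ (k : Type u) [Field k] [NumberField k] (D : List k) (x : k),
    D.length = n → (∀ T : List k, T.Sublist D → ¬ IsSquare (x * T.prod)) →
    ∃ (E : Type u) (_ : Field E) (_ : NumberField E) (_ : Algebra k E),
      (∀ d ∈ D, IsSquare (algebraMap k E d)) ∧ ¬ IsSquare (algebraMap k E x) := by
  induction n with
  | zero =>
    intro k _ _ D x hD h
    rw [List.length_eq_zero_iff] at hD
    refine ⟨k, inferInstance, inferInstance, Algebra.id k, ?_, ?_⟩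
    · rw [hD]
      intro d hd
      exact absurd hd List.not_mem_nil
    · have h1 := h [] (List.nil_sublist D)
      rw [List.prod_nil, mul_one] at h1
      exact h1
  | succ n ih =>
    intro k _ _ D x hD h
    obtain ⟨d, D', rfl⟩ : ∃ d D', D = d :: D' := by
      cases D with
      | nil => simp at hD
      | cons d D' => exact ⟨d, D', rfl⟩
    have hD' : D'.length = n := by
      rw [List.length_cons] at hD
      omega
    by_cases hd : IsSquare d
    · obtain ⟨E, i1, i2, i3, h1, h2⟩ := ih k D' x hD' fun T hT => h T (hT.cons d)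
      refine ⟨E, i1, i2, i3, ?_, h2⟩
      intro y hy
      rcases List.mem_cons.1 hy with rfl | hy
      · exact hd.map (algebraMap k E)
      · exact h1 y hy
    · obtain ⟨F, j1, j2, j3, z, hz, hzn, -, hfr⟩ := S10.exists_quad k d hd
      obtain ⟨σ, hσ⟩ := S5.exists_quad d z hz hfr fun y hy => hzn ⟨y, hy⟩
      obtain ⟨E, i1, i2, i3, h1, h2⟩ := ih F (D'.map (algebraMap k F)) (algebraMap k F x)
        (by rw [List.length_map, hD']) fun T hT hsq => by
          obtain ⟨T', hT', rfl⟩ := List.sublist_map_iff.1 hT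
          have e1 : algebraMap k F x * (T'.map (algebraMap k F)).prod =
              algebraMap k F (x * T'.prod) := by
            rw [map_mul, map_list_prod]
          rw [e1] at hsq
          rcases hσ.isSquare_or _ hsq with h3 | ⟨q, hq⟩
          · exact h T' (hT'.cons d) h3
          · refine h (d :: T') (hT'.cons_cons d) ⟨q * d, ?_⟩
            rw [List.prod_cons]
            linear_combination d * hq
      have i4 : Algebra k E := ((algebraMap F E).comp (algebraMap k F)).toAlgebra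
      have e2 : ∀ y : k, (algebraMap F E) (algebraMap k F y) =
          @algebraMap k E _ _ (((algebraMap F E).comp (algebraMap k F)).toAlgebra) y :=
        fun y => rfl
      refine ⟨E, i1, i2, ((algebraMap F E).comp (algebraMap k F)).toAlgebra, ?_, ?_⟩
      · intro y hy
        rw [← e2]
        rcases List.mem_cons.1 hy with rfl | hy
        · rw [← hz]
          exact (IsSquare.sq z).map (algebraMap F E)
        · exact h1 _ (List.mem_map_of_mem hy)
      · rw [← e2]
        exact h2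

section

variable (k E E1 : Type u) [Field k] [NumberField k] [Field E] [NumberField E] [Field E1]
  [NumberField E1] [Algebra k E] [Algebra E E1] [IsGalois E E1]

theorem chebB_final (A B : ℝ) (h : ∀ s : ℝ, 1 < s → s ≤ 2 →
      (2 : ℝ) * (Real.log (1 / (s - 1)) - A) ≤ Real.log (1 / (s - 1)) + B) : False := by
  obtain ⟨M, hM⟩ : ∃ M : ℝ, M = 2 * |A| + |B| + 1 := ⟨_, rfl⟩
  have hM0 : 0 < M := by
    rw [hM]
    positivity
  have h1 := h (1 + Real.exp (-M)) (by
    have := Real.exp_pos (-M)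
    linarith) (by
    have : Real.exp (-M) ≤ 1 := Real.exp_le_one_iff.mpr (by linarith)
    linarith)
  have h3 : Real.log (1 / (1 + Real.exp (-M) - 1)) = M := by
    rw [add_sub_cancel_left, one_div, ← Real.exp_neg, neg_neg, Real.log_exp]
  rw [h3] at h1
  have h4 := le_abs_self A
  have h5 : B ≤ |B| := le_abs_self B
  linarith

/-- **Not all the places of degree one split.** -/
theorem exists_nonsplit (hdeg : Module.finrank E E1 = 2) (n : Ideal (𝓞 E)) (hn : n ≠ 0) :
    ∃ w : HeightOneSpectrum (𝓞 E), ¬ n ≤ w.asIdeal ∧ w.asIdeal.inertiaDeg (𝓞 k) = 1 ∧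
      ¬ Spl E1 w := by
  by_contra hcon
  push Not at hcon
  obtain ⟨BE, hBE⟩ := prime_sum E
  obtain ⟨BE1, hBE1⟩ := prime_sum E1
  obtain ⟨B3, hB3⟩ := PZ_high_deg k E
  have hfin4 : {w : HeightOneSpectrum (𝓞 E) | n ≤ w.asIdeal}.Finite := by
    have h1 := Ideal.finite_factors hn
    refine h1.subset fun w hw => ?_
    exact Ideal.dvd_iff_le.mpr hw
  obtain ⟨B4, hB4⟩ := PZ_finite _ hfin4
  have hcover : (Set.univ : Set (HeightOneSpectrum (𝓞 E))) ⊆
      (({w | Spl E1 w} ∪ {w | w.asIdeal.inertiaDeg (𝓞 k) ≠ 1}) ∪ {w | n ≤ w.asIdeal}) := by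
    intro w _
    by_cases h4 : n ≤ w.asIdeal
    · exact Or.inr h4
    by_cases h3 : w.asIdeal.inertiaDeg (𝓞 k) = 1
    · exact Or.inl (Or.inl (hcon w h4 h3))
    · exact Or.inl (Or.inr h3)
  refine chebB_final (BE + B3 + B4) BE1 fun s hs hs2 => ?_
  have e0 := (PZ_mono hcover s hs).trans ((PZ_union _ _ s hs).trans (add_le_add_left
    (PZ_union _ _ s hs) _))
  have e3 := hB3 s hs
  have e4 := hB4 s hs
  have e6 := PZ_up E E1 {w | Spl E1 w} (fun w hw => hw) s hs
  rw [hdeg] at e6
  have e7 := (abs_le.mp (hBE s hs hs2)).1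
  have e8 := (abs_le.mp (hBE1 s hs hs2)).2
  push_cast at e6
  linarith

end

private theorem chebB_surj {k F : Type u} [Field k] [NumberField k] [Field F] [NumberField F]
    [Algebra k F] (W : HeightOneSpectrum (𝓞 F)) (hf : W.asIdeal.inertiaDeg (𝓞 k) = 1)
    (y : 𝓞 F) : ∃ x : 𝓞 k, y - algebraMap (𝓞 k) (𝓞 F) x ∈ W.asIdeal := by
  have hWm : W.asIdeal.IsMaximal := W.isMaximal
  have hvm : (W.under (𝓞 k)).asIdeal.IsMaximal := (W.under (𝓞 k)).isMaximal
  have hlo : W.asIdeal.LiesOver (W.under (𝓞 k)).asIdeal := ⟨rfl⟩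
  have h1 := Ideal.inertiaDeg_eq_of_isMaximal (W.under (𝓞 k)).asIdeal W.asIdeal
  rw [hf] at h1
  let _ : Field (𝓞 k ⧸ (W.under (𝓞 k)).asIdeal) := Ideal.Quotient.field _
  have h2 := Subalgebra.bot_eq_top_of_finrank_eq_one h1.symm
  have h3 : Ideal.Quotient.mk W.asIdeal y ∈
      (⊥ : Subalgebra (𝓞 k ⧸ (W.under (𝓞 k)).asIdeal) (𝓞 F ⧸ W.asIdeal)) := by
    rw [h2]
    exact Algebra.mem_top
  obtain ⟨z, hz⟩ := Algebra.mem_bot.1 h3
  obtain ⟨x, rfl⟩ := Ideal.Quotient.mk_surjective z
  refine ⟨x, ?_⟩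
  rw [← Ideal.Quotient.eq, ← hz]
  rfl

/-- **A place modulo which the elements of `D` are squares and `x` is not.** -/
theorem exists_place_sq (k : Type u) [Field k] [NumberField k] (D : List (𝓞 k)) (x : 𝓞 k)
    (hD : ∀ T : List (𝓞 k), T.Sublist D → ¬ IsSquare (x * T.prod)) (n : Ideal (𝓞 k)) (hn : n ≠ 0) :
    ∃ v : HeightOneSpectrum (𝓞 k), ¬ n ≤ v.asIdeal ∧
      (∀ d ∈ D, IsSquare (Ideal.Quotient.mk v.asIdeal d)) ∧
      ¬ IsSquare (Ideal.Quotient.mk v.asIdeal x) := by
  -- the field `E`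
  obtain ⟨E, i1, i2, i3, h1, h2⟩ := exists_sq_field (D.map (algebraMap (𝓞 k) k)).length k
    (D.map (algebraMap (𝓞 k) k)) (algebraMap (𝓞 k) k x) rfl fun T hT hsq => by
      obtain ⟨T', hT', rfl⟩ := List.sublist_map_iff.1 hT
      have e1 : algebraMap (𝓞 k) k x * (T'.map (algebraMap (𝓞 k) k)).prod =
          algebraMap (𝓞 k) k (x * T'.prod) := by
        rw [map_mul, map_list_prod]
      rw [e1] at hsq
      refine hD T' hT' ?_
      obtain ⟨y, hy⟩ := hsq
      have hint : IsIntegral (𝓞 k) y := by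
        have h3 : IsIntegral (𝓞 k) (y ^ 2) := by
          rw [pow_two, ← hy]
          exact isIntegral_algebraMap
        exact h3.of_pow two_pos
      obtain ⟨z, hz⟩ := IsIntegrallyClosed.isIntegral_iff.1 hint
      refine ⟨z, ?_⟩
      apply FaithfulSMul.algebraMap_injective (𝓞 k) k
      rw [hy, map_mul, hz]
  -- the field `E1`
  have hxO : algebraMap k E (algebraMap (𝓞 k) k x) = algebraMap (𝓞 E) E (algebraMap (𝓞 k) (𝓞 E) x) :=
    rfl
  rw [hxO] at h2
  obtain ⟨E1, j1, j2, j3, δ, hδ, -, -, hfr⟩ := S10.exists_quad E _ h2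
  have hquad : Algebra.IsQuadraticExtension E E1 := ⟨hfr⟩
  have hgal : IsGalois E E1 := inferInstance
  have hx0 : x ≠ 0 := by
    rintro rfl
    exact hD [] (List.nil_sublist D) ⟨0, by simp⟩
  have hx0' : algebraMap (𝓞 k) (𝓞 E) x ≠ 0 := by
    intro h
    apply hx0
    apply FaithfulSMul.algebraMap_injective (𝓞 k) (𝓞 E)
    rw [h, map_zero]
  have hn' : n.map (algebraMap (𝓞 k) (𝓞 E)) ≠ 0 := Ideal.map_ne_bot_of_ne_bot hn
  have h2x : Ideal.span {2 * algebraMap (𝓞 k) (𝓞 E) x} ≠ 0 := by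
    rw [Ne, Ideal.zero_eq_bot, Ideal.span_singleton_eq_bot]
    exact mul_ne_zero two_ne_zero hx0'
  obtain ⟨w, hw1, hw2, hw3⟩ := exists_nonsplit k E E1 hfr
    (n.map (algebraMap (𝓞 k) (𝓞 E)) * Ideal.span {2 * algebraMap (𝓞 k) (𝓞 E) x})
    (mul_ne_zero hn' h2x)
  have hwn : ¬ n.map (algebraMap (𝓞 k) (𝓞 E)) ≤ w.asIdeal := fun h =>
    hw1 (Ideal.mul_le_left.trans h)
  have hw2x : 2 * algebraMap (𝓞 k) (𝓞 E) x ∉ w.asIdeal := fun h =>
    hw1 (Ideal.mul_le_right.trans ((Ideal.span_singleton_le_iff_mem _).2 h))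
  have hwp : w.asIdeal.IsPrime := w.isPrime
  have hwm : w.asIdeal.IsMaximal := w.isMaximal
  -- `x` is not a square modulo `w`
  have hns : ¬ IsSquare (Ideal.Quotient.mk w.asIdeal (algebraMap (𝓞 k) (𝓞 E) x)) := by
    intro hs
    rcases quad_split_at hfr (algebraMap (𝓞 k) (𝓞 E) x) h2 δ hδ w hw2x with ⟨-, -, h4⟩ | ⟨h4, -⟩
    · rcases trichotomy E E1 2 hfr w with ⟨-, -, h5, -⟩ | ⟨-, -, h5, -⟩ | ⟨-, h5, -⟩
      · have h6 : Nat.card (Over E1 w) = 1 := by rw [Nat.card_eq_fintype_card, h5]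
        have h7 : Nat.card (Over E1 w) = 2 := h4
        omega
      · have h6 : Nat.card (Over E1 w) = 1 := by rw [Nat.card_eq_fintype_card, h5]
        have h7 : Nat.card (Over E1 w) = 2 := h4
        omega
      · exact hw3 h5
    · exact h4 hs
  -- the residue fields
  have hsurj := chebB_surj w hw2
  refine ⟨w.under (𝓞 k), fun h => hwn (Ideal.map_le_iff_le_comap.mpr h), ?_, ?_⟩
  · intro d hd
    obtain ⟨y, hy⟩ := h1 _ (List.mem_map_of_mem hd)
    have hint : IsIntegral (𝓞 E) y := by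
      have h3 : IsIntegral (𝓞 E) (y ^ 2) := by
        rw [pow_two, ← hy]
        exact isIntegral_algebraMap (x := algebraMap (𝓞 k) (𝓞 E) d)
      exact h3.of_pow two_pos
    obtain ⟨z, hz⟩ := IsIntegrallyClosed.isIntegral_iff.1 hint
    have hz2 : algebraMap (𝓞 k) (𝓞 E) d = z * z := by
      apply FaithfulSMul.algebraMap_injective (𝓞 E) E
      rw [map_mul, hz, ← hy]
      rfl
    obtain ⟨c, hc⟩ := hsurj z
    refine ⟨Ideal.Quotient.mk _ c, ?_⟩
    rw [← map_mul, Ideal.Quotient.eq]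
    change algebraMap (𝓞 k) (𝓞 E) (d - c * c) ∈ w.asIdeal
    have e1 : algebraMap (𝓞 k) (𝓞 E) (d - c * c) =
        (z - algebraMap (𝓞 k) (𝓞 E) c) * (z + algebraMap (𝓞 k) (𝓞 E) c) := by
      rw [map_sub, map_mul, hz2]
      ring
    rw [e1]
    exact Ideal.mul_mem_right _ _ hc
  · rintro ⟨c', hc'⟩
    obtain ⟨c, rfl⟩ := Ideal.Quotient.mk_surjective c'
    rw [← map_mul, Ideal.Quotient.eq] at hc'
    apply hns
    refine ⟨Ideal.Quotient.mk _ (algebraMap (𝓞 k) (𝓞 E) c), ?_⟩
    rw [← map_mul, Ideal.Quotient.eq, ← map_mul, ← map_sub]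
    exact hc'

end Pool.Agent.Lib.MP_1a91b9_ntT.CF
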