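import Pool.Agent.Lib.MP_1a91b9_ntQ.R.Aux4
import Pool.Agent.Lib.MP_1a91b9_ntQ.R.ChebB

/-!
# MP_1a91b9_nt (quartic twists), part R: the auxiliary prime with prescribed quadratic symbols

For disjoint sets `S`, `B` of primes, `S` nonempty, there are primes `q` of arbitrarily large norm with
`aa q = 1`, `bb q = 0`, modulo which every element of `B` is a square and the product `DDq S` is not.
-/

set_option autoImplicit false

namespace Pool.Agent.Lib.MP_1a91b9_ntQ

open NumberField Finset IsDedekindDomain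
open Pool.Agent.Lib.MP_1a91b9_nuX.HQ (GI G4 qs w qs_spec w_zero)
open Pool.Agent.Lib.MP_1a91b9_ntH (PS nm one_le_nm)

noncomputable section

/-- an element congruent to a square is a square -/
theorem c2_of_sq {q : Pg} {x y : 𝓞 K4} (hx : ¬ q.1 ∣ x) (h : q.1 ∣ x - y * y) : c2 q x = 0 := by
  have hy : ¬ q.1 ∣ y := by
    intro h1
    apply hx
    have h2 : x = (x - y * y) + y * y := by ring
    rw [h2]
    exact dvd_add h (Dvd.dvd.mul_right h1 y)
  have h2 : ∀ x : ZMod 2, x + x = 0 := by decide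
  rw [c2, c4_congr q hx h, c4_mul q hy hy, map_add, h2]

/-- an element with symbol `1` is a square -/
theorem sq_of_c2 {q : Pg} {x : 𝓞 K4} (hx : ¬ q.1 ∣ x) (h : c2 q x = 0) :
    IsSquare (Ideal.Quotient.mk (Ideal.span {q.1}) x) := by
  have hq0 : Ideal.span {q.1} ≠ ⊥ := by
    rw [Ne, Ideal.span_singleton_eq_bot]
    exact q.prime.ne_zero
  have hpr : (Ideal.span {q.1}).IsPrime := (Ideal.span_singleton_prime q.prime.ne_zero).2 q.prime
  have hmax : (Ideal.span {q.1}).IsMaximal := hpr.isMaximal hq0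
  let i1 : Field (𝓞 K4 ⧸ Ideal.span {q.1}) := Ideal.Quotient.field _
  have hfin : Finite (𝓞 K4 ⧸ Ideal.span {q.1}) := Ideal.finiteQuotientOfFreeOfNeBot _ hq0
  let i2 : Fintype (𝓞 K4 ⧸ Ideal.span {q.1}) := Fintype.ofFinite _
  have hcard : Fintype.card (𝓞 K4 ⧸ Ideal.span {q.1}) = Nz q.1 := by
    rw [← absNorm_span, Ideal.absNorm_apply, Submodule.cardQuot_apply, Nat.card_eq_fintype_card]
  have hmod := q.in4.Nz_mod
  obtain ⟨k, hk⟩ : ∃ k, Nz q.1 = 4 * k + 1 := ⟨Nz q.1 / 4, by omega⟩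
  have hx' : Ideal.Quotient.mk (Ideal.span {q.1}) x ≠ 0 := by
    rw [Ne, Ideal.Quotient.eq_zero_iff_mem, Ideal.mem_span_singleton]
    exact hx
  have h20 : ringChar (𝓞 K4 ⧸ Ideal.span {q.1}) ≠ 2 := by
    intro h2
    have h3 : ((2 : ℕ) : 𝓞 K4 ⧸ Ideal.span {q.1}) = 0 := by
      have h4 := ringChar.Nat.cast_ringChar (R := 𝓞 K4 ⧸ Ideal.span {q.1})
      rwa [h2] at h4
    have h4 : Ideal.Quotient.mk (Ideal.span {q.1}) ((2 : ℕ) : 𝓞 K4) = 0 := by
      rw [map_natCast]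
      exact h3
    rw [Ideal.Quotient.eq_zero_iff_mem, Ideal.mem_span_singleton] at h4
    have h5 := Nz_dvd h4
    rw [Nz_natCast] at h5
    have h6 := Nz_two_le q.prime
    have h7 : Nz q.1 ≤ 4 := Nat.le_of_dvd (by norm_num) h5
    have h8 : Nz q.1 = 1 ∨ Nz q.1 = 4 ∨ Nz q.1 = 2 ∨ Nz q.1 = 3 := by omega
    rcases h8 with h8 | h8 | h8 | h8 <;> omega
  rw [FiniteField.isSquare_iff h20 hx', hcard]
  -- the symbol
  have h3 : ∀ x : ZMod 4, md x = 0 → x + x = 0 := by decide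
  have h4 := h3 (c4 q x) h
  have h5 := qs_spec gi q.g4 (Pg.not_mem.2 hx)
  rw [absNorm_span, Ideal.mem_span_singleton] at h5
  have e1 : (Nz q.1 - 1) / 4 = k := by omega
  have e2 : Nz q.1 / 2 = k + k := by omega
  have h6 : w iO (qs iO (Ideal.span {q.1}) x) * w iO (qs iO (Ideal.span {q.1}) x) = 1 := by
    rw [← gi.w_add]
    have h7 : qs iO (Ideal.span {q.1}) x + qs iO (Ideal.span {q.1}) x = 0 := h4
    rw [h7, w_zero]
  rw [e1] at h5
  have h7 : Ideal.Quotient.mk (Ideal.span {q.1}) (w iO (qs iO (Ideal.span {q.1}) x)) =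
      Ideal.Quotient.mk (Ideal.span {q.1}) (x ^ k) := by
    rw [Ideal.Quotient.eq, Ideal.mem_span_singleton]
    exact h5
  rw [e2, pow_add, ← map_pow, ← h7, ← map_mul, h6, map_one]

/-- `i` is not a square -/
theorem iO_not_sq (z : 𝓞 K4) : iO ≠ z * z := by
  intro h
  have h1 := congrArg (fun x => (cp x).2) h
  simp only [cp_iO, cp_mul] at h1
  have h2 : (1 : ℤ) = 2 * ((cp z).1 * (cp z).2) := by
    rw [h1]
    ring
  omega

/-- no product of `i` and of some of the elements `lam`, `i DDq S`, `b` is a square -/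
theorem auxB_not_sq {S B : Finset Pg} (hS : S ≠ ∅) (hd : Disjoint S B) (T : List (𝓞 K4))
    (hT : T.Sublist (lam :: (iO * DDq S) :: B.toList.map Subtype.val)) :
    ¬ IsSquare (iO * T.prod) := by
  have hB : (B.toList.map Subtype.val).prod = DDq B := Finset.prod_map_toList B fun q => q.1
  have h1 : Squarefree (lam * (iO * DDq S * DDq B)) := by
    have h2 : lam * (iO * DDq S * DDq B) = lam * (iO * DDq (S ∪ B)) := by
      rw [DDq_union hd]
      ring
    rw [h2]
    have h3 : Squarefree (iO * DDq (S ∪ B)) := by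
      rw [squarefree_mul_iff]
      exact ⟨isUnit_iO.isRelPrime_left, isUnit_iO.squarefree, DDq_squarefree _⟩
    rw [squarefree_mul_iff]
    refine ⟨?_, prime_lam.squarefree, h3⟩
    rw [prime_lam.irreducible.isRelPrime_iff_not_dvd]
    intro h4
    rcases prime_lam.dvd_or_dvd h4 with h5 | h5
    · exact prime_lam.not_isUnit (isUnit_of_dvd_unit h5 isUnit_iO)
    · exact (DDq_in4 (S ∪ B)).not_lam h5
  have h2 : T.prod ∣ lam * (iO * DDq S * DDq B) := by
    have h3 := hT.prod_dvd_prod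
    rwa [List.prod_cons, List.prod_cons, hB] at h3
  rintro ⟨z, hz⟩
  have h3 : Squarefree (iO * T.prod) := by
    rw [squarefree_mul_iff]
    exact ⟨isUnit_iO.isRelPrime_left, isUnit_iO.squarefree, h1.squarefree_of_dvd h2⟩
  have h4 : IsUnit z := h3 z (by rw [hz])
  have h5 : IsUnit T.prod := by
    have h6 : IsUnit (iO * T.prod) := by
      rw [hz]
      exact h4.mul h4
    exact isUnit_of_mul_isUnit_right h6
  rcases T with _ | ⟨t, T'⟩
  · rw [List.prod_nil, mul_one] at hz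
    exact iO_not_sq z hz
  · rw [List.prod_cons] at h5
    have h6 : IsUnit t := isUnit_of_mul_isUnit_left h5
    have h7 : t ∈ lam :: (iO * DDq S) :: B.toList.map Subtype.val :=
      hT.subset (List.mem_cons_self)
    rcases List.mem_cons.1 h7 with h8 | h8
    · rw [h8] at h6
      exact prime_lam.not_isUnit h6
    · rcases List.mem_cons.1 h8 with h9 | h9
      · obtain ⟨q, hq⟩ := Finset.nonempty_iff_ne_empty.2 hS
        rw [h9] at h6
        have h10 : q.1 ∣ iO * DDq S := Dvd.dvd.mul_left (dvd_DDq.2 hq) _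
        exact q.prime.not_isUnit (isUnit_of_dvd_unit h10 h6)
      · obtain ⟨q, -, rfl⟩ := List.mem_map.1 h9
        exact (Pg.prime q).not_isUnit h6

/-- **The auxiliary prime with prescribed quadratic symbols.** -/
theorem exists_auxB {S B : Finset Pg} (hS : S ≠ ∅) (hd : Disjoint S B) (n : ℕ) :
    ∃ q : Pg, n < Nz q.1 ∧ q ∉ S ∪ B ∧ aa q.1 = 1 ∧ bb q.1 = 0 ∧ (∀ b ∈ B, s4 q b = 0) ∧
      ∑ p ∈ S, s4 q p = 1 := by
  obtain ⟨N, hN⟩ : ∃ N : 𝓞 K4, N = lam * DDq (S ∪ B) * ((n.factorial : ℕ) : 𝓞 K4) := ⟨_, rfl⟩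
  have hf0 : ((n.factorial : ℕ) : 𝓞 K4) ≠ 0 := Nat.cast_ne_zero.2 (Nat.factorial_ne_zero n)
  have hN0 : Ideal.span {N} ≠ 0 := by
    rw [Ne, Ideal.zero_eq_bot, Ideal.span_singleton_eq_bot, hN]
    exact mul_ne_zero (mul_ne_zero prime_lam.ne_zero (DDq_in4 _).ne_zero) hf0
  obtain ⟨v, hv1, hv2, hv3⟩ := Pool.Agent.Lib.MP_1a91b9_ntT.CF.exists_place_sq K4
    (lam :: (iO * DDq S) :: B.toList.map Subtype.val) iO (auxB_not_sq hS hd) (Ideal.span {N}) hN0
  rw [Ideal.span_singleton_le_iff_mem] at hv1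
  -- a generator
  obtain ⟨ρ, hρ⟩ : ∃ ρ, v.asIdeal = Ideal.span {ρ} :=
    (IsPrincipalIdealRing.principal v.asIdeal).principal
  have hρ0 : ρ ≠ 0 := by
    rintro rfl
    apply v.ne_bot
    rw [hρ, Ideal.span_singleton_eq_bot]
  have hρp : Prime ρ := by
    rw [← Ideal.span_singleton_prime hρ0, ← hρ]
    exact v.isPrime
  have hlρ : ¬ lam ∣ ρ := by
    intro h
    apply hv1
    have h1 : Associated lam ρ := prime_lam.associated_of_dvd hρp h
    rw [hρ, Ideal.mem_span_singleton, hN, mul_assoc]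
    exact Dvd.dvd.mul_right h1.symm.dvd _
  obtain ⟨k, q, hq⟩ := exists_Pg hρp hlρ
  have hvq : v.asIdeal = Ideal.span {q.1} := by
    rw [hρ, Ideal.span_singleton_eq_span_singleton, hq]
    exact (associated_unit_mul_right ρ _ (isUnit_iO.pow k.val))
  rw [hvq, Ideal.mem_span_singleton, hN] at hv1
  have hl : ¬ q.1 ∣ lam := fun h => hv1 (Dvd.dvd.mul_right (Dvd.dvd.mul_right h _) _)
  have hDD : ¬ q.1 ∣ DDq (S ∪ B) := fun h => hv1 (Dvd.dvd.mul_right (Dvd.dvd.mul_left h _) _)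
  have hfac : ¬ q.1 ∣ ((n.factorial : ℕ) : 𝓞 K4) := fun h => hv1 (Dvd.dvd.mul_left h _)
  have hqSB : q ∉ S ∪ B := fun h => hDD (dvd_DDq.2 h)
  have hqS : q ∉ S := fun h => hqSB (mem_union_left _ h)
  have hqB : q ∉ B := fun h => hqSB (mem_union_right _ h)
  have hi : ¬ q.1 ∣ iO := fun h => q.prime.not_isUnit (isUnit_of_dvd_unit h isUnit_iO)
  have hDS : ¬ q.1 ∣ DDq S := fun h => hqS (dvd_DDq.1 h)
  -- the symbols
  have key : ∀ x : 𝓞 K4, ¬ q.1 ∣ x → IsSquare (Ideal.Quotient.mk v.asIdeal x) → c2 q x = 0 := by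
    rintro x hx ⟨y', hy'⟩
    obtain ⟨y, rfl⟩ := Ideal.Quotient.mk_surjective y'
    rw [← map_mul, Ideal.Quotient.eq, hvq, Ideal.mem_span_singleton] at hy'
    exact c2_of_sq hx hy'
  have h2 : ∀ x : ZMod 2, x ≠ 0 → x = 1 := by decide
  have hci : c2 q iO = 1 := by
    refine h2 _ fun h => hv3 ?_
    have h3 := sq_of_c2 hi h
    rw [hvq]
    exact h3
  have haa : aa q.1 = 1 := by
    rw [c2, c4_i] at hci
    exact hci
  have hbb : bb q.1 = 0 := by
    rw [← c2_lam]
    exact key _ hl (hv2 _ List.mem_cons_self)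
  have hcS : c2 q (iO * DDq S) = 0 := by
    refine key _ (fun h => ?_) (hv2 _ (List.mem_cons_of_mem _ List.mem_cons_self))
    exact (q.prime.dvd_or_dvd h).elim hi hDS
  refine ⟨q, ?_, hqSB, haa, hbb, fun b hb => ?_, ?_⟩
  · by_contra h
    apply hfac
    have h3 : Nz q.1 ∣ n.factorial := Nat.dvd_factorial (by
      have := Nz_two_le q.prime
      omega) (by omega)
    have h4 : q.1 ∣ ((Nz q.1 : ℕ) : 𝓞 K4) := by
      rw [← mul_cj4]
      exact dvd_mul_right _ _
    exact h4.trans (Nat.cast_dvd_cast h3)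
  · refine key _ (fun h => hqB ?_) (hv2 _ (List.mem_cons_of_mem _ (List.mem_cons_of_mem _
      (List.mem_map_of_mem (Finset.mem_toList.2 hb)))))
    have h3 : q = b := by
      by_contra h4
      exact Pg.not_dvd h4 h
    rw [h3]
    exact hb
  · rw [← c2_DDq q hqS]
    rw [c2, c4_mul q hi hDS, map_add] at hcS
    change c2 q iO + c2 q (DDq S) = 0 at hcS
    rw [hci] at hcS
    have h3 : ∀ x : ZMod 2, 1 + x = 0 → x = 1 := by decide
    exact h3 _ hcS

end

end Pool.Agent.Lib.MP_1a91b9_ntQ
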