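import Pool.Agent.Lib.MP_1a91b9_ntQ.R.Lat4
import Pool.Agent.Lib.MP_1a91b9_ntK.R.Eul

/-!
# MP_1a91b9_nt (quartic twists), part R: Euler products of complex multiplicative functions on `ℤ[i]`
by sieving

`R` is any domain with the coordinates of `ℤ[i]`. Port of `MP_1a91b9_ntH.R.Euler` and
`MP_1a91b9_ntK.R.Eul`.
-/

set_option autoImplicit false

namespace Pool.Agent.Lib.MP_1a91b9_ntQ

open Finset
open Pool.Agent.Lib.MP_1a91b9_ntH (PS nm pr mem_pr Zt CharB two_rpow_lt u_diff Ioc_succ_eq sum_tail)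
open Pool.Agent.Lib.MP_1a91b9_ntK (norm_factor_le)

noncomputable section

variable {R : Type} [CommRing R] [IsDomain R] [Gau R]

theorem nG_one : nG (1 : R) = 1 := by
  have h1 : nG (1 : R) * nG (1 : R) = nG (1 : R) := by rw [← nG_mul, mul_one]
  have h2 : nG (1 : R) ≠ 0 := fun h => one_ne_zero (nG_eq_zero.1 h)
  exact mul_right_cancel₀ h2 (h1.trans (one_mul _).symm)

theorem nG_nonneg_rpow (x : R) (σ : ℝ) : 0 ≤ (nG x : ℝ) ^ (-σ) :=
  Real.rpow_nonneg (Nat.cast_nonneg _) _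

theorem sum_discG_two_pow (R : Type) [CommRing R] [IsDomain R] [Gau R] (σ : ℝ) (h : 1 < σ) (n : ℕ) :
    ∑ x ∈ discG R (2 ^ n), (nG x : ℝ) ^ (-σ) ≤
      25 + 50 * ∑ k ∈ range n, ((2 : ℝ) ^ (-(σ - 1))) ^ k := by
  classical
  induction n with
  | zero =>
    simp only [pow_zero, range_zero, sum_empty, mul_zero, add_zero]
    calc ∑ x ∈ discG R 1, (nG x : ℝ) ^ (-σ) ≤ ∑ x ∈ discG R 1, (1 : ℝ) := by
          apply sum_le_sum
          intro x hx
          rw [mem_discG] at hx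
          rcases Nat.eq_zero_or_pos (nG x) with h0 | h0
          · rw [h0, Nat.cast_zero, Real.zero_rpow (by linarith)]
            norm_num
          · have : nG x = 1 := by omega
            rw [this, Nat.cast_one, Real.one_rpow]
      _ = ((discG R 1).card : ℝ) := by simp
      _ ≤ 25 := by
          have := card_discG_le' (R := R) 1 le_rfl
          exact_mod_cast this
  | succ n ih =>
    have hsub : discG R (2 ^ n) ⊆ discG R (2 ^ (n + 1)) := by
      intro x hx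
      rw [mem_discG] at hx ⊢
      exact hx.trans (Nat.pow_le_pow_right (by norm_num) (by omega))
    rw [← sum_sdiff hsub, sum_range_succ, mul_add]
    have h1 : ∑ x ∈ discG R (2 ^ (n + 1)) \ discG R (2 ^ n), (nG x : ℝ) ^ (-σ) ≤
        50 * ((2 : ℝ) ^ (-(σ - 1))) ^ n := by
      calc ∑ x ∈ discG R (2 ^ (n + 1)) \ discG R (2 ^ n), (nG x : ℝ) ^ (-σ)
          ≤ ∑ x ∈ discG R (2 ^ (n + 1)) \ discG R (2 ^ n), ((2 : ℝ) ^ n) ^ (-σ) := by
            apply sum_le_sum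
            intro x hx
            rw [mem_sdiff, mem_discG, mem_discG] at hx
            apply Real.rpow_le_rpow_of_nonpos (by positivity) _ (by linarith)
            have : 2 ^ n ≤ nG x := by omega
            exact_mod_cast this
        _ = ((discG R (2 ^ (n + 1)) \ discG R (2 ^ n)).card : ℝ) * ((2 : ℝ) ^ n) ^ (-σ) := by
            rw [sum_const, nsmul_eq_mul]
        _ ≤ (25 * 2 ^ (n + 1) : ℝ) * ((2 : ℝ) ^ n) ^ (-σ) := by
            apply mul_le_mul_of_nonneg_right _ (by positivity)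
            have h2 := card_discG_le' (R := R) (2 ^ (n + 1)) Nat.one_le_two_pow
            have h3 := card_le_card (sdiff_subset (s := discG R (2 ^ (n + 1)))
              (t := discG R (2 ^ n)))
            exact_mod_cast h3.trans h2
        _ = 50 * ((2 : ℝ) ^ (-(σ - 1))) ^ n := by
            have h4 : ((2 : ℝ) ^ n) ^ (-σ) = ((2 : ℝ) ^ (-σ)) ^ n := by
              rw [← Real.rpow_natCast, ← Real.rpow_natCast, ← Real.rpow_mul (by norm_num),
                ← Real.rpow_mul (by norm_num), mul_comm]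
            have h5 : (2 : ℝ) ^ (-(σ - 1)) = 2 * (2 : ℝ) ^ (-σ) := by
              rw [show -(σ - 1) = 1 + -σ by ring, Real.rpow_add (by norm_num), Real.rpow_one]
            rw [h4, h5, mul_pow, pow_succ]
            ring
    linarith

theorem sum_finset_le (σ : ℝ) (h : 1 < σ) (s : Finset (R)) :
    ∑ x ∈ s, (nG x : ℝ) ^ (-σ) ≤ 25 + 50 / (1 - (2 : ℝ) ^ (-(σ - 1))) := by
  obtain ⟨n, hn⟩ : ∃ n : ℕ, ∀ x ∈ s, nG x ≤ n := ⟨s.sup nG, fun x hx => le_sup (f := nG) hx⟩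
  have h1 : s ⊆ discG R (2 ^ n) := by
    intro x hx
    rw [mem_discG]
    exact (hn x hx).trans (Nat.lt_two_pow_self).le
  have h2 := sum_discG_two_pow R σ h n
  have h3 : ∑ k ∈ range n, ((2 : ℝ) ^ (-(σ - 1))) ^ k ≤ 1 / (1 - (2 : ℝ) ^ (-(σ - 1))) := by
    have h4 := two_rpow_lt h
    have h5 : (0 : ℝ) ≤ (2 : ℝ) ^ (-(σ - 1)) := by positivity
    rw [one_div, ← tsum_geometric_of_lt_one h5 h4]
    exact (summable_geometric_of_lt_one h5 h4).sum_le_tsum _ (fun _ _ => by positivity)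
  calc ∑ x ∈ s, (nG x : ℝ) ^ (-σ) ≤ ∑ x ∈ discG R (2 ^ n), (nG x : ℝ) ^ (-σ) :=
        sum_le_sum_of_subset_of_nonneg h1 fun x _ _ => nG_nonneg_rpow x σ
    _ ≤ 25 + 50 * ∑ k ∈ range n, ((2 : ℝ) ^ (-(σ - 1))) ^ k := h2
    _ ≤ 25 + 50 * (1 / (1 - (2 : ℝ) ^ (-(σ - 1)))) := by linarith
    _ = 25 + 50 / (1 - (2 : ℝ) ^ (-(σ - 1))) := by ring

theorem summable_nG (R : Type) [CommRing R] [IsDomain R] [Gau R] (σ : ℝ) (h : 1 < σ) :
    Summable fun x : R => (nG x : ℝ) ^ (-σ) :=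
  summable_of_sum_le (fun x => nG_nonneg_rpow x σ) (sum_finset_le σ h)

theorem tsum_nG_le (R : Type) [CommRing R] [IsDomain R] [Gau R] : ∃ C : ℝ, ∀ σ : ℝ, 1 < σ → σ ≤ 3 → ∑' x : R, (nG x : ℝ) ^ (-σ) ≤ C / (σ - 1) := by
  refine ⟨300, fun σ h1 h3 => ?_⟩
  have h4 : ∑' x : R, (nG x : ℝ) ^ (-σ) ≤ 25 + 50 / (1 - (2 : ℝ) ^ (-(σ - 1))) :=
    (summable_nG R σ h1).tsum_le_of_sum_le (sum_finset_le σ h1)
  refine h4.trans ?_
  have ht : 0 < σ - 1 := by linarith
  obtain ⟨t, htd⟩ : ∃ t, t = σ - 1 := ⟨_, rfl⟩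
  rw [← htd] at ht ⊢
  have ht2 : t ≤ 2 := by linarith
  have h5 : (1 / 4) * t ≤ 1 - (2 : ℝ) ^ (-t) := by
    have h6 : (2 : ℝ) ^ (-t) = (Real.exp (t * Real.log 2))⁻¹ := by
      rw [← Real.exp_neg, Real.rpow_def_of_pos (by norm_num)]
      congr 1
      ring
    have h7 : 1 + t * Real.log 2 ≤ Real.exp (t * Real.log 2) := by
      have := Real.add_one_le_exp (t * Real.log 2)
      linarith
    have h8 := Real.log_two_gt_d9
    have h9 := Real.log_two_lt_d9
    have h10 : 0 < 1 + t * Real.log 2 := by nlinarith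
    have h11 : (Real.exp (t * Real.log 2))⁻¹ ≤ (1 + t * Real.log 2)⁻¹ :=
      inv_anti₀ h10 h7
    rw [h6]
    have h12 : (1 + t * Real.log 2)⁻¹ ≤ 1 - 1 / 4 * t := by
      have h13 : 0 ≤ t * (Real.log 2 - 1 / 4 - t * Real.log 2 / 4) :=
        mul_nonneg ht.le (by nlinarith)
      rw [inv_le_iff_one_le_mul₀ h10]
      nlinarith
    linarith
  have h6 : 50 / (1 - (2 : ℝ) ^ (-t)) ≤ 50 / ((1 / 4) * t) :=
    div_le_div_of_nonneg_left (by norm_num) (by linarith) h5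
  have h7 : (25 : ℝ) ≤ 50 / t := by
    rw [le_div_iff₀ ht]
    linarith
  calc 25 + 50 / (1 - (2 : ℝ) ^ (-t)) ≤ 50 / t + 50 / ((1 / 4) * t) := by linarith
    _ = 250 / t := by
        field_simp
        norm_num
    _ ≤ 300 / t := by
        apply div_le_div_of_nonneg_right (by norm_num) ht.le

/-- A system of normalised primes of `ℤ[w]`, together with the set of the normalised elements. -/
structure PrmG (R : Type) [CommRing R] [Gau R] (ι : Type) [PS ι] where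
  e : ι → R
  P : R → Prop
  prime : ∀ q, Prime (e q)
  N_eq : ∀ q, PS.N q = nG (e q)
  ndvd : ∀ p q, p ≠ q → ¬ e p ∣ e q
  memP : ∀ q, P (e q)
  one : P 1
  mul_iff : ∀ q y, P (e q * y) ↔ P y
  ex : ∀ x, P x → x ≠ 1 → ∃ q, e q ∣ x

variable {ι : Type} [PS ι]

/-- A complex function on the normalised elements which is multiplicative. -/
structure MulG (D : PrmG R ι) (F : R → ℂ) : Prop where
  one : F 1 = 1
  mul : ∀ q y, D.P y → F (D.e q * y) = F (D.e q) * F y
  zero : ∀ x, ¬ D.P x → F x = 0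
  le : ∀ x, ‖F x‖ ≤ 1

theorem PrmG.e_inj (D : PrmG R ι) : Function.Injective D.e := by
  intro p q h
  by_contra hne
  exact D.ndvd p q hne (by rw [h])

theorem termC_le {F : R → ℂ} (hF : ∀ x, ‖F x‖ ≤ 1) (σ : ℝ) (x : R) :
    ‖F x * (((nG x : ℝ) ^ (-σ) : ℝ) : ℂ)‖ ≤ (nG x : ℝ) ^ (-σ) := by
  rw [norm_mul, Complex.norm_real, Real.norm_eq_abs, abs_of_nonneg (nG_nonneg_rpow x σ)]
  exact mul_le_of_le_one_left (nG_nonneg_rpow x σ) (hF x)

/-- Not divisible by the primes of `s`. -/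
def PrmG.NoDiv (D : PrmG R ι) (s : Finset ι) (x : R) : Prop := ∀ q ∈ s, ¬ D.e q ∣ x

theorem PrmG.noDiv_insert [DecidableEq ι] (D : PrmG R ι) {q : ι} {s : Finset ι} {x : R} :
    D.NoDiv (insert q s) x ↔ ¬ D.e q ∣ x ∧ D.NoDiv s x := by
  unfold PrmG.NoDiv
  exact forall_mem_insert _ _ _

theorem PrmG.noDiv_one (D : PrmG R ι) (s : Finset ι) : D.NoDiv s 1 := by
  intro q _ hq
  exact (D.prime q).not_isUnit (isUnit_of_dvd_one hq)

theorem termC_ite_le {F : R → ℂ} (hF : ∀ x, ‖F x‖ ≤ 1) (σ : ℝ) (p : R → Prop)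
    [DecidablePred p] (x : R) :
    ‖if p x then F x * (((nG x : ℝ) ^ (-σ) : ℝ) : ℂ) else 0‖ ≤ (nG x : ℝ) ^ (-σ) := by
  split_ifs
  · exact termC_le hF σ x
  · rw [norm_zero]
    exact nG_nonneg_rpow x σ

theorem summableC_ite {F : R → ℂ} (hF : ∀ x, ‖F x‖ ≤ 1) (σ : ℝ) (h : 1 < σ)
    (p : R → Prop) [DecidablePred p] :
    Summable fun x => if p x then F x * (((nG x : ℝ) ^ (-σ) : ℝ) : ℂ) else 0 :=
  Summable.of_norm_bounded (summable_nG R σ h) (termC_ite_le hF σ p)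

theorem summableC_F {F : R → ℂ} (hF : ∀ x, ‖F x‖ ≤ 1) (σ : ℝ) (h : 1 < σ) :
    Summable fun x => F x * (((nG x : ℝ) ^ (-σ) : ℝ) : ℂ) :=
  Summable.of_norm_bounded (summable_nG R σ h) (termC_le hF σ)

open Classical in
theorem sieveC (D : PrmG R ι) {F : R → ℂ} (hF : MulG D F) (σ : ℝ) (h : 1 < σ) (s : Finset ι) :
    (∑' x, F x * (((nG x : ℝ) ^ (-σ) : ℝ) : ℂ)) *
      ∏ q ∈ s, (1 - F (D.e q) * (((nG (D.e q) : ℝ) ^ (-σ) : ℝ) : ℂ)) =
      ∑' x, if D.NoDiv s x then F x * (((nG x : ℝ) ^ (-σ) : ℝ) : ℂ) else 0 := by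
  induction s using Finset.induction_on with
  | empty =>
    rw [prod_empty, mul_one]
    apply tsum_congr
    intro x
    have h2 : D.NoDiv ∅ x := fun q hq => absurd hq (notMem_empty q)
    rw [if_pos h2]
  | insert q s hq ih =>
    have h1 : ∑' x, (if D.NoDiv s x then F x * (((nG x : ℝ) ^ (-σ) : ℝ) : ℂ) else 0) =
        ∑' x, (if D.NoDiv (insert q s) x then F x * (((nG x : ℝ) ^ (-σ) : ℝ) : ℂ) else 0) +
        ∑' x, (if D.NoDiv s x ∧ D.e q ∣ x then F x * (((nG x : ℝ) ^ (-σ) : ℝ) : ℂ) else 0) := by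
      rw [← (summableC_ite hF.le σ h (fun x => D.NoDiv (insert q s) x)).tsum_add
        (summableC_ite hF.le σ h (fun x => D.NoDiv s x ∧ D.e q ∣ x))]
      apply tsum_congr
      intro x
      by_cases h2 : D.NoDiv s x
      · by_cases h3 : D.e q ∣ x
        · rw [if_pos h2, if_neg (by rw [D.noDiv_insert]; tauto), if_pos ⟨h2, h3⟩, zero_add]
        · rw [if_pos h2, if_pos (D.noDiv_insert.2 ⟨h3, h2⟩), if_neg (by tauto), add_zero]
      · rw [if_neg h2, if_neg (by rw [D.noDiv_insert]; tauto), if_neg (by tauto), add_zero]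
    have h2 : ∑' x, (if D.NoDiv s x ∧ D.e q ∣ x then F x * (((nG x : ℝ) ^ (-σ) : ℝ) : ℂ) else 0) =
        (F (D.e q) * (((nG (D.e q) : ℝ) ^ (-σ) : ℝ) : ℂ)) *
          ∑' x, (if D.NoDiv s x then F x * (((nG x : ℝ) ^ (-σ) : ℝ) : ℂ) else 0) := by
      rw [← (mul_right_injective₀ (D.prime q).ne_zero).tsum_eq, ← tsum_mul_left]
      · apply tsum_congr
        intro y
        by_cases hy : D.P y
        · have h3 : (D.NoDiv s (D.e q * y) ∧ D.e q ∣ D.e q * y) ↔ D.NoDiv s y := by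
            constructor
            · intro h4 p hp hpy
              exact h4.1 p hp (hpy.mul_left _)
            · intro h4
              refine ⟨fun p hp hpy => ?_, dvd_mul_right _ _⟩
              rcases (D.prime p).dvd_or_dvd hpy with h5 | h5
              · exact D.ndvd p q (fun e : p = q => hq (by rw [← e]; exact hp)) h5
              · exact h4 p hp h5
          rw [if_congr h3 rfl rfl]
          split_ifs
          · rw [hF.mul _ _ hy, nG_mul, Nat.cast_mul,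
              Real.mul_rpow (Nat.cast_nonneg _) (Nat.cast_nonneg _)]
            push_cast
            ring
          · rw [mul_zero]
        · have h3 : ¬ D.P (D.e q * y) := fun h4 => hy ((D.mul_iff q y).1 h4)
          rw [hF.zero _ h3, hF.zero _ hy]
          simp
      · intro x hx
        rw [Function.mem_support] at hx
        have h3 : D.e q ∣ x := by
          by_contra h4
          apply hx
          rw [if_neg (by tauto)]
        obtain ⟨y, hy⟩ := h3
        exact ⟨y, hy.symm⟩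
    rw [prod_insert hq]
    have h3 : (∑' x, F x * (((nG x : ℝ) ^ (-σ) : ℝ) : ℂ)) *
        ((1 - F (D.e q) * (((nG (D.e q) : ℝ) ^ (-σ) : ℝ) : ℂ)) *
          ∏ q ∈ s, (1 - F (D.e q) * (((nG (D.e q) : ℝ) ^ (-σ) : ℝ) : ℂ))) =
        ((∑' x, F x * (((nG x : ℝ) ^ (-σ) : ℝ) : ℂ)) *
          ∏ q ∈ s, (1 - F (D.e q) * (((nG (D.e q) : ℝ) ^ (-σ) : ℝ) : ℂ))) *
          (1 - F (D.e q) * (((nG (D.e q) : ℝ) ^ (-σ) : ℝ) : ℂ)) := by ring
    rw [h3, ih]
    rw [h2] at h1
    linear_combination h1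

open Classical in
/-- The indicator function of the normalised elements. -/
def PrmG.ind (D : PrmG R ι) (x : R) : ℂ := if D.P x then 1 else 0

theorem PrmG.ind_mulC (D : PrmG R ι) : MulG D D.ind where
  one := if_pos D.one
  mul q y hy := by
    unfold PrmG.ind
    rw [if_pos hy, if_pos (D.memP q), if_pos ((D.mul_iff q y).2 hy), one_mul]
  zero x hx := if_neg hx
  le x := by
    unfold PrmG.ind
    split_ifs <;> simp

theorem PrmG.two_le (D : PrmG R ι) (q : ι) : 2 ≤ nG (D.e q) := by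
  rw [← D.N_eq]
  exact PS.two_le q

theorem PrmG.rpow_le_half (D : PrmG R ι) (σ : ℝ) (h : 1 < σ) (q : ι) :
    (nG (D.e q) : ℝ) ^ (-σ) ≤ 1 / 2 := by
  have h2 : (2 : ℝ) ≤ nG (D.e q) := by exact_mod_cast D.two_le q
  calc (nG (D.e q) : ℝ) ^ (-σ) ≤ (2 : ℝ) ^ (-σ) :=
        Real.rpow_le_rpow_of_nonpos (by norm_num) h2 (by linarith)
    _ ≤ (2 : ℝ) ^ (-1 : ℝ) := Real.rpow_le_rpow_of_exponent_le (by norm_num) (by linarith)
    _ = 1 / 2 := by
        rw [Real.rpow_neg_one]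
        norm_num

theorem PrmG.zt (D : PrmG R ι) : ∃ C, Zt ι C := by
  classical
  obtain ⟨C, hC⟩ := tsum_nG_le R
  refine ⟨C, fun σ x h1 h3 => ?_⟩
  have h4 := sieveC D D.ind_mulC σ h1 (pr ι x)
  have h5 : ‖∑' x, D.ind x * (((nG x : ℝ) ^ (-σ) : ℝ) : ℂ)‖ ≤ C / (σ - 1) := by
    refine le_trans ?_ (hC σ h1 h3)
    exact tsum_of_norm_bounded (summable_nG R σ h1).hasSum (termC_le D.ind_mulC.le σ)
  have h6 : (1 : ℝ) ≤ ‖∑' y, if D.NoDiv (pr ι x) y then
      D.ind y * (((nG y : ℝ) ^ (-σ) : ℝ) : ℂ) else 0‖ := by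
    have e1 : ∀ y : R, (if D.NoDiv (pr ι x) y then
        D.ind y * (((nG y : ℝ) ^ (-σ) : ℝ) : ℂ) else 0) =
        (((if D.NoDiv (pr ι x) y ∧ D.P y then (nG y : ℝ) ^ (-σ) else 0) : ℝ) : ℂ) := by
      intro y
      unfold PrmG.ind
      by_cases ha : D.NoDiv (pr ι x) y
      · by_cases hb : D.P y
        · rw [if_pos ha, if_pos hb, if_pos ⟨ha, hb⟩, one_mul]
        · rw [if_pos ha, if_neg hb, if_neg (fun h => hb h.2), zero_mul, Complex.ofReal_zero]
      · rw [if_neg ha, if_neg (fun h => ha h.1), Complex.ofReal_zero]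
    have e2 : Summable fun y : R =>
        (if D.NoDiv (pr ι x) y ∧ D.P y then (nG y : ℝ) ^ (-σ) else 0) := by
      refine Summable.of_norm_bounded (summable_nG R σ h1) fun y => ?_
      split_ifs
      · rw [Real.norm_eq_abs, abs_of_nonneg (nG_nonneg_rpow y σ)]
      · rw [norm_zero]
        exact nG_nonneg_rpow y σ
    rw [tsum_congr e1, ← Complex.ofReal_tsum, Complex.norm_real]
    have h7 := e2.le_tsum (1 : R) (fun y _ => by
        split_ifs
        · exact nG_nonneg_rpow y σ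
        · exact le_rfl)
    rw [if_pos ⟨D.noDiv_one _, D.one⟩, nG_one, Nat.cast_one, Real.one_rpow] at h7
    exact h7.trans (le_abs_self _)
  have h7 : ‖∏ q ∈ pr ι x, (1 - D.ind (D.e q) * (((nG (D.e q) : ℝ) ^ (-σ) : ℝ) : ℂ))‖ =
      ∏ q ∈ pr ι x, (1 - (PS.N q : ℝ) ^ (-σ)) := by
    rw [norm_prod]
    apply prod_congr rfl
    intro q _
    unfold PrmG.ind
    rw [if_pos (D.memP q), one_mul, ← Complex.ofReal_one, ← Complex.ofReal_sub,
      Complex.norm_real, Real.norm_eq_abs, D.N_eq]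
    apply abs_of_nonneg
    have := D.rpow_le_half σ h1 q
    linarith
  have h8 : 0 < ∏ q ∈ pr ι x, (1 - (PS.N q : ℝ) ^ (-σ)) := by
    refine prod_pos fun q _ => ?_
    have := D.rpow_le_half σ h1 q
    rw [D.N_eq]
    linarith
  rw [← h4, norm_mul, h7] at h6
  rw [prod_inv_distrib, inv_le_iff_one_le_mul₀ h8]
  exact h6.trans (mul_le_mul_of_nonneg_right h5 h8.le)

theorem abelC (F : R → ℂ) (σ : ℝ) (h1 : 1 < σ) (n : ℕ) :
    ∑ x ∈ discG R n, F x * (((nG x : ℝ) ^ (-σ) : ℝ) : ℂ) =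
      ∑ k ∈ Ioc 0 n, (∑ x ∈ discG R k, F x) *
        (((k : ℝ) ^ (-σ) - ((k + 1 : ℕ) : ℝ) ^ (-σ) : ℝ) : ℂ) +
      (∑ x ∈ discG R n, F x) * ((((n + 1 : ℕ) : ℝ) ^ (-σ) : ℝ) : ℂ) -
        ∑ x ∈ discG R 0, F x := by
  classical
  induction n with
  | zero =>
    have h2 : ∑ x ∈ discG R 0, F x * (((nG x : ℝ) ^ (-σ) : ℝ) : ℂ) = 0 := by
      apply sum_eq_zero
      intro x hx
      rw [mem_discG, Nat.le_zero] at hx
      rw [hx, Nat.cast_zero, Real.zero_rpow (by linarith), Complex.ofReal_zero, mul_zero]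
    rw [h2]
    simp
  | succ n ih =>
    have hsub : discG R n ⊆ discG R (n + 1) := by
      intro x hx
      rw [mem_discG] at hx ⊢
      omega
    have h2 : ∀ x ∈ discG R (n + 1) \ discG R n, nG x = n + 1 := by
      intro x hx
      rw [mem_sdiff, mem_discG, mem_discG] at hx
      omega
    have h3 : ∑ x ∈ discG R (n + 1) \ discG R n, F x * (((nG x : ℝ) ^ (-σ) : ℝ) : ℂ) =
        (∑ x ∈ discG R (n + 1) \ discG R n, F x) *
          ((((n + 1 : ℕ) : ℝ) ^ (-σ) : ℝ) : ℂ) := by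
      rw [sum_mul]
      apply sum_congr rfl
      intro x hx
      rw [h2 x hx]
    rw [← sum_sdiff hsub, h3, ih, Ioc_succ_eq (by omega), sum_insert (by simp)]
    have h4 := sum_sdiff (f := F) hsub
    rw [Complex.ofReal_sub]
    linear_combination ((((n + 1 : ℕ) : ℝ) ^ (-σ) : ℝ) : ℂ) * h4

/-- Partial summation. -/
theorem tsumC_le_log (R : Type) [CommRing R] [IsDomain R] [Gau R] (B : ℝ) (hB : 0 ≤ B) : ∃ C : ℝ, 1 ≤ C ∧ ∀ (F : R → ℂ) (M : ℕ),
    (∀ x, ‖F x‖ ≤ 1) → 1 ≤ M →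
    (∀ X : ℕ, 1 ≤ X → ‖∑ x ∈ discG R X, F x‖ ≤ B * Real.sqrt (M * X)) →
    ∀ σ : ℝ, 1 < σ → σ ≤ 3 →
      ‖∑' x, F x * (((nG x : ℝ) ^ (-σ) : ℝ) : ℂ)‖ ≤ C * (1 + Real.log M) := by
  refine ⟨126 + 6 * B, by linarith, fun F M hF hM hX σ h1 h3 => ?_⟩
  have hlog : 0 ≤ Real.log M := Real.log_nonneg (by exact_mod_cast hM)
  have hA : ∀ k : ℕ, 1 ≤ k → ‖∑ x ∈ discG R k, F x‖ ≤ 25 * k := by
    intro k hk
    calc ‖∑ x ∈ discG R k, F x‖ ≤ ∑ x ∈ discG R k, ‖F x‖ := norm_sum_le _ _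
      _ ≤ ∑ x ∈ discG R k, (1 : ℝ) := sum_le_sum fun x _ => hF x
      _ = ((discG R k).card : ℝ) := by simp
      _ ≤ 25 * k := by exact_mod_cast card_discG_le' (R := R) k hk
  have hA0 : ‖∑ x ∈ discG R 0, F x‖ ≤ 25 := by
    have h4 : discG R 0 ⊆ discG R 1 := by
      intro x hx
      rw [mem_discG] at hx ⊢
      omega
    calc ‖∑ x ∈ discG R 0, F x‖ ≤ ∑ x ∈ discG R 0, ‖F x‖ := norm_sum_le _ _
      _ ≤ ∑ x ∈ discG R 0, (1 : ℝ) := sum_le_sum fun x _ => hF x
      _ = ((discG R 0).card : ℝ) := by simp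
      _ ≤ ((discG R 1).card : ℝ) := by exact_mod_cast card_le_card h4
      _ ≤ 25 := by exact_mod_cast card_discG_le' (R := R) 1 le_rfl
  have key : ∀ n : ℕ, ‖∑ x ∈ discG R n, F x * (((nG x : ℝ) ^ (-σ) : ℝ) : ℂ)‖ ≤
      (126 + 6 * B) * (1 + Real.log M) := by
    intro n
    rw [abelC F σ h1 n]
    have h4 : ‖(∑ x ∈ discG R n, F x) * ((((n + 1 : ℕ) : ℝ) ^ (-σ) : ℝ) : ℂ)‖ ≤ 25 := by
      rw [norm_mul, Complex.norm_real, Real.norm_eq_abs,
        abs_of_nonneg (show (0 : ℝ) ≤ ((n + 1 : ℕ) : ℝ) ^ (-σ) by positivity)]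
      have h5 : ((n + 1 : ℕ) : ℝ) ^ (-σ) ≤ 1 / ((n + 1 : ℕ) : ℝ) := by
        rw [one_div, ← Real.rpow_neg_one]
        apply Real.rpow_le_rpow_of_exponent_le _ (by linarith)
        have : 1 ≤ n + 1 := by omega
        exact_mod_cast this
      rcases Nat.eq_zero_or_pos n with h0 | h0
      · subst h0
        calc ‖∑ x ∈ discG R 0, F x‖ * ((0 + 1 : ℕ) : ℝ) ^ (-σ)
            ≤ 25 * ((0 + 1 : ℕ) : ℝ) ^ (-σ) := by
              apply mul_le_mul_of_nonneg_right hA0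
              positivity
          _ ≤ 25 := by simp
      · calc ‖∑ x ∈ discG R n, F x‖ * ((n + 1 : ℕ) : ℝ) ^ (-σ)
            ≤ (25 * n) * (1 / ((n + 1 : ℕ) : ℝ)) := by
              apply mul_le_mul (hA n h0) h5 (by positivity) (by positivity)
          _ ≤ 25 := by
              rw [mul_one_div, div_le_iff₀ (by positivity)]
              push_cast
              linarith
    have h5 : ‖∑ k ∈ Ioc 0 n, (∑ x ∈ discG R k, F x) *
        (((k : ℝ) ^ (-σ) - ((k + 1 : ℕ) : ℝ) ^ (-σ) : ℝ) : ℂ)‖ ≤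
          75 * (1 + Real.log M) + 6 * B := by
      have h6 : ∀ k ∈ Ioc 0 n, ‖(∑ x ∈ discG R k, F x) *
          (((k : ℝ) ^ (-σ) - ((k + 1 : ℕ) : ℝ) ^ (-σ) : ℝ) : ℂ)‖ ≤
          (if k ≤ M then 75 * (1 / (k : ℝ)) else 0) +
          (if M < k then 3 * B * Real.sqrt M * (Real.sqrt k / (k : ℝ) ^ 2) else 0) := by
        intro k hk
        rw [mem_Ioc] at hk
        have hk1 : 1 ≤ k := hk.1
        have hk0 : (0 : ℝ) < k := by exact_mod_cast hk1
        obtain ⟨hd0, hd⟩ := u_diff σ h1 h3 k hk1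
        rw [norm_mul, Complex.norm_real, Real.norm_eq_abs, abs_of_nonneg hd0]
        by_cases hkM : k ≤ M
        · rw [if_pos hkM, if_neg (by omega), add_zero]
          calc ‖∑ x ∈ discG R k, F x‖ * ((k : ℝ) ^ (-σ) - ((k + 1 : ℕ) : ℝ) ^ (-σ))
              ≤ (25 * k) * (3 / (k : ℝ) ^ 2) := mul_le_mul (hA k hk1) hd hd0 (by positivity)
            _ = 75 * (1 / (k : ℝ)) := by
                field_simp
                norm_num
        · rw [if_neg hkM, if_pos (by omega), zero_add]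
          calc ‖∑ x ∈ discG R k, F x‖ * ((k : ℝ) ^ (-σ) - ((k + 1 : ℕ) : ℝ) ^ (-σ))
              ≤ (B * Real.sqrt (M * k)) * (3 / (k : ℝ) ^ 2) :=
                mul_le_mul (hX k hk1) hd hd0 (by positivity)
            _ = 3 * B * Real.sqrt M * (Real.sqrt k / (k : ℝ) ^ 2) := by
                rw [Real.sqrt_mul (Nat.cast_nonneg _)]
                ring
      have h7 := (norm_sum_le (Ioc 0 n) (fun k : ℕ => (∑ x ∈ discG R k, F x) *
        (((k : ℝ) ^ (-σ) - ((k + 1 : ℕ) : ℝ) ^ (-σ) : ℝ) : ℂ))).trans (sum_le_sum h6)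
      refine h7.trans ?_
      rw [sum_add_distrib, ← sum_filter, ← sum_filter, ← mul_sum, ← mul_sum]
      have h8 : ∑ k ∈ (Ioc 0 n).filter (fun k => k ≤ M), 1 / (k : ℝ) ≤ 1 + Real.log M := by
        calc ∑ k ∈ (Ioc 0 n).filter (fun k => k ≤ M), 1 / (k : ℝ)
            ≤ ∑ k ∈ Icc 1 M, 1 / (k : ℝ) := by
              apply sum_le_sum_of_subset_of_nonneg
              · intro k hk
                rw [mem_filter, mem_Ioc] at hk
                rw [mem_Icc]
                omega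
              · intro k _ _
                positivity
          _ ≤ 1 + Real.log M := by
              have h9 := harmonic_le_one_add_log M
              rw [harmonic_eq_sum_Icc] at h9
              push_cast at h9
              simpa [one_div] using h9
      have h9 : ∑ k ∈ (Ioc 0 n).filter (fun k => M < k), Real.sqrt k / (k : ℝ) ^ 2 ≤
          2 / Real.sqrt M := by
        refine le_trans (le_of_eq ?_) (sum_tail M n hM)
        apply sum_congr _ fun _ _ => rfl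
        ext k
        rw [mem_filter, mem_Ioc, mem_Ioc]
        omega
      have hs : 0 < Real.sqrt M := Real.sqrt_pos.2 (by exact_mod_cast hM)
      have h10 : 3 * B * Real.sqrt M *
          ∑ k ∈ (Ioc 0 n).filter (fun k => M < k), Real.sqrt k / (k : ℝ) ^ 2 ≤ 6 * B := by
        calc 3 * B * Real.sqrt M *
          ∑ k ∈ (Ioc 0 n).filter (fun k => M < k), Real.sqrt k / (k : ℝ) ^ 2
            ≤ 3 * B * Real.sqrt M * (2 / Real.sqrt M) :=
              mul_le_mul_of_nonneg_left h9 (by positivity)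
          _ = 6 * B := by
              field_simp
              ring
      linarith
    have h6 := norm_add₃_le
      (a := ∑ k ∈ Ioc 0 n, (∑ x ∈ discG R k, F x) *
        (((k : ℝ) ^ (-σ) - ((k + 1 : ℕ) : ℝ) ^ (-σ) : ℝ) : ℂ))
      (b := (∑ x ∈ discG R n, F x) * ((((n + 1 : ℕ) : ℝ) ^ (-σ) : ℝ) : ℂ))
      (c := -(∑ x ∈ discG R 0, F x))
    rw [norm_neg, ← sub_eq_add_neg] at h6
    have h7 : 0 ≤ B * Real.log M := mul_nonneg hB hlog
    nlinarith
  have h4 : Filter.Tendsto (fun n : ℕ => ∑ x ∈ discG R n, F x *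
      (((nG x : ℝ) ^ (-σ) : ℝ) : ℂ))
      Filter.atTop (nhds (∑' x, F x * (((nG x : ℝ) ^ (-σ) : ℝ) : ℂ))) := by
    refine (summableC_F hF σ h1).hasSum.comp (Filter.tendsto_atTop_finset_of_monotone ?_ ?_)
    · intro m n hmn x hx
      rw [mem_discG] at hx ⊢
      exact hx.trans hmn
    · intro x
      exact ⟨nG x, mem_discG.2 le_rfl⟩
  exact le_of_tendsto h4.norm (Filter.Eventually.of_forall key)

theorem PrmG.sum_inv_sq (D : PrmG R ι) : ∃ C : ℝ, 0 ≤ C ∧ ∀ (σ : ℝ) (s : Finset ι), 1 < σ →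
    ∑ q ∈ s, ((nG (D.e q) : ℝ) ^ (-σ)) ^ 2 ≤ C := by
  classical
  refine ⟨∑' x : R, (nG x : ℝ) ^ (-(2 : ℝ)), tsum_nonneg fun x => nG_nonneg_rpow x 2,
    fun σ s h1 => ?_⟩
  have h2 : ∀ q ∈ s, ((nG (D.e q) : ℝ) ^ (-σ)) ^ 2 ≤ (nG (D.e q) : ℝ) ^ (-(2 : ℝ)) := by
    intro q _
    have h3 : (1 : ℝ) ≤ nG (D.e q) := by
      have : 1 ≤ nG (D.e q) := (D.two_le q).trans' (by norm_num)
      exact_mod_cast this
    rw [← Real.rpow_natCast, ← Real.rpow_mul (by positivity)]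
    apply Real.rpow_le_rpow_of_exponent_le h3
    push_cast
    linarith
  refine (sum_le_sum h2).trans ?_
  rw [← sum_image (s := s) (g := D.e) (f := fun x : R => (nG x : ℝ) ^ (-(2 : ℝ)))
    (fun x _ y _ h => D.e_inj h)]
  exact (summable_nG R 2 (by norm_num)).sum_le_tsum _ fun x _ => nG_nonneg_rpow x 2

/-- The Euler product of the real part of a complex character is bounded by the partial sums. -/
theorem PrmG.charB_of (D : PrmG R ι) (B : ℝ) (hB : 0 ≤ B) : ∃ C : ℝ, 1 ≤ C ∧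
    ∀ (F : R → ℂ) (M : ℕ), MulG D F → 1 ≤ M →
    (∀ X : ℕ, 1 ≤ X → ‖∑ x ∈ discG R X, F x‖ ≤ B * Real.sqrt (M * X)) →
    CharB (fun q : ι => (F (D.e q)).re) (C * (1 + Real.log M)) := by
  classical
  obtain ⟨C, hC1, hC⟩ := tsumC_le_log R B hB
  obtain ⟨C2, hC20, hC2⟩ := D.sum_inv_sq
  have hexp : 1 ≤ Real.exp (2 * C2) := Real.one_le_exp (by positivity)
  refine ⟨2 * C * Real.exp (2 * C2), by nlinarith, fun F M hF hM hX =>
    ⟨fun q => (Complex.abs_re_le_norm _).trans (hF.le _), ?_, ?_⟩⟩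
  · have hlog : 0 ≤ Real.log M := Real.log_nonneg (by exact_mod_cast hM)
    have h1 : 1 ≤ 2 * C * Real.exp (2 * C2) := by nlinarith
    nlinarith
  · intro σ h1 h3
    have hL := hC F M hF.le hM hX σ h1 h3
    have h4 : Filter.Tendsto (fun n : ℕ => ∑' x, if D.NoDiv (pr ι n) x then
        F x * (((nG x : ℝ) ^ (-σ) : ℝ) : ℂ) else 0) Filter.atTop
        (nhds (∑' x : R, if x = 1 then (1 : ℂ) else 0)) := by
      refine tendsto_tsum_of_dominated_convergence (summable_nG R σ h1) ?_ ?_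
      · intro x
        apply tendsto_const_nhds.congr'
        by_cases hx : x = 1
        · refine Filter.Eventually.of_forall fun n => ?_
          have h5 : (if D.NoDiv (pr ι n) x then F x * (((nG x : ℝ) ^ (-σ) : ℝ) : ℂ) else 0) =
              1 := by
            rw [hx, if_pos (D.noDiv_one _), hF.one, nG_one]
            simp
          rw [if_pos hx]
          exact h5.symm
        · rw [if_neg hx]
          by_cases hP : D.P x
          · obtain ⟨q, hq⟩ := D.ex x hP hx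
            filter_upwards [Filter.eventually_ge_atTop (nG (D.e q))] with n hn
            have h5 : (if D.NoDiv (pr ι n) x then F x * (((nG x : ℝ) ^ (-σ) : ℝ) : ℂ) else 0) =
                0 := by
              rw [if_neg]
              intro h5
              exact h5 q (mem_pr.2 (by rw [D.N_eq]; exact hn)) hq
            exact h5.symm
          · refine Filter.Eventually.of_forall fun n => ?_
            have h5 : (if D.NoDiv (pr ι n) x then F x * (((nG x : ℝ) ^ (-σ) : ℝ) : ℂ) else 0) =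
                0 := by
              rw [hF.zero x hP, zero_mul]
              simp
            exact h5.symm
      · exact Filter.Eventually.of_forall fun n x =>
          termC_ite_le hF.le σ (fun x => D.NoDiv (pr ι n) x) x
    rw [tsum_ite_eq] at h4
    have h4' := h4.norm
    rw [norm_one] at h4'
    have h5 : ∀ᶠ n : ℕ in Filter.atTop, (1 / 2 : ℝ) ≤ ‖∑' x, if D.NoDiv (pr ι n) x then
        F x * (((nG x : ℝ) ^ (-σ) : ℝ) : ℂ) else 0‖ := by
      filter_upwards [h4'.eventually (eventually_gt_nhds (by norm_num : (1 / 2 : ℝ) < 1))]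
        with n hn
      exact hn.le
    filter_upwards [h5] with n hn
    rw [← sieveC D hF σ h1, norm_mul, norm_prod] at hn
    have ht0 : ∀ q, 0 ≤ (nG (D.e q) : ℝ) ^ (-σ) := fun q => nG_nonneg_rpow _ σ
    have hpos : ∀ q, 0 < 1 - (F (D.e q)).re * (nG (D.e q) : ℝ) ^ (-σ) := by
      intro q
      have hre := abs_le.1 ((Complex.abs_re_le_norm (F (D.e q))).trans (hF.le _))
      have := D.rpow_le_half σ h1 q
      have := ht0 q
      nlinarith
    have h6 : 0 < ∏ q ∈ pr ι n, (1 - (F (D.e q)).re * (nG (D.e q) : ℝ) ^ (-σ)) :=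
      prod_pos fun q _ => hpos q
    have h7 : ∏ q ∈ pr ι n, (1 - (F (D.e q)).re * (PS.N q : ℝ) ^ (-σ))⁻¹ =
        (∏ q ∈ pr ι n, (1 - (F (D.e q)).re * (nG (D.e q) : ℝ) ^ (-σ)))⁻¹ := by
      rw [← prod_inv_distrib]
      apply prod_congr rfl
      intro q _
      rw [D.N_eq]
    rw [h7, inv_le_iff_one_le_mul₀ h6]
    have h8 : ∏ q ∈ pr ι n, ‖1 - F (D.e q) * (((nG (D.e q) : ℝ) ^ (-σ) : ℝ) : ℂ)‖ ≤
        (∏ q ∈ pr ι n, (1 - (F (D.e q)).re * (nG (D.e q) : ℝ) ^ (-σ))) * Real.exp (2 * C2) := by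
      calc ∏ q ∈ pr ι n, ‖1 - F (D.e q) * (((nG (D.e q) : ℝ) ^ (-σ) : ℝ) : ℂ)‖
          ≤ ∏ q ∈ pr ι n, ((1 - (F (D.e q)).re * (nG (D.e q) : ℝ) ^ (-σ)) *
              Real.exp (2 * ((nG (D.e q) : ℝ) ^ (-σ)) ^ 2)) :=
            prod_le_prod (fun q _ => norm_nonneg _) fun q _ =>
              norm_factor_le (hF.le _) (ht0 q) (D.rpow_le_half σ h1 q)
        _ = (∏ q ∈ pr ι n, (1 - (F (D.e q)).re * (nG (D.e q) : ℝ) ^ (-σ))) *
              Real.exp (2 * ∑ q ∈ pr ι n, ((nG (D.e q) : ℝ) ^ (-σ)) ^ 2) := by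
            rw [prod_mul_distrib, mul_sum, Real.exp_sum]
        _ ≤ _ := by
            apply mul_le_mul_of_nonneg_left _ h6.le
            apply Real.exp_le_exp.2
            have := hC2 σ (pr ι n) h1
            linarith
    have h9 : ‖∑' x, F x * (((nG x : ℝ) ^ (-σ) : ℝ) : ℂ)‖ *
        ∏ q ∈ pr ι n, ‖1 - F (D.e q) * (((nG (D.e q) : ℝ) ^ (-σ) : ℝ) : ℂ)‖ ≤
        (C * (1 + Real.log M)) *
          ((∏ q ∈ pr ι n, (1 - (F (D.e q)).re * (nG (D.e q) : ℝ) ^ (-σ))) *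
            Real.exp (2 * C2)) :=
      mul_le_mul hL h8 (prod_nonneg fun q _ => norm_nonneg _) ((norm_nonneg _).trans hL)
    have h10 := hn.trans h9
    calc (1 : ℝ) = 2 * (1 / 2) := by norm_num
      _ ≤ 2 * ((C * (1 + Real.log M)) *
          ((∏ q ∈ pr ι n, (1 - (F (D.e q)).re * (nG (D.e q) : ℝ) ^ (-σ))) *
            Real.exp (2 * C2))) := by linarith
      _ = _ := by ring

end

end Pool.Agent.Lib.MP_1a91b9_ntQ
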