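import Pool.Agent.Lib.MP_1a91b9_ntQ.R.Arith4
import Pool.Agent.Lib.MP_1a91b9_ntQ.R.Eul4
import Pool.Agent.Lib.MP_1a91b9_ntQ.D.Defs
import Pool.Agent.Lib.MP_1a91b9_nuX.HQ.Cas

/-!
# MP_1a91b9_nt (quartic twists), part R: the ring `O = ℤ[i]`, the primes `≡ 1` modulo `lam³`, the
quartic and the quadratic symbols

`O = 𝓞 K4`, `K4 = ℚ(i)`, `lam = 1 + i`, `lam³ = -2 + 2 i`. `In4 x`: `x` is `1` modulo `lam³`;
`cp x` the coordinates, `Nz x` the norm, `nn x = (N x - 1) / 4` modulo `4`, `aa x` modulo `2`;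
`bb (1 + lam³ (m + n i)) = n` modulo `2`; `Pg` the primes with `In4`, `c4 q x` the exponent of the
quartic symbol of `x` modulo `q`, `s4 q p` the exponent of the quadratic symbol of `p` modulo `q`.
-/

set_option autoImplicit false

namespace Pool.Agent.Lib.MP_1a91b9_ntQ

open NumberField Finset
open Pool.Agent.Lib.MP_1a91b9_nuX.HQ (GI G4 qs w)
open Pool.Agent.Lib.MP_1a91b9_ntH (PS nm pr Sx)

noncomputable section

theorem gi : GI (K := K4) iO := ⟨iO_sq, exists_coords4⟩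

theorem lam_cube : lam ^ 3 = -2 + 2 * iO := by
  rw [lam_pow3]
  ring

theorem lam_four : lam ^ 4 = -4 := lam_pow4

instance gauO : Gau (𝓞 K4) where
  co := {
    toFun := cp
    invFun := fun p => (p.1 : 𝓞 K4) + (p.2 : 𝓞 K4) * iO
    left_inv := fun x => (eq_cp x).symm
    right_inv := fun p => cp_coords p.1 p.2
    map_add' := cp_add }
  co_mul := cp_mul

/-- The same instance for the name `K` of the class `CD`. -/
instance gauO' : Gau (𝓞 Pool.Agent.Lib.MP_1a91b9_nuT.K) := gauO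

theorem co_eq (x : 𝓞 K4) : Gau.co x = cp x := rfl

theorem nG_eq (x : 𝓞 K4) : nG x = Nz x := by
  have h3 : ((nG x : ℕ) : ℤ) = (Nz x : ℤ) := by
    rw [nG_cast, Nz_cp]
    rfl
  exact_mod_cast h3

theorem absNorm_span (x : 𝓞 K4) : Ideal.absNorm (Ideal.span {x}) = Nz x :=
  Ideal.absNorm_span_singleton x

theorem mem_disc {X : ℕ} {x : 𝓞 K4} : x ∈ discG (𝓞 K4) X ↔ Nz x ≤ X := by
  rw [mem_discG, nG_eq]

theorem Nz_two_le {x : 𝓞 K4} (hx : Prime x) : 2 ≤ Nz x := by
  have h1 : Nz x ≠ 0 := fun h => hx.ne_zero (Nz_eq_zero.1 h)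
  have h2 : Nz x ≠ 1 := fun h => hx.not_isUnit (isUnit_iff_Nz.2 h)
  omega

theorem Nz_fin (n : ℕ) : {x : 𝓞 K4 | Nz x ≤ n}.Finite := by
  have h : {x : 𝓞 K4 | Nz x ≤ n} = ↑(discG (𝓞 K4) n) := by
    ext x
    exact mem_disc.symm
  rw [h]
  exact Finset.finite_toSet _

/-- The elements `≡ 1` modulo `lam³`. -/
def In4 (x : 𝓞 K4) : Prop := lam ^ 3 ∣ x - 1

/-- The primes `≡ 1` modulo `lam³`: every prime ideal prime to `2` has exactly one such
generator. -/
def Pg : Type := {α : 𝓞 K4 // Prime α ∧ lam ^ 3 ∣ α - 1}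

instance : DecidableEq Pg := Classical.decEq _

instance psPg : PS Pg where
  N q := Nz q.1
  two_le q := Nz_two_le q.2.1
  fin n := by
    have h := (Nz_fin n).preimage (f := (Subtype.val : Pg → 𝓞 K4)) Subtype.val_injective.injOn
    exact h

/-- The exponent of the quartic symbol of `x` modulo the prime `q`. -/
def c4 (q : Pg) (x : 𝓞 K4) : ZMod 4 := qs iO (Ideal.span {q.1}) x

/-- The reduction modulo `2`. -/
def md : ZMod 4 →+* ZMod 2 := ZMod.castHom (by norm_num) (ZMod 2)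

/-- The exponent of the quadratic symbol of `x` modulo the prime `q`. -/
def c2 (q : Pg) (x : 𝓞 K4) : ZMod 2 := md (c4 q x)

/-- The exponent of the quadratic symbol of `p` modulo `q`. -/
def s4 (q p : Pg) : ZMod 2 := c2 q p.1

/-- `(N x - 1) / 4` modulo `4`. -/
def nn (x : 𝓞 K4) : ZMod 4 := (((Nz x - 1) / 4 : ℕ) : ZMod 4)

/-- `(N x - 1) / 4` modulo `2`. -/
def aa (x : 𝓞 K4) : ZMod 2 := md (nn x)

/-- `bb (1 + lam³ (m + n i)) = n` modulo `2`: with `2 n = -(a - 1) / 2 ... `, `x = a + b i` we have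
`n = -(a + b - 1) / 4`. -/
def bb (x : 𝓞 K4) : ZMod 2 := ((((cp x).1 + (cp x).2 - 1) / 4 : ℤ) : ZMod 2)

/-- The element of a squarefree integer. -/
def DDq (S : Finset Pg) : 𝓞 K4 := ∏ q ∈ S, q.1

/-- The system of the quadratic symbols and of the two quadratic class characters. -/
def d4 : Dat2 Pg (Fin 2) where
  s q p := s4 q p
  a q j := if j = 0 then aa q.1 else bb q.1

theorem PN_eq (q : Pg) : PS.N q = Nz q.1 := rfl

end

end Pool.Agent.Lib.MP_1a91b9_ntQ
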