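import Pool.Agent.Lib.MP_1a91b9_nuX.HQ.Fin

/-!
# The law of biquadratic reciprocity

`sy i (span {β}) α - sy i (span {α}) β = 2 ((N α - 1) / 4) ((N β - 1) / 4)` for `α, β ≡ 1` modulo `2 (1 + i)`.
Proof of Ireland and Rosen: the rational case (`rr`), and `c α ≡ a c + b d` modulo `β = c + d i` for `α = a + b i`.
-/

set_option autoImplicit false

namespace Pool.Agent.Lib.MP_1a91b9_nuX.HQ

open NumberField

variable {K : Type} [Field K] [NumberField K] {i : 𝓞 K}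

/-! ### Conjugation -/

/-- the conjugation as an automorphism -/
noncomputable def GI.cje (h : GI i) : 𝓞 K ≃+* 𝓞 K :=
  RingEquiv.ofRingHom h.cj h.cj (RingHom.ext fun a => h.cj_cj a) (RingHom.ext fun a => h.cj_cj a)

theorem GI.cje_apply (h : GI i) (a : 𝓞 K) : h.cje a = h.cj a := rfl

theorem GI.cj_dvd (h : GI i) {a b : 𝓞 K} : h.cj a ∣ h.cj b ↔ a ∣ b := by
  constructor
  · intro h1
    have h2 := map_dvd h.cj h1
    rwa [h.cj_cj, h.cj_cj] at h2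
  · exact fun h1 => map_dvd h.cj h1

theorem GI.cj_nat (h : GI i) (n : ℕ) : h.cj (n : 𝓞 K) = n := map_natCast h.cj n

theorem GI.cj_int (h : GI i) (n : ℤ) : h.cj (n : 𝓞 K) = n := map_intCast h.cj n

theorem GI.cj_ne (h : GI i) {a : 𝓞 K} (ha : a ≠ 0) : h.cj a ≠ 0 := by
  intro h1
  apply ha
  rw [← h.cj_cj a, h1, map_zero]

theorem GI.cj_two (h : GI i) {a : 𝓞 K} (ha : (2 : 𝓞 K) ∣ a - 1) : (2 : 𝓞 K) ∣ h.cj a - 1 := by
  have h1 := map_dvd h.cj ha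
  rwa [map_sub, map_one, map_ofNat] at h1

theorem GI.cj_cop (h : GI i) {a b : 𝓞 K} (hab : IsCoprime a b) : IsCoprime (h.cj a) (h.cj b) :=
  hab.map h.cj

theorem GI.g4_cj (h : GI i) {β : 𝓞 K} (hP : G4 (Ideal.span {β})) : G4 (Ideal.span {h.cj β}) := by
  have h0 : β ≠ 0 := fun h1 => hP.ne (Ideal.span_singleton_eq_bot.2 h1)
  have h1 : Prime β := (Ideal.span_singleton_prime h0).1 hP.pr
  have h2 : Prime (h.cj β) := (MulEquiv.prime_iff h.cje).2 h1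
  refine ⟨(Ideal.span_singleton_prime (h.cj_ne h0)).2 h2, ?_, ?_⟩
  · rw [Ne, Ideal.span_singleton_eq_bot]
    exact h.cj_ne h0
  · intro h3
    apply hP.two
    rw [Ideal.mem_span_singleton] at h3 ⊢
    have h4 : (2 : 𝓞 K) = h.cj 2 := (map_ofNat h.cj 2).symm
    rw [h4, h.cj_dvd] at h3
    exact h3

theorem qs_cj (h : GI i) {β : 𝓞 K} (hP : G4 (Ideal.span {β})) {x : 𝓞 K}
    (hx : x ∉ Ideal.span {β}) : qs i (Ideal.span {h.cj β}) (h.cj x) = -qs i (Ideal.span {β}) x := by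
  have hx' : h.cj x ∉ Ideal.span {h.cj β} := by
    intro h1
    apply hx
    rw [Ideal.mem_span_singleton] at h1 ⊢
    exact h.cj_dvd.1 h1
  refine qs_eq h (h.g4_cj hP) hx' _ ?_
  have h1 := qs_spec h hP hx
  rw [Ideal.mem_span_singleton] at h1 ⊢
  have h2 := map_dvd h.cj h1
  rwa [map_sub, map_pow, h.cj_w, ← h.absNorm_cj β] at h2

/-! ### The symbol with composite denominator -/

theorem cop_iff {a b : 𝓞 K} : IsCoprime (Ideal.span {a}) (Ideal.span {b}) ↔ IsCoprime a b :=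
  Ideal.isCoprime_span_singleton_iff a b

theorem sym_one (x : 𝓞 K) : sy i (Ideal.span {(1 : 𝓞 K)}) x = 0 := by
  rw [Ideal.span_singleton_one, ← Ideal.one_eq_top]
  exact sy_one x

theorem sym_mul {β γ : 𝓞 K} (hβ : β ≠ 0) (hγ : γ ≠ 0) (x : 𝓞 K) :
    sy i (Ideal.span {β * γ}) x = sy i (Ideal.span {β}) x + sy i (Ideal.span {γ}) x := by
  rw [← Ideal.span_singleton_mul_span_singleton, sy_mul]
  · rwa [Ne, Ideal.span_singleton_eq_bot]
  · rwa [Ne, Ideal.span_singleton_eq_bot]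

theorem sym_neg (β x : 𝓞 K) : sy i (Ideal.span {-β}) x = sy i (Ideal.span {β}) x := by
  rw [Ideal.span_singleton_neg]

theorem sym_prime {β : 𝓞 K} (hP : G4 (Ideal.span {β})) (x : 𝓞 K) :
    sy i (Ideal.span {β}) x = qs i (Ideal.span {β}) x := sy_prime hP.pr hP.ne x

theorem sym_num (h : GI i) {α x y : 𝓞 K} (h2 : IsCoprime α 2) (hx : IsCoprime α x)
    (hy : IsCoprime α y) :
    sy i (Ideal.span {α}) (x * y) = sy i (Ideal.span {α}) x + sy i (Ideal.span {α}) y :=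
  sy_num h (cop_iff.2 h2) (cop_iff.2 hx) (cop_iff.2 hy)

theorem sym_congr (h : GI i) {α x y : 𝓞 K} (h2 : IsCoprime α 2) (hx : IsCoprime α x)
    (hxy : α ∣ x - y) : sy i (Ideal.span {α}) x = sy i (Ideal.span {α}) y := by
  rw [sy, sy]
  refine congrArg Multiset.sum (Multiset.map_congr rfl fun P hP => ?_)
  have hG := fac_g4 hP (cop_iff.2 h2)
  obtain ⟨-, -, hle, hxP⟩ := fac_mem hP (cop_iff.2 hx)
  exact qs_congr h hG hxP (hle (Ideal.mem_span_singleton.2 hxy))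

theorem cop_two {α : 𝓞 K} (h : (2 : 𝓞 K) ∣ α - 1) : IsCoprime α 2 := by
  obtain ⟨t, ht⟩ := h
  exact ⟨1, -t, by linear_combination ht⟩

theorem sym_cj [IsPrincipalIdealRing (𝓞 K)] (h : GI i) {α : 𝓞 K} (hα : (2 : 𝓞 K) ∣ α - 1)
    (h0 : α ≠ 0) (x : 𝓞 K) (hx : IsCoprime α x) :
    sy i (Ideal.span {h.cj α}) (h.cj x) = -sy i (Ideal.span {α}) x := by
  refine ind h (M := fun α => ∀ x : 𝓞 K, IsCoprime α x →
    sy i (Ideal.span {h.cj α}) (h.cj x) = -sy i (Ideal.span {α}) x) ?_ ?_ ?_ α hα h0 x hx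
  · intro x _
    rw [map_one, sym_one, sym_one, neg_zero]
  · intro x _
    rw [map_neg, map_one, sym_neg, sym_neg, sym_one, sym_one, neg_zero]
  · intro β γ _ _ hγ hP hM x hx
    have hβ : β ≠ 0 := fun h1 => hP.ne (Ideal.span_singleton_eq_bot.2 h1)
    rw [map_mul, sym_mul (h.cj_ne hβ) (h.cj_ne hγ), sym_mul hβ hγ, hM x hx.of_mul_left_right,
      sym_prime (h.g4_cj hP), sym_prime hP, qs_cj h hP, neg_add]
    intro h1
    rw [Ideal.mem_span_singleton] at h1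
    have h2 := hx.of_mul_left_left.isUnit_of_dvd' (dvd_refl β) h1
    exact hP.pr.ne_top (Ideal.span_singleton_eq_top.2 h2)

/-! ### Rational integers -/

theorem frob (h : GI i) {q : ℕ} (hq : q.Prime) (h3 : q % 4 = 3) (α : 𝓞 K) :
    (q : 𝓞 K) ∣ α ^ q - h.cj α := by
  obtain ⟨m, n, rfl⟩ := h.gen α
  obtain ⟨r, hr⟩ := exists_add_pow_prime_eq hq (m : 𝓞 K) ((n : 𝓞 K) * i)
  have hF : ∀ m : ℤ, (q : 𝓞 K) ∣ (m : 𝓞 K) ^ q - m := by
    intro m
    have : Fact q.Prime := ⟨hq⟩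
    have h1 : ((m ^ q - m : ℤ) : ZMod q) = 0 := by
      push_cast
      rw [ZMod.pow_card, sub_self]
    obtain ⟨t, ht⟩ := (ZMod.intCast_zmod_eq_zero_iff_dvd _ _).1 h1
    refine ⟨(t : 𝓞 K), ?_⟩
    have h2 := congrArg (fun z : ℤ => (z : 𝓞 K)) ht
    push_cast at h2
    exact h2
  obtain ⟨a, ha⟩ := hF m
  obtain ⟨b, hb⟩ := hF n
  have hi : i ^ q = -i := by
    have e : q = 4 * (q / 4) + 3 := by omega
    rw [e, pow_add, pow_mul, h.pow_four, one_pow, one_mul]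
    linear_combination i * h.sq
  refine ⟨a - b * i + (m : 𝓞 K) * ((n : 𝓞 K) * i) * r, ?_⟩
  rw [h.cj_coords, hr, mul_pow, hi]
  linear_combination ha - i * hb

theorem notMem_of_cop {P : Ideal (𝓞 K)} (hP : P ≠ ⊤) {a b : 𝓞 K} (h : IsCoprime a b) (ha : a ∈ P) :
    b ∉ P := by
  intro hb
  obtain ⟨x, y, hxy⟩ := h
  apply hP
  rw [Ideal.eq_top_iff_one, ← hxy]
  exact P.add_mem (P.mul_mem_left _ ha) (P.mul_mem_left _ hb)

section

variable [IsPrincipalIdealRing (𝓞 K)]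

/-- the inert primes -/
theorem rr_three (h : GI i) {q : ℕ} (hq : q.Prime) (h3 : q % 4 = 3) {α : 𝓞 K}
    (hα : (2 : 𝓞 K) ∣ α - 1) (h0 : α ≠ 0) (hc : IsCoprime α (q : 𝓞 K)) :
    sy i (Ideal.span {α}) (-(q : 𝓞 K)) = sy i (Ideal.span {(q : 𝓞 K)}) α := by
  have hG := G4_span h hq h3
  have hqm : (q : 𝓞 K) ∈ Ideal.span {(q : 𝓞 K)} := Ideal.mem_span_singleton_self _
  have hα' : α ∉ Ideal.span {(q : 𝓞 K)} := notMem_of_cop hG.pr.ne_top hc.symm hqm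
  have hcα : h.cj α ∉ Ideal.span {(q : 𝓞 K)} := by
    have h1 := h.cj_cop hc
    rw [h.cj_nat] at h1
    exact notMem_of_cop hG.pr.ne_top h1.symm hqm
  have hN : ((Ideal.absNorm (Ideal.span {α}) : ℕ) : 𝓞 K) ∉ Ideal.span {(q : 𝓞 K)} := by
    rw [← h.mul_cj]
    exact fun h1 => (hG.pr.mem_or_mem h1).elim hα' hcα
  have h1 := sy_q3 h hq h3 α hα h0 hN
  have h2 := qs_spec h hG hα'
  rw [sym_prime hG]
  refine G4.inj h hG ?_
  rw [← h.mul_cj] at h1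
  have hfr := frob h hq h3 α
  rw [h.absNorm_nat] at h2
  obtain ⟨k, hk⟩ : ∃ k, q = 4 * k + 3 := ⟨q / 4, by omega⟩
  have e1 : (q + 1) / 4 = k + 1 := by omega
  have e2 : (q ^ 2 - 1) / 4 = q * (k + 1) - (k + 1) := by
    have h4 : q ^ 2 - 1 = 4 * (q * (k + 1) - (k + 1)) := by
      have h5 : q ^ 2 = q * q := pow_two q
      have h6 : q * q = q * (4 * k + 3) := by rw [← hk]
      have h7 : 1 ≤ q := hq.one_lt.le
      zify [Nat.one_le_pow 2 q hq.pos, Nat.le_mul_of_pos_left (k + 1) hq.pos]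
      rw [hk]
      push_cast
      ring
    rw [h4, Nat.mul_div_cancel_left _ (by norm_num)]
  rw [e1] at h1
  rw [e2] at h2
  obtain ⟨s, hs⟩ := hfr
  rw [Ideal.mem_span_singleton] at h1 h2
  -- everything in terms of `α`
  have h5 : (q : 𝓞 K) ∣ (α * h.cj α * α ^ 2) ^ (k + 1) - (α * α ^ q * α ^ 2) ^ (k + 1) := by
    have h6 : α * h.cj α * α ^ 2 - α * α ^ q * α ^ 2 = (q : 𝓞 K) * (-(α * s * α ^ 2)) := by
      linear_combination (-(α * α ^ 2)) * hs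
    exact (Dvd.intro _ h6.symm).trans (sub_dvd_pow_sub_pow _ _ _)
  have h6 : (α * α ^ q * α ^ 2) ^ (k + 1) = α ^ (q * (k + 1) - (k + 1)) * (α * α ^ q) := by
    rw [← pow_succ', ← pow_add, ← pow_mul, ← pow_add]
    congr 1
    have h7 : k + 1 ≤ q * (k + 1) := Nat.le_mul_of_pos_left (k + 1) hq.pos
    zify [h7]
    rw [hk]
    push_cast
    ring
  rw [h6] at h5
  have h7 : (q : 𝓞 K) ∣ α ^ (q * (k + 1) - (k + 1)) * (α * α ^ q) -
      α ^ (q * (k + 1) - (k + 1)) * (α * h.cj α) := by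
    refine ⟨α ^ (q * (k + 1) - (k + 1)) * α * s, ?_⟩
    linear_combination (α ^ (q * (k + 1) - (k + 1)) * α) * hs
  have h8 : (q : 𝓞 K) ∣ (w i (sy i (Ideal.span {α}) (-(q : 𝓞 K))) -
      w i (qs i (Ideal.span {(q : 𝓞 K)}) α)) * (α * h.cj α) := by
    have h9 := dvd_sub (dvd_add h5 h7) (dvd_add h1 (Dvd.dvd.mul_right h2 (α * h.cj α)))
    have e : (α * h.cj α * α ^ 2) ^ (k + 1) - α ^ (q * (k + 1) - (k + 1)) * (α * α ^ q) +
        (α ^ (q * (k + 1) - (k + 1)) * (α * α ^ q) -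
          α ^ (q * (k + 1) - (k + 1)) * (α * h.cj α)) -
        ((α * h.cj α * α ^ 2) ^ (k + 1) -
          w i (sy i (Ideal.span {α}) (-(q : 𝓞 K))) * (α * h.cj α) +
          (w i (qs i (Ideal.span {(q : 𝓞 K)}) α) - α ^ (q * (k + 1) - (k + 1))) * (α * h.cj α)) =
        (w i (sy i (Ideal.span {α}) (-(q : 𝓞 K))) -
          w i (qs i (Ideal.span {(q : 𝓞 K)}) α)) * (α * h.cj α) := by ring
    rwa [e] at h9
  rw [← Ideal.mem_span_singleton] at h8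
  rcases hG.pr.mem_or_mem h8 with h9 | h9
  · exact h9
  · exact absurd h9 (fun h10 => (hG.pr.mem_or_mem h10).elim hα' hcα)

/-- a prime of prime norm -/
theorem exists_lam (h : GI i) {q : ℕ} (hq : q.Prime) (h1 : q % 4 = 1) :
    ∃ l : 𝓞 K, G4 (Ideal.span {l}) ∧ Ideal.absNorm (Ideal.span {l}) = q ∧ l * h.cj l = (q : 𝓞 K) := by
  obtain ⟨Q, hQ, hN⟩ := exists_Q h hq h1
  obtain ⟨l, hl⟩ := (IsPrincipalIdealRing.principal Q).principal
  have hl' : Q = Ideal.span {l} := hl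
  subst hl'
  exact ⟨l, hQ, hN, by rw [h.mul_cj, hN]⟩

theorem sym_split (h : GI i) {l : 𝓞 K} (hl : G4 (Ideal.span {l})) {x : 𝓞 K}
    (hx : IsCoprime (l * h.cj l) x) :
    sy i (Ideal.span {l * h.cj l}) x = qs i (Ideal.span {l}) x - qs i (Ideal.span {l}) (h.cj x) := by
  have hl0 : l ≠ 0 := fun h1 => hl.ne (Ideal.span_singleton_eq_bot.2 h1)
  have hm : h.cj x ∉ Ideal.span {l} := by
    have h1 := h.cj_cop hx.of_mul_left_right
    rw [h.cj_cj] at h1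
    exact notMem_of_cop hl.pr.ne_top h1 (Ideal.mem_span_singleton_self _)
  have h2 := qs_cj h hl hm
  rw [h.cj_cj] at h2
  rw [sym_mul hl0 (h.cj_ne hl0), sym_prime hl, sym_prime (h.g4_cj hl), h2, sub_eq_add_neg]

/-- the split primes -/
theorem rr_one (h : GI i) {q : ℕ} (hq : q.Prime) (h1 : q % 4 = 1) {α : 𝓞 K}
    (hα : (2 : 𝓞 K) ∣ α - 1) (h0 : α ≠ 0) (hc : IsCoprime α (q : 𝓞 K)) :
    sy i (Ideal.span {α}) (q : 𝓞 K) = sy i (Ideal.span {(q : 𝓞 K)}) α := by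
  obtain ⟨l, hl, hN, hlq⟩ := exists_lam h hq h1
  have hcop : IsCoprime (l * h.cj l) α := by
    rw [hlq]
    exact hc.symm
  have hα' : α ∉ Ideal.span {l} :=
    notMem_of_cop hl.pr.ne_top hcop.of_mul_left_left (Ideal.mem_span_singleton_self _)
  have hcα : h.cj α ∉ Ideal.span {l} := by
    have h1 := h.cj_cop hcop.of_mul_left_right
    rw [h.cj_cj] at h1
    exact notMem_of_cop hl.pr.ne_top h1 (Ideal.mem_span_singleton_self _)
  have hNn : ((Ideal.absNorm (Ideal.span {α}) : ℕ) : 𝓞 K) ∉ Ideal.span {l} := by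
    rw [← h.mul_cj]
    exact fun h1 => (hl.pr.mem_or_mem h1).elim hα' hcα
  have h2 := sy_q1 h hq hl hN α hα h0 hNn
  have h3 := qs_spec h hl hα'
  have h4 := qs_spec h hl hcα
  rw [hN] at h3 h4
  rw [← hlq, sym_split h hl hcop]
  rw [← hlq] at h2
  have h5 : 3 * qs i (Ideal.span {l}) α + qs i (Ideal.span {l}) (h.cj α) +
      sy i (Ideal.span {α}) (l * h.cj l) = 0 := by
    refine G4.inj h hl ?_
    rw [w_zero, h.w_add, h.w_add]
    have e3 : w i (3 * qs i (Ideal.span {l}) α) = w i (qs i (Ideal.span {l}) α) ^ 3 := by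
      rw [h.w_pow]
      norm_num
    rw [e3]
    rw [← h.mul_cj] at h2
    rw [Ideal.mem_span_singleton] at h2 h3 h4 ⊢
    obtain ⟨u, hu⟩ := h2
    obtain ⟨v, hv⟩ := h3
    obtain ⟨y, hy⟩ := h4
    have e6 : (α * h.cj α * α ^ 2) ^ ((q - 1) / 4) =
        (α ^ ((q - 1) / 4)) ^ 3 * (h.cj α) ^ ((q - 1) / 4) := by
      rw [← pow_mul, mul_comm ((q - 1) / 4) 3, pow_mul, ← mul_pow]
      congr 1
      ring
    rw [e6] at hu
    obtain ⟨A, hA⟩ : ∃ A, A = α ^ ((q - 1) / 4) := ⟨_, rfl⟩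
    obtain ⟨B, hB⟩ : ∃ B, B = (h.cj α) ^ ((q - 1) / 4) := ⟨_, rfl⟩
    obtain ⟨a, ha⟩ : ∃ a, a = w i (qs i (Ideal.span {l}) α) := ⟨_, rfl⟩
    obtain ⟨b, hb⟩ : ∃ b, b = w i (qs i (Ideal.span {l}) (h.cj α)) := ⟨_, rfl⟩
    obtain ⟨c, hc⟩ : ∃ c, c = w i (sy i (Ideal.span {α}) (l * h.cj l)) := ⟨_, rfl⟩
    rw [← hA, ← hB, ← hc] at hu
    rw [← hA, ← ha] at hv
    rw [← hB, ← hb] at hy
    rw [← ha, ← hb, ← hc]
    refine ⟨u + c * (v * (a ^ 2 + a * A + A ^ 2) * b + A ^ 3 * y), ?_⟩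
    linear_combination hu + c * b * (a ^ 2 + a * A + A ^ 2) * hv + c * A ^ 3 * hy
  have h6 : (4 : ZMod 4) = 0 := rfl
  linear_combination h5 - qs i (Ideal.span {l}) α * h6

/-- a rational integer has symbol `0` modulo a rational integer -/
theorem sym_nat_int (h : GI i) (n : ℕ) : n % 2 = 1 → ∀ m : ℤ,
    IsCoprime (n : 𝓞 K) (m : 𝓞 K) → sy i (Ideal.span {(n : 𝓞 K)}) (m : 𝓞 K) = 0 := by
  induction n using induction_on_primes with
  | zero => intro h1; omega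
  | one =>
    intro _ m _
    rw [Nat.cast_one]
    exact sym_one _
  | prime_mul p a hp ih =>
    intro hodd m hm
    have hp2 : p % 2 = 1 := by
      rcases Nat.mod_two_eq_zero_or_one p with h1 | h1
      · rw [Nat.mul_mod, h1] at hodd
        omega
      · exact h1
    have ha2 : a % 2 = 1 := by
      rcases Nat.mod_two_eq_zero_or_one a with h1 | h1
      · rw [Nat.mul_mod, h1] at hodd
        omega
      · exact h1
    have hp0 : (p : 𝓞 K) ≠ 0 := Nat.cast_ne_zero.2 hp.ne_zero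
    have ha0 : (a : 𝓞 K) ≠ 0 := by
      rw [Nat.cast_ne_zero]
      rintro rfl
      omega
    rw [Nat.cast_mul] at hm ⊢
    rw [sym_mul hp0 ha0, ih ha2 m hm.of_mul_left_right, add_zero]
    have hpm := hm.of_mul_left_left
    have h13 : p % 4 = 1 ∨ p % 4 = 3 := by omega
    rcases h13 with h1 | h3
    · obtain ⟨l, hl, hN, hlq⟩ := exists_lam h hp h1
      rw [← hlq, sym_split h hl (by rwa [hlq]), h.cj_int, sub_self]
    · have hG := G4_span h hp h3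
      rw [sym_prime hG]
      exact qs_int h hp h3 hG m
        (notMem_of_cop hG.pr.ne_top hpm (Ideal.mem_span_singleton_self _))

theorem rr_nat (h : GI i) (n : ℕ) : n % 2 = 1 → ∀ α : 𝓞 K, (2 : 𝓞 K) ∣ α - 1 → α ≠ 0 →
    IsCoprime α (n : 𝓞 K) → sy i (Ideal.span {α}) (((if n % 4 = 1 then (n : ℤ) else -(n : ℤ)) : ℤ) : 𝓞 K) =
      sy i (Ideal.span {(n : 𝓞 K)}) α := by
  induction n using induction_on_primes with
  | zero => intro h1; omega
  | one =>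
    intro _ α hα _ _
    rw [if_pos rfl, Nat.cast_one, Int.cast_one, Nat.cast_one, sym_one]
    exact sy_num_one h (cop_iff.2 (cop_two hα))
  | prime_mul p a hp ih =>
    intro hodd α hα h0 hc
    have hp2 : p % 2 = 1 := by
      rcases Nat.mod_two_eq_zero_or_one p with h1 | h1
      · rw [Nat.mul_mod, h1] at hodd
        omega
      · exact h1
    have ha2 : a % 2 = 1 := by
      rcases Nat.mod_two_eq_zero_or_one a with h1 | h1
      · rw [Nat.mul_mod, h1] at hodd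
        omega
      · exact h1
    have hp0 : (p : 𝓞 K) ≠ 0 := Nat.cast_ne_zero.2 hp.ne_zero
    have ha0 : (a : 𝓞 K) ≠ 0 := by
      rw [Nat.cast_ne_zero]
      rintro rfl
      omega
    rw [Nat.cast_mul] at hc
    have hcp := hc.of_mul_right_left
    have hca := hc.of_mul_right_right
    have h1 := ih ha2 α hα h0 hca
    have hp13 : p % 4 = 1 ∨ p % 4 = 3 := by omega
    have ha13 : a % 4 = 1 ∨ a % 4 = 3 := by omega
    have hmod : p * a % 4 = (p % 4) * (a % 4) % 4 := Nat.mul_mod p a 4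
    have hpp : sy i (Ideal.span {α}) (((if p % 4 = 1 then (p : ℤ) else -(p : ℤ)) : ℤ) : 𝓞 K) =
        sy i (Ideal.span {(p : 𝓞 K)}) α := by
      rcases hp13 with h2 | h2
      · rw [if_pos h2, Int.cast_natCast]
        exact rr_one h hp h2 hα h0 hcp
      · rw [if_neg (by omega), Int.cast_neg, Int.cast_natCast]
        exact rr_three h hp h2 hα h0 hcp
    have hmul : (((if p * a % 4 = 1 then ((p * a : ℕ) : ℤ) else -((p * a : ℕ) : ℤ)) : ℤ) : 𝓞 K) =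
        (((if p % 4 = 1 then (p : ℤ) else -(p : ℤ)) : ℤ) : 𝓞 K) *
          (((if a % 4 = 1 then (a : ℤ) else -(a : ℤ)) : ℤ) : 𝓞 K) := by
      rcases hp13 with h2 | h2 <;> rcases ha13 with h3 | h3 <;> rw [h2, h3] at hmod
      · rw [if_pos (by omega), if_pos h2, if_pos h3]
        push_cast
        ring
      · rw [if_neg (by omega), if_pos h2, if_neg (by omega)]
        push_cast
        ring
      · rw [if_neg (by omega), if_neg (by omega), if_pos h3]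
        push_cast
        ring
      · rw [if_pos (by omega), if_neg (by omega), if_neg (by omega)]
        push_cast
        ring
    have hsg : ∀ n : ℕ, IsCoprime α (n : 𝓞 K) →
        IsCoprime α (((if n % 4 = 1 then (n : ℤ) else -(n : ℤ)) : ℤ) : 𝓞 K) := by
      intro n hn
      split_ifs
      · rwa [Int.cast_natCast]
      · rw [Int.cast_neg, Int.cast_natCast]
        exact hn.neg_right
    rw [hmul, sym_num h (cop_two hα) (hsg p hcp) (hsg a hca), hpp, h1, Nat.cast_mul,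
      sym_mul hp0 ha0]

theorem sym_neg_one (h : GI i) {α : 𝓞 K} (hα : (2 : 𝓞 K) ∣ α - 1) :
    sy i (Ideal.span {α}) (-1) = 2 * sy i (Ideal.span {α}) i := by
  have hi : IsCoprime α i := ⟨0, -i, by linear_combination -h.sq⟩
  rw [← h.sq, sy_pow h (cop_iff.2 (cop_two hα)) (cop_iff.2 hi)]
  norm_num

/-- **rational biquadratic reciprocity** for an odd rational integer `n = 1 + 2 s` -/
theorem rr (h : GI i) {α : 𝓞 K} (hα : (2 : 𝓞 K) ∣ α - 1) (h0 : α ≠ 0) (s : ℤ)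
    (hc : IsCoprime α ((1 + 2 * s : ℤ) : 𝓞 K)) :
    sy i (Ideal.span {α}) ((1 + 2 * s : ℤ) : 𝓞 K) =
      2 * (s : ZMod 4) * sy i (Ideal.span {α}) i + sy i (Ideal.span {((1 + 2 * s : ℤ) : 𝓞 K)}) α := by
  obtain ⟨n, hn⟩ : ∃ n : ℤ, n = 1 + 2 * s := ⟨_, rfl⟩
  rw [← hn] at hc ⊢
  have hN : n = (n.natAbs : ℤ) ∨ n = -(n.natAbs : ℤ) := Int.natAbs_eq n
  have hcn : IsCoprime α ((n.natAbs : ℕ) : 𝓞 K) := by
    rcases hN with h1 | h1
    · rw [h1, Int.cast_natCast] at hc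
      exact hc
    · rw [h1, Int.cast_neg, Int.cast_natCast] at hc
      simpa using hc.neg_right
  have hodd : n.natAbs % 2 = 1 := by omega
  have hspan : Ideal.span {(n : 𝓞 K)} = Ideal.span {((n.natAbs : ℕ) : 𝓞 K)} := by
    rcases hN with h1 | h1
    · conv_lhs => rw [h1, Int.cast_natCast]
    · conv_lhs => rw [h1, Int.cast_neg, Int.cast_natCast, Ideal.span_singleton_neg]
  have h1 := rr_nat h n.natAbs hodd α hα h0 hcn
  rw [hspan, ← h1]
  have h4 : (4 : ZMod 4) = 0 := rfl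
  rcases Int.even_or_odd' s with ⟨t, ht | ht⟩
  · have e : (if n.natAbs % 4 = 1 then (n.natAbs : ℤ) else -(n.natAbs : ℤ)) = n := by
      split_ifs <;> omega
    rw [e, ht]
    push_cast
    linear_combination (-(t : ZMod 4) * sy i (Ideal.span {α}) i) * h4
  · have e : (if n.natAbs % 4 = 1 then (n.natAbs : ℤ) else -(n.natAbs : ℤ)) = -n := by
      split_ifs <;> omega
    have e2 : (n : 𝓞 K) = (-1) * ((-n : ℤ) : 𝓞 K) := by
      push_cast
      ring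
    have hc1 : IsCoprime α (-1 : 𝓞 K) := ⟨0, -1, by ring⟩
    have hc2 : IsCoprime α ((-n : ℤ) : 𝓞 K) := by
      rw [Int.cast_neg]
      exact hc.neg_right
    rw [e, e2, sym_num h (cop_two hα) hc1 hc2, sym_neg_one h hα, ht]
    push_cast
    linear_combination (-(t : ZMod 4) * sy i (Ideal.span {α}) i) * h4

/-- the symbol of `i` modulo a primary element -/
theorem sym_i_prim (h : GI i) (b t : ℤ) :
    sy i (Ideal.span {((1 + 2 * b + 4 * t : ℤ) : 𝓞 K) + ((2 * b : ℤ) : 𝓞 K) * i}) i =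
      -(b : ZMod 4) + 2 * (t : ZMod 4) := by
  obtain ⟨α, hα⟩ : ∃ α, α = ((1 + 2 * b + 4 * t : ℤ) : 𝓞 K) + ((2 * b : ℤ) : 𝓞 K) * i := ⟨_, rfl⟩
  have h2 : (2 : 𝓞 K) ∣ α - 1 := ⟨(b : 𝓞 K) + 2 * (t : 𝓞 K) + (b : 𝓞 K) * i, by
    rw [hα]
    push_cast
    ring⟩
  have h0 : α ≠ 0 := by
    intro h1
    have e : ((1 + 2 * b + 4 * t : ℤ) : 𝓞 K) + ((2 * b : ℤ) : 𝓞 K) * i =
        ((0 : ℤ) : 𝓞 K) + ((0 : ℤ) : 𝓞 K) * i := by
      rw [← hα, h1]
      push_cast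
      ring
    have := (h.inj e).1
    omega
  have h3 := (sy_i h α h2 h0).2
  have h5 := h.absNorm_form (1 + 2 * b + 4 * t) (2 * b)
  rw [← hα] at h5 ⊢
  rw [h3]
  obtain ⟨N, hN⟩ : ∃ N, N = Ideal.absNorm (Ideal.span {α}) := ⟨_, rfl⟩
  rw [← hN] at h5 ⊢
  have h6 : (N : ℤ) = 4 * (2 * b ^ 2 + b + 2 * t + 4 * (t ^ 2 + b * t)) + 1 := by
    rw [h5]
    ring
  obtain ⟨m, hm⟩ : ∃ m, m = (N - 1) / 4 := ⟨_, rfl⟩
  have h7 : (m : ℤ) = 2 * b ^ 2 + b + 2 * t + 4 * (t ^ 2 + b * t) := by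
    omega
  have h8 := congrArg (fun z : ℤ => (z : ZMod 4)) h7
  push_cast at h8
  rw [← hm, h8]
  have h9 : ∀ x y : ZMod 4, 2 * x ^ 2 + x + 2 * y + 4 * (y ^ 2 + x * y) = -x + 2 * y := by decide
  exact h9 _ _

/-- the symbol of `i` modulo an odd rational integer -/
theorem sym_i_int (h : GI i) (s : ℤ) :
    sy i (Ideal.span {((1 + 2 * s : ℤ) : 𝓞 K)}) i = (s : ZMod 4) ^ 2 + s := by
  obtain ⟨α, hα⟩ : ∃ α : 𝓞 K, α = ((1 + 2 * s : ℤ) : 𝓞 K) := ⟨_, rfl⟩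
  have h2 : (2 : 𝓞 K) ∣ α - 1 := ⟨(s : 𝓞 K), by
    rw [hα]
    push_cast
    ring⟩
  have h0 : α ≠ 0 := by
    rw [hα, Int.cast_ne_zero]
    omega
  have h3 := (sy_i h α h2 h0).2
  have h5 := h.absNorm_form (1 + 2 * s) 0
  rw [Int.cast_zero, zero_mul, add_zero, ← hα] at h5
  rw [← hα, h3]
  obtain ⟨N, hN⟩ : ∃ N, N = Ideal.absNorm (Ideal.span {α}) := ⟨_, rfl⟩
  rw [← hN] at h5 ⊢
  have h6 : (N : ℤ) = 4 * (s ^ 2 + s) + 1 := by
    rw [h5]
    ring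
  obtain ⟨m, hm⟩ : ∃ m, m = (N - 1) / 4 := ⟨_, rfl⟩
  have h7 : (m : ℤ) = s ^ 2 + s := by omega
  have h8 := congrArg (fun z : ℤ => (z : ZMod 4)) h7
  push_cast at h8
  rw [← hm]
  exact h8

theorem sym_int_int (h : GI i) (s m : ℤ) (hc : IsCoprime ((1 + 2 * s : ℤ) : 𝓞 K) (m : 𝓞 K)) :
    sy i (Ideal.span {((1 + 2 * s : ℤ) : 𝓞 K)}) (m : 𝓞 K) = 0 := by
  obtain ⟨n, hn⟩ : ∃ n : ℤ, n = 1 + 2 * s := ⟨_, rfl⟩
  rw [← hn] at hc ⊢
  have hodd : n.natAbs % 2 = 1 := by omega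
  rcases Int.natAbs_eq n with h1 | h1
  · rw [h1, Int.cast_natCast] at hc ⊢
    exact sym_nat_int h _ hodd m hc
  · rw [h1, Int.cast_neg, Int.cast_natCast] at hc ⊢
    rw [Ideal.span_singleton_neg]
    exact sym_nat_int h _ hodd m (by simpa using hc.neg_left)

/-- the coordinates of a primary element -/
theorem prim_coords (h : GI i) {α : 𝓞 K} (hα : 2 * (1 + i) ∣ α - 1) :
    ∃ b t : ℤ, α = ((1 + 2 * b + 4 * t : ℤ) : 𝓞 K) + ((2 * b : ℤ) : 𝓞 K) * i := by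
  obtain ⟨z, hz⟩ := hα
  obtain ⟨m, n, rfl⟩ := h.gen z
  refine ⟨m + n, -n, ?_⟩
  push_cast
  linear_combination hz + 2 * (n : 𝓞 K) * h.sq

/-- **the law of biquadratic reciprocity** for elements prime to their real parts -/
theorem recip_coords (h : GI i) {b t d u : ℤ} {α β : 𝓞 K}
    (hα : α = ((1 + 2 * b + 4 * t : ℤ) : 𝓞 K) + ((2 * b : ℤ) : 𝓞 K) * i)
    (hβ : β = ((1 + 2 * d + 4 * u : ℤ) : 𝓞 K) + ((2 * d : ℤ) : 𝓞 K) * i)
    (hab : IsCoprime α β) (ha : IsCoprime α ((1 + 2 * b + 4 * t : ℤ) : 𝓞 K))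
    (hc : IsCoprime β ((1 + 2 * d + 4 * u : ℤ) : 𝓞 K)) :
    sy i (Ideal.span {β}) α - sy i (Ideal.span {α}) β =
      2 * sy i (Ideal.span {α}) i * sy i (Ideal.span {β}) i := by
  have hα2 : (2 : 𝓞 K) ∣ α - 1 := ⟨(b : 𝓞 K) + 2 * (t : 𝓞 K) + (b : 𝓞 K) * i, by
    rw [hα]
    push_cast
    ring⟩
  have hβ2 : (2 : 𝓞 K) ∣ β - 1 := ⟨(d : 𝓞 K) + 2 * (u : 𝓞 K) + (d : 𝓞 K) * i, by
    rw [hβ]
    push_cast
    ring⟩
  have hne : ∀ {x : 𝓞 K}, (2 : 𝓞 K) ∣ x - 1 → x ≠ 0 := by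
    intro x hx h0
    rw [h0] at hx
    have e2 : (2 : 𝓞 K) = ((2 : ℤ) : 𝓞 K) := by norm_num
    have e : (0 : 𝓞 K) - 1 = ((-1 : ℤ) : 𝓞 K) + ((0 : ℤ) : 𝓞 K) * i := by
      push_cast
      ring
    rw [e, e2, h.int_dvd] at hx
    omega
  have hα0 := hne hα2
  have hβ0 := hne hβ2
  -- the integer `n = a c + 4 b d`
  obtain ⟨sa, hsa⟩ : ∃ s : ℤ, s = b + 2 * t := ⟨_, rfl⟩
  obtain ⟨sc, hsc⟩ : ∃ s : ℤ, s = d + 2 * u := ⟨_, rfl⟩
  obtain ⟨sn, hsn⟩ : ∃ s : ℤ, s = sa + sc + 2 * (sa * sc) + 2 * (b * d) := ⟨_, rfl⟩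
  have ea : (1 + 2 * b + 4 * t : ℤ) = 1 + 2 * sa := by rw [hsa]; ring
  have ec : (1 + 2 * d + 4 * u : ℤ) = 1 + 2 * sc := by rw [hsc]; ring
  rw [ea] at ha
  rw [ec] at hc
  have hα' : α = ((1 + 2 * sa : ℤ) : 𝓞 K) + ((2 * b : ℤ) : 𝓞 K) * i := by rw [hα, ea]
  have hβ' : β = ((1 + 2 * sc : ℤ) : 𝓞 K) + ((2 * d : ℤ) : 𝓞 K) * i := by rw [hβ, ec]
  have hn : ((1 + 2 * sn : ℤ) : 𝓞 K) =
      ((1 + 2 * sa : ℤ) : 𝓞 K) * ((1 + 2 * sc : ℤ) : 𝓞 K) + ((2 * b : ℤ) : 𝓞 K) * ((2 * d : ℤ) : 𝓞 K) := by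
    rw [hsn]
    push_cast
    ring
  -- the two congruences
  have d1 : β ∣ ((1 + 2 * sc : ℤ) : 𝓞 K) * α - ((1 + 2 * sn : ℤ) : 𝓞 K) := by
    refine ⟨((2 * b : ℤ) : 𝓞 K) * i, ?_⟩
    rw [hn, hα', hβ']
    linear_combination (-((2 * b : ℤ) : 𝓞 K) * ((2 * d : ℤ) : 𝓞 K)) * h.sq
  have d2 : α ∣ ((1 + 2 * sa : ℤ) : 𝓞 K) * β - ((1 + 2 * sn : ℤ) : 𝓞 K) := by
    refine ⟨((2 * d : ℤ) : 𝓞 K) * i, ?_⟩
    rw [hn, hα', hβ']
    linear_combination (-((2 * b : ℤ) : 𝓞 K) * ((2 * d : ℤ) : 𝓞 K)) * h.sq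
  have hcopβ : IsCoprime β ((1 + 2 * sc : ℤ) : 𝓞 K) := hc
  have c1 : IsCoprime β (((1 + 2 * sc : ℤ) : 𝓞 K) * α) := IsCoprime.mul_right hc hab.symm
  have c2 : IsCoprime α (((1 + 2 * sa : ℤ) : 𝓞 K) * β) := IsCoprime.mul_right ha hab
  have shift : ∀ {x y z : 𝓞 K}, IsCoprime x y → x ∣ y - z → IsCoprime x z := by
    rintro x y z ⟨p, q, hpq⟩ ⟨r, hr⟩
    exact ⟨p + q * r, q, by linear_combination hpq - q * hr⟩
  have c3 : IsCoprime β ((1 + 2 * sn : ℤ) : 𝓞 K) := shift c1 d1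
  have c4 : IsCoprime α ((1 + 2 * sn : ℤ) : 𝓞 K) := shift c2 d2
  have s1 := sym_congr h (cop_two hβ2) c1 d1
  have s2 := sym_congr h (cop_two hα2) c2 d2
  rw [sym_num h (cop_two hβ2) hc hab.symm] at s1
  rw [sym_num h (cop_two hα2) ha hab] at s2
  -- the rational symbols
  have r1 := rr h hβ2 hβ0 sc hc
  have r2 := rr h hα2 hα0 sa ha
  have e1 : sy i (Ideal.span {((1 + 2 * sc : ℤ) : 𝓞 K)}) β = (sc : ZMod 4) ^ 2 + sc := by
    have hodd : IsCoprime ((1 + 2 * sc : ℤ) : 𝓞 K) 2 :=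
      cop_two ⟨(sc : 𝓞 K), by push_cast; ring⟩
    have h1 : IsCoprime ((1 + 2 * sc : ℤ) : 𝓞 K) (((2 * d : ℤ) : 𝓞 K) * i) :=
      shift hc.symm ⟨1, by rw [hβ']; ring⟩
    rw [sym_congr h hodd hc.symm (y := ((2 * d : ℤ) : 𝓞 K) * i) ⟨1, by rw [hβ']; ring⟩,
      sym_num h hodd h1.of_mul_right_left h1.of_mul_right_right,
      sym_int_int h sc _ h1.of_mul_right_left, sym_i_int h, zero_add]
  have e2 : sy i (Ideal.span {((1 + 2 * sa : ℤ) : 𝓞 K)}) α = (sa : ZMod 4) ^ 2 + sa := by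
    have hodd : IsCoprime ((1 + 2 * sa : ℤ) : 𝓞 K) 2 :=
      cop_two ⟨(sa : 𝓞 K), by push_cast; ring⟩
    have h1 : IsCoprime ((1 + 2 * sa : ℤ) : 𝓞 K) (((2 * b : ℤ) : 𝓞 K) * i) :=
      shift ha.symm ⟨1, by rw [hα']; ring⟩
    rw [sym_congr h hodd ha.symm (y := ((2 * b : ℤ) : 𝓞 K) * i) ⟨1, by rw [hα']; ring⟩,
      sym_num h hodd h1.of_mul_right_left h1.of_mul_right_right,
      sym_int_int h sa _ h1.of_mul_right_left, sym_i_int h, zero_add]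
  -- the product `γ = β * cj α`
  have hcα2 := h.cj_two hα2
  have hcα0 := h.cj_ne hα0
  have c5 : IsCoprime (h.cj α) ((1 + 2 * sn : ℤ) : 𝓞 K) := by
    have h1 := h.cj_cop c4
    rwa [h.cj_int] at h1
  have hγ2 : (2 : 𝓞 K) ∣ β * h.cj α - 1 := by
    have e : β * h.cj α - 1 = (β - 1) * h.cj α + (h.cj α - 1) := by ring
    rw [e]
    exact dvd_add (Dvd.dvd.mul_right hβ2 _) hcα2
  have hγ0 := hne hγ2
  have c6 : IsCoprime (β * h.cj α) ((1 + 2 * sn : ℤ) : 𝓞 K) := IsCoprime.mul_left c3 c5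
  have r3 := rr h hγ2 hγ0 sn c6
  rw [sym_mul hβ0 hcα0, sym_mul hβ0 hcα0] at r3
  have f1 : sy i (Ideal.span {h.cj α}) ((1 + 2 * sn : ℤ) : 𝓞 K) =
      -sy i (Ideal.span {α}) ((1 + 2 * sn : ℤ) : 𝓞 K) := by
    have h1 := sym_cj h hα2 hα0 _ c4
    rwa [h.cj_int] at h1
  have hi : IsCoprime α i := ⟨0, -i, by linear_combination -h.sq⟩
  have hm1 : IsCoprime α (-1 : 𝓞 K) := ⟨0, -1, by ring⟩
  have f2 : sy i (Ideal.span {h.cj α}) i = sy i (Ideal.span {α}) i := by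
    have h1 := sym_cj h hα2 hα0 (-i) hi.neg_right
    rw [map_neg, h.cj_i, neg_neg] at h1
    have h2 : -i = (-1) * i := by ring
    rw [h1, h2, sym_num h (cop_two hα2) hm1 hi, sym_neg_one h hα2]
    have h4 : (4 : ZMod 4) = 0 := rfl
    linear_combination (-sy i (Ideal.span {α}) i) * h4
  have e3 : sy i (Ideal.span {((1 + 2 * sn : ℤ) : 𝓞 K)}) (β * h.cj α) = (sn : ZMod 4) ^ 2 + sn := by
    have hodd : IsCoprime ((1 + 2 * sn : ℤ) : 𝓞 K) 2 :=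
      cop_two ⟨(sn : 𝓞 K), by push_cast; ring⟩
    have hdv : ((1 + 2 * sn : ℤ) : 𝓞 K) ∣ β * h.cj α -
        (((1 + 2 * sa) * (2 * d) - (1 + 2 * sc) * (2 * b) : ℤ) : 𝓞 K) * i := by
      refine ⟨1, ?_⟩
      rw [hn, hα', hβ', h.cj_coords]
      push_cast
      linear_combination (-(2 * (b : 𝓞 K)) * (2 * (d : 𝓞 K))) * h.sq
    have h1 := shift c6.symm hdv
    rw [sym_congr h hodd c6.symm hdv, sym_num h hodd h1.of_mul_right_left h1.of_mul_right_right,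
      sym_int_int h sn _ h1.of_mul_right_left, sym_i_int h, zero_add]
  have g1 : sy i (Ideal.span {α}) i = -(b : ZMod 4) + 2 * (t : ZMod 4) := by
    rw [hα]
    exact sym_i_prim h b t
  have g2 : sy i (Ideal.span {β}) i = -(d : ZMod 4) + 2 * (u : ZMod 4) := by
    rw [hβ]
    exact sym_i_prim h d u
  rw [e1, g2] at r1
  rw [e2, g1] at r2
  rw [f1, f2, e3, g1, g2] at r3
  rw [g1, g2]
  have key : ∀ b t d u : ZMod 4, ∀ A B C D N M : ZMod 4,
      C = 2 * (d + 2 * u) * (-d + 2 * u) + ((d + 2 * u) ^ 2 + (d + 2 * u)) →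
      D = 2 * (b + 2 * t) * (-b + 2 * t) + ((b + 2 * t) ^ 2 + (b + 2 * t)) →
      N + -M = 2 * ((b + 2 * t) + (d + 2 * u) + 2 * ((b + 2 * t) * (d + 2 * u)) + 2 * (b * d)) *
        (-d + 2 * u + (-b + 2 * t)) + (((b + 2 * t) + (d + 2 * u) + 2 * ((b + 2 * t) * (d + 2 * u)) +
          2 * (b * d)) ^ 2 + ((b + 2 * t) + (d + 2 * u) + 2 * ((b + 2 * t) * (d + 2 * u)) + 2 * (b * d))) →
      C + A = N → D + B = M → A - B = 2 * (-b + 2 * t) * (-d + 2 * u) := by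
    intro b t d u A B C D N M h1 h2 h3 h4 h5
    have h6 : A - B = (N + -M) - C + D := by linear_combination h4 - h5
    rw [h6, h3, h1, h2]
    clear h1 h2 h3 h4 h5 h6 A B C D N M
    revert b t d u
    decide
  refine key b t d u _ _ _ _ _ _ ?_ ?_ ?_ s1 s2
  · rw [r1, hsc]
    push_cast
    ring
  · rw [r2, hsa]
    push_cast
    ring
  · rw [r3, hsn, hsa, hsc]
    push_cast
    ring

theorem g4_of_prim (h : GI i) {α : 𝓞 K} (hα : Prime α) (pα : 2 * (1 + i) ∣ α - 1) :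
    G4 (Ideal.span {α}) := by
  refine ⟨(Ideal.span_singleton_prime hα.ne_zero).2 hα, ?_, ?_⟩
  · rw [Ne, Ideal.span_singleton_eq_bot]
    exact hα.ne_zero
  · rw [Ideal.mem_span_singleton]
    intro h1
    have h2 : IsCoprime α 2 := cop_two ((Dvd.intro _ rfl).trans pα)
    exact hα.not_isUnit (h2.isUnit_of_dvd' (dvd_refl α) h1)

/-- the inert primary primes -/
theorem inert_or (h : GI i) {α : 𝓞 K} (hα : Prime α) (pα : 2 * (1 + i) ∣ α - 1) :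
    (∃ p : ℕ, p.Prime ∧ p % 4 = 3 ∧ α = -(p : 𝓞 K)) ∨
      ∃ b t : ℤ, α = ((1 + 2 * b + 4 * t : ℤ) : 𝓞 K) + ((2 * b : ℤ) : 𝓞 K) * i ∧
        IsCoprime α ((1 + 2 * b + 4 * t : ℤ) : 𝓞 K) := by
  have hG := g4_of_prim h hα pα
  rcases G4.cases h hG with ⟨p, hp, hp4, hN⟩ | ⟨p, hp, hp4, hs⟩
  · right
    obtain ⟨b, t, hbt⟩ := prim_coords h pα
    refine ⟨b, t, hbt, ?_⟩
    refine hα.irreducible.coprime_iff_not_dvd.2 fun h1 => ?_
    rw [← Ideal.mem_span_singleton, mem_int hG hp hN] at h1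
    have h2 := h.absNorm_form (1 + 2 * b + 4 * t) (2 * b)
    rw [← hbt, hN] at h2
    obtain ⟨c, hc⟩ := h1
    have hc0 : c ≠ 0 := by
      rintro rfl
      omega
    have h3 : 1 ≤ c ^ 2 := by
      have := sq_nonneg c
      have h4 : c ^ 2 ≠ 0 := pow_ne_zero 2 hc0
      omega
    have hp1 : (1 : ℤ) < p := by exact_mod_cast hp.one_lt
    rw [hc] at h2
    have h5 : (p : ℤ) * p ≤ p := by
      calc (p : ℤ) * p ≤ (p * p) * c ^ 2 := le_mul_of_one_le_right (by positivity) h3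
        _ ≤ (p * c) ^ 2 + (2 * b) ^ 2 := by nlinarith [sq_nonneg (2 * b)]
        _ = p := h2.symm
    nlinarith
  · left
    refine ⟨p, hp, hp4, ?_⟩
    refine prim_unique h pα ?_ (by rw [Ideal.span_singleton_neg]; exact hs)
    obtain ⟨k, hk⟩ : ∃ k, p = 4 * k + 3 := ⟨p / 4, by omega⟩
    refine ⟨-((k : 𝓞 K) + 1) * (1 - i), ?_⟩
    rw [hk]
    push_cast
    linear_combination (-2 * ((k : 𝓞 K) + 1)) * h.sq

/-- **the law of biquadratic reciprocity** for primary primes -/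
theorem recip (h : GI i) {α β : 𝓞 K} (hα : Prime α) (hβ : Prime β) (pα : 2 * (1 + i) ∣ α - 1)
    (pβ : 2 * (1 + i) ∣ β - 1) (hne : α ≠ β) :
    qs i (Ideal.span {β}) α - qs i (Ideal.span {α}) β =
      2 * qs i (Ideal.span {α}) i * qs i (Ideal.span {β}) i := by
  have hGα := g4_of_prim h hα pα
  have hGβ := g4_of_prim h hβ pβ
  have hα2 : (2 : 𝓞 K) ∣ α - 1 := (Dvd.intro _ rfl).trans pα
  have hβ2 : (2 : 𝓞 K) ∣ β - 1 := (Dvd.intro _ rfl).trans pβ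
  have hcop : IsCoprime α β := by
    refine hα.irreducible.coprime_iff_not_dvd.2 fun h1 => hne ?_
    exact prim_unique h pα pβ (Ideal.span_singleton_eq_span_singleton.2
      (hα.associated_of_dvd hβ h1))
  have h4 : (4 : ZMod 4) = 0 := rfl
  -- the inert case
  have inert : ∀ {α β : 𝓞 K}, Prime α → (2 : 𝓞 K) ∣ α - 1 → IsCoprime α β → G4 (Ideal.span {α}) →
      G4 (Ideal.span {β}) → (∃ p : ℕ, p.Prime ∧ p % 4 = 3 ∧ β = -(p : 𝓞 K)) →
      qs i (Ideal.span {β}) α = qs i (Ideal.span {α}) β ∧ 2 * qs i (Ideal.span {β}) i = 0 := by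
    rintro α β hα hα2 hc hGα hGβ ⟨p, hp, hp4, rfl⟩
    have hc' : IsCoprime α (p : 𝓞 K) := by simpa using hc.neg_right
    have h1 := rr_three h hp hp4 hα2 hα.ne_zero hc'
    rw [sym_prime hGα] at h1
    have hGp := G4_span h hp hp4
    rw [sym_prime hGp] at h1
    rw [Ideal.span_singleton_neg]
    refine ⟨h1.symm, ?_⟩
    rw [qs_i h hGp, h.absNorm_nat]
    obtain ⟨k, hk⟩ : ∃ k, p = 4 * k + 3 := ⟨p / 4, by omega⟩
    have h5 : (p ^ 2 - 1) / 4 = 2 * ((2 * k + 1) * (k + 1)) := by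
      have h6 : p ^ 2 - 1 = 4 * (2 * ((2 * k + 1) * (k + 1))) := by
        rw [hk]
        have : (4 * k + 3) ^ 2 = 4 * (2 * ((2 * k + 1) * (k + 1))) + 1 := by ring
        omega
      rw [h6, Nat.mul_div_cancel_left _ (by norm_num)]
    rw [h5]
    push_cast
    linear_combination ((2 * (k : ZMod 4) + 1) * ((k : ZMod 4) + 1)) * h4
  rcases inert_or h hβ pβ with h1 | ⟨d, u, hd, hdc⟩
  · obtain ⟨h2, h3⟩ := inert hα hα2 hcop hGα hGβ h1
    rw [h2, sub_self]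
    linear_combination (-qs i (Ideal.span {α}) i) * h3
  · rcases inert_or h hα pα with h1 | ⟨b, t, hb, hbc⟩
    · obtain ⟨h2, h3⟩ := inert hβ hβ2 hcop.symm hGβ hGα h1
      rw [h2, sub_self]
      linear_combination (-qs i (Ideal.span {β}) i) * h3
    · have h5 := recip_coords h hb hd hcop hbc hdc
      rwa [sym_prime hGα, sym_prime hGβ, sym_prime hGα, sym_prime hGβ] at h5

end

end Pool.Agent.Lib.MP_1a91b9_nuX.HQ
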