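import Pool.Agent.Lib.MP_1a91b9_ntQ.R.Defs4
import Pool.Agent.Lib.MP_1a91b9_ntQ.R.RecG

/-!
# MP_1a91b9_nt (quartic twists), part R: the law of biquadratic reciprocity for the primes of `Pg`
-/

set_option autoImplicit false

namespace Pool.Agent.Lib.MP_1a91b9_ntQ

open NumberField
open Pool.Agent.Lib.MP_1a91b9_nuX.HQ (GI G4 qs w)

noncomputable section

theorem rec_prim {x : 𝓞 K4} (h : lam ^ 3 ∣ x - 1) : 2 * (1 + iO) ∣ x - 1 := by
  refine Dvd.dvd.trans ⟨iO, ?_⟩ h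
  rw [lam_cube]
  linear_combination (-2 : 𝓞 K4) * iO_sq

theorem rec_g4 (q : Pg) : G4 (Ideal.span {q.1}) :=
  Pool.Agent.Lib.MP_1a91b9_nuX.HQ.g4_of_prim gi q.2.1 (rec_prim q.2.2)

theorem rec_i (q : Pg) : qs iO (Ideal.span {q.1}) iO = nn q.1 := by
  rw [Pool.Agent.Lib.MP_1a91b9_nuX.HQ.qs_i gi (rec_g4 q), absNorm_span]
  rfl

/-- **the law of biquadratic reciprocity** -/
theorem c4_recip (p q : Pg) (h : p ≠ q) : c4 q p.1 - c4 p q.1 = 2 * nn q.1 * nn p.1 := by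
  have h1 := Pool.Agent.Lib.MP_1a91b9_nuX.HQ.recip gi p.2.1 q.2.1 (rec_prim p.2.2) (rec_prim q.2.2)
    (fun e => h (Subtype.ext e))
  rw [rec_i, rec_i] at h1
  rw [c4, c4, h1]
  ring

/-- the quadratic symbols are symmetric -/
theorem c2_symm (p q : Pg) : c2 q p.1 = c2 p q.1 := by
  by_cases h : p = q
  · rw [h]
  · have h1 := congrArg md (c4_recip p q h)
    rw [map_sub, map_mul, map_mul] at h1
    have h2 : md 2 = 0 := rfl
    rw [h2, zero_mul, zero_mul, sub_eq_zero] at h1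
    exact h1

end

end Pool.Agent.Lib.MP_1a91b9_ntQ
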