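import Pool.Agent.Lib.MP_1a91b9_ntQ.R.Qd4

/-!
# MP_1a91b9_nt (quartic twists), part R: the auxiliary prime

For a nonempty set `S` of primes there are primes `q` of arbitrarily large norm with `aa q = 1`
modulo which the product `DDq S` is not a square. The proof uses the theorem of Dirichlet on rational
primes and the quadratic reciprocity law.
-/

set_option autoImplicit false

namespace Pool.Agent.Lib.MP_1a91b9_ntQ

open NumberField Finset
open Pool.Agent.Lib.MP_1a91b9_nuX.HQ (GI G4 qs w qs_spec w_zero)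
open Pool.Agent.Lib.MP_1a91b9_ntH (PS nm one_le_nm)

noncomputable section

/-- **The theorem of Dirichlet and the quadratic reciprocity law.** -/
theorem exists_p5 {n r m : ℕ} (hn : n % 2 = 1) (hr : r.Prime) (hm : n = r * m) (hrm : ¬ r ∣ m)
    (B : ℕ) : ∃ p : ℕ, B < p ∧ p.Prime ∧ p % 8 = 5 ∧ jacobiSym n p = -1 := by
  have i0 : Fact r.Prime := ⟨hr⟩
  have hr2 : r % 2 = 1 := by
    have h1 : (r * m) % 2 = 1 := by rw [← hm]; exact hn
    rcases Nat.mod_two_eq_zero_or_one r with h | h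
    · rw [Nat.mul_mod, h] at h1
      omega
    · exact h
  have hm2 : m % 2 = 1 := by
    have h1 : (r * m) % 2 = 1 := by rw [← hm]; exact hn
    rcases Nat.mod_two_eq_zero_or_one m with h | h
    · rw [Nat.mul_mod, h] at h1
      omega
    · exact h
  have hr0 : r ≠ 2 := by
    intro h
    rw [h] at hr2
    omega
  have hm0 : m ≠ 0 := by
    intro h
    rw [h] at hm2
    omega
  -- a quadratic nonresidue modulo `r`
  obtain ⟨a, ha⟩ := FiniteField.exists_nonsquare (F := ZMod r) (by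
    rw [ZMod.ringChar_zmod_n]
    exact hr0)
  obtain ⟨g, hg⟩ : ∃ g : ℕ, g = a.val := ⟨_, rfl⟩
  have hga : (g : ZMod r) = a := by rw [hg, ZMod.natCast_zmod_val]
  have hc1 : Nat.Coprime r m := (Nat.Prime.coprime_iff_not_dvd hr).2 hrm
  have hc2 : Nat.Coprime n 8 := by
    have h : Nat.Coprime n 2 := by
      rw [Nat.coprime_two_right, Nat.odd_iff]
      exact hn
    exact Nat.Coprime.pow_right 3 h
  obtain ⟨u₁, h1, h2⟩ := Nat.chineseRemainder hc1 g 1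
  obtain ⟨u, h3, h4⟩ := Nat.chineseRemainder hc2 u₁ 5
  have h5 : u ≡ g [MOD r] := (h3.of_dvd ⟨m, hm⟩).trans h1
  have h6 : u ≡ 1 [MOD m] := (h3.of_dvd ⟨r, by rw [hm, mul_comm]⟩).trans h2
  have ha0 : a ≠ 0 := fun h => ha (by rw [h]; exact IsSquare.zero)
  have hcr : Nat.Coprime u r := by
    rw [Nat.coprime_comm, Nat.Prime.coprime_iff_not_dvd hr]
    intro h
    apply ha0
    have h7 : (u : ZMod r) = (g : ZMod r) := (ZMod.natCast_eq_natCast_iff u g r).2 h5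
    rw [← hga, ← h7]
    exact (ZMod.natCast_eq_zero_iff u r).2 h
  have hcm : Nat.Coprime u m := by
    have h7 := h6.gcd_eq
    rw [Nat.gcd_one_left] at h7
    rw [Nat.Coprime, h7]
  have hc8 : Nat.Coprime u 8 := by
    have h7 := h4.gcd_eq
    rw [Nat.Coprime, h7]
    rfl
  have hcu : Nat.Coprime u (n * 8) := by
    rw [hm]
    exact (hcr.mul_right hcm).mul_right hc8
  have hn0 : n * 8 ≠ 0 := by
    have : n ≠ 0 := by
      intro h
      rw [h] at hn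
      omega
    omega
  obtain ⟨p, hp1, hp2, hp3⟩ := Nat.forall_exists_prime_gt_and_modEq B hn0 hcu
  have hp8 : p % 8 = 5 := by
    have h7 : p ≡ 5 [MOD 8] := (hp3.of_dvd ⟨n, by rw [mul_comm]⟩).trans h4
    exact h7
  refine ⟨p, hp1, hp2, hp8, ?_⟩
  have hpr : p ≡ g [MOD r] := (hp3.of_dvd (hm ▸ ⟨m * 8, by ring⟩)).trans h5
  have hpm : p ≡ 1 [MOD m] := (hp3.of_dvd (hm ▸ ⟨r * 8, by ring⟩)).trans h6
  rw [← jacobiSym.quadratic_reciprocity_one_mod_four (a := p) (b := n) (by omega)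
    (Nat.odd_iff.2 hn), hm, jacobiSym.mul_right' _ hr.ne_zero hm0]
  have e1 : jacobiSym (p : ℤ) r = -1 := by
    rw [← jacobiSym.legendreSym.to_jacobiSym, legendreSym.eq_neg_one_iff]
    have h7 : ((p : ℤ) : ZMod r) = a := by
      rw [← hga, Int.cast_natCast]
      exact (ZMod.natCast_eq_natCast_iff p g r).2 hpr
    rw [h7]
    exact ha
  have e2 : jacobiSym (p : ℤ) m = 1 := by
    rw [jacobiSym.mod_left' (a₂ := 1) (by
      have h7 : (p : ℤ) ≡ ((1 : ℕ) : ℤ) [ZMOD m] := Int.natCast_modEq_iff.2 hpm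
      rw [Nat.cast_one] at h7
      exact h7)]
    exact jacobiSym.one_left m
  rw [e1, e2, mul_one]

/-! ### The norm and the conjugate -/

theorem Nz_natCast (n : ℕ) : Nz (n : 𝓞 K4) = n ^ 2 := by
  have h := Nz_coords n 0
  have e : (((n : ℤ) : 𝓞 K4) + ((0 : ℤ) : 𝓞 K4) * iO) = (n : 𝓞 K4) := by simp
  rw [e] at h
  have h1 : (Nz (n : 𝓞 K4) : ℤ) = ((n ^ 2 : ℕ) : ℤ) := by
    rw [h]
    push_cast
    ring
  exact_mod_cast h1

theorem Nz_dvd {x y : 𝓞 K4} (h : x ∣ y) : Nz x ∣ Nz y := by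
  obtain ⟨z, rfl⟩ := h
  rw [Nz_mul]
  exact dvd_mul_right _ _

theorem mul_cj4 (x : 𝓞 K4) : x * gi.cj x = ((Nz x : ℕ) : 𝓞 K4) := by
  rw [gi.mul_cj, absNorm_span]

theorem cp_cj (x : 𝓞 K4) : cp (gi.cj x) = ((cp x).1, -(cp x).2) := by
  have h : gi.cj x = (((cp x).1 : ℤ) : 𝓞 K4) + ((-(cp x).2 : ℤ) : 𝓞 K4) * iO := by
    conv_lhs => rw [eq_cp x]
    rw [gi.cj_coords]
    push_cast
    ring
  rw [h, cp_coords]

theorem Nz_cj (x : 𝓞 K4) : Nz (gi.cj x) = Nz x := by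
  have h : (Nz (gi.cj x) : ℤ) = (Nz x : ℤ) := by
    rw [Nz_cp, Nz_cp, cp_cj]
    ring
  exact_mod_cast h

theorem In4.cj {x : 𝓞 K4} (hx : In4 x) : In4 (gi.cj x) := by
  rw [In4_iff] at hx ⊢
  rw [cp_cj]
  obtain ⟨h1, h2⟩ := hx
  constructor
  · change (-(cp x).2) % 2 = 0
    omega
  · change ((cp x).1 + -(cp x).2) % 4 = 1
    omega

theorem cj_dvd {x y : 𝓞 K4} (h : x ∣ y) : gi.cj x ∣ gi.cj y := map_dvd gi.cj h

theorem cj_dvd_iff {x y : 𝓞 K4} : gi.cj x ∣ y ↔ x ∣ gi.cj y := by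
  constructor
  · intro h
    have h1 := cj_dvd h
    rwa [gi.cj_cj] at h1
  · intro h
    have h1 := cj_dvd h
    rwa [gi.cj_cj] at h1

theorem prime_cj {x : 𝓞 K4} (hx : Prime x) : Prime (gi.cj x) := by
  refine ⟨fun h => hx.ne_zero ?_, fun h => hx.not_isUnit ?_, fun a b h => ?_⟩
  · have h1 := congrArg gi.cj h
    rwa [gi.cj_cj, map_zero] at h1
  · have h1 := h.map gi.cj
    rwa [gi.cj_cj] at h1
  · rw [cj_dvd_iff, map_mul] at h
    rw [cj_dvd_iff, cj_dvd_iff]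
    exact hx.dvd_or_dvd h

/-- The conjugate prime. -/
def cjP (q : Pg) : Pg := ⟨gi.cj q.1, prime_cj q.prime, q.in4.cj⟩

theorem cjP_val (q : Pg) : (cjP q).1 = gi.cj q.1 := rfl

theorem cjP_cjP (q : Pg) : cjP (cjP q) = q := by
  apply Subtype.ext
  rw [cjP_val, cjP_val, gi.cj_cj]

theorem Nz_cjP (q : Pg) : Nz (cjP q).1 = Nz q.1 := Nz_cj q.1

theorem aa_of_Nz {x y : 𝓞 K4} (h : Nz x = Nz y) : aa x = aa y := by
  unfold aa nn
  rw [h]

theorem c2_cjP (q : Pg) {x : 𝓞 K4} (hx : ¬ q.1 ∣ gi.cj x) : c2 (cjP q) x = c2 q (gi.cj x) := by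
  unfold c2 c4
  rw [cjP_val, Sp.qs_cj gi q.g4 (Pg.not_mem.2 hx), map_neg, ZModModule.neg_eq_self]

/-- **A rational integer which is not a square modulo `p` is not a square modulo a prime of norm
`p`.** -/
theorem c2_nat_neg {q : Pg} {p : ℕ} (hp : p.Prime) (hq : Nz q.1 = p) {n : ℕ}
    (h : jacobiSym n p = -1) : ¬ q.1 ∣ (n : 𝓞 K4) ∧ c2 q (n : 𝓞 K4) = 1 := by
  have i0 : Fact p.Prime := ⟨hp⟩
  have hp4 : p % 4 = 1 := by
    rw [← hq]
    exact Pg.Nz_mod q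
  have hqp : q.1 ∣ (p : 𝓞 K4) := by
    rw [← hq, ← mul_cj4]
    exact dvd_mul_right _ _
  rw [← jacobiSym.legendreSym.to_jacobiSym] at h
  have hn : ¬ q.1 ∣ (n : 𝓞 K4) := by
    intro h0
    have h1 := Nz_dvd h0
    rw [hq, Nz_natCast] at h1
    have h2 := hp.dvd_of_dvd_pow h1
    have h3 : legendreSym p (n : ℤ) = 0 := by
      rw [legendreSym.eq_zero_iff, Int.cast_natCast]
      exact (ZMod.natCast_eq_zero_iff n p).2 h2
    rw [h3] at h
    norm_num at h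
  refine ⟨hn, ?_⟩
  have h2 : ∀ x : ZMod 2, x ≠ 0 → x = 1 := by decide
  apply h2
  intro h0
  -- the symbol
  have h3 : ∀ x : ZMod 4, md x = 0 → x + x = 0 := by decide
  have h4 := h3 (c4 q (n : 𝓞 K4)) h0
  have h5 := qs_spec gi q.g4 (Pg.not_mem.2 hn)
  rw [absNorm_span, hq, Ideal.mem_span_singleton] at h5
  obtain ⟨k, hk⟩ : ∃ k, p = 4 * k + 1 := ⟨p / 4, by omega⟩
  have e1 : (p - 1) / 4 = k := by omega
  have e2 : p / 2 = 2 * k := by omega
  have h6 : w iO (qs iO (Ideal.span {q.1}) (n : 𝓞 K4)) ^ 2 = 1 := by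
    rw [pow_two, ← gi.w_add]
    have h7 : qs iO (Ideal.span {q.1}) (n : 𝓞 K4) + qs iO (Ideal.span {q.1}) (n : 𝓞 K4) = 0 := h4
    rw [h7, w_zero]
  rw [e1] at h5
  obtain ⟨W, hW⟩ : ∃ W, W = w iO (qs iO (Ideal.span {q.1}) (n : 𝓞 K4)) := ⟨_, rfl⟩
  rw [← hW] at h5 h6
  have h8 : q.1 ∣ 1 - (n : 𝓞 K4) ^ (2 * k) := by
    have e : 1 - (n : 𝓞 K4) ^ (2 * k) = (W - (n : 𝓞 K4) ^ k) * (W + (n : 𝓞 K4) ^ k) := by
      linear_combination -h6
    rw [e]
    exact Dvd.dvd.mul_right h5 _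
  -- the Legendre symbol
  have h9 := legendreSym.eq_pow p (n : ℤ)
  rw [h, e2] at h9
  have h10 : ((n ^ (2 * k) + 1 : ℕ) : ZMod p) = 0 := by
    push_cast
    rw [← Int.cast_natCast, ← h9]
    push_cast
    ring
  rw [ZMod.natCast_eq_zero_iff] at h10
  have h11 : q.1 ∣ (n : 𝓞 K4) ^ (2 * k) + 1 := by
    have h12 : ((p : ℕ) : 𝓞 K4) ∣ ((n ^ (2 * k) + 1 : ℕ) : 𝓞 K4) := Nat.cast_dvd_cast h10
    push_cast at h12
    exact hqp.trans h12
  have h13 : q.1 ∣ ((2 : ℕ) : 𝓞 K4) := by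
    have e : ((2 : ℕ) : 𝓞 K4) = (1 - (n : 𝓞 K4) ^ (2 * k)) + ((n : 𝓞 K4) ^ (2 * k) + 1) := by
      push_cast
      ring
    rw [e]
    exact dvd_add h8 h11
  have h14 := Nz_dvd h13
  rw [hq, Nz_natCast] at h14
  have h15 := Nat.le_of_dvd (by norm_num) (hp.dvd_of_dvd_pow h14)
  have h16 := hp.two_le
  omega

/-! ### The two cases -/

/-- The primes of norm `p`. -/
theorem exists_Pg_p {p : ℕ} (hp : p.Prime) (h : p % 4 = 1) : ∃ q : Pg, Nz q.1 = p := by
  obtain ⟨ρ, h1, h2, -⟩ := Sp.exists_rho gi hp h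
  have hpr : Prime ρ := (Ideal.span_singleton_prime (fun h0 => h1.ne (by
    rw [h0, Ideal.span_singleton_eq_bot]))).1 h1.pr
  have hN : Nz ρ = p := by rw [← absNorm_span, h2]
  have hl : ¬ lam ∣ ρ := by
    intro h0
    have h3 := Nz_dvd h0
    rw [hN] at h3
    have h4 : (Nz lam : ℤ) = 2 := by
      rw [Nz_cp, cp_lam]
      norm_num
    have h5 : Nz lam = 2 := by exact_mod_cast h4
    rw [h5] at h3
    omega
  obtain ⟨k, q, hq⟩ := exists_Pg hpr hl
  refine ⟨q, ?_⟩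
  have h3 : Nz (iO ^ k.val) = 1 := isUnit_iff_Nz.1 (isUnit_iO.pow _)
  rw [hq, Nz_mul, h3, one_mul, hN]

theorem aa_p {x : 𝓞 K4} {p : ℕ} (h : Nz x = p) (h8 : p % 8 = 5) : aa x = 1 := by
  unfold aa nn
  rw [h, md_natCast]
  have h1 : ((p - 1) / 4) % 2 = 1 := by omega
  rw [ZMod.natCast_eq_one_iff_odd]
  exact Nat.odd_iff.2 h1

/-- The symbol of a product. -/
theorem c2_DDq (q : Pg) {S : Finset Pg} (h : q ∉ S) : c2 q (DDq S) = ∑ p ∈ S, s4 q p := by
  unfold c2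
  rw [c4_DDq q h, map_sum]
  rfl

theorem nm_lt_not_mem {q : Pg} {S : Finset Pg} (h : nm S < Nz q.1) : q ∉ S := by
  intro h0
  have h1 : Nz q.1 ∣ Nz (DDq S) := Nz_dvd (dvd_DDq.2 h0)
  rw [Nz_DDq] at h1
  have h2 := Nat.le_of_dvd (one_le_nm S) h1
  omega

/-- **Case 1.** A prime number divides the norm exactly once. -/
theorem aux_one {S : Finset Pg} {r m : ℕ} (hr : r.Prime) (hm : nm S = r * m) (hrm : ¬ r ∣ m)
    (B : ℕ) : ∃ q : Pg, B < Nz q.1 ∧ q ∉ S ∧ aa q.1 = 1 ∧ ∑ p ∈ S, s4 q p = 1 := by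
  have hodd : nm S % 2 = 1 := by
    have h1 := (DDq_in4 S).Nz_mod
    rw [Nz_DDq] at h1
    omega
  obtain ⟨p, h1, h2, h3, h4⟩ := exists_p5 hodd hr hm hrm (B + nm S)
  obtain ⟨q, hq⟩ := exists_Pg_p h2 (by omega)
  have h5 := c2_nat_neg h2 hq h4
  have hS : q ∉ S := nm_lt_not_mem (by omega)
  have hS' : cjP q ∉ S := nm_lt_not_mem (by rw [Nz_cjP]; omega)
  have e1 : DDq S * gi.cj (DDq S) = ((nm S : ℕ) : 𝓞 K4) := by rw [mul_cj4, Nz_DDq]
  have h6 : ¬ q.1 ∣ DDq S := fun h0 => h5.1 (by rw [← e1]; exact Dvd.dvd.mul_right h0 _)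
  have h7 : ¬ q.1 ∣ gi.cj (DDq S) := fun h0 => h5.1 (by rw [← e1]; exact Dvd.dvd.mul_left h0 _)
  have h8 := h5.2
  rw [← e1] at h8
  have h9 : c2 q (DDq S * gi.cj (DDq S)) = c2 q (DDq S) + c2 q (gi.cj (DDq S)) := by
    unfold c2
    rw [c4_mul q h6 h7, map_add]
  rw [h9, c2_DDq q hS, ← c2_cjP q h7, c2_DDq _ hS'] at h8
  have key : ∀ x y : ZMod 2, x + y = 1 → x = 1 ∨ y = 1 := by decide
  rcases key _ _ h8 with h | h
  · exact ⟨q, by omega, hS, aa_p hq h3, h⟩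
  · exact ⟨cjP q, by rw [Nz_cjP]; omega, hS', aa_p (by rw [Nz_cjP, hq]) h3, h⟩

/-- **Case 2.** The product is a rational integer. -/
theorem aux_two {S : Finset Pg} (hS : S ≠ ∅) {n : ℤ} (hn : DDq S = (n : 𝓞 K4)) (B : ℕ) :
    ∃ q : Pg, B < Nz q.1 ∧ q ∉ S ∧ aa q.1 = 1 ∧ ∑ p ∈ S, s4 q p = 1 := by
  -- the absolute value
  obtain ⟨a, ha⟩ : ∃ a : ℕ, a = n.natAbs := ⟨_, rfl⟩
  have hna : DDq S = (a : 𝓞 K4) ∨ DDq S = -(a : 𝓞 K4) := by
    rw [hn, ha]
    rcases Int.natAbs_eq n with h | h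
    · left
      conv_lhs => rw [h]
      rw [Int.cast_natCast]
    · right
      conv_lhs => rw [h]
      rw [Int.cast_neg, Int.cast_natCast]
  have hN : Nz (DDq S) = a ^ 2 := by
    rcases hna with h | h
    · rw [h, Nz_natCast]
    · have h1 : Nz (-(a : 𝓞 K4)) = Nz (a : 𝓞 K4) := by
        have h2 : (Nz (-(a : 𝓞 K4)) : ℤ) = (Nz (a : 𝓞 K4) : ℤ) := by
          rw [Nz_cp, Nz_cp, cp_neg]
          change (-(cp (a : 𝓞 K4)).1) ^ 2 + (-(cp (a : 𝓞 K4)).2) ^ 2 = _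
          ring
        exact_mod_cast h2
      rw [h, h1, Nz_natCast]
  rw [Nz_DDq] at hN
  have hodd : a % 2 = 1 := by
    have h1 := (DDq_in4 S).Nz_mod
    rw [Nz_DDq, hN] at h1
    rcases Nat.mod_two_eq_zero_or_one a with h | h
    · obtain ⟨b, rfl⟩ : ∃ b, a = 2 * b := ⟨a / 2, by omega⟩
      have : (2 * b) ^ 2 = 4 * (b * b) := by ring
      omega
    · exact h
  have ha1 : a ≠ 1 := by
    intro h
    rw [h, one_pow] at hN
    obtain ⟨q, hq⟩ := Finset.nonempty_iff_ne_empty.2 hS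
    have h1 : Nz q.1 ∣ Nz (DDq S) := Nz_dvd (dvd_DDq.2 hq)
    rw [Nz_DDq, hN] at h1
    have h2 := Nz_two_le q.prime
    have h3 := Nat.le_of_dvd one_pos h1
    omega
  obtain ⟨r, hr, hra⟩ := Nat.exists_prime_and_dvd ha1
  obtain ⟨m, hm⟩ := hra
  have hrm : ¬ r ∣ m := by
    rintro ⟨t, ht⟩
    have h1 : (r : 𝓞 K4) * (r : 𝓞 K4) ∣ DDq S := by
      have h2 : (r : 𝓞 K4) * (r : 𝓞 K4) ∣ (a : 𝓞 K4) := ⟨(t : 𝓞 K4), by
        rw [hm, ht]
        push_cast
        ring⟩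
      rcases hna with h | h
      · rw [h]; exact h2
      · rw [h]; exact (dvd_neg).2 h2
    have h3 := DDq_squarefree S _ h1
    rw [isUnit_iff_Nz, Nz_natCast] at h3
    have h4 := hr.two_le
    have h5 : r * r = 1 := by rw [← h3]; ring
    have h6 : 2 * 2 ≤ r * r := Nat.mul_le_mul h4 h4
    omega
  obtain ⟨p, h1, h2, h3, h4⟩ := exists_p5 hodd hr hm hrm (B + nm S)
  obtain ⟨q, hq⟩ := exists_Pg_p h2 (by omega)
  have h5 := c2_nat_neg h2 hq h4
  have hS' : q ∉ S := nm_lt_not_mem (by omega)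
  refine ⟨q, by omega, hS', aa_p hq h3, ?_⟩
  rw [← c2_DDq q hS']
  rcases hna with h | h
  · rw [h]
    exact h5.2
  · rw [h]
    have h6 : ¬ q.1 ∣ (-1 : 𝓞 K4) := by
      intro h0
      exact q.prime.not_isUnit (isUnit_of_dvd_unit h0 isUnit_one.neg)
    have e : -(a : 𝓞 K4) = -1 * (a : 𝓞 K4) := by ring
    have h7 : c4 q (-1) = 2 * nn q.1 := by
      have h8 : (-1 : 𝓞 K4) = iO ^ 2 := gi.sq.symm
      have hi : ¬ q.1 ∣ iO := fun h0 => q.prime.not_isUnit (isUnit_of_dvd_unit h0 isUnit_iO)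
      rw [h8, c4_pow q hi 2, c4_i]
      rfl
    have h8 : ∀ x : ZMod 4, md (2 * x) = 0 := by decide
    rw [e]
    unfold c2
    rw [c4_mul q h6 h5.1, map_add, h7, h8, zero_add]
    exact h5.2

/-- **The auxiliary prime.** -/
theorem exists_aux {S : Finset Pg} (hS : S ≠ ∅) (B : ℕ) :
    ∃ q : Pg, B < Nz q.1 ∧ q ∉ S ∧ aa q.1 = 1 ∧ ∑ p ∈ S, s4 q p = 1 := by
  by_cases h : ∀ q ∈ S, cjP q ∈ S
  · -- the product is its conjugate
    have h1 : gi.cj (DDq S) = DDq S := by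
      unfold DDq
      rw [map_prod]
      refine prod_nbij' cjP cjP h h (fun q _ => cjP_cjP q) (fun q _ => cjP_cjP q) fun q _ => rfl
    have h2 := cp_cj (DDq S)
    rw [h1] at h2
    have h3 : (cp (DDq S)).2 = -(cp (DDq S)).2 := congrArg Prod.snd h2
    have h4 : (cp (DDq S)).2 = 0 := by omega
    refine aux_two hS (n := (cp (DDq S)).1) ?_ B
    conv_lhs => rw [eq_cp (DDq S), h4]
    rw [Int.cast_zero, zero_mul, add_zero]
  · push Not at h
    obtain ⟨q, hq, hq'⟩ := h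
    have hne : cjP q ≠ q := fun h0 => hq' (by rw [h0]; exact hq)
    -- a prime number
    obtain ⟨p, hp, hqp⟩ : ∃ p : ℕ, p.Prime ∧ q.1 ∣ (p : 𝓞 K4) := by
      have h1 : q.1 ∣ ((Nz q.1 : ℕ) : 𝓞 K4) := by
        rw [← mul_cj4]
        exact dvd_mul_right _ _
      have key : ∀ n : ℕ, n ≠ 0 → q.1 ∣ (n : 𝓞 K4) → ∃ p : ℕ, p.Prime ∧ q.1 ∣ (p : 𝓞 K4) := by
        intro n
        induction n using Nat.recOnPrimePow with
        | zero => intro h; exact absurd rfl h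
        | one =>
          intro _ h
          rw [Nat.cast_one] at h
          exact absurd (isUnit_of_dvd_one h) q.prime.not_isUnit
        | prime_pow_mul n p k hp hpn hk ih =>
          intro h0 h
          rw [Nat.cast_mul, Nat.cast_pow] at h
          rcases q.prime.dvd_or_dvd h with h | h
          · exact ⟨p, hp, q.prime.dvd_of_dvd_pow h⟩
          · exact ih (fun h1 => h0 (by rw [h1, mul_zero])) h
      exact key _ (by have := Nz_two_le q.prime; omega) h1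
    have hN : Nz q.1 = p := by
      have h1 := Nz_dvd hqp
      rw [Nz_natCast, Nat.dvd_prime_pow hp] at h1
      obtain ⟨j, hj, hj2⟩ := h1
      have h2 : j = 0 ∨ j = 1 ∨ j = 2 := by omega
      rcases h2 with rfl | rfl | rfl
      · have := Nz_two_le q.prime
        rw [pow_zero] at hj2
        omega
      · rw [hj2, pow_one]
      · exfalso
        obtain ⟨u, hu⟩ := hqp
        have h3 : Nz (p : 𝓞 K4) = Nz q.1 * Nz u := by rw [hu, Nz_mul]
        rw [Nz_natCast, hj2] at h3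
        have hp0 : 0 < p ^ 2 := pow_pos hp.pos 2
        have h4 : Nz u = 1 := by
          have : p ^ 2 * 1 = p ^ 2 * Nz u := by rw [mul_one]; exact h3
          exact (Nat.eq_of_mul_eq_mul_left hp0 this).symm
        have hu1 : IsUnit u := isUnit_iff_Nz.2 h4
        have h5 : Associated q.1 (p : 𝓞 K4) := by
          obtain ⟨v, hv⟩ := hu1
          exact ⟨v, by rw [hv, hu]⟩
        have h6 : Associated (cjP q).1 (p : 𝓞 K4) := by
          have h7 := h5.map gi.cj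
          rwa [map_natCast] at h7
        exact hne (Pg.eq_of_assoc (h6.trans h5.symm))
    -- the prime number divides the norm exactly once
    have hmul : nm S = p * nm (S.erase q) := by
      unfold nm
      rw [← mul_prod_erase S _ hq, PN_eq, hN]
    refine aux_one hp hmul ?_ B
    intro h0
    unfold nm at h0
    rw [hp.prime.dvd_finset_prod_iff] at h0
    obtain ⟨q₂, h1, h2⟩ := h0
    rw [mem_erase] at h1
    rw [PN_eq] at h2
    have h3 : q.1 ∣ q₂.1 * gi.cj q₂.1 := by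
      rw [mul_cj4]
      exact hqp.trans (Nat.cast_dvd_cast h2)
    rcases q.prime.dvd_or_dvd h3 with h4 | h4
    · exact Pg.not_dvd (Ne.symm h1.1) h4
    · have h5 : q = cjP q₂ := by
        by_contra h6
        exact Pg.not_dvd h6 h4
      exact hq' (by rw [h5, cjP_cjP]; exact h1.2)

end

end Pool.Agent.Lib.MP_1a91b9_ntQ
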