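import Pool.Agent.Lib.MP_1a91b9_ntQ.R.ChiH

/-!
# MP_1a91b9_nt (quartic twists), part R: the group of the primary classes and its characters

`GQ Q` is the group of the primary classes modulo `Q`. Its characters are class weights; the
squarefree elements are equidistributed in the classes.
-/

set_option autoImplicit false

namespace Pool.Agent.Lib.MP_1a91b9_ntQ

open Finset
open Pool.Agent.Lib.MP_1a91b9_ntH (sg sgD_add sgD_sum sgD_abs PS nm one_le_nm pr Sx CharB)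

noncomputable section

variable {R : Type} [CommRing R] {ι : Type} {κ : Type}

namespace QSys

variable {D : QSys R ι}

/-- The group of the primary classes modulo `Q`. -/
def GS (D : QSys R ι) {Q : R} (hQ : D.Mod Q) : Subgroup (R ⧸ Ideal.span {Q})ˣ where
  carrier := {u | ∃ x : R, D.In x ∧ Ideal.Quotient.mk (Ideal.span {Q}) x = (u : R ⧸ Ideal.span {Q})}
  mul_mem' := by
    rintro u v ⟨x, hx, hu⟩ ⟨y, hy, hv⟩
    exact ⟨x * y, hx.mul hy, by rw [map_mul, hu, hv, Units.val_mul]⟩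
  one_mem' := ⟨1, D.in_one, by rw [map_one, Units.val_one]⟩
  inv_mem' := by
    rintro u ⟨x, hx, hu⟩
    obtain ⟨y, hy⟩ := Ideal.Quotient.mk_surjective ((u⁻¹ : (R ⧸ Ideal.span {Q})ˣ) :
      R ⧸ Ideal.span {Q})
    refine ⟨y, ?_, hy⟩
    have h1 : Ideal.Quotient.mk (Ideal.span {Q}) (x * y) = Ideal.Quotient.mk (Ideal.span {Q}) 1 := by
      rw [map_mul, hu, hy, map_one, Units.mul_inv]
    rw [Ideal.Quotient.eq, Ideal.mem_span_singleton] at h1
    exact In.of_mul hx (hQ.dvd.trans h1)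

/-- The group of the primary classes modulo `Q`, written additively. -/
abbrev GQ (D : QSys R ι) {Q : R} (hQ : D.Mod Q) : Type := Additive (D.GS hQ)

theorem isUnit_mk {Q : R} (hQ : D.Mod Q) {x : R} (hx : D.In x) :
    IsUnit (Ideal.Quotient.mk (Ideal.span {Q}) x) := by
  obtain ⟨a, b, hab⟩ := hQ.cop x hx
  refine IsUnit.of_mul_eq_one (Ideal.Quotient.mk (Ideal.span {Q}) a) ?_
  rw [← map_mul, ← map_one (Ideal.Quotient.mk (Ideal.span {Q})), Ideal.Quotient.eq,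
    Ideal.mem_span_singleton]
  exact ⟨-b, by linear_combination hab⟩

/-- The class of a primary element. -/
def gq {Q : R} (hQ : D.Mod Q) (x : R) (hx : D.In x) : D.GQ hQ :=
  Additive.ofMul ⟨(isUnit_mk hQ hx).unit, x, hx, rfl⟩

theorem gq_eq_iff {Q : R} (hQ : D.Mod Q) {x y : R} (hx : D.In x) (hy : D.In y) :
    gq hQ x hx = gq hQ y hy ↔ Q ∣ x - y := by
  unfold gq
  rw [Additive.ofMul.injective.eq_iff, Subtype.mk.injEq, Units.ext_iff, IsUnit.unit_spec,
    IsUnit.unit_spec, Ideal.Quotient.eq, Ideal.mem_span_singleton]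

theorem gq_mul {Q : R} (hQ : D.Mod Q) {x y : R} (hx : D.In x) (hy : D.In y) :
    gq hQ (x * y) (hx.mul hy) = gq hQ x hx + gq hQ y hy := by
  unfold gq
  rw [← ofMul_mul]
  congr 1
  apply Subtype.ext
  apply Units.ext
  change Ideal.Quotient.mk (Ideal.span {Q}) (x * y) =
    Ideal.Quotient.mk (Ideal.span {Q}) x * Ideal.Quotient.mk (Ideal.span {Q}) y
  rw [map_mul]

theorem gq_one {Q : R} (hQ : D.Mod Q) : gq hQ 1 D.in_one = 0 := by
  have h := gq_mul hQ D.in_one D.in_one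
  have h1 : gq hQ (1 * 1) (D.in_one.mul D.in_one) = gq hQ 1 D.in_one := by
    rw [gq_eq_iff]
    simp
  rw [h1] at h
  exact left_eq_add.1 h

theorem gq_surj {Q : R} (hQ : D.Mod Q) (g : D.GQ hQ) : ∃ (x : R) (hx : D.In x), gq hQ x hx = g := by
  obtain ⟨⟨u, x, hx, hu⟩, rfl⟩ := Additive.ofMul.surjective g
  refine ⟨x, hx, ?_⟩
  unfold gq
  congr 1
  apply Subtype.ext
  apply Units.ext
  exact hu

/-- The class of a prime. -/
def clp {Q : R} (hQ : D.Mod Q) (q : ι) : D.GQ hQ := gq hQ (D.e q) (D.prim q)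

open Classical in
/-- The class weight of a character of the group. -/
def wG {Q : R} (hQ : D.Mod Q) (ψ : AddChar (D.GQ hQ) ℂ) (x : R) : ℂ :=
  if h : D.In x then ψ (gq hQ x h) else 0

theorem wG_of {Q : R} {hQ : D.Mod Q} {ψ : AddChar (D.GQ hQ) ℂ} {x : R} (h : D.In x) :
    wG hQ ψ x = ψ (gq hQ x h) := dif_pos h

theorem wG_wt {Q : R} (hQ : D.Mod Q) [Finite (R ⧸ Ideal.span {Q})]
    (ψ : AddChar (D.GQ hQ) ℂ) : D.Wt Q (wG hQ ψ) where
  one := by rw [wG_of D.in_one, gq_one, AddChar.map_zero_eq_one]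
  mul x y hx hy := by rw [wG_of hx, wG_of hy, wG_of (hx.mul hy), gq_mul, AddChar.map_add_eq_mul]
  norm x hx := by
    rw [wG_of hx]
    exact AddChar.norm_apply _ _
  per x y hx hxy := by
    have hy : D.In y := (In.congr (hQ.dvd.trans hxy)).1 hx
    rw [wG_of hx, wG_of hy, (gq_eq_iff hQ hx hy).2 hxy]

/-! ### The homomorphisms of the class characters -/

/-- A primary representative. -/
def rep {Q : R} (hQ : D.Mod Q) (g : D.GQ hQ) : R := (gq_surj hQ g).choose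

theorem rep_in {Q : R} (hQ : D.Mod Q) (g : D.GQ hQ) : D.In (rep hQ g) :=
  (gq_surj hQ g).choose_spec.choose

theorem gq_rep {Q : R} (hQ : D.Mod Q) (g : D.GQ hQ) : gq hQ (rep hQ g) (rep_in hQ g) = g :=
  (gq_surj hQ g).choose_spec.choose_spec

theorem dvd_rep {Q : R} (hQ : D.Mod Q) {x : R} (hx : D.In x) : Q ∣ rep hQ (gq hQ x hx) - x := by
  rw [← gq_eq_iff hQ (rep_in hQ _) hx, gq_rep]

variable {cl : κ → R → ZMod 2}

/-- The homomorphism of a class character. -/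
def AQ {Q : R} (hQ : D.Mod Q) (hcl : ∀ j x y, D.In x → D.In y → cl j (x * y) = cl j x + cl j y)
    (hper : ∀ j x y, D.In x → Q ∣ x - y → cl j x = cl j y) (j : κ) : D.GQ hQ →+ ZMod 2 :=
  AddMonoidHom.mk' (fun g => cl j (rep hQ g)) (fun a b => by
    rw [← hcl j _ _ (rep_in hQ a) (rep_in hQ b)]
    apply hper j _ _ (rep_in hQ _)
    have h1 : gq hQ (rep hQ (a + b)) (rep_in hQ (a + b)) =
        gq hQ (rep hQ a * rep hQ b) ((rep_in hQ a).mul (rep_in hQ b)) := by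
      rw [gq_mul hQ (rep_in hQ a) (rep_in hQ b), gq_rep, gq_rep, gq_rep]
    exact (gq_eq_iff hQ _ _).1 h1)

theorem AQ_gq {Q : R} (hQ : D.Mod Q)
    (hcl : ∀ j x y, D.In x → D.In y → cl j (x * y) = cl j x + cl j y)
    (hper : ∀ j x y, D.In x → Q ∣ x - y → cl j x = cl j y) (j : κ) {x : R} (hx : D.In x) :
    AQ hQ hcl hper j (gq hQ x hx) = cl j x :=
  hper j _ _ (rep_in hQ _) (dvd_rep hQ hx)

theorem AQ_clp {Q : R} (hQ : D.Mod Q)
    (hcl : ∀ j x y, D.In x → D.In y → cl j (x * y) = cl j x + cl j y)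
    (hper : ∀ j x y, D.In x → Q ∣ x - y → cl j x = cl j y) (j : κ) (q : ι) :
    AQ hQ hcl hper j (clp hQ q) = cl j (D.e q) := AQ_gq hQ hcl hper j (D.prim q)

/-- The class of a product of primes. -/
theorem gq_DD {Q : R} (hQ : D.Mod Q) (S : Finset ι) :
    gq hQ (D.DD S) (in_DD S) = ∑ q ∈ S, clp hQ q := by
  classical
  induction S using Finset.induction_on with
  | empty =>
    rw [sum_empty, ← gq_one hQ, gq_eq_iff]
    unfold DD
    rw [prod_empty, sub_self]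
    exact dvd_zero _
  | insert q S hq ih =>
    rw [sum_insert hq, ← ih]
    unfold clp
    rw [← gq_mul, gq_eq_iff]
    have h1 : D.DD (insert q S) = D.e q * D.DD S := by
      unfold DD
      rw [prod_insert hq]
    rw [h1, sub_self]
    exact dvd_zero _

/-! ### The mean values -/

variable [IsDomain R] [IsPrincipalIdealRing R] [Gau R] [DecidableEq ι] [PS ι] {P : PrmG R ι}

/-- **The mean values of the nontrivial characters of the class group on the squarefree elements.** -/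
theorem h3G (hP : D.Com P) (hM : ¬ IsUnit D.M) {Q : R} (hQ : D.Mod Q) (hQ0 : Q ≠ 0)
    [Finite (R ⧸ Ideal.span {Q})] (ψ : AddChar (D.GQ hQ) ℂ) (hψ : ∃ q, ψ (clp hQ q) ≠ 1) (ε : ℝ)
    (hε : 0 < ε) : ∃ X₀ : ℕ, ∀ X : ℕ, X₀ ≤ X →
    ‖∑ S ∈ Sx ι X, ∏ q ∈ S, ψ (clp hQ q)‖ ≤ ε * X := by
  obtain ⟨q₀, hq₀⟩ := hψ
  obtain ⟨X₀, hX₀⟩ := h3W hP hM hQ hQ0 (wG_wt hQ ψ) ∅ (fun _ => 0)
    (Or.inr ⟨D.e q₀, D.prim q₀, by rw [wG_of (D.prim q₀)]; exact hq₀⟩) ε hε
  refine ⟨X₀, fun X hX => ?_⟩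
  have h1 := hX₀ X hX
  have h2 : (∑ S ∈ Sx ι X, if Disjoint S ∅ then ∏ q ∈ S, (wG hQ ψ (D.e q) *
      ((sg (∑ p ∈ (∅ : Finset ι), (0 : ZMod 2) * D.c p (D.e q)) : ℝ) : ℂ)) else 0) =
      ∑ S ∈ Sx ι X, ∏ q ∈ S, ψ (clp hQ q) := by
    refine sum_congr rfl fun S _ => ?_
    rw [if_pos (disjoint_empty_right S)]
    refine prod_congr rfl fun q _ => ?_
    rw [sum_empty, sg_zero', Complex.ofReal_one, mul_one, wG_of (D.prim q)]
    rfl
  rw [h2] at h1
  exact h1

end QSys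

end

end Pool.Agent.Lib.MP_1a91b9_ntQ
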