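import Mathlib

/-!
# MP_1a91b9_nt (TwistDensity), quartic twists: the ring `ℤ[i]`, quadratic symbols as Jacobi symbols

Everything is for a commutative ring `O` with an element `i`, `i² = -1`, such that `1, i` is a
basis of `O` over `ℤ` (`IsGau O i`).
-/

set_option autoImplicit false

namespace Pool.Agent.Lib.MP_1a91b9_ntQ.Sy

open ZMod NumberTheorySymbols

/-- `O` is the ring `ℤ[i]`: `i² = -1` and `1, i` is a basis over `ℤ`. -/
structure IsGau (O : Type*) [CommRing O] (i : O) : Prop where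
  sq : i ^ 2 = -1
  span : ∀ z : O, ∃ x y : ℤ, z = (x : O) + (y : O) * i
  inj : ∀ x y : ℤ, (x : O) + (y : O) * i = 0 → x = 0 ∧ y = 0

/-- The norm form. -/
def nm (x y : ℤ) : ℤ := x ^ 2 + y ^ 2

theorem nm_nonneg (x y : ℤ) : 0 ≤ nm x y := by
  unfold nm
  positivity

theorem nm_eq_zero {x y : ℤ} (h : nm x y = 0) : x = 0 ∧ y = 0 := by
  unfold nm at h
  have h1 : x ^ 2 = 0 := by nlinarith [sq_nonneg x, sq_nonneg y]
  have h2 : y ^ 2 = 0 := by nlinarith [sq_nonneg x, sq_nonneg y]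
  exact ⟨pow_eq_zero_iff (by norm_num) |>.1 h1, pow_eq_zero_iff (by norm_num) |>.1 h2⟩

theorem nm_mul (c d e f : ℤ) :
    nm (c * e - d * f) (c * f + d * e) = nm c d * nm e f := by
  unfold nm; ring

variable {O : Type*} [CommRing O] {i : O}

namespace IsGau

theorem eq_iff (h : IsGau O i) {x y x' y' : ℤ} :
    (x : O) + (y : O) * i = (x' : O) + (y' : O) * i ↔ x = x' ∧ y = y' := by
  constructor
  · intro e
    have h1 : ((x - x' : ℤ) : O) + ((y - y' : ℤ) : O) * i = 0 := by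
      push_cast
      linear_combination e
    obtain ⟨a, b⟩ := h.inj _ _ h1
    exact ⟨by linarith, by linarith⟩
  · rintro ⟨rfl, rfl⟩
    rfl

theorem mul_eq (h : IsGau O i) (c d e f : ℤ) :
    ((c : O) + (d : O) * i) * ((e : O) + (f : O) * i) =
      ((c * e - d * f : ℤ) : O) + ((c * f + d * e : ℤ) : O) * i := by
  push_cast
  linear_combination ((d : O) * f) * h.sq

theorem mul_conj (h : IsGau O i) (c d : ℤ) :
    ((c : O) + (d : O) * i) * ((c : O) + ((-d : ℤ) : O) * i) = ((nm c d : ℤ) : O) := by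
  rw [h.mul_eq]
  have e1 : c * (-d) + d * c = 0 := by ring
  have e2 : c * c - d * (-d) = nm c d := by unfold nm; ring
  rw [e1, e2]
  simp

theorem int_dvd_iff (h : IsGau O i) (m x y : ℤ) :
    (m : O) ∣ (x : O) + (y : O) * i ↔ m ∣ x ∧ m ∣ y := by
  constructor
  · rintro ⟨t, ht⟩
    obtain ⟨e, f, rfl⟩ := h.span t
    have h1 : (x : O) + (y : O) * i = ((m * e : ℤ) : O) + ((m * f : ℤ) : O) * i := by
      rw [ht]; push_cast; ring
    obtain ⟨a, b⟩ := h.eq_iff.1 h1
    exact ⟨⟨e, a⟩, ⟨f, b⟩⟩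
  · rintro ⟨⟨e, rfl⟩, ⟨f, rfl⟩⟩
    refine ⟨(e : O) + (f : O) * i, ?_⟩
    push_cast
    ring

theorem int_eq (h : IsGau O i) {m n : ℤ} (e : (m : O) = (n : O)) : m = n := by
  have h1 : (m : O) + ((0 : ℤ) : O) * i = (n : O) + ((0 : ℤ) : O) * i := by
    rw [e]
  exact (h.eq_iff.1 h1).1

theorem isUnit_iff (h : IsGau O i) (c d : ℤ) :
    IsUnit ((c : O) + (d : O) * i) ↔ nm c d = 1 := by
  constructor
  · intro hu
    obtain ⟨t, ht⟩ := hu.exists_right_inv
    obtain ⟨e, f, rfl⟩ := h.span t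
    rw [h.mul_eq] at ht
    have h1 : ((c * e - d * f : ℤ) : O) + ((c * f + d * e : ℤ) : O) * i =
        ((1 : ℤ) : O) + ((0 : ℤ) : O) * i := by rw [ht]; simp
    obtain ⟨a, b⟩ := h.eq_iff.1 h1
    have h2 := nm_mul c d e f
    rw [a, b] at h2
    have h3 : nm c d * nm e f = 1 := by rw [← h2]; norm_num [nm]
    have h4 := nm_nonneg c d
    rcases Int.eq_one_or_neg_one_of_mul_eq_one h3 with h5 | h5
    · exact h5
    · omega
  · intro hn
    refine IsUnit.of_mul_eq_one ((c : O) + ((-d : ℤ) : O) * i) ?_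
    rw [h.mul_conj, hn]
    simp

/-- Divisibility by an element of prime norm. -/
theorem dvd_split_iff (h : IsGau O i) {p : ℕ} (hp : p.Prime) {c d : ℤ} (hN : nm c d = p)
    (x y : ℤ) : ((c : O) + (d : O) * i) ∣ (x : O) + (y : O) * i ↔ (p : ℤ) ∣ x * d - y * c := by
  constructor
  · rintro ⟨t, ht⟩
    obtain ⟨e, f, rfl⟩ := h.span t
    rw [h.mul_eq] at ht
    obtain ⟨a, b⟩ := h.eq_iff.1 ht
    refine ⟨-f, ?_⟩
    rw [a, b, ← hN]
    unfold nm
    ring
  · rintro ⟨k, hk⟩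
    have hM : (p : ℤ) ∣ x * c + y * d := by
      have h1 : (p : ℤ) ∣ (x * c + y * d) ^ 2 := by
        refine ⟨nm x y - k * (x * d - y * c), ?_⟩
        have e1 : (x * c + y * d) ^ 2 + (x * d - y * c) ^ 2 = nm x y * nm c d := by
          unfold nm; ring
        rw [hN] at e1
        linear_combination e1 - (x * d - y * c) * hk
      exact Int.Prime.dvd_pow' hp h1
    obtain ⟨l, hl⟩ := hM
    have hp0 : (p : ℤ) ≠ 0 := by exact_mod_cast hp.ne_zero
    refine ⟨(l : O) + ((-k : ℤ) : O) * i, ?_⟩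
    rw [h.mul_eq]
    rw [h.eq_iff]
    constructor
    · apply mul_left_cancel₀ hp0
      unfold nm at hN
      linear_combination (-x) * hN + c * hl + d * hk
    · apply mul_left_cancel₀ hp0
      unfold nm at hN
      linear_combination (-y) * hN + (-c) * hk + d * hl

theorem isDomain (h : IsGau O i) : IsDomain O := by
  haveI : Nontrivial O := by
    refine ⟨⟨0, 1, fun e => ?_⟩⟩
    have h1 := h.inj 1 0 (by push_cast; rw [← e]; ring)
    omega
  haveI : NoZeroDivisors O := by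
    refine ⟨fun {a b} hab => ?_⟩
    obtain ⟨c, d, rfl⟩ := h.span a
    obtain ⟨e, f, rfl⟩ := h.span b
    rw [h.mul_eq] at hab
    obtain ⟨h1, h2⟩ := h.inj _ _ hab
    have h3 := nm_mul c d e f
    rw [h1, h2] at h3
    have h4 : nm c d * nm e f = 0 := by rw [← h3]; norm_num [nm]
    rcases mul_eq_zero.1 h4 with h5 | h5
    · left
      obtain ⟨rfl, rfl⟩ := nm_eq_zero h5
      simp
    · right
      obtain ⟨rfl, rfl⟩ := nm_eq_zero h5
      simp
  exact NoZeroDivisors.to_isDomain O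

/-- Divisibility between primes. -/
theorem assoc_of_dvd (h : IsGau O i) {α β : O} (hα : Prime α) (hβ : Prime β) (hd : α ∣ β) :
    Associated α β := by
  haveI := h.isDomain
  exact (hα.dvd_prime_iff_associated hβ).1 hd

end IsGau

/-- Coprimality of the coordinates of an element of prime norm. -/
theorem isCoprime_of_nm {p : ℕ} (hp : p.Prime) {c d : ℤ} (hN : nm c d = p) : IsCoprime c d := by
  rw [Int.isCoprime_iff_gcd_eq_one]
  by_contra hg
  obtain ⟨q, hq, hqd⟩ := Nat.exists_prime_and_dvd hg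
  have h1 : (q : ℤ) ∣ c := (Int.natCast_dvd_natCast.2 hqd).trans (Int.gcd_dvd_left c d)
  have h2 : (q : ℤ) ∣ d := (Int.natCast_dvd_natCast.2 hqd).trans (Int.gcd_dvd_right c d)
  obtain ⟨e, rfl⟩ := h1
  obtain ⟨f, rfl⟩ := h2
  have h3 : (q : ℤ) * (q * nm e f) = p := by
    rw [← hN]; unfold nm; ring
  have h4 : (q * q : ℕ) ∣ p := by
    rw [← Int.natCast_dvd_natCast]
    refine ⟨nm e f, ?_⟩
    push_cast
    linear_combination -h3
  have h5 : q = p := (Nat.prime_dvd_prime_iff_eq hq hp).1 (dvd_of_mul_left_dvd h4)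
  rw [h5] at h4
  have h6 := Nat.le_of_dvd hp.pos h4
  nlinarith [hp.two_le]

/-- A prime divides a rational prime. -/
theorem exists_rat_prime (h : IsGau O i) {c d : ℤ} (hβ : Prime ((c : O) + (d : O) * i)) :
    ∃ p : ℕ, p.Prime ∧ ((c : O) + (d : O) * i) ∣ ((p : ℤ) : O) := by
  obtain ⟨N, hN⟩ : ∃ N : ℕ, (N : ℤ) = nm c d := ⟨(nm c d).toNat, Int.toNat_of_nonneg (nm_nonneg c d)⟩
  have h1 : ((c : O) + (d : O) * i) ∣ ((N : ℕ) : O) := by
    have h2 := h.mul_conj c d
    rw [← hN] at h2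
    exact ⟨_, by rw [h2]; push_cast; rfl⟩
  have hN0 : N ≠ 0 := by
    rintro rfl
    have h3 : nm c d = 0 := by rw [← hN]; rfl
    obtain ⟨rfl, rfl⟩ := nm_eq_zero h3
    exact hβ.ne_zero (by simp)
  have h4 : ((N : ℕ) : O) = (N.primeFactorsList.map (fun p : ℕ => (p : O))).prod := by
    rw [← Nat.cast_list_prod, Nat.prod_primeFactorsList hN0]
  rw [h4, hβ.dvd_prod_iff] at h1
  obtain ⟨a, ha, hd⟩ := h1
  rw [List.mem_map] at ha
  obtain ⟨p, hp, rfl⟩ := ha
  exact ⟨p, Nat.prime_of_mem_primeFactorsList hp, by push_cast; exact hd⟩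

/-- The value of the Jacobi symbol at a prime, for an element which is not divisible by it. -/
theorem jac_one_iff {p : ℕ} (hp : p.Prime) {a : ℤ} (ha : ¬ (p : ℤ) ∣ a) :
    (jacobiSym a p = 1 ∨ jacobiSym a p = -1) ∧
      (jacobiSym a p = 1 ↔ ∃ n : ℤ, (p : ℤ) ∣ n ^ 2 - a) := by
  haveI : Fact p.Prime := ⟨hp⟩
  rw [← jacobiSym.legendreSym.to_jacobiSym]
  have ha0 : (a : ZMod p) ≠ 0 := by
    rw [Ne, ZMod.intCast_zmod_eq_zero_iff_dvd]
    exact ha
  refine ⟨legendreSym.eq_one_or_neg_one p ha0, ?_⟩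
  rw [legendreSym.eq_one_iff p ha0]
  constructor
  · rintro ⟨t, ht⟩
    obtain ⟨n, rfl⟩ := ZMod.intCast_surjective t
    refine ⟨n, ?_⟩
    rw [← ZMod.intCast_zmod_eq_zero_iff_dvd]
    push_cast
    rw [ht]
    ring
  · rintro ⟨n, hn⟩
    refine ⟨(n : ZMod p), ?_⟩
    rw [← ZMod.intCast_zmod_eq_zero_iff_dvd] at hn
    push_cast at hn
    linear_combination -hn

/-- `-1` modulo a prime which is `1` modulo `4`, in coordinates. -/
theorem exists_sqrt_neg_one {p : ℕ} (hp : p.Prime) (h4 : p % 4 = 1) : ∃ n : ℤ, (p : ℤ) ∣ n ^ 2 + 1 := by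
  have hnd : ¬ (p : ℤ) ∣ (-1) := by
    intro hh
    rw [dvd_neg] at hh
    have h1 := Int.le_of_dvd (by norm_num) hh
    have := hp.two_le
    omega
  have hodd : Odd p := Nat.odd_iff.2 (by omega)
  have h1 : jacobiSym (-1) p = 1 := by
    rw [jacobiSym.at_neg_one hodd, ZMod.χ₄_nat_one_mod_four h4]
  obtain ⟨n, hn⟩ := (jac_one_iff hp hnd).2.1 h1
  exact ⟨n, by rwa [sub_neg_eq_add] at hn⟩

/-- An odd prime (odd first, even second coordinate) has prime norm or is, up to sign, a rational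
prime congruent to `3` modulo `4`. -/
theorem prime_cases (h : IsGau O i) {c d : ℤ} (hβ : Prime ((c : O) + (d : O) * i))
    (hc : c % 2 = 1) (hd : d % 2 = 0) :
    (∃ p : ℕ, p.Prime ∧ nm c d = p ∧ p % 4 = 1) ∨
      (∃ q : ℕ, q.Prime ∧ q % 4 = 3 ∧ (c = q ∨ c = -q) ∧ d = 0) := by
  have hN4 : nm c d % 4 = 1 := by
    obtain ⟨e, rfl⟩ : ∃ e, d = 2 * e := ⟨d / 2, by omega⟩
    obtain ⟨e', rfl⟩ : ∃ e', c = 2 * e' + 1 := ⟨c / 2, by omega⟩
    have h1 : nm (2 * e' + 1) (2 * e) = 4 * (e' ^ 2 + e' + e ^ 2) + 1 := by unfold nm; ring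
    omega
  obtain ⟨p, hp, t, ht⟩ := exists_rat_prime h hβ
  obtain ⟨e, f, rfl⟩ := h.span t
  rw [h.mul_eq] at ht
  have ht' : ((p : ℤ) : O) + ((0 : ℤ) : O) * i =
      ((c * e - d * f : ℤ) : O) + ((c * f + d * e : ℤ) : O) * i := by
    rw [← ht]; simp
  obtain ⟨e1, e2⟩ := h.eq_iff.1 ht'
  have hnm : nm c d * nm e f = (p : ℤ) ^ 2 := by
    rw [← nm_mul, ← e1, ← e2]
    unfold nm; ring
  obtain ⟨N, hN⟩ : ∃ N : ℕ, (N : ℤ) = nm c d := ⟨(nm c d).toNat, Int.toNat_of_nonneg (nm_nonneg c d)⟩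
  obtain ⟨M, hM⟩ : ∃ M : ℕ, (M : ℤ) = nm e f := ⟨(nm e f).toNat, Int.toNat_of_nonneg (nm_nonneg e f)⟩
  rw [← hN, ← hM] at hnm
  have hnm' : N * M = p ^ 2 := by exact_mod_cast hnm
  have hNd : N ∣ p ^ 2 := ⟨M, hnm'.symm⟩
  rw [Nat.dvd_prime_pow hp] at hNd
  obtain ⟨j, hj, hNj⟩ := hNd
  have hj3 : j = 0 ∨ j = 1 ∨ j = 2 := by omega
  rcases hj3 with rfl | rfl | rfl
  · exfalso
    apply hβ.not_unit
    rw [h.isUnit_iff, ← hN, hNj]
    simp
  · left
    rw [pow_one] at hNj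
    subst hNj
    exact ⟨N, hp, hN.symm, by omega⟩
  · right
    have hM1 : M = 1 := by
      rw [hNj] at hnm'
      have h0 : 0 < p ^ 2 := pow_pos hp.pos 2
      exact Nat.eq_of_mul_eq_mul_left h0 (by rw [hnm', mul_one])
    rw [hM1] at hM
    have h1 : nm e f = 1 := by rw [← hM]; rfl
    -- `β = p (ē)`
    have hc' : c = p * e := by
      unfold nm at h1
      linear_combination (-c) * h1 - e * e1 - f * e2
    have hd' : d = -(p * f) := by
      unfold nm at h1
      linear_combination (-d) * h1 + f * e1 - e * e2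
    have hpodd : p % 2 = 1 := by
      rcases Nat.mod_two_eq_zero_or_one p with h0 | h0
      · exfalso
        obtain ⟨r, hr⟩ : ∃ r, p = 2 * r := ⟨p / 2, by omega⟩
        rw [hr] at hc'
        push_cast at hc'
        have : c = 2 * (r * e) := by rw [hc']; ring
        omega
      · exact h0
    have hfe : f % 2 = 0 := by
      have h2 : (p : ℤ) * f % 2 = 0 := by omega
      rw [Int.mul_emod] at h2
      have h3 : (p : ℤ) % 2 = 1 := by omega
      rw [h3] at h2
      omega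
    have hf0 : f = 0 := by
      unfold nm at h1
      have h4 : -1 ≤ f ∧ f ≤ 1 := by
        have h3 : f ^ 2 ≤ 1 := by nlinarith [sq_nonneg e]
        constructor <;> nlinarith
      omega
    subst hf0
    have he : e = 1 ∨ e = -1 := by
      unfold nm at h1
      have h2 : e * e = 1 := by linarith
      exact Int.eq_one_or_neg_one_of_mul_eq_one h2
    have hcc : c = p ∨ c = -p := by
      rcases he with rfl | rfl
      · left; rw [hc']; ring
      · right; rw [hc']; ring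
    have hd0 : d = 0 := by rw [hd']; ring
    have hpp : Prime ((p : ℤ) : O) := by
      rcases hcc with h2 | h2
      · rw [h2, hd0] at hβ
        simpa using hβ
      · rw [h2, hd0] at hβ
        have h3 : (((-p : ℤ) : O) + ((0 : ℤ) : O) * i) = -((p : ℤ) : O) := by simp
        rw [h3] at hβ
        have h4 : Associated (-((p : ℤ) : O)) ((p : ℤ) : O) := Associated.neg_left (Associated.refl _)
        exact h4.prime hβ
    refine ⟨p, hp, ?_, hcc, hd0⟩
    by_contra hp3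
    have hp1 : p % 4 = 1 := by omega
    obtain ⟨n, k, hk⟩ := exists_sqrt_neg_one hp hp1
    have h6 : ((p : ℤ) : O) ∣ (((n : ℤ) : O) + ((1 : ℤ) : O) * i) *
        (((n : ℤ) : O) + ((-1 : ℤ) : O) * i) := by
      refine ⟨(k : O), ?_⟩
      have hk' := congrArg (fun t : ℤ => (t : O)) hk
      push_cast at hk' ⊢
      linear_combination hk' - h.sq
    have hno : ¬ (p : ℤ) ∣ 1 := by
      intro hh
      have h8 := Int.le_of_dvd (by norm_num) hh
      have h9 := hp.two_le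
      omega
    rcases hpp.dvd_or_dvd h6 with h7 | h7
    · rw [h.int_dvd_iff] at h7
      exact hno h7.2
    · rw [h.int_dvd_iff] at h7
      exact hno (by have := h7.2; rwa [dvd_neg] at this)

end Pool.Agent.Lib.MP_1a91b9_ntQ.Sy
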