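import Pool.Agent.Lib.MP_1a91b9_ntK.R.Lat3

/-!
# MP_1a91b9_nt (quartic twists), R4: sums of periodic functions over boxes and discs of `ℤ[i]`

All statements are for a commutative ring `R` with the coordinates of `ℤ[i]` (class `Gau`), so they
apply to any model of `ℤ[i]`. Port of `MP_1a91b9_ntH.R.Lat` and `MP_1a91b9_ntK.R.Lat3`.
-/

set_option autoImplicit false

namespace Pool.Agent.Lib.MP_1a91b9_ntQ

open Finset
open Pool.Agent.Lib.MP_1a91b9_ntH (avg boxZ box_bdry conv_shift)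
open Pool.Agent.Lib.MP_1a91b9_ntK (avgC)

/-- The norm form of `ℤ[i]` in coordinates: the norm of `p + q i`. -/
def nfG (z : ℤ × ℤ) : ℤ := z.1 ^ 2 + z.2 ^ 2

/-- The multiplication of `ℤ[i]` in coordinates. -/
def mulG (z w : ℤ × ℤ) : ℤ × ℤ := (z.1 * w.1 - z.2 * w.2, z.1 * w.2 + z.2 * w.1)

/-- A ring with the coordinates of `ℤ[i]`. -/
class Gau (R : Type) [CommRing R] where
  co : R ≃+ ℤ × ℤ
  co_mul : ∀ x y : R, co (x * y) = mulG (co x) (co y)

theorem nfG_mulG (z w : ℤ × ℤ) : nfG (mulG z w) = nfG z * nfG w := by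
  simp only [nfG, mulG]
  ring

theorem nfG_nonneg (z : ℤ × ℤ) : 0 ≤ nfG z := by
  unfold nfG
  positivity

theorem nfG_fst' (z : ℤ × ℤ) : z.1 ^ 2 ≤ nfG z := by
  unfold nfG
  nlinarith [sq_nonneg z.2]

theorem nfG_snd' (z : ℤ × ℤ) : z.2 ^ 2 ≤ nfG z := by
  unfold nfG
  nlinarith [sq_nonneg z.1]

theorem nfG_fst (z : ℤ × ℤ) : 3 * z.1 ^ 2 ≤ 4 * nfG z := by
  have := nfG_fst' z
  nlinarith [nfG_nonneg z]

theorem nfG_snd (z : ℤ × ℤ) : 3 * z.2 ^ 2 ≤ 4 * nfG z := by
  have := nfG_snd' z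
  nlinarith [nfG_nonneg z]

theorem nfG_eq_zero {z : ℤ × ℤ} : nfG z = 0 ↔ z = 0 := by
  constructor
  · intro h
    have h1 := nfG_fst' z
    have h2 := nfG_snd' z
    rw [h] at h1 h2
    have e1 : z.1 = 0 := by nlinarith [sq_nonneg z.1]
    have e2 : z.2 = 0 := by nlinarith [sq_nonneg z.2]
    exact Prod.ext e1 e2
  · rintro rfl
    simp [nfG]

theorem nfG_neg (z : ℤ × ℤ) : nfG (-z) = nfG z := by
  simp only [nfG, Prod.fst_neg, Prod.snd_neg]
  ring

/-- Division with remainder. -/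
theorem exists_remG2 (m z : ℤ × ℤ) (hm : m ≠ 0) :
    ∃ w : ℤ × ℤ, 2 * nfG (z - mulG m w) ≤ nfG m := by
  have hN : 0 < nfG m := lt_of_le_of_ne (nfG_nonneg m) fun h => hm (nfG_eq_zero.1 h.symm)
  -- `z * conj m = (a, b)`
  obtain ⟨a, ha⟩ : ∃ a, a = z.1 * m.1 + z.2 * m.2 := ⟨_, rfl⟩
  obtain ⟨b, hb⟩ : ∃ b, b = z.2 * m.1 - z.1 * m.2 := ⟨_, rfl⟩
  have round : ∀ x : ℤ, ∃ y : ℤ, -nfG m ≤ 2 * (x - nfG m * y) ∧ 2 * (x - nfG m * y) ≤ nfG m := by
    intro x
    refine ⟨(2 * x + nfG m) / (2 * nfG m), ?_, ?_⟩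
    · have h1 := Int.mul_ediv_add_emod (2 * x + nfG m) (2 * nfG m)
      have h2 := Int.emod_nonneg (2 * x + nfG m) (by omega : (2 * nfG m) ≠ 0)
      nlinarith
    · have h1 := Int.mul_ediv_add_emod (2 * x + nfG m) (2 * nfG m)
      have h2 := Int.emod_lt_of_pos (2 * x + nfG m) (by omega : 0 < 2 * nfG m)
      nlinarith
  obtain ⟨c, hc1, hc2⟩ := round a
  obtain ⟨d, hd1, hd2⟩ := round b
  refine ⟨(c, d), ?_⟩
  have key : nfG (z - mulG m (c, d)) * nfG m = nfG (a - nfG m * c, b - nfG m * d) := by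
    simp only [nfG, mulG, Prod.fst_sub, Prod.snd_sub, ha, hb]
    ring
  have s1 : (2 * (a - nfG m * c)) ^ 2 ≤ nfG m ^ 2 := sq_le_sq' (by linarith) hc2
  have s2 : (2 * (b - nfG m * d)) ^ 2 ≤ nfG m ^ 2 := sq_le_sq' (by linarith) hd2
  have h3 : 2 * nfG (a - nfG m * c, b - nfG m * d) ≤ nfG m ^ 2 := by
    have : nfG (a - nfG m * c, b - nfG m * d) = (a - nfG m * c) ^ 2 + (b - nfG m * d) ^ 2 := rfl
    rw [this]
    nlinarith
  have h4 : 2 * nfG (z - mulG m (c, d)) * nfG m ≤ nfG m * nfG m := by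
    nlinarith
  exact le_of_mul_le_mul_right h4 hN

/-- Division with remainder, in the shape of `MP_1a91b9_ntH.R.Lat`. -/
theorem exists_remG (m z : ℤ × ℤ) (hm : m ≠ 0) :
    ∃ w : ℤ × ℤ, 4 * nfG (z - mulG m w) ≤ 3 * nfG m := by
  obtain ⟨w, hw⟩ := exists_remG2 m z hm
  exact ⟨w, by linarith [nfG_nonneg m]⟩

/-! ### The boundary of a disc -/

/-- A disc. -/
noncomputable def discQ (X : ℕ) : Finset (ℤ × ℤ) :=
  (Icc (-(2 * (X : ℤ))) (2 * X) ×ˢ Icc (-(2 * (X : ℤ))) (2 * X)).filter fun z => nfG z ≤ X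

theorem mem_discQ {X : ℕ} {z : ℤ × ℤ} : z ∈ discQ X ↔ nfG z ≤ X := by
  rw [discQ, mem_filter, mem_product, mem_Icc, mem_Icc]
  refine ⟨fun h => h.2, fun h => ⟨?_, h⟩⟩
  have h1 := nfG_fst z
  have h2 := nfG_snd z
  have a1 : z.1 ^ 2 ≤ 2 * X := by linarith
  have a2 : z.2 ^ 2 ≤ 2 * X := by linarith
  refine ⟨⟨?_, ?_⟩, ?_, ?_⟩ <;> nlinarith [Int.le_self_sq z.1, Int.le_self_sq z.2,
    Int.le_self_sq (-z.1), Int.le_self_sq (-z.2)]

theorem disc_rowG (X : ℕ) (h : ℕ) (s : ℤ) (hs : |s| ≤ h) :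
    ((discQ X).filter fun z => (z.1 + s, z.2) ∉ discQ X).card ≤ h * (4 * Nat.sqrt X + 1) := by
  classical
  have hmaps : ∀ z ∈ ((discQ X).filter fun z => (z.1 + s, z.2) ∉ discQ X),
      z.2 ∈ Icc (-(2 * (Nat.sqrt X : ℤ))) (2 * Nat.sqrt X) := by
    intro z hz
    rw [mem_filter, mem_discQ] at hz
    have h2 := nfG_snd z
    have h3 : z.2.natAbs ^ 2 ≤ 2 * X := by
      have : ((z.2.natAbs ^ 2 : ℕ) : ℤ) ≤ ((2 * X : ℕ) : ℤ) := by
        push_cast
        rw [sq_abs]
        linarith [hz.1]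
      exact_mod_cast this
    have h4 : X < (Nat.sqrt X + 1) * (Nat.sqrt X + 1) := Nat.lt_succ_sqrt X
    have h5 : z.2.natAbs ≤ 2 * Nat.sqrt X := by
      by_contra hcon
      have h6 : 2 * Nat.sqrt X + 1 ≤ z.2.natAbs := by omega
      rcases Nat.eq_zero_or_pos (Nat.sqrt X) with h7 | h7
      · rw [h7] at h4
        have h8 : X = 0 := by omega
        rw [h8] at h3
        nlinarith
      · nlinarith
    rw [mem_Icc]
    omega
  have hfib : ∀ y ∈ Icc (-(2 * (Nat.sqrt X : ℤ))) (2 * Nat.sqrt X),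
      (((discQ X).filter fun z => (z.1 + s, z.2) ∉ discQ X).filter fun z => z.2 = y).card ≤ h := by
    intro y _
    set S : Finset ℤ := ((discQ X).filter fun z => z.2 = y).image Prod.fst with hS
    have memS : ∀ a, a ∈ S ↔ nfG (a, y) ≤ X := by
      intro a
      rw [hS, mem_image]
      constructor
      · rintro ⟨z, hz, rfl⟩
        rw [mem_filter, mem_discQ] at hz
        rw [← hz.2]
        exact hz.1
      · intro ha
        exact ⟨(a, y), mem_filter.2 ⟨mem_discQ.2 ha, rfl⟩, rfl⟩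
    have hconv : ∀ a ∈ S, ∀ c ∈ S, ∀ b, a ≤ b → b ≤ c → b ∈ S := by
      intro a ha c hc b hab hbc
      rw [memS] at *
      simp only [nfG] at *
      rcases le_total b 0 with h1 | h1
      · nlinarith
      · nlinarith
    refine le_trans ?_ (conv_shift S hconv s h hs)
    refine card_le_card_of_injOn Prod.fst ?_ ?_
    · intro z hz
      rw [mem_coe, mem_filter, mem_filter, mem_discQ, mem_discQ] at hz
      rw [mem_coe, mem_filter, memS, memS, ← hz.2]
      exact ⟨hz.1.1, hz.1.2⟩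
    · intro z hz w hw hzw
      rw [mem_coe, mem_filter] at hz hw
      exact Prod.ext hzw (hz.2.trans hw.2.symm)
  calc ((discQ X).filter fun z => (z.1 + s, z.2) ∉ discQ X).card
      = ∑ y ∈ Icc (-(2 * (Nat.sqrt X : ℤ))) (2 * Nat.sqrt X),
        (((discQ X).filter fun z => (z.1 + s, z.2) ∉ discQ X).filter fun z => z.2 = y).card :=
        card_eq_sum_card_fiberwise hmaps
    _ ≤ ∑ y ∈ Icc (-(2 * (Nat.sqrt X : ℤ))) (2 * Nat.sqrt X), h := sum_le_sum hfib
    _ = h * (4 * Nat.sqrt X + 1) := by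
        rw [sum_const, Int.card_Icc, smul_eq_mul, mul_comm]
        congr 1
        omega

theorem nfG_swap (z : ℤ × ℤ) : nfG z.swap = nfG z := by
  simp only [nfG, Prod.fst_swap, Prod.snd_swap]
  ring

theorem disc_colG (X : ℕ) (h : ℕ) (s : ℤ) (hs : |s| ≤ h) :
    ((discQ X).filter fun z => (z.1, z.2 + s) ∉ discQ X).card ≤ h * (4 * Nat.sqrt X + 1) := by
  classical
  refine le_trans ?_ (disc_rowG X h s hs)
  refine card_le_card_of_injOn Prod.swap ?_ ?_
  · intro z hz
    rw [mem_coe, mem_filter, mem_discQ, mem_discQ] at hz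
    rw [mem_coe, mem_filter, mem_discQ, mem_discQ, nfG_swap]
    refine ⟨hz.1, fun hc => hz.2 ?_⟩
    rw [← nfG_swap]
    exact hc
  · exact Prod.swap_injective.injOn

theorem disc_bdryG (X h : ℕ) (r : ℤ × ℤ) (h1 : |r.1| ≤ h) (h2 : |r.2| ≤ h) :
    ((discQ X).filter fun z => z + r ∉ discQ X).card ≤ 2 * h * (4 * Nat.sqrt X + 1) := by
  classical
  have hsub : ((discQ X).filter fun z => z + r ∉ discQ X) ⊆
      ((discQ X).filter fun z => (z.1 + r.1, z.2) ∉ discQ X) ∪
      ((discQ X).filter fun z => (z.1, z.2 + r.2) ∉ discQ X).image fun z => (z.1 - r.1, z.2) := by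
    intro z hz
    rw [mem_filter] at hz
    rw [mem_union, mem_filter, mem_image]
    by_cases h : (z.1 + r.1, z.2) ∈ discQ X
    · right
      refine ⟨(z.1 + r.1, z.2), mem_filter.2 ⟨h, hz.2⟩, ?_⟩
      simp
    · left
      exact ⟨hz.1, h⟩
  refine (card_le_card hsub).trans ((card_union_le _ _).trans ?_)
  have e1 := disc_rowG X h r.1 h1
  have e2 := (card_image_le (s := (discQ X).filter fun z => (z.1, z.2 + r.2) ∉ discQ X)
    (f := fun z : ℤ × ℤ => (z.1 - r.1, z.2))).trans (disc_colG X h r.2 h2)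
  calc _ ≤ h * (4 * Nat.sqrt X + 1) + h * (4 * Nat.sqrt X + 1) := add_le_add e1 e2
    _ = _ := by ring

/-- The number of points of a disc is at most `25 X + 1`; a crude bound. -/
theorem card_discQ_le (X : ℕ) : (discQ X).card ≤ (4 * Nat.sqrt X + 1) ^ 2 := by
  classical
  have hsub : discQ X ⊆ Icc (-(2 * (Nat.sqrt X : ℤ))) (2 * Nat.sqrt X) ×ˢ
      Icc (-(2 * (Nat.sqrt X : ℤ))) (2 * Nat.sqrt X) := by
    intro z hz
    rw [mem_discQ] at hz
    have key : ∀ a : ℤ, 3 * a ^ 2 ≤ 4 * nfG z → a ∈ Icc (-(2 * (Nat.sqrt X : ℤ))) (2 * Nat.sqrt X) := by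
      intro a ha
      have h3 : a.natAbs ^ 2 ≤ 2 * X := by
        have : ((a.natAbs ^ 2 : ℕ) : ℤ) ≤ ((2 * X : ℕ) : ℤ) := by
          push_cast
          rw [sq_abs]
          linarith
        exact_mod_cast this
      have h4 : X < (Nat.sqrt X + 1) * (Nat.sqrt X + 1) := Nat.lt_succ_sqrt X
      have h5 : a.natAbs ≤ 2 * Nat.sqrt X := by
        by_contra hcon
        have h6 : 2 * Nat.sqrt X + 1 ≤ a.natAbs := by omega
        rcases Nat.eq_zero_or_pos (Nat.sqrt X) with h7 | h7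
        · rw [h7] at h4
          have h8 : X = 0 := by omega
          rw [h8] at h3
          nlinarith
        · nlinarith
      rw [mem_Icc]
      omega
    exact mem_product.2 ⟨key _ (nfG_fst z), key _ (nfG_snd z)⟩
  refine (card_le_card hsub).trans ?_
  rw [card_product, Int.card_Icc, sq]
  have : (2 * (Nat.sqrt X : ℤ) + 1 - -(2 * (Nat.sqrt X : ℤ))).toNat = 4 * Nat.sqrt X + 1 := by omega
  rw [this]

/-! ### Periodic functions -/

section Per

variable {R : Type} [CommRing R] [Gau R]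

/-- The norm as a natural number. -/
def nG (x : R) : ℕ := (nfG (Gau.co x)).toNat

theorem nG_cast (x : R) : ((nG x : ℕ) : ℤ) = nfG (Gau.co x) := Int.toNat_of_nonneg (nfG_nonneg _)

theorem nG_mul (x y : R) : nG (x * y) = nG x * nG y := by
  have : ((nG (x * y) : ℕ) : ℤ) = ((nG x * nG y : ℕ) : ℤ) := by
    push_cast
    rw [nG_cast, nG_cast, nG_cast, Gau.co_mul, nfG_mulG]
  exact_mod_cast this

theorem nG_eq_zero {x : R} : nG x = 0 ↔ x = 0 := by
  have : nG x = 0 ↔ nfG (Gau.co x) = 0 := by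
    rw [← nG_cast]
    norm_cast
  rw [this, nfG_eq_zero]
  exact map_eq_zero_iff _ (Gau.co (R := R)).injective

theorem exists_remG' (m z : R) (hm : m ≠ 0) : ∃ w : R, 4 * nG (z - m * w) ≤ 3 * nG m := by
  obtain ⟨w, hw⟩ := exists_remG (Gau.co m) (Gau.co z)
    (fun h => hm ((map_eq_zero_iff _ (Gau.co (R := R)).injective).1 h))
  refine ⟨Gau.co.symm w, ?_⟩
  have : 4 * ((nG (z - m * Gau.co.symm w) : ℕ) : ℤ) ≤ 3 * ((nG m : ℕ) : ℤ) := by
    rw [nG_cast, nG_cast, map_sub, Gau.co_mul, AddEquiv.apply_symm_apply]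
    exact hw
  exact_mod_cast this

/-- the coordinates of an element of norm at most `3 N / 4` are at most `√N` -/
theorem co_leG {x : R} {N : ℕ} (h : 4 * nG x ≤ 3 * N) :
    |(Gau.co x).1| ≤ (Nat.sqrt N : ℤ) ∧ |(Gau.co x).2| ≤ (Nat.sqrt N : ℤ) := by
  have key : ∀ a : ℤ, 3 * a ^ 2 ≤ 4 * nfG (Gau.co x) → |a| ≤ (Nat.sqrt N : ℤ) := by
    intro a ha
    have h1 : 4 * nfG (Gau.co x) ≤ 3 * N := by
      rw [← nG_cast]
      exact_mod_cast h
    have h3 : a.natAbs ^ 2 ≤ N := by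
      have : ((a.natAbs ^ 2 : ℕ) : ℤ) ≤ (N : ℤ) := by
        push_cast
        rw [sq_abs]
        linarith
      exact_mod_cast this
    rw [Int.abs_eq_natAbs]
    exact_mod_cast Nat.le_sqrt'.2 h3
  exact ⟨key _ (nfG_fst _), key _ (nfG_snd _)⟩

/-- A complete system of small residues modulo `m`, and the vanishing of the sum of a periodic
function which changes its sign under multiplication with a unit modulo `m`. -/
theorem exists_repG (m : R) (hm : m ≠ 0) (f : R → ℝ) (hper : ∀ z w, f (z + m * w) = f z)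
    (u v w : R) (huv : u * v = 1 + m * w) (hneg : ∀ z, f (u * z) = - f z) :
    ∃ (C : Type) (_ : Fintype C) (_ : Nonempty C) (rep : C → R),
      (∀ z, ∑ c, f (z + rep c) = 0) ∧
      ∀ c, |(Gau.co (rep c)).1| ≤ (Nat.sqrt (nG m) : ℤ) ∧ |(Gau.co (rep c)).2| ≤ (Nat.sqrt (nG m) : ℤ) := by
  classical
  let I : Ideal R := Ideal.span {m}
  choose g hg using fun z : R => exists_remG' m z hm
  let rep : R ⧸ I → R := fun c => Quotient.out c - m * g (Quotient.out c)
  have hrep : ∀ c : R ⧸ I, Ideal.Quotient.mk I (rep c) = c := by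
    intro c
    have h1 : Ideal.Quotient.mk I (Quotient.out c) = c := Quotient.out_eq c
    have h2 : Ideal.Quotient.mk I (m * g (Quotient.out c)) = 0 :=
      Ideal.Quotient.eq_zero_iff_mem.2 (Ideal.mem_span_singleton.2 ⟨_, rfl⟩)
    rw [show rep c = Quotient.out c - m * g (Quotient.out c) from rfl, map_sub, h1, h2, sub_zero]
  have hle : ∀ c, |(Gau.co (rep c)).1| ≤ (Nat.sqrt (nG m) : ℤ) ∧
      |(Gau.co (rep c)).2| ≤ (Nat.sqrt (nG m) : ℤ) := fun c => co_leG (hg _)
  have hinj : Function.Injective rep := fun c d h => by rw [← hrep c, ← hrep d, h]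
  have hfin : Finite (R ⧸ I) := by
    let B : Finset (ℤ × ℤ) := Icc (-(Nat.sqrt (nG m) : ℤ)) (Nat.sqrt (nG m)) ×ˢ
      Icc (-(Nat.sqrt (nG m) : ℤ)) (Nat.sqrt (nG m))
    have hm' : ∀ c, Gau.co (rep c) ∈ B := fun c => by
      rw [mem_product, mem_Icc, mem_Icc]
      exact ⟨abs_le.1 (hle c).1, abs_le.1 (hle c).2⟩
    exact Finite.of_injective (fun c : R ⧸ I => (⟨Gau.co (rep c), hm' c⟩ : B)) fun c d h =>
      hinj (Gau.co.injective (congrArg Subtype.val h))
  have hft : Fintype (R ⧸ I) := Fintype.ofFinite _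
  -- the function on the quotient
  have hf : ∀ x y : R, Ideal.Quotient.mk I x = Ideal.Quotient.mk I y → f x = f y := by
    intro x y h
    rw [Ideal.Quotient.eq, Ideal.mem_span_singleton] at h
    obtain ⟨t, ht⟩ := h
    rw [show x = y + m * t by rw [← ht]; ring, hper]
  let F : R ⧸ I → ℝ := fun c => f (rep c)
  have hF : ∀ x : R, F (Ideal.Quotient.mk I x) = f x := fun x => hf _ _ (hrep _)
  have hsum : ∑ c, F c = 0 := by
    have huv' : Ideal.Quotient.mk I u * Ideal.Quotient.mk I v = 1 := by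
      rw [← map_mul, huv, map_add, map_one]
      have h2 : Ideal.Quotient.mk I (m * w) = 0 :=
        Ideal.Quotient.eq_zero_iff_mem.2 (Ideal.mem_span_singleton.2 ⟨_, rfl⟩)
      rw [h2, add_zero]
    have hbij : Function.Bijective fun c : R ⧸ I => Ideal.Quotient.mk I u * c := by
      refine Function.bijective_iff_has_inverse.2 ⟨fun c => Ideal.Quotient.mk I v * c, ?_, ?_⟩
      · intro c
        change Ideal.Quotient.mk I v * (Ideal.Quotient.mk I u * c) = c
        rw [← mul_assoc, mul_comm (Ideal.Quotient.mk I v), huv', one_mul]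
      · intro c
        change Ideal.Quotient.mk I u * (Ideal.Quotient.mk I v * c) = c
        rw [← mul_assoc, huv', one_mul]
    have h1 : ∑ c, F c = ∑ c, F (Ideal.Quotient.mk I u * c) := by
      rw [← Function.Bijective.sum_comp hbij F]
    have h2 : ∀ c, F (Ideal.Quotient.mk I u * c) = - F c := by
      intro c
      have h3 : Ideal.Quotient.mk I u * c = Ideal.Quotient.mk I (u * rep c) := by
        rw [map_mul, hrep]
      rw [h3, hF, hneg]
    have h4 : ∑ c, F c = - ∑ c, F c := by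
      conv_lhs => rw [h1]
      rw [← sum_neg_distrib]
      exact sum_congr rfl fun c _ => h2 c
    linarith
  refine ⟨R ⧸ I, hft, ⟨0⟩, rep, ?_, hle⟩
  intro z
  have h1 : ∀ c, f (z + rep c) = F (Ideal.Quotient.mk I z + c) := by
    intro c
    have h3 : Ideal.Quotient.mk I z + c = Ideal.Quotient.mk I (z + rep c) := by
      rw [map_add, hrep]
    rw [h3, hF]
  rw [sum_congr rfl fun c _ => h1 c]
  have h2 := Function.Bijective.sum_comp (Equiv.addLeft (Ideal.Quotient.mk I z)).bijective F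
  rw [← hsum, ← h2]
  rfl

/-- A box in `R`. -/
noncomputable def boxG (R : Type) [CommRing R] [Gau R] (x y : ℤ) (L : ℕ) : Finset R :=
  (boxZ x y L).map (Gau.co (R := R)).symm.toEquiv.toEmbedding

/-- A disc in `R`. -/
noncomputable def discG (R : Type) [CommRing R] [Gau R] (X : ℕ) : Finset R :=
  (discQ X).map (Gau.co (R := R)).symm.toEquiv.toEmbedding

theorem mem_discG {X : ℕ} {z : R} : z ∈ discG R X ↔ nG z ≤ X := by
  rw [discG, mem_map]
  constructor
  · rintro ⟨y, hy, rfl⟩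
    rw [mem_discQ] at hy
    have : ((nG ((Gau.co (R := R)).symm y) : ℕ) : ℤ) ≤ X := by
      rw [nG_cast, AddEquiv.apply_symm_apply]
      exact hy
    exact_mod_cast this
  · intro h
    refine ⟨Gau.co z, ?_, ?_⟩
    · rw [mem_discQ, ← nG_cast]
      exact_mod_cast h
    · exact (Gau.co (R := R)).symm_apply_apply z

theorem mem_boxG {x y : ℤ} {L : ℕ} {z : R} : z ∈ boxG R x y L ↔
    (x ≤ (Gau.co z).1 ∧ (Gau.co z).1 < x + L) ∧ (y ≤ (Gau.co z).2 ∧ (Gau.co z).2 < y + L) := by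
  rw [boxG, mem_map]
  constructor
  · rintro ⟨w, hw, rfl⟩
    simp only [boxZ, mem_product, mem_Ico] at hw
    have : Gau.co ((Gau.co (R := R)).symm.toEquiv.toEmbedding w) = w :=
      (Gau.co (R := R)).apply_symm_apply w
    rw [this]
    exact hw
  · intro h
    refine ⟨Gau.co z, ?_, (Gau.co (R := R)).symm_apply_apply z⟩
    simp only [boxZ, mem_product, mem_Ico]
    exact h

theorem card_discG_le (X : ℕ) : (discG R X).card ≤ (4 * Nat.sqrt X + 1) ^ 2 := by
  rw [discG, card_map]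
  exact card_discQ_le X

theorem card_boxG (x y : ℤ) (L : ℕ) : (boxG R x y L).card = L * L := by
  rw [boxG, card_map, boxZ, card_product, Int.card_Ico, Int.card_Ico]
  have e3 : (x + L - x).toNat = L := by omega
  have e4 : (y + L - y).toNat = L := by omega
  rw [e3, e4]

/-- Sums of periodic functions over boxes. -/
theorem sum_boxG (m : R) (hm : m ≠ 0) (f : R → ℝ) (hf : ∀ z, |f z| ≤ 1)
    (hper : ∀ z w, f (z + m * w) = f z)
    (u v w : R) (huv : u * v = 1 + m * w) (hneg : ∀ z, f (u * z) = - f z) (x y : ℤ) (L : ℕ) :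
    |∑ z ∈ boxG R x y L, f z| ≤ 4 * Nat.sqrt (nG m) * L := by
  obtain ⟨C, hC1, hC2, rep, h0, hle⟩ := exists_repG m hm f hper u v w huv hneg
  have h := avg (boxZ x y L) (fun z => f ((Gau.co (R := R)).symm z)) (fun z => hf _)
    (fun c => Gau.co (rep c)) (2 * Nat.sqrt (nG m) * L) ?_
    (fun c => box_bdry x y L _ _ (hle c).1 (hle c).2) ?_
  · rw [boxG, sum_map]
    refine h.trans (le_of_eq ?_)
    push_cast
    ring
  · intro z
    rw [← h0 ((Gau.co (R := R)).symm z)]
    refine sum_congr rfl fun c _ => ?_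
    rw [map_add, AddEquiv.symm_apply_apply]
  · intro c
    have h := box_bdry x y L (Nat.sqrt (nG m)) (-(Gau.co (rep c)))
      (by rw [Prod.fst_neg, abs_neg]; exact (hle c).1) (by rw [Prod.snd_neg, abs_neg]; exact (hle c).2)
    simpa only [sub_eq_add_neg] using h

/-- Sums of periodic functions over discs. -/
theorem sum_discG (m : R) (hm : m ≠ 0) (f : R → ℝ) (hf : ∀ z, |f z| ≤ 1)
    (hper : ∀ z w, f (z + m * w) = f z)
    (u v w : R) (huv : u * v = 1 + m * w) (hneg : ∀ z, f (u * z) = - f z) (X : ℕ) :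
    |∑ z ∈ discG R X, f z| ≤ 4 * Nat.sqrt (nG m) * (4 * Nat.sqrt X + 1) := by
  obtain ⟨C, hC1, hC2, rep, h0, hle⟩ := exists_repG m hm f hper u v w huv hneg
  have h := avg (discQ X) (fun z => f ((Gau.co (R := R)).symm z)) (fun z => hf _)
    (fun c => Gau.co (rep c)) (2 * Nat.sqrt (nG m) * (4 * Nat.sqrt X + 1)) ?_
    (fun c => disc_bdryG X _ _ (hle c).1 (hle c).2) ?_
  · rw [discG, sum_map]
    refine h.trans (le_of_eq ?_)
    push_cast
    ring
  · intro z
    rw [← h0 ((Gau.co (R := R)).symm z)]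
    refine sum_congr rfl fun c _ => ?_
    rw [map_add, AddEquiv.symm_apply_apply]
  · intro c
    have h := disc_bdryG X (Nat.sqrt (nG m)) (-(Gau.co (rep c)))
      (by rw [Prod.fst_neg, abs_neg]; exact (hle c).1) (by rw [Prod.snd_neg, abs_neg]; exact (hle c).2)
    simpa only [sub_eq_add_neg] using h

/-- The numbers of points of a disc in two residue classes differ by little. -/
theorem class_discG (m : R) (hm : m ≠ 0) (r s : R) (X : ℕ) [DecidablePred fun z : R => m ∣ z - r]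
    [DecidablePred fun z : R => m ∣ z - s] :
    ((discG R X).filter fun z => m ∣ z - r).card ≤ ((discG R X).filter fun z => m ∣ z - s).card +
      2 * Nat.sqrt (nG m) * (4 * Nat.sqrt X + 1) := by
  classical
  obtain ⟨w, hw⟩ := exists_remG' m (s - r) hm
  obtain ⟨t, ht⟩ : ∃ t, t = s - r - m * w := ⟨_, rfl⟩
  rw [← ht] at hw
  have hle := co_leG hw
  have hb := disc_bdryG X (Nat.sqrt (nG m)) (Gau.co t) hle.1 hle.2
  have hsub : ((discG R X).filter fun z => m ∣ z - r) ⊆
      (((discG R X).filter fun z => m ∣ z - s).image fun z => z - t) ∪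
      ((discQ X).filter fun z => z + Gau.co t ∉ discQ X).image (Gau.co (R := R)).symm := by
    intro z hz
    rw [mem_filter, mem_discG] at hz
    rw [mem_union]
    by_cases h : nG (z + t) ≤ X
    · left
      refine mem_image.2 ⟨z + t, mem_filter.2 ⟨mem_discG.2 h, ?_⟩, add_sub_cancel_right z t⟩
      have : z + t - s = z - r - m * w := by rw [ht]; ring
      rw [this]
      exact dvd_sub hz.2 ⟨w, rfl⟩
    · right
      refine mem_image.2 ⟨Gau.co z, mem_filter.2 ⟨?_, ?_⟩, (Gau.co (R := R)).symm_apply_apply z⟩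
      · rw [mem_discQ, ← nG_cast]
        exact_mod_cast hz.1
      · rw [mem_discQ, ← map_add, ← nG_cast]
        exact_mod_cast h
  refine (card_le_card hsub).trans ((card_union_le _ _).trans ?_)
  exact add_le_add card_image_le (card_image_le.trans hb)

/-- Sums of periodic functions over discs, with real square roots. -/
theorem sum_discG' (m : R) (hm : m ≠ 0) (f : R → ℝ) (hf : ∀ z, |f z| ≤ 1)
    (hper : ∀ z w, f (z + m * w) = f z)
    (u v w : R) (huv : u * v = 1 + m * w) (hneg : ∀ z, f (u * z) = - f z) (X : ℕ) (hX : 1 ≤ X) :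
    |∑ z ∈ discG R X, f z| ≤ 20 * Real.sqrt (nG m * X) := by
  refine (sum_discG m hm f hf hper u v w huv hneg X).trans ?_
  have h1 : ((Nat.sqrt (nG m) : ℕ) : ℝ) ≤ Real.sqrt (nG m) := Real.nat_sqrt_le_real_sqrt
  have h2 : ((Nat.sqrt X : ℕ) : ℝ) ≤ Real.sqrt X := Real.nat_sqrt_le_real_sqrt
  have h3 : (1 : ℝ) ≤ Real.sqrt X := by
    rw [Real.one_le_sqrt]
    exact_mod_cast hX
  rw [Real.sqrt_mul (Nat.cast_nonneg _)]
  have h4 : 0 ≤ Real.sqrt (nG m) := Real.sqrt_nonneg _
  calc (4 : ℝ) * Nat.sqrt (nG m) * (4 * Nat.sqrt X + 1)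
      ≤ 4 * Real.sqrt (nG m) * (4 * Real.sqrt X + Real.sqrt X) := by gcongr
    _ = 20 * (Real.sqrt (nG m) * Real.sqrt X) := by ring

theorem card_discG_le' (X : ℕ) (hX : 1 ≤ X) : (discG R X).card ≤ 25 * X := by
  refine (card_discG_le X).trans ?_
  have h1 : 1 ≤ Nat.sqrt X := Nat.le_sqrt'.2 (by omega)
  have h2 : Nat.sqrt X ^ 2 ≤ X := Nat.sqrt_le' X
  nlinarith


/-! ### Complex functions -/

/-- A complete system of small residues modulo `m`, and the vanishing of the sum of a periodic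
function which is multiplied by `c ≠ 1` under multiplication with a unit modulo `m`. -/
theorem exists_repGC (m : R) (hm : m ≠ 0) (f : R → ℂ) (hper : ∀ z w, f (z + m * w) = f z)
    (u v w : R) (huv : u * v = 1 + m * w) (c : ℂ) (hc : c ≠ 1) (hneg : ∀ z, f (u * z) = c * f z) :
    ∃ (C : Type) (_ : Fintype C) (_ : Nonempty C) (rep : C → R),
      (∀ z, ∑ c, f (z + rep c) = 0) ∧
      ∀ c, |(Gau.co (rep c)).1| ≤ (Nat.sqrt (nG m) : ℤ) ∧ |(Gau.co (rep c)).2| ≤ (Nat.sqrt (nG m) : ℤ) := by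
  classical
  let I : Ideal R := Ideal.span {m}
  choose g hg using fun z : R => exists_remG' m z hm
  let rep : R ⧸ I → R := fun c => Quotient.out c - m * g (Quotient.out c)
  have hrep : ∀ c : R ⧸ I, Ideal.Quotient.mk I (rep c) = c := by
    intro c
    have h1 : Ideal.Quotient.mk I (Quotient.out c) = c := Quotient.out_eq c
    have h2 : Ideal.Quotient.mk I (m * g (Quotient.out c)) = 0 :=
      Ideal.Quotient.eq_zero_iff_mem.2 (Ideal.mem_span_singleton.2 ⟨_, rfl⟩)
    rw [show rep c = Quotient.out c - m * g (Quotient.out c) from rfl, map_sub, h1, h2, sub_zero]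
  have hle : ∀ c, |(Gau.co (rep c)).1| ≤ (Nat.sqrt (nG m) : ℤ) ∧
      |(Gau.co (rep c)).2| ≤ (Nat.sqrt (nG m) : ℤ) := fun c => co_leG (hg _)
  have hinj : Function.Injective rep := fun c d h => by rw [← hrep c, ← hrep d, h]
  have hfin : Finite (R ⧸ I) := by
    let B : Finset (ℤ × ℤ) := Icc (-(Nat.sqrt (nG m) : ℤ)) (Nat.sqrt (nG m)) ×ˢ
      Icc (-(Nat.sqrt (nG m) : ℤ)) (Nat.sqrt (nG m))
    have hm' : ∀ c, Gau.co (rep c) ∈ B := fun c => by
      rw [mem_product, mem_Icc, mem_Icc]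
      exact ⟨abs_le.1 (hle c).1, abs_le.1 (hle c).2⟩
    exact Finite.of_injective (fun c : R ⧸ I => (⟨Gau.co (rep c), hm' c⟩ : B)) fun c d h =>
      hinj (Gau.co.injective (congrArg Subtype.val h))
  have hft : Fintype (R ⧸ I) := Fintype.ofFinite _
  -- the function on the quotient
  have hf : ∀ x y : R, Ideal.Quotient.mk I x = Ideal.Quotient.mk I y → f x = f y := by
    intro x y h
    rw [Ideal.Quotient.eq, Ideal.mem_span_singleton] at h
    obtain ⟨t, ht⟩ := h
    rw [show x = y + m * t by rw [← ht]; ring, hper]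
  let F : R ⧸ I → ℂ := fun c => f (rep c)
  have hF : ∀ x : R, F (Ideal.Quotient.mk I x) = f x := fun x => hf _ _ (hrep _)
  have hsum : ∑ c, F c = 0 := by
    have huv' : Ideal.Quotient.mk I u * Ideal.Quotient.mk I v = 1 := by
      rw [← map_mul, huv, map_add, map_one]
      have h2 : Ideal.Quotient.mk I (m * w) = 0 :=
        Ideal.Quotient.eq_zero_iff_mem.2 (Ideal.mem_span_singleton.2 ⟨_, rfl⟩)
      rw [h2, add_zero]
    have hbij : Function.Bijective fun c : R ⧸ I => Ideal.Quotient.mk I u * c := by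
      refine Function.bijective_iff_has_inverse.2 ⟨fun c => Ideal.Quotient.mk I v * c, ?_, ?_⟩
      · intro c
        change Ideal.Quotient.mk I v * (Ideal.Quotient.mk I u * c) = c
        rw [← mul_assoc, mul_comm (Ideal.Quotient.mk I v), huv', one_mul]
      · intro c
        change Ideal.Quotient.mk I u * (Ideal.Quotient.mk I v * c) = c
        rw [← mul_assoc, huv', one_mul]
    have h1 : ∑ c, F c = ∑ c, F (Ideal.Quotient.mk I u * c) := by
      rw [← Function.Bijective.sum_comp hbij F]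
    have h2 : ∀ x, F (Ideal.Quotient.mk I u * x) = c * F x := by
      intro x
      have h3 : Ideal.Quotient.mk I u * x = Ideal.Quotient.mk I (u * rep x) := by
        rw [map_mul, hrep]
      rw [h3, hF, hneg]
    have h4 : ∑ x, F x = c * ∑ x, F x := by
      conv_lhs => rw [h1]
      rw [mul_sum]
      exact sum_congr rfl fun x _ => h2 x
    have h5 : (1 - c) * ∑ x, F x = 0 := by
      rw [sub_mul, one_mul, ← h4, sub_self]
    exact (mul_eq_zero.1 h5).resolve_left (sub_ne_zero.2 hc.symm)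
  refine ⟨R ⧸ I, hft, ⟨0⟩, rep, ?_, hle⟩
  intro z
  have h1 : ∀ c, f (z + rep c) = F (Ideal.Quotient.mk I z + c) := by
    intro c
    have h3 : Ideal.Quotient.mk I z + c = Ideal.Quotient.mk I (z + rep c) := by
      rw [map_add, hrep]
    rw [h3, hF]
  rw [sum_congr rfl fun c _ => h1 c]
  have h2 := Function.Bijective.sum_comp (Equiv.addLeft (Ideal.Quotient.mk I z)).bijective F
  rw [← hsum, ← h2]
  rfl

/-- Sums of complex periodic functions over boxes. -/
theorem sum_boxGC (m : R) (hm : m ≠ 0) (f : R → ℂ) (hf : ∀ z, ‖f z‖ ≤ 1)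
    (hper : ∀ z w, f (z + m * w) = f z)
    (u v w : R) (huv : u * v = 1 + m * w) (c : ℂ) (hc : c ≠ 1) (hneg : ∀ z, f (u * z) = c * f z)
    (x y : ℤ) (L : ℕ) :
    ‖∑ z ∈ boxG R x y L, f z‖ ≤ 4 * Nat.sqrt (nG m) * L := by
  obtain ⟨C, hC1, hC2, rep, h0, hle⟩ := exists_repGC m hm f hper u v w huv c hc hneg
  have h := avgC (boxZ x y L) (fun z => f ((Gau.co (R := R)).symm z)) (fun z => hf _)
    (fun c => Gau.co (rep c)) (2 * Nat.sqrt (nG m) * L) ?_
    (fun c => box_bdry x y L _ _ (hle c).1 (hle c).2) ?_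
  · rw [boxG, sum_map]
    refine h.trans (le_of_eq ?_)
    push_cast
    ring
  · intro z
    rw [← h0 ((Gau.co (R := R)).symm z)]
    refine sum_congr rfl fun c _ => ?_
    rw [map_add, AddEquiv.symm_apply_apply]
  · intro c
    have h := box_bdry x y L (Nat.sqrt (nG m)) (-(Gau.co (rep c)))
      (by rw [Prod.fst_neg, abs_neg]; exact (hle c).1) (by rw [Prod.snd_neg, abs_neg]; exact (hle c).2)
    simpa only [sub_eq_add_neg] using h

/-- Sums of complex periodic functions over discs. -/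
theorem sum_discGC (m : R) (hm : m ≠ 0) (f : R → ℂ) (hf : ∀ z, ‖f z‖ ≤ 1)
    (hper : ∀ z w, f (z + m * w) = f z)
    (u v w : R) (huv : u * v = 1 + m * w) (c : ℂ) (hc : c ≠ 1) (hneg : ∀ z, f (u * z) = c * f z)
    (X : ℕ) :
    ‖∑ z ∈ discG R X, f z‖ ≤ 4 * Nat.sqrt (nG m) * (4 * Nat.sqrt X + 1) := by
  obtain ⟨C, hC1, hC2, rep, h0, hle⟩ := exists_repGC m hm f hper u v w huv c hc hneg
  have h := avgC (discQ X) (fun z => f ((Gau.co (R := R)).symm z)) (fun z => hf _)
    (fun c => Gau.co (rep c)) (2 * Nat.sqrt (nG m) * (4 * Nat.sqrt X + 1)) ?_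
    (fun c => disc_bdryG X _ _ (hle c).1 (hle c).2) ?_
  · rw [discG, sum_map]
    refine h.trans (le_of_eq ?_)
    push_cast
    ring
  · intro z
    rw [← h0 ((Gau.co (R := R)).symm z)]
    refine sum_congr rfl fun c _ => ?_
    rw [map_add, AddEquiv.symm_apply_apply]
  · intro c
    have h := disc_bdryG X (Nat.sqrt (nG m)) (-(Gau.co (rep c)))
      (by rw [Prod.fst_neg, abs_neg]; exact (hle c).1) (by rw [Prod.snd_neg, abs_neg]; exact (hle c).2)
    simpa only [sub_eq_add_neg] using h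

/-- Sums of complex periodic functions over discs, with real square roots. -/
theorem sum_discGC' (m : R) (hm : m ≠ 0) (f : R → ℂ) (hf : ∀ z, ‖f z‖ ≤ 1)
    (hper : ∀ z w, f (z + m * w) = f z)
    (u v w : R) (huv : u * v = 1 + m * w) (c : ℂ) (hc : c ≠ 1) (hneg : ∀ z, f (u * z) = c * f z)
    (X : ℕ) (hX : 1 ≤ X) :
    ‖∑ z ∈ discG R X, f z‖ ≤ 20 * Real.sqrt (nG m * X) := by
  refine (sum_discGC m hm f hf hper u v w huv c hc hneg X).trans ?_
  have h1 : ((Nat.sqrt (nG m) : ℕ) : ℝ) ≤ Real.sqrt (nG m) := Real.nat_sqrt_le_real_sqrt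
  have h2 : ((Nat.sqrt X : ℕ) : ℝ) ≤ Real.sqrt X := Real.nat_sqrt_le_real_sqrt
  have h3 : (1 : ℝ) ≤ Real.sqrt X := by
    rw [Real.one_le_sqrt]
    exact_mod_cast hX
  rw [Real.sqrt_mul (Nat.cast_nonneg _)]
  have h4 : 0 ≤ Real.sqrt (nG m) := Real.sqrt_nonneg _
  calc (4 : ℝ) * Nat.sqrt (nG m) * (4 * Nat.sqrt X + 1)
      ≤ 4 * Real.sqrt (nG m) * (4 * Real.sqrt X + Real.sqrt X) := by gcongr
    _ = 20 * (Real.sqrt (nG m) * Real.sqrt X) := by ring

end Per

end Pool.Agent.Lib.MP_1a91b9_ntQ
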