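import Pool.Agent.Lib.MP_1a91b9_ntQ.R.Gau

/-!
# MP_1a91b9_nt (TwistDensity), quartic twists: quadratic symbols in `ℤ[i]`

* `isSq_symm`: quadratic reciprocity is symmetric for odd primes whose second coordinate is even;
* `isSq_i`: `i` is a square modulo `c + d i` iff `4 ∣ d`;
* `isSq_lam`: `1 + i` is a square modulo `c + d i` iff `c + d ≡ ± 1` modulo `8`.
-/

set_option autoImplicit false

namespace Pool.Agent.Lib.MP_1a91b9_ntQ.Sy

open ZMod NumberTheorySymbols

open Classical in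
/-- The quadratic symbol of `α` modulo `β` as a sign: `1` if `α` is a square modulo `β`,
`-1` otherwise. -/
noncomputable def qs {O : Type*} [CommRing O] (α β : O) : ℤ :=
  if ∃ z : O, β ∣ z ^ 2 - α then 1 else -1

theorem qs_eq_one_iff {O : Type*} [CommRing O] (α β : O) :
    qs α β = 1 ↔ ∃ z : O, β ∣ z ^ 2 - α := by
  classical
  unfold qs
  split_ifs with h
  · simp [h]
  · simp [h]

theorem qs_or {O : Type*} [CommRing O] (α β : O) : qs α β = 1 ∨ qs α β = -1 := by
  classical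
  unfold qs
  split_ifs <;> simp

theorem qs_eq_of_iff {O : Type*} [CommRing O] (α β : O) (j : ℤ) (hj : j = 1 ∨ j = -1)
    (h : (∃ z : O, β ∣ z ^ 2 - α) ↔ j = 1) : qs α β = j := by
  rcases hj with rfl | rfl
  · exact (qs_eq_one_iff α β).2 (h.2 rfl)
  · rcases qs_or α β with h1 | h1
    · have := h.1 ((qs_eq_one_iff α β).1 h1)
      omega
    · exact h1

theorem qs_congr_right {O : Type*} [CommRing O] {α β β' : O} (h : Associated β β') :
    qs α β = qs α β' := by
  classical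
  unfold qs
  simp only [h.dvd_iff_dvd_left]

variable {O : Type*} [CommRing O] {i : O}

/-- `-1` is a square. -/
theorem qs_neg_left (h : IsGau O i) (α β : O) : qs (-α) β = qs α β := by
  classical
  unfold qs
  have e : (∃ z : O, β ∣ z ^ 2 - (-α)) ↔ (∃ z : O, β ∣ z ^ 2 - α) := by
    constructor
    · rintro ⟨z, hz⟩
      refine ⟨i * z, ?_⟩
      have : (i * z) ^ 2 - α = -(z ^ 2 - (-α)) := by
        rw [mul_pow, h.sq]; ring
      rw [this, dvd_neg]
      exact hz
    · rintro ⟨z, hz⟩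
      refine ⟨i * z, ?_⟩
      have : (i * z) ^ 2 - -α = -(z ^ 2 - α) := by
        rw [mul_pow, h.sq]; ring
      rw [this, dvd_neg]
      exact hz
  simp only [e]

/-- The symbol `(M / N)` for `N = M² + E²`, `M` odd, `E` even. -/
theorem jac_key (M E : ℤ) (N : ℕ) (hM : M % 2 = 1) (hE : E % 2 = 0) (hc : IsCoprime M E)
    (hN : (N : ℤ) = M ^ 2 + E ^ 2) : jacobiSym M N = 1 := by
  obtain ⟨m, hm⟩ : ∃ m, M = 2 * m + 1 := ⟨M / 2, by omega⟩
  obtain ⟨e, he⟩ : ∃ e, E = 2 * e := ⟨E / 2, by omega⟩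
  have hN4 : N % 4 = 1 := by
    have h1 : (N : ℤ) = 4 * (m ^ 2 + m + e ^ 2) + 1 := by rw [hN, hm, he]; ring
    omega
  have hNodd : Odd N := Nat.odd_iff.2 (by omega)
  have hd : Odd M.natAbs := Nat.odd_iff.2 (by omega)
  have hJN : jacobiSym (N : ℤ) M.natAbs = 1 := by
    have h1 : (N : ℤ) % (M.natAbs : ℤ) = E ^ 2 % (M.natAbs : ℤ) := by
      apply Int.ModEq.eq
      apply Int.ModEq.symm
      rw [Int.modEq_iff_dvd, hN, show M ^ 2 + E ^ 2 - E ^ 2 = M * M by ring]
      exact Dvd.dvd.mul_right (Int.natAbs_dvd.2 (dvd_refl M)) M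
    rw [jacobiSym.mod_left' h1]
    apply jacobiSym.sq_one'
    have e1 : Int.gcd E (M.natAbs : ℤ) = Int.gcd M E := by
      rw [Int.gcd_comm]
      simp [Int.gcd, Int.natAbs_abs]
    rw [e1, ← Int.isCoprime_iff_gcd_eq_one]
    exact hc
  have hJabs : jacobiSym (M.natAbs : ℤ) N = 1 := by
    rw [jacobiSym.quadratic_reciprocity_one_mod_four' hd hN4, hJN]
  rcases Int.natAbs_eq M with h1 | h1
  · rw [h1]
    exact hJabs
  · rw [h1, jacobiSym.neg _ hNodd, hJabs, mul_one, ZMod.χ₄_nat_one_mod_four hN4]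

/-- The symbol modulo an element of prime norm, first form. -/
theorem qs_split (h : IsGau O i) {p : ℕ} (hp : p.Prime) {c d : ℤ} (hN : nm c d = p)
    {x y : ℤ} (hD : ¬ (p : ℤ) ∣ x * d - y * c) (hc : c % 2 = 1) (hdd : d % 2 = 0) :
    qs ((x : O) + (y : O) * i) ((c : O) + (d : O) * i) = jacobiSym (x * c + y * d) p := by
  have hpZ : Prime (p : ℤ) := Nat.prime_iff_prime_int.1 hp
  have hcop : IsCoprime c d := isCoprime_of_nm hp hN
  have hJc : jacobiSym c p = 1 := jac_key c d p hc hdd hcop (by rw [← hN]; rfl)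
  have hpc : ¬ (p : ℤ) ∣ c := by
    intro hd
    have h1 : (p : ℤ) ∣ d ^ 2 := by
      obtain ⟨e, he⟩ := hd
      refine ⟨1 - c * e, ?_⟩
      unfold nm at hN
      linear_combination hN - c * he
    have h2 : (p : ℤ) ∣ d := hpZ.dvd_of_dvd_pow h1
    have h3 := hcop.isUnit_of_dvd' hd h2
    exact hpZ.not_unit h3
  have ha0 : ¬ (p : ℤ) ∣ x * c + y * d := by
    intro hh
    apply hD
    have h1 : (p : ℤ) ∣ (x * d - y * c) ^ 2 := by
      have e1 : (x * d - y * c) ^ 2 = nm x y * nm c d - (x * c + y * d) ^ 2 := by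
        unfold nm; ring
      rw [e1, hN]
      exact dvd_sub (Dvd.intro_left _ rfl) (dvd_pow hh (by norm_num))
    exact hpZ.dvd_of_dvd_pow h1
  have ha : ¬ (p : ℤ) ∣ (x * c + y * d) * c := by
    intro hh
    rcases hpZ.dvd_or_dvd hh with h1 | h1
    · exact ha0 h1
    · exact hpc h1
  have e0 : jacobiSym (x * c + y * d) p = jacobiSym ((x * c + y * d) * c) p := by
    rw [jacobiSym.mul_left, hJc, mul_one]
  rw [e0]
  obtain ⟨hj1, hj2⟩ := jac_one_iff hp ha
  refine qs_eq_of_iff _ _ _ hj1 ?_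
  rw [hj2]
  obtain ⟨u, v, huv⟩ : IsCoprime c (p : ℤ) := by
    rw [isCoprime_comm]
    exact (Prime.coprime_iff_not_dvd hpZ).2 hpc
  constructor
  · rintro ⟨z, hz⟩
    obtain ⟨e, f, rfl⟩ := h.span z
    -- `z ≡ n / c`, `n = e c + f d`
    refine ⟨e * c + f * d, ?_⟩
    have h1 : ((e : O) + (f : O) * i) ^ 2 - ((x : O) + (y : O) * i) =
        ((e * e - f * f - x : ℤ) : O) + ((e * f + f * e - y : ℤ) : O) * i := by
      rw [pow_two, h.mul_eq]
      push_cast
      ring
    rw [h1, h.dvd_split_iff hp hN] at hz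
    obtain ⟨k, hk⟩ := hz
    refine ⟨(e * e - f * f - x) - d * k + f ^ 2, ?_⟩
    unfold nm at hN
    linear_combination (-d) * hk + (f ^ 2 + (e * e - f * f - x)) * hN
  · rintro ⟨n, k, hk⟩
    refine ⟨((n * u : ℤ) : O), ?_⟩
    have h1 : (((n * u : ℤ) : O)) ^ 2 - ((x : O) + (y : O) * i) =
        (((n * u) ^ 2 - x : ℤ) : O) + ((-y : ℤ) : O) * i := by
      push_cast
      ring
    rw [h1, h.dvd_split_iff hp hN]
    have h2 : (p : ℤ) ∣ c ^ 2 * (((n * u) ^ 2 - x) * d - -y * c) := by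
      refine ⟨d * k - d * n ^ 2 * v * (u * c + 1) + y * c, ?_⟩
      unfold nm at hN
      linear_combination (d * n ^ 2 * (u * c + 1)) * huv + d * hk + (y * c) * hN
    rcases hpZ.dvd_or_dvd h2 with h3 | h3
    · exact absurd (hpZ.dvd_of_dvd_pow h3) hpc
    · exact h3

/-- `-1` is not a square modulo a prime `q ≡ 3 mod 4`. -/
theorem jac_neg_one_inert {q : ℕ} (h4 : q % 4 = 3) : jacobiSym (-1) q = -1 := by
  have ho : Odd q := Nat.odd_iff.2 (by omega)
  rw [jacobiSym.at_neg_one ho, ZMod.χ₄_nat_three_mod_four h4]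

/-- Modulo an inert prime every rational integer is a square. -/
theorem int_isSq_inert (h : IsGau O i) {q : ℕ} (hq : q.Prime) (h4 : q % 4 = 3) (T : ℤ) :
    ∃ u : O, ((q : ℤ) : O) ∣ u ^ 2 - (T : O) := by
  by_cases ht : (q : ℤ) ∣ T
  · obtain ⟨k, rfl⟩ := ht
    exact ⟨0, ((-k : ℤ) : O), by push_cast; ring⟩
  · obtain ⟨hT1, hT2⟩ := jac_one_iff hq ht
    rcases hT1 with h5 | h5
    · obtain ⟨r, k, hk⟩ := hT2.1 h5
      refine ⟨(r : O), (k : O), ?_⟩
      have := congrArg (fun t : ℤ => (t : O)) hk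
      push_cast at this
      rw [this]
      push_cast
      ring
    · have h6 : jacobiSym (-1 * T) q = 1 := by
        rw [jacobiSym.mul_left, jac_neg_one_inert h4, h5]; norm_num
      have h7 : ¬ (q : ℤ) ∣ -1 * T := by
        rw [neg_one_mul, dvd_neg]
        exact ht
      obtain ⟨r, k, hk⟩ := (jac_one_iff hq h7).2.1 h6
      -- `r² + T = q k`, `u = i r`
      refine ⟨i * (r : O), ((-k : ℤ) : O), ?_⟩
      have hk' := congrArg (fun t : ℤ => (t : O)) hk
      push_cast at hk' ⊢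
      rw [mul_pow, h.sq]
      linear_combination -hk'

/-- The symbol modulo an inert prime. -/
theorem qs_inert (h : IsGau O i) {q : ℕ} (hq : q.Prime) (h4 : q % 4 = 3)
    {x y : ℤ} (hD : ¬ (q : ℤ) ∣ nm x y) :
    qs ((x : O) + (y : O) * i) ((q : ℤ) : O) = jacobiSym (nm x y) q := by
  have hqZ : Prime (q : ℤ) := Nat.prime_iff_prime_int.1 hq
  obtain ⟨hj1, hj2⟩ := jac_one_iff hq hD
  refine qs_eq_of_iff _ _ _ hj1 ?_
  rw [hj2]
  have hdv : ∀ s t : ℤ, ((q : ℤ) : O) ∣ (s : O) + (t : O) * i ↔ (q : ℤ) ∣ s ∧ (q : ℤ) ∣ t :=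
    fun s t => h.int_dvd_iff _ s t
  constructor
  · rintro ⟨z, hz⟩
    obtain ⟨e, f, rfl⟩ := h.span z
    refine ⟨nm e f, ?_⟩
    have h1 : ((e : O) + (f : O) * i) ^ 2 - ((x : O) + (y : O) * i) =
        ((e * e - f * f - x : ℤ) : O) + ((e * f + f * e - y : ℤ) : O) * i := by
      rw [pow_two, h.mul_eq]
      push_cast
      ring
    rw [h1, hdv] at hz
    obtain ⟨⟨k, hk⟩, ⟨l, hl⟩⟩ := hz
    have h2 : nm e f ^ 2 = nm (e * e - f * f) (e * f + f * e) := by
      rw [nm_mul]; ring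
    rw [h2, show e * e - f * f = x + q * k by linarith,
      show e * f + f * e = y + q * l by linarith]
    refine ⟨2 * x * k + q * k ^ 2 + 2 * y * l + q * l ^ 2, ?_⟩
    unfold nm
    ring
  · rintro ⟨n, hn⟩
    have h2n : ¬ (q : ℤ) ∣ 2 := by
      intro hh
      have h8 := Int.le_of_dvd (by norm_num) hh
      have h9 := hq.two_le
      omega
    have hnn : ¬ (q : ℤ) ∣ n := by
      intro h5
      apply hD
      have h6 : (q : ℤ) ∣ n ^ 2 := dvd_pow h5 (by norm_num)
      have := dvd_sub h6 hn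
      rwa [sub_sub_cancel] at this
    -- choose the sign of `n`
    obtain ⟨m, hm, ht⟩ : ∃ m : ℤ, (q : ℤ) ∣ m ^ 2 - nm x y ∧ ¬ (q : ℤ) ∣ 2 * (x + m) := by
      by_cases hc : (q : ℤ) ∣ x + n
      · refine ⟨-n, ?_, ?_⟩
        · rw [neg_sq]; exact hn
        · intro hc2
          rcases hqZ.dvd_or_dvd hc2 with h3 | h3
          · exact h2n h3
          · have h5 : (q : ℤ) ∣ 2 * n := by
              have := dvd_sub hc h3
              rwa [show x + n - (x + -n) = 2 * n by ring] at this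
            rcases hqZ.dvd_or_dvd h5 with h6 | h6
            · exact h2n h6
            · exact hnn h6
      · refine ⟨n, hn, ?_⟩
        intro hc2
        rcases hqZ.dvd_or_dvd hc2 with h3 | h3
        · exact h2n h3
        · exact hc h3
    obtain ⟨T, hT⟩ : ∃ T : ℤ, T = 2 * (x + m) := ⟨_, rfl⟩
    rw [← hT] at ht
    -- `(α + m)² ≡ T α`
    have hsq : ((q : ℤ) : O) ∣ ((x : O) + (y : O) * i + (m : O)) ^ 2
        - (T : O) * ((x : O) + (y : O) * i) := by
      have e : ((x : O) + (y : O) * i + (m : O)) ^ 2 - (T : O) * ((x : O) + (y : O) * i) =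
          ((m ^ 2 - nm x y : ℤ) : O) := by
        rw [hT]
        unfold nm
        push_cast
        linear_combination ((y : O) ^ 2) * h.sq
      rw [e]
      obtain ⟨k, hk⟩ := hm
      rw [hk]
      exact ⟨(k : O), by push_cast; ring⟩
    -- `T` is a square modulo `q` in `O`
    obtain ⟨u, hu⟩ := int_isSq_inert h hq h4 T
    -- `u` is invertible modulo `q`
    obtain ⟨v, hv⟩ : ∃ v : O, ((q : ℤ) : O) ∣ u ^ 2 * v ^ 2 - 1 := by
      obtain ⟨a, b, hab⟩ : IsCoprime T (q : ℤ) := by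
        rw [isCoprime_comm]
        exact (Prime.coprime_iff_not_dvd hqZ).2 ht
      have hab' := congrArg (fun t : ℤ => (t : O)) hab
      push_cast at hab'
      obtain ⟨g, hg⟩ := hu
      push_cast at hg
      refine ⟨(a : O) * u, ⟨(u ^ 2 + T) * (a : O) ^ 2 * g - (b : O) * ((a : O) * T + 1), ?_⟩⟩
      push_cast
      linear_combination ((u ^ 2 + T) * (a : O) ^ 2) * hg + ((a : O) * T + 1) * hab'
    obtain ⟨g, hg⟩ := hsq
    obtain ⟨g2, hg2⟩ := hu
    obtain ⟨g3, hg3⟩ := hv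
    refine ⟨((x : O) + (y : O) * i + (m : O)) * v, ?_⟩
    refine ⟨v ^ 2 * g - v ^ 2 * ((x : O) + (y : O) * i) * g2 + ((x : O) + (y : O) * i) * g3, ?_⟩
    linear_combination v ^ 2 * hg - v ^ 2 * ((x : O) + (y : O) * i) * hg2
      + ((x : O) + (y : O) * i) * hg3

/-- An inert rational prime which divides a norm divides the element. -/
theorem inert_not_dvd_nm (h : IsGau O i) {q : ℕ} (hq : Prime ((q : ℤ) : O)) {x y : ℤ}
    (hn : ¬ ((q : ℤ) : O) ∣ (x : O) + (y : O) * i) : ¬ (q : ℤ) ∣ nm x y := by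
  rintro ⟨k, hk⟩
  have h1 : ((q : ℤ) : O) ∣ ((x : O) + (y : O) * i) * ((x : O) + ((-y : ℤ) : O) * i) := by
    rw [h.mul_conj, hk]
    exact ⟨(k : O), by push_cast; ring⟩
  rcases hq.dvd_or_dvd h1 with h2 | h2
  · exact hn h2
  · apply hn
    rw [h.int_dvd_iff] at h2 ⊢
    obtain ⟨h3, h4⟩ := h2
    rw [dvd_neg] at h4
    exact ⟨h3, h4⟩

/-- Uniform version: `β` an odd prime is `± q` inert. -/
theorem assoc_inert {c : ℤ} {q : ℕ} (hc : c = q ∨ c = -q) :
    Associated ((c : ℤ) : O) ((q : ℤ) : O) := by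
  rcases hc with rfl | rfl
  · exact Associated.refl _
  · push_cast
    exact Associated.neg_left (Associated.refl _)

/-- Both primes have prime norms. -/
theorem recip_split (h : IsGau O i) {x y c d : ℤ} {p q : ℕ} (hp : p.Prime) (hq : q.Prime)
    (hx : x % 2 = 1) (hy : y % 2 = 0) (hc : c % 2 = 1) (hd : d % 2 = 0)
    (hNβ : nm c d = p) (hNα : nm x y = q)
    (hD1 : ¬ (p : ℤ) ∣ x * d - y * c) (hD2 : ¬ (q : ℤ) ∣ x * d - y * c) :
    qs ((x : O) + (y : O) * i) ((c : O) + (d : O) * i) =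
      qs ((c : O) + (d : O) * i) ((x : O) + (y : O) * i) := by
  have hD2' : ¬ (q : ℤ) ∣ c * y - d * x := by
    intro hh
    apply hD2
    rw [← dvd_neg]
    rw [show -(x * d - y * c) = c * y - d * x by ring]
    exact hh
  rw [qs_split h hp hNβ hD1 hc hd, qs_split h hq hNα hD2' hx hy]
  rw [show c * x + d * y = x * c + y * d by ring]
  have k3 : jacobiSym (x * c + y * d) (p * q) = 1 := by
    have hprod : ((p * q : ℕ) : ℤ) = (x * c + y * d) ^ 2 + (x * d - y * c) ^ 2 := by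
      push_cast
      rw [← hNβ, ← hNα]
      unfold nm
      ring
    have hyd : (x * d - y * c) % 2 = 0 := by
      rw [Int.sub_emod, Int.mul_emod x d, Int.mul_emod y c, hd, hy]
      norm_num
    apply jac_key (x * c + y * d) (x * d - y * c) _ _ hyd _ hprod
    · rw [Int.add_emod, Int.mul_emod x c, Int.mul_emod y d, hx, hc, hy]
      norm_num
    · rw [Int.isCoprime_iff_gcd_eq_one]
      by_contra hg
      obtain ⟨l, hl, hld⟩ := Nat.exists_prime_and_dvd hg
      have g1 : (l : ℤ) ∣ (x * c + y * d) :=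
        (Int.natCast_dvd_natCast.2 hld).trans (Int.gcd_dvd_left _ _)
      have g2 : (l : ℤ) ∣ x * d - y * c :=
        (Int.natCast_dvd_natCast.2 hld).trans (Int.gcd_dvd_right _ _)
      have g3 : (l : ℤ) ∣ ((p * q : ℕ) : ℤ) := by
        rw [hprod]
        exact dvd_add (dvd_pow g1 (by norm_num)) (dvd_pow g2 (by norm_num))
      have g4 : l ∣ p * q := by exact_mod_cast g3
      rcases (Nat.Prime.dvd_mul hl).1 g4 with g6 | g6
      · rw [(Nat.prime_dvd_prime_iff_eq hl hp).1 g6] at g2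
        exact hD1 g2
      · rw [(Nat.prime_dvd_prime_iff_eq hl hq).1 g6] at g2
        exact hD2 g2
  rw [jacobiSym.mul_right' _ hp.ne_zero hq.ne_zero] at k3
  rcases Int.eq_one_or_neg_one_of_mul_eq_one k3 with h1 | h1
  · rw [h1, one_mul] at k3
    rw [h1, k3]
  · rw [h1] at k3
    rw [h1]
    omega

/-- `β = ± q` inert, `α` of prime norm. -/
theorem recip_mixed (h : IsGau O i) {x y c : ℤ} {p q : ℕ} (hp : p.Prime) (hq : q.Prime)
    (hp4 : p % 4 = 1) (hq4 : q % 4 = 3) (hx : x % 2 = 1) (hy : y % 2 = 0)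
    (hNα : nm x y = p) (hc : c = q ∨ c = -q) :
    qs ((x : O) + (y : O) * i) ((c : ℤ) : O) = qs ((c : ℤ) : O) ((x : O) + (y : O) * i) := by
  have hpq : p ≠ q := by
    rintro rfl
    omega
  have hpo : Odd p := Nat.odd_iff.2 (by omega)
  have hqo : Odd q := Nat.odd_iff.2 (by omega)
  have hpZ : Prime (p : ℤ) := Nat.prime_iff_prime_int.1 hp
  have hqp : ¬ (q : ℤ) ∣ (p : ℤ) := by
    intro hh
    have h1 : q ∣ p := by exact_mod_cast hh
    exact hpq ((Nat.prime_dvd_prime_iff_eq hq hp).1 h1).symm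
  have k1 : qs ((x : O) + (y : O) * i) ((c : ℤ) : O) = jacobiSym p q := by
    rw [qs_congr_right (assoc_inert hc), qs_inert h hq hq4 (by rw [hNα]; exact hqp), hNα]
  have hcop := isCoprime_of_nm hp hNα
  have hpx : ¬ (p : ℤ) ∣ x := by
    intro hd
    have h1 : (p : ℤ) ∣ y ^ 2 := by
      obtain ⟨e, he⟩ := hd
      refine ⟨1 - x * e, ?_⟩
      unfold nm at hNα
      linear_combination hNα - x * he
    have h2 : (p : ℤ) ∣ y := hpZ.dvd_of_dvd_pow h1
    exact hpZ.not_unit (hcop.isUnit_of_dvd' hd h2)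
  have hpy : ¬ (p : ℤ) ∣ y := by
    intro hd
    have h1 : (p : ℤ) ∣ x ^ 2 := by
      obtain ⟨e, he⟩ := hd
      refine ⟨1 - y * e, ?_⟩
      unfold nm at hNα
      linear_combination hNα - y * he
    exact hpx (hpZ.dvd_of_dvd_pow h1)
  have hcp : ¬ (p : ℤ) ∣ c := by
    intro hh
    have h1 : (p : ℤ) ∣ (q : ℤ) := by
      rcases hc with h1 | h1
      · rw [← h1]; exact hh
      · rw [h1, dvd_neg] at hh; exact hh
    have h2 : p ∣ q := by exact_mod_cast h1
    exact hpq ((Nat.prime_dvd_prime_iff_eq hp hq).1 h2)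
  have hJx : jacobiSym x p = 1 := jac_key x y p hx hy hcop (by rw [← hNα]; rfl)
  have k2 : qs ((c : ℤ) : O) ((x : O) + (y : O) * i) = jacobiSym c p := by
    have e : ((c : ℤ) : O) = (c : O) + ((0 : ℤ) : O) * i := by simp
    rw [e, qs_split h hp hNα _ hx hy]
    · rw [show c * x + 0 * y = c * x by ring, jacobiSym.mul_left, hJx, mul_one]
    · intro hh
      rw [show c * y - 0 * x = c * y by ring] at hh
      rcases hpZ.dvd_or_dvd hh with h1 | h1
      · exact hcp h1
      · exact hpy h1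
  have k3 : jacobiSym c p = jacobiSym q p := by
    rcases hc with h1 | h1
    · rw [h1]
    · rw [h1, jacobiSym.neg _ hpo, ZMod.χ₄_nat_one_mod_four hp4, one_mul]
  rw [k1, k2, k3, jacobiSym.quadratic_reciprocity_one_mod_four hp4 hqo]

/-- **Quadratic reciprocity in `ℤ[i]`**, for primes `c + d i`, `c` odd, `d` even. -/
theorem recip (h : IsGau O i) {x y c d : ℤ}
    (hx : x % 2 = 1) (hy : y % 2 = 0) (hc : c % 2 = 1) (hd : d % 2 = 0)
    (hα : Prime ((x : O) + (y : O) * i)) (hβ : Prime ((c : O) + (d : O) * i))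
    (hne : ¬ Associated ((x : O) + (y : O) * i) ((c : O) + (d : O) * i)) :
    qs ((x : O) + (y : O) * i) ((c : O) + (d : O) * i) =
      qs ((c : O) + (d : O) * i) ((x : O) + (y : O) * i) := by
  have hab : ¬ ((x : O) + (y : O) * i) ∣ ((c : O) + (d : O) * i) :=
    fun hd => hne (h.assoc_of_dvd hα hβ hd)
  have hba : ¬ ((c : O) + (d : O) * i) ∣ ((x : O) + (y : O) * i) :=
    fun hd => hne (h.assoc_of_dvd hβ hα hd).symm
  have zero_i : ∀ n : ℤ, (n : O) + ((0 : ℤ) : O) * i = (n : O) := by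
    intro n; simp
  rcases prime_cases h hα hx hy with ⟨p', hp', hNα, hp'4⟩ | ⟨q', hq', hq'4, hc', hd'⟩
  · rcases prime_cases h hβ hc hd with ⟨p, hp, hNβ, hp4⟩ | ⟨q, hq, hq4, hcq, hdq⟩
    · refine recip_split h hp hp' hx hy hc hd hNβ hNα ?_ ?_
      · intro hh
        exact hba ((h.dvd_split_iff hp hNβ _ _).2 hh)
      · intro hh
        apply hab
        rw [h.dvd_split_iff hp' hNα, ← dvd_neg]
        rw [show -(c * y - d * x) = x * d - y * c by ring]
        exact hh
    · subst hdq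
      rw [zero_i]
      exact recip_mixed h hp' hq hp'4 hq4 hx hy hNα hcq
  · subst hd'
    rw [zero_i]
    rcases prime_cases h hβ hc hd with ⟨p, hp, hNβ, hp4⟩ | ⟨q, hq, hq4, hcq, hdq⟩
    · exact (recip_mixed h hp hq' hp4 hq'4 hc hd hNβ hc').symm
    · subst hdq
      rw [zero_i]
      have e1 : qs ((x : ℤ) : O) ((c : ℤ) : O) = 1 := by
        rw [qs_congr_right (assoc_inert hcq), qs_eq_one_iff]
        exact int_isSq_inert h hq hq4 x
      have e2 : qs ((c : ℤ) : O) ((x : ℤ) : O) = 1 := by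
        rw [qs_congr_right (assoc_inert hc'), qs_eq_one_iff]
        exact int_isSq_inert h hq' hq'4 c
      rw [e1, e2]

/-- A prime norm does not divide the coordinates. -/
theorem not_dvd_coord {p : ℕ} (hp : p.Prime) {c d : ℤ} (hN : nm c d = p) :
    ¬ (p : ℤ) ∣ c ∧ ¬ (p : ℤ) ∣ d := by
  have hpZ : Prime (p : ℤ) := Nat.prime_iff_prime_int.1 hp
  have hcop := isCoprime_of_nm hp hN
  constructor
  · intro hd
    have h1 : (p : ℤ) ∣ d ^ 2 := by
      obtain ⟨e, he⟩ := hd
      refine ⟨1 - c * e, ?_⟩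
      unfold nm at hN
      linear_combination hN - c * he
    exact hpZ.not_unit (hcop.isUnit_of_dvd' hd (hpZ.dvd_of_dvd_pow h1))
  · intro hd
    have h1 : (p : ℤ) ∣ c ^ 2 := by
      obtain ⟨e, he⟩ := hd
      refine ⟨1 - d * e, ?_⟩
      unfold nm at hN
      linear_combination hN - d * he
    exact hpZ.not_unit (hcop.isUnit_of_dvd' (hpZ.dvd_of_dvd_pow h1) hd)

/-- The symbol `(d / p)` for `p = c² + d²`. -/
theorem jac_snd {p : ℕ} (hp : p.Prime) {c d : ℤ} (hc : c % 2 = 1) (hd : d % 2 = 0)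
    (hN : nm c d = p) : jacobiSym d p = if d % 4 = 0 then 1 else -1 := by
  have hpZ : Prime (p : ℤ) := Nat.prime_iff_prime_int.1 hp
  have hcop := isCoprime_of_nm hp hN
  obtain ⟨hpc, hpd⟩ := not_dvd_coord hp hN
  have hJc : jacobiSym c p = 1 := jac_key c d p hc hd hcop (by rw [← hN]; rfl)
  have hcd : ¬ (p : ℤ) ∣ c + d := by
    intro hh
    have h1 : (p : ℤ) ∣ 2 * (c * d) := by
      obtain ⟨e, he⟩ := hh
      refine ⟨(c + d) * e - 1, ?_⟩
      unfold nm at hN
      linear_combination (c + d) * he - hN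
    rcases hpZ.dvd_or_dvd h1 with h2 | h2
    · have h3 := Int.le_of_dvd (by norm_num) h2
      have h4 := hp.two_le
      have h5 : p = 2 := by omega
      have h6 : nm c d % 2 = 1 := by
        unfold nm
        rw [Int.add_emod, pow_two, pow_two, Int.mul_emod, Int.mul_emod d, hc, hd]
        norm_num
      rw [hN, h5] at h6
      norm_num at h6
    · rcases hpZ.dvd_or_dvd h2 with h3 | h3
      · exact hpc h3
      · exact hpd h3
  have hodd : Odd p := by
    have h6 : nm c d % 2 = 1 := by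
      unfold nm
      rw [Int.add_emod, pow_two, pow_two, Int.mul_emod, Int.mul_emod d, hc, hd]
      norm_num
    rw [hN] at h6
    exact Nat.odd_iff.2 (by omega)
  have h1 : jacobiSym (2 * (c * d)) p = 1 := by
    have e1 : (2 * (c * d)) % (p : ℤ) = (c + d) ^ 2 % (p : ℤ) := by
      apply Int.ModEq.eq
      rw [Int.modEq_iff_dvd]
      refine ⟨1, ?_⟩
      unfold nm at hN
      linear_combination hN
    rw [jacobiSym.mod_left' e1]
    apply jacobiSym.sq_one'
    rw [← Int.isCoprime_iff_gcd_eq_one, isCoprime_comm]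
    exact (Prime.coprime_iff_not_dvd hpZ).2 hcd
  rw [jacobiSym.mul_left, jacobiSym.mul_left, hJc, one_mul, jacobiSym.at_two hodd] at h1
  have h8 : p % 8 = 1 ↔ d % 4 = 0 := by
    obtain ⟨m, rfl⟩ : ∃ m, c = 2 * m + 1 := ⟨c / 2, by omega⟩
    have hm : (m * (m + 1)) % 2 = 0 := Int.even_iff.1 (Int.even_mul_succ_self m)
    obtain ⟨r, hr⟩ : ∃ r, m * (m + 1) = 2 * r := ⟨m * (m + 1) / 2, by omega⟩
    obtain ⟨e, rfl⟩ : ∃ e, d = 2 * e := ⟨d / 2, by omega⟩
    have h2 : (p : ℤ) = 8 * r + 1 + 4 * (e * e) := by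
      rw [← hN]
      unfold nm
      linear_combination 4 * hr
    rcases Int.emod_two_eq_zero_or_one e with he | he
    · have h3 : (e * e) % 2 = 0 := by rw [Int.mul_emod, he]; norm_num
      omega
    · have h3 : (e * e) % 2 = 1 := by rw [Int.mul_emod, he]; norm_num
      omega
  have h4 : p % 4 = 1 := by
    obtain ⟨m, rfl⟩ : ∃ m, c = 2 * m + 1 := ⟨c / 2, by omega⟩
    obtain ⟨e, rfl⟩ : ∃ e, d = 2 * e := ⟨d / 2, by omega⟩
    have h2 : (p : ℤ) = 4 * (m * m + m + e * e) + 1 := by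
      rw [← hN]
      unfold nm
      ring
    omega
  rw [ZMod.χ₈_nat_eq_if_mod_eight, if_neg (by omega)] at h1
  by_cases hd4 : d % 4 = 0
  · rw [if_pos hd4]
    rwa [if_pos (Or.inl (h8.2 hd4)), one_mul] at h1
  · rw [if_neg hd4]
    rw [if_neg (by
      have h9 : ¬ p % 8 = 1 := fun h => hd4 (h8.1 h)
      omega)] at h1
    omega

/-- The symbol `(c + d / p)` for `p = c² + d²`. -/
theorem jac_sum {p : ℕ} (hp : p.Prime) {c d : ℤ} (hc : c % 2 = 1) (hd : d % 2 = 0)
    (hN : nm c d = p) :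
    jacobiSym (c + d) p = if (c + d) % 8 = 1 ∨ (c + d) % 8 = 7 then 1 else -1 := by
  have hpZ : Prime (p : ℤ) := Nat.prime_iff_prime_int.1 hp
  have hcop := isCoprime_of_nm hp hN
  have h4 : p % 4 = 1 := by
    obtain ⟨m, rfl⟩ : ∃ m, c = 2 * m + 1 := ⟨c / 2, by omega⟩
    obtain ⟨e, rfl⟩ : ∃ e, d = 2 * e := ⟨d / 2, by omega⟩
    have h2 : (p : ℤ) = 4 * (m * m + m + e * e) + 1 := by
      rw [← hN]
      unfold nm
      ring
    omega
  have hodd : Odd p := Nat.odd_iff.2 (by omega)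
  obtain ⟨M, hM⟩ : ∃ M, M = c + d := ⟨_, rfl⟩
  rw [← hM]
  have hM2 : M % 2 = 1 := by omega
  have hMo : Odd M.natAbs := Nat.odd_iff.2 (by omega)
  have e1 : jacobiSym M p = jacobiSym (M.natAbs : ℤ) p := by
    rcases Int.natAbs_eq M with h1 | h1
    · rw [← h1]
    · conv_lhs => rw [h1]
      rw [jacobiSym.neg _ hodd, ZMod.χ₄_nat_one_mod_four h4, one_mul]
  have e2 : jacobiSym (M.natAbs : ℤ) p = jacobiSym p M.natAbs := by
    rw [jacobiSym.quadratic_reciprocity_one_mod_four' hMo h4]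
  have e3 : jacobiSym (2 * (p : ℤ)) M.natAbs = 1 := by
    have e4 : (2 * (p : ℤ)) % (M.natAbs : ℤ) = (c - d) ^ 2 % (M.natAbs : ℤ) := by
      apply Int.ModEq.eq
      apply Int.ModEq.symm
      rw [Int.modEq_iff_dvd]
      have e5 : 2 * (p : ℤ) - (c - d) ^ 2 = M * M := by
        rw [← hN, hM]
        unfold nm
        ring
      rw [e5]
      exact Dvd.dvd.mul_right (Int.natAbs_dvd.2 (dvd_refl M)) M
    rw [jacobiSym.mod_left' e4]
    apply jacobiSym.sq_one'
    have e6 : Int.gcd (c - d) (M.natAbs : ℤ) = Int.gcd (c - d) M := by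
      simp [Int.gcd, Int.natAbs_abs]
    rw [e6]
    by_contra hg
    obtain ⟨l, hl, hld⟩ := Nat.exists_prime_and_dvd hg
    have g1 : (l : ℤ) ∣ (c - d) :=
      (Int.natCast_dvd_natCast.2 hld).trans (Int.gcd_dvd_left _ _)
    have g2 : (l : ℤ) ∣ M :=
      (Int.natCast_dvd_natCast.2 hld).trans (Int.gcd_dvd_right _ _)
    rw [hM] at g2
    have hlZ : Prime (l : ℤ) := Nat.prime_iff_prime_int.1 hl
    have hl2 : ¬ (l : ℤ) ∣ 2 := by
      intro hh
      have h5 := Int.le_of_dvd (by norm_num) hh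
      have h6 := hl.two_le
      have h7 : l = 2 := by omega
      subst h7
      rw [← hM] at g2
      push_cast at g2
      omega
    have g3 : (l : ℤ) ∣ c := by
      have h5 := dvd_add g1 g2
      rw [show c - d + (c + d) = 2 * c by ring] at h5
      exact (hlZ.dvd_or_dvd h5).resolve_left hl2
    have g4 : (l : ℤ) ∣ d := by
      have h5 := dvd_sub g2 g1
      rw [show c + d - (c - d) = 2 * d by ring] at h5
      exact (hlZ.dvd_or_dvd h5).resolve_left hl2
    exact hlZ.not_unit (hcop.isUnit_of_dvd' g3 g4)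
  rw [jacobiSym.mul_left, jacobiSym.at_two hMo, ← e2, ← e1, ZMod.χ₈_nat_eq_if_mod_eight,
    if_neg (by omega)] at e3
  by_cases hh : M % 8 = 1 ∨ M % 8 = 7
  · rw [if_pos hh]
    rwa [if_pos (by omega), one_mul] at e3
  · rw [if_neg hh]
    rw [if_neg (by omega)] at e3
    omega

/-- The symbol of `i`. -/
theorem qs_i (h : IsGau O i) {c d : ℤ} (hc : c % 2 = 1) (hd : d % 2 = 0)
    (hβ : Prime ((c : O) + (d : O) * i)) :
    qs i ((c : O) + (d : O) * i) = if d % 4 = 0 then 1 else -1 := by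
  have ei : i = ((0 : ℤ) : O) + ((1 : ℤ) : O) * i := by simp
  rcases prime_cases h hβ hc hd with ⟨p, hp, hNβ, hp4⟩ | ⟨q, hq, hq4, hcq, hdq⟩
  · have hnd : ¬ (p : ℤ) ∣ 0 * d - 1 * c := by
      rw [show 0 * d - 1 * c = -c by ring, dvd_neg]
      exact (not_dvd_coord hp hNβ).1
    have e := qs_split h hp hNβ hnd hc hd
    rw [← ei] at e
    rw [e, show 0 * c + 1 * d = d by ring, jac_snd hp hc hd hNβ]
  · subst hdq
    have e1 : (c : O) + ((0 : ℤ) : O) * i = (c : O) := by simp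
    rw [e1, qs_congr_right (assoc_inert hcq)]
    have h1 : nm 0 1 = 1 := by norm_num [nm]
    have hnd : ¬ (q : ℤ) ∣ nm 0 1 := by
      rw [h1]
      intro hh
      have h3 := Int.le_of_dvd (by norm_num) hh
      have h4 := hq.two_le
      omega
    have e := qs_inert h hq hq4 hnd
    rw [← ei] at e
    rw [e, h1, jacobiSym.one_left]
    simp

/-- The symbol of `1 + i`. -/
theorem qs_lam (h : IsGau O i) {c d : ℤ} (hc : c % 2 = 1) (hd : d % 2 = 0)
    (hβ : Prime ((c : O) + (d : O) * i)) :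
    qs (1 + i) ((c : O) + (d : O) * i) = if (c + d) % 8 = 1 ∨ (c + d) % 8 = 7 then 1 else -1 := by
  have ei : 1 + i = ((1 : ℤ) : O) + ((1 : ℤ) : O) * i := by simp
  rcases prime_cases h hβ hc hd with ⟨p, hp, hNβ, hp4⟩ | ⟨q, hq, hq4, hcq, hdq⟩
  · have hpZ : Prime (p : ℤ) := Nat.prime_iff_prime_int.1 hp
    have hnd : ¬ (p : ℤ) ∣ 1 * d - 1 * c := by
      intro hh
      have h1 : (p : ℤ) ∣ 2 * (c * d) := by
        obtain ⟨e, he⟩ := hh
        refine ⟨1 - (d - c) * e, ?_⟩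
        unfold nm at hNβ
        linear_combination hNβ - (d - c) * he
      obtain ⟨hpc, hpd⟩ := not_dvd_coord hp hNβ
      rcases hpZ.dvd_or_dvd h1 with h2 | h2
      · have h3 := Int.le_of_dvd (by norm_num) h2
        have h4 := hp.two_le
        omega
      · rcases hpZ.dvd_or_dvd h2 with h3 | h3
        · exact hpc h3
        · exact hpd h3
    have e := qs_split h hp hNβ hnd hc hd
    rw [← ei] at e
    rw [e, show 1 * c + 1 * d = c + d by ring, jac_sum hp hc hd hNβ]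
  · subst hdq
    have e1 : (c : O) + ((0 : ℤ) : O) * i = (c : O) := by simp
    rw [e1, qs_congr_right (assoc_inert hcq)]
    have h1 : nm 1 1 = 2 := by norm_num [nm]
    have hnd : ¬ (q : ℤ) ∣ nm 1 1 := by
      rw [h1]
      intro hh
      have h3 := Int.le_of_dvd (by norm_num) hh
      have h4 := hq.two_le
      omega
    have e := qs_inert h hq hq4 hnd
    rw [← ei] at e
    have hodd : Odd q := Nat.odd_iff.2 (by omega)
    rw [e, h1, jacobiSym.at_two hodd, ZMod.χ₈_nat_eq_if_mod_eight, if_neg (by omega)]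
    by_cases hh : (c + 0) % 8 = 1 ∨ (c + 0) % 8 = 7
    · rw [if_pos hh, if_pos (by omega)]
    · rw [if_neg hh, if_neg (by omega)]

end Pool.Agent.Lib.MP_1a91b9_ntQ.Sy
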